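import Pool.Agent.WLP.NB

/-! The caps of the natural truncation contain no other face than their vertex. -/

set_option autoImplicit false

open scoped BigOperators RealInnerProductSpace

namespace WLP

noncomputable section

open Classical

open Pool.Agent.KST

/-- the end of the ray from `w` through `x` -/
theorem nb_exit {α : Type} [Fintype α] {d : ℕ} (a : α → E d) (hb : Bornology.IsBounded (Pol a))
    {x u : E d} (hx : x ∈ Pol a) (hu : u ≠ 0) :
    ∃ t : ℝ, 0 ≤ t ∧ x + t • u ∈ Pol a ∧ ∃ i, |⟪a i, x + t • u⟫| = 1 ∧ ⟪a i, u⟫ ≠ 0 := by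
  have hcont : Continuous fun t : ℝ => x + t • u := by fun_prop
  have hclosed : IsClosed (Pol a) := by
    have : Pol a = ⋂ i, {x | |⟪a i, x⟫| ≤ 1} := by
      ext x
      simp [Pol]
    rw [this]
    exact isClosed_iInter fun i => isClosed_le (by fun_prop) continuous_const
  have hn : 0 < ‖u‖ := norm_pos_iff.2 hu
  obtain ⟨r, hr⟩ := hb.exists_norm_le
  set T : Set ℝ := {t | 0 ≤ t ∧ x + t • u ∈ Pol a} with hT
  have hTc : IsClosed T := by
    have : T = Set.Ici 0 ∩ (fun t : ℝ => x + t • u) ⁻¹' (Pol a) := by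
      ext t
      simp [hT]
    rw [this]
    exact isClosed_Ici.inter (hclosed.preimage hcont)
  have hTb : BddAbove T := by
    refine ⟨(r + ‖x‖) / ‖u‖, ?_⟩
    rintro t ⟨ht, htP⟩
    rw [le_div_iff₀ hn]
    have h1 := hr _ htP
    have h2 : ‖t • u‖ ≤ ‖x + t • u‖ + ‖x‖ := by
      calc ‖t • u‖ = ‖(x + t • u) - x‖ := by rw [add_sub_cancel_left]
        _ ≤ ‖x + t • u‖ + ‖x‖ := norm_sub_le _ _
    rw [norm_smul, Real.norm_eq_abs, abs_of_nonneg ht] at h2
    linarith
  have h0 : (0 : ℝ) ∈ T := ⟨le_rfl, by rwa [zero_smul, add_zero]⟩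
  have hmem : sSup T ∈ T := hTc.csSup_mem ⟨0, h0⟩ hTb
  refine ⟨sSup T, hmem.1, hmem.2, ?_⟩
  by_contra hcon
  push Not at hcon
  set y := x + sSup T • u with hy
  have hev : ∀ᶠ ε in nhds (0 : ℝ), ∀ i, |⟪a i, y + ε • u⟫| ≤ 1 := by
    rw [Filter.eventually_all]
    intro i
    by_cases h : |⟪a i, y⟫| = 1
    · refine Filter.Eventually.of_forall fun ε => ?_
      rw [inner_add_right, real_inner_smul_right, hcon i h, mul_zero, add_zero, h]
    · have hlt : |⟪a i, y⟫| < 1 := lt_of_le_of_ne (hmem.2 i) h
      have hcont : Continuous fun ε : ℝ => |⟪a i, y + ε • u⟫| := by fun_prop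
      have h1 : ∀ᶠ ε in nhds (0 : ℝ), |⟪a i, y + ε • u⟫| < 1 := by
        apply hcont.continuousAt.eventually_lt continuousAt_const
        simpa using hlt
      filter_upwards [h1] with ε hε using hε.le
  rw [Metric.eventually_nhds_iff] at hev
  obtain ⟨δ, hδ, hball⟩ := hev
  have h1 : y + (δ / 2) • u ∈ Pol a := hball (y := δ / 2) (by
    rw [dist_zero_right, Real.norm_eq_abs, abs_of_pos (by linarith)]
    linarith)
  have h2 : sSup T + δ / 2 ∈ T := by
    refine ⟨by linarith [hmem.1], ?_⟩
    have h3 : x + (sSup T + δ / 2) • u = y + (δ / 2) • u := by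
      rw [hy, add_smul, add_assoc]
    rw [h3]
    exact h1
  have h3 := le_csSup hTb h2
  linarith

/-- a cap in which every tight constraint is tight at the vertex contains only the vertex -/
theorem nb_inside {α β : Type} [Fintype α] [Fintype β] {d : ℕ} (a : α → E d)
    (hb : Bornology.IsBounded (Pol a)) (g vv : β → E d)
    (hcap : ∀ j (s : SignType) x, x ∈ Pol a → 1 ≤ ((s : SignType) : ℝ) * ⟪g j, x⟫ →
        s ≠ 0 ∧ ((s : SignType) : ℝ) • vv j ∈ n1NS a ∧
        ∀ i, |⟪a i, x⟫| = 1 → ⟪a i, ((s : SignType) : ℝ) • vv j⟫ = ⟪a i, x⟫)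
    (j : β) (s : SignType) : (Inside a g j s).card ≤ 1 := by
  set w : E d := ((s : SignType) : ℝ) • vv j with hw
  have hkey : ∀ c ∈ Inside a g j s, IsCell a c w := by
    intro c hc
    obtain ⟨hc1, hc2⟩ := Finset.mem_filter.1 hc
    obtain ⟨x, hx⟩ := mem_cells.1 hc1
    have hxP : x ∈ Pol a := isCell_pol hx
    have hx1 := hc2 x hx
    obtain ⟨-, -, hti⟩ := hcap j s x hxP hx1.le
    by_cases hxw : x = w
    · rw [← hxw]; exact hx
    exfalso
    have hu : x - w ≠ 0 := sub_ne_zero.2 hxw
    obtain ⟨t, ht0, htP, i, hi1, hi2⟩ := nb_exit a hb hxP hu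
    set y := x + t • (x - w) with hy
    have hφy : ((s : SignType) : ℝ) * ⟪g j, y⟫ < 1 := by
      by_contra hcon
      push Not at hcon
      obtain ⟨-, -, h3⟩ := hcap j s y htP hcon
      have h4 := h3 i hi1
      apply hi2
      have h5 : ⟪a i, y⟫ = ⟪a i, w⟫ + (1 + t) * ⟪a i, x - w⟫ := by
        rw [hy, inner_add_right, real_inner_smul_right, inner_sub_right]
        ring
      have h6 : (1 + t) * ⟪a i, x - w⟫ = 0 := by linarith
      rcases mul_eq_zero.1 h6 with h7 | h7
      · linarith
      · exact h7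
    have hφ : ∀ τ : ℝ, ((s : SignType) : ℝ) * ⟪g j, x + τ • (x - w)⟫ =
        ((s : SignType) : ℝ) * ⟪g j, x⟫ + τ * (((s : SignType) : ℝ) * ⟪g j, x - w⟫) := by
      intro τ
      rw [inner_add_right, real_inner_smul_right]
      ring
    set p := ((s : SignType) : ℝ) * ⟪g j, x⟫ with hp
    set q := ((s : SignType) : ℝ) * ⟪g j, x - w⟫ with hq
    have hyq : p + t * q < 1 := by
      rw [← hφ t]
      exact hφy
    have hq0 : q < 0 := by
      by_contra h
      push Not at h
      have := mul_nonneg ht0 h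
      linarith
    -- the point with value one
    set τ := (p - 1) / (-q) with hτ
    have hτ0 : 0 < τ := div_pos (by linarith) (by linarith)
    have hτ1 : τ < t := by
      rw [hτ, div_lt_iff₀ (by linarith)]
      linarith
    have ht1 : 0 < t := lt_trans hτ0 hτ1
    have hτq : p + τ * q = 1 := by
      have h1 : τ * (-q) = p - 1 := div_mul_cancel₀ _ (by linarith)
      linarith
    have hcell : IsCell a c (x + τ • (x - w)) := by
      intro i
      have hlin : ⟪a i, x + τ • (x - w)⟫ = (1 - τ / t) * ⟪a i, x⟫ + (τ / t) * ⟪a i, y⟫ := by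
        rw [hy, inner_add_right, inner_add_right, real_inner_smul_right, real_inner_smul_right]
        field_simp
        ring
      constructor
      · intro h0
        have h1 := (hx i).1 h0
        have h2 := htP i
        rw [hlin]
        have h3 : 0 < 1 - τ / t := by
          rw [sub_pos, div_lt_one ht1]
          exact hτ1
        have h4 : 0 ≤ τ / t := by positivity
        calc |(1 - τ / t) * ⟪a i, x⟫ + (τ / t) * ⟪a i, y⟫|
            ≤ |(1 - τ / t) * ⟪a i, x⟫| + |(τ / t) * ⟪a i, y⟫| := abs_add_le _ _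
          _ = (1 - τ / t) * |⟪a i, x⟫| + (τ / t) * |⟪a i, y⟫| := by
              rw [abs_mul, abs_mul, abs_of_pos h3, abs_of_nonneg h4]
          _ < (1 - τ / t) * 1 + (τ / t) * 1 := by
              have h5 := mul_lt_mul_of_pos_left h1 h3
              have h6 := mul_le_mul_of_nonneg_left h2 h4
              linarith
          _ = 1 := by ring
      · intro h0
        have h1 := (hx i).2 h0
        have h2 : |⟪a i, x⟫| = 1 := by
          rw [h1]
          exact G0_abs_cast h0
        have h3 := hti i h2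
        rw [inner_add_right, real_inner_smul_right, inner_sub_right, h3, sub_self, mul_zero,
          add_zero, h1]
    have h9 := hc2 _ hcell
    rw [hφ τ, hτq] at h9
    exact lt_irrefl _ h9
  rw [Finset.card_le_one]
  intro c hc c' hc'
  exact isCell_inj (hkey c hc) (hkey c' hc')

/-- the natural truncation, with the information on the faces inside the caps -/
theorem nat_hypB2 {α : Type} [Fintype α] {d : ℕ} (a : α → E d) (hb : Bornology.IsBounded (Pol a))
    (hns : ∀ x ∈ Pol a, ¬ LinearIndependent ℝ (fun i : {i : α // |⟪a i, x⟫| = 1} => a i.1) →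
      x ∈ Set.extremePoints ℝ (Pol a)) :
    ∃ (r : ℕ) (g : Fin r → E d), HypB a g ∧
      (∀ j, ∃ t ∈ Cells (Sum.elim a g), t (Sum.inr j) = 1) ∧
      (∀ (j : Fin r) (s : SignType), s ≠ 0 → (Inside a g j s).card ≤ 1) ∧
      (Set.extremePoints ℝ (Pol a)).ncard ≤
        ((Verts (Sum.elim a g)).filter (fun v => ∀ j, v (Sum.inr j) = 0)).card + 2 * r := by
  have hmono : ∀ v ∈ n1NS a, ∀ x ∈ Pol a, (∀ i, |⟪a i, v⟫| = 1 → ⟪a i, x⟫ = ⟪a i, v⟫) →
      x = v := by
    intro v hv x hx h
    have h1 := nb_ext a (hns v hv.1 hv.2) (x - v) (fun i hi => by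
      rw [inner_sub_right, h i hi, sub_self])
    exact sub_eq_zero.1 h1
  obtain ⟨r, g, vv, hsimple, hdisj, hcap, hrep, hgv, hvN⟩ := nb_core a hb hmono
  refine ⟨r, g, ⟨hsimple, hdisj, ?_⟩, ?_, fun j s _ => nb_inside a hb g vv hcap j s, ?_⟩
  · intro j x hx y hy hgx hgy i hix hiy
    obtain ⟨-, -, h1⟩ := hcap j 1 x hx (by rw [SignType.coe_one, one_mul]; exact hgx)
    obtain ⟨-, -, h2⟩ := hcap j 1 y hy (by rw [SignType.coe_one, one_mul]; exact hgy)
    rw [← h1 i hix, ← h2 i hiy]
  · intro j
    have hpos : 0 < ⟪g j, vv j⟫ := by linarith [hgv j]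
    set y : E d := (1 / ⟪g j, vv j⟫) • vv j with hy
    have hyj : ⟪g j, y⟫ = 1 := by
      rw [hy, real_inner_smul_right]
      field_simp
    have hyP : y ∈ Pol a := by
      intro i
      rw [hy, real_inner_smul_right, abs_mul, abs_of_pos (by positivity)]
      have h1 := (hvN j).1 i
      have h2 : 1 / ⟪g j, vv j⟫ ≤ 1 := by
        rw [div_le_one hpos]
        exact (hgv j).le
      calc 1 / ⟪g j, vv j⟫ * |⟪a i, vv j⟫| ≤ 1 * 1 :=
            mul_le_mul h2 h1 (abs_nonneg _) zero_le_one
        _ = 1 := one_mul 1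
    have hyP' : y ∈ Pol (Sum.elim a g) := by
      intro l
      rcases l with i | k
      · exact hyP i
      · show |⟪g k, y⟫| ≤ 1
        by_contra hcon
        push Not at hcon
        have hex : ∃ t : SignType, 1 ≤ ((t : SignType) : ℝ) * ⟪g k, y⟫ := by
          rcases le_abs'.1 hcon.le with h3 | h3
          · refine ⟨-1, ?_⟩
            rw [SignType.coe_neg_one]
            linarith
          · refine ⟨1, ?_⟩
            rw [SignType.coe_one]
            linarith
        obtain ⟨t, ht⟩ := hex
        obtain ⟨h1, -⟩ := hdisj y hyP k j t 1 ht (by rw [SignType.coe_one, one_mul, hyj])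
        rw [h1, hyj, abs_one] at hcon
        exact lt_irrefl _ hcon
    obtain ⟨t, ht⟩ := exists_cell hyP'
    refine ⟨t, mem_cells.2 ⟨y, ht⟩, ?_⟩
    have h1 : t (Sum.inr j) ≠ 0 := by
      intro h0
      have h2 := (ht (Sum.inr j)).1 h0
      change |⟪g j, y⟫| < 1 at h2
      rw [hyj, abs_one] at h2
      exact lt_irrefl _ h2
    have h2 := (ht (Sum.inr j)).2 h1
    change ⟪g j, y⟫ = _ at h2
    rw [hyj] at h2
    apply n1_coe
    rw [← h2, SignType.coe_one]
  · -- the vertices
    set A1 : Set (E d) := {x | x ∈ Set.extremePoints ℝ (Pol a) ∧ x ∉ n1NS a} with hA1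
    -- a simple vertex is outside the caps
    have hout : ∀ x ∈ A1, ∀ j, |⟪g j, x⟫| < 1 := by
      rintro x ⟨hx, hxN⟩ j
      by_contra hcon
      push Not at hcon
      have hex : ∃ t : SignType, 1 ≤ ((t : SignType) : ℝ) * ⟪g j, x⟫ := by
        rcases le_abs'.1 hcon with h3 | h3
        · refine ⟨-1, ?_⟩
          rw [SignType.coe_neg_one]
          linarith
        · refine ⟨1, ?_⟩
          rw [SignType.coe_one]
          linarith
      obtain ⟨t, ht⟩ := hex
      obtain ⟨-, h1, h2⟩ := hcap j t x (extremePoints_subset hx) ht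
      have h3 := nb_ext a hx (((t : SignType) : ℝ) • vv j - x) (fun i hi => by
        rw [inner_sub_right, h2 i hi, sub_self])
      rw [sub_eq_zero] at h3
      rw [h3] at h1
      exact hxN h1
    have hcell : ∀ x ∈ A1, ∃ t, IsCell (Sum.elim a g) t x := by
      intro x hx
      refine exists_cell (b := Sum.elim a g) ?_
      intro l
      rcases l with i | k
      · exact extremePoints_subset hx.1 i
      · exact (hout x hx k).le
    choose! T hT using hcell
    have hT0 : ∀ x ∈ A1, ∀ j, T x (Sum.inr j) = 0 := by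
      intro x hx j
      by_contra h
      have h1 := (hT x hx (Sum.inr j)).2 h
      change ⟪g j, x⟫ = _ at h1
      have h2 := hout x hx j
      rw [h1, G0_abs_cast h] at h2
      exact lt_irrefl _ h2
    have hTt : ∀ x ∈ A1, ∀ i, T x (Sum.inl i) ≠ 0 ↔ |⟪a i, x⟫| = 1 := by
      intro x hx i
      constructor
      · intro h
        have h1 := (hT x hx (Sum.inl i)).2 h
        change ⟪a i, x⟫ = _ at h1
        rw [h1, G0_abs_cast h]
      · intro h h0
        have h1 := (hT x hx (Sum.inl i)).1 h0
        change |⟪a i, x⟫| < 1 at h1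
        rw [h] at h1
        exact lt_irrefl _ h1
    have hTmem : ∀ x ∈ A1, T x ∈
        ((Verts (Sum.elim a g)).filter (fun v => ∀ j, v (Sum.inr j) = 0)) := by
      intro x hx
      rw [Finset.mem_filter]
      refine ⟨Finset.mem_filter.2 ⟨mem_cells.2 ⟨x, hT x hx⟩, ?_⟩, hT0 x hx⟩
      have h1 : Pool.Agent.KST.supp (T x) =
          (Finset.univ.filter (fun i : α => |⟪a i, x⟫| = 1)).map ⟨Sum.inl, Sum.inl_injective⟩ := by
        ext l
        rw [Finset.mem_map]
        unfold Pool.Agent.KST.supp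
        rw [Finset.mem_filter]
        constructor
        · rintro ⟨-, hl⟩
          rcases l with i | j
          · exact ⟨i, Finset.mem_filter.2 ⟨Finset.mem_univ _, (hTt x hx i).1 hl⟩, rfl⟩
          · exact absurd (hT0 x hx j) hl
        · rintro ⟨i, hi, rfl⟩
          exact ⟨Finset.mem_univ _, (hTt x hx i).2 (Finset.mem_filter.1 hi).2⟩
      rw [h1, Finset.card_map]
      refine nb_card a hx.1 ?_
      by_contra h2
      exact hx.2 ⟨extremePoints_subset hx.1, h2⟩
    have hTinj : Set.InjOn T A1 := by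
      intro x hx y hy hxy
      have h1 := nb_ext a hx.1 (y - x) (fun i hi => by
        have h2 := (hTt x hx i).2 hi
        have h3 := (hT x hx (Sum.inl i)).2 h2
        have h4 := (hT y hy (Sum.inl i)).2 (by rw [← hxy]; exact h2)
        change ⟪a i, x⟫ = _ at h3
        change ⟪a i, y⟫ = _ at h4
        rw [inner_sub_right, h3, h4, hxy, sub_self])
      exact (sub_eq_zero.1 h1).symm
    have hc1 : A1.ncard ≤
        ((Verts (Sum.elim a g)).filter (fun v => ∀ j, v (Sum.inr j) = 0)).card := by
      rw [← Set.ncard_coe_finset]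
      exact Set.ncard_le_ncard_of_injOn T (fun x hx => Finset.mem_coe.2 (hTmem x hx)) hTinj
        (Finset.finite_toSet _)
    have hf1 : A1.Finite :=
      Set.Finite.of_injOn (fun x hx => Finset.mem_coe.2 (hTmem x hx)) hTinj
        (Finset.finite_toSet _)
    -- the other vertices
    set W : Fin r × Bool → E d := fun p => if p.2 then vv p.1 else -vv p.1 with hW
    have hA2 : n1NS a ⊆ Set.range W := by
      intro x hx
      obtain ⟨j, hj | hj⟩ := hrep x hx
      · exact ⟨(j, true), by simp [hW, hj]⟩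
      · exact ⟨(j, false), by simp [hW, hj]⟩
    have hc2 : (Set.range W).ncard ≤ 2 * r := by
      rw [← Set.image_univ]
      refine (Set.ncard_image_le (Set.finite_univ)).trans ?_
      rw [Set.ncard_univ, Nat.card_eq_fintype_card, Fintype.card_prod, Fintype.card_fin,
        Fintype.card_bool, mul_comm]
    have hsub : Set.extremePoints ℝ (Pol a) ⊆ A1 ∪ Set.range W := by
      intro x hx
      by_cases h : x ∈ n1NS a
      · exact Or.inr (hA2 h)
      · exact Or.inl ⟨hx, h⟩
    refine (Set.ncard_le_ncard hsub (hf1.union (Set.finite_range W))).trans ?_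
    refine (Set.ncard_union_le _ _).trans ?_
    omega

end

end WLP
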