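import Pool.Agent.WLP.Defs2
import Pool.Agent.KST.T0
import Pool.Agent.KST.T1

/-! Rows T0B, T1B of WLP: truncation with the hypothesis `HypB` -/

set_option autoImplicit false

open scoped BigOperators RealInnerProductSpace

namespace WLP

noncomputable section

open Classical

open Pool.Agent.KST (E IsCell Cells Verts Simple Pol pt PP Gen Star VF Low LowF Inside hh
  T0_mem T0_pol T0_polL T0_sq T0_abs T0_neg T0_card_neg t1_mem t1_pol t1_cell t1_dual t1_small)

theorem TB_disj {α β : Type} [Fintype α] [Fintype β] {d : ℕ} {a : α → E d} {g : β → E d}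
    (H : HypB a g) {t : α ⊕ β → SignType} (ht : t ∈ Cells (Sum.elim a g)) {j k : β}
    (hj : t (Sum.inr j) ≠ 0) (hk : t (Sum.inr k) ≠ 0) : j = k := by
  obtain ⟨x, hx⟩ := T0_mem.1 ht
  have h1 : ⟪g j, x⟫ = ((t (Sum.inr j) : SignType) : ℝ) := (hx (Sum.inr j)).2 hj
  have h2 : ⟪g k, x⟫ = ((t (Sum.inr k) : SignType) : ℝ) := (hx (Sum.inr k)).2 hk
  refine (H.disj x (T0_polL (T0_pol hx)) j k (t (Sum.inr j)) (t (Sum.inr k)) ?_ ?_).1
  · rw [h1, T0_sq hj]
  · rw [h2, T0_sq hk]

theorem hypB_sep {α β : Type} [Fintype α] [Fintype β] {d : ℕ} {a : α → E d} {g : β → E d}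
    (H : HypB a g) :
    SepB (Sum.elim a g) (Finset.univ.filter (fun l => ∃ j, l = Sum.inr j)) := by
  refine ⟨?_, ?_⟩
  · intro t ht j hj j' hj' h1 h2
    obtain ⟨j0, rfl⟩ := (Finset.mem_filter.1 hj).2
    obtain ⟨j1, rfl⟩ := (Finset.mem_filter.1 hj').2
    rw [TB_disj H ht h1 h2]
  · intro j hj s hs t ht hsj htj l hsl htl
    obtain ⟨j0, rfl⟩ := (Finset.mem_filter.1 hj).2
    obtain ⟨x, hx⟩ := T0_mem.1 hs
    obtain ⟨y, hy⟩ := T0_mem.1 ht
    have hgx : ⟪g j0, x⟫ = 1 := by
      have := (hx (Sum.inr j0)).2 (by rw [hsj]; decide)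
      rw [hsj] at this
      simpa using this
    have hgy : ⟪g j0, y⟫ = 1 := by
      have := (hy (Sum.inr j0)).2 (by rw [htj]; decide)
      rw [htj] at this
      simpa using this
    rcases l with i | k
    · have h1 : ⟪a i, x⟫ = ((s (Sum.inl i) : SignType) : ℝ) := (hx (Sum.inl i)).2 hsl
      have h2 : ⟪a i, y⟫ = ((t (Sum.inl i) : SignType) : ℝ) := (hy (Sum.inl i)).2 htl
      have h3 := H.opp j0 x (T0_polL (T0_pol hx)) y (T0_polL (T0_pol hy)) hgx.ge hgy.ge i
        (by rw [h1, T0_abs hsl]) (by rw [h2, T0_abs htl])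
      rw [h1, h2] at h3
      rcases e1 : s (Sum.inl i) with _ | _ | _ <;> rcases e2 : t (Sum.inl i) with _ | _ | _ <;>
        first
        | rfl
        | (exact absurd e1 hsl)
        | (exact absurd e2 htl)
        | (rw [e1, e2] at h3; norm_num at h3)
    · have e1 : j0 = k := TB_disj H hs (by rw [hsj]; decide) hsl
      subst e1
      rw [hsj, htj]

theorem card_splitB {α β : Type} [Fintype α] [Fintype β] {d : ℕ} {a : α → E d} {g : β → E d}
    (H : HypB a g) :
    ((Cells (Sum.elim a g)).filter (fun s => ∀ j : β, s (Sum.inr j) = 0)).card +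
      2 * ∑ j : β, ((Cells (Sum.elim a g)).filter (fun s => s (Sum.inr j) = 1)).card =
      (Cells (Sum.elim a g)).card := by
  have h1 : ∀ s ∈ Cells (Sum.elim a g), (1 : ℕ) =
      (if ∀ j : β, s (Sum.inr j) = 0 then 1 else 0) +
        ∑ j : β, ((if s (Sum.inr j) = 1 then 1 else 0) + (if s (Sum.inr j) = -1 then 1 else 0)) := by
    intro s hs
    by_cases h : ∀ j : β, s (Sum.inr j) = 0
    · rw [if_pos h, Finset.sum_eq_zero (fun j _ => by rw [h j]; decide), add_zero]
    · rw [if_neg h]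
      push Not at h
      obtain ⟨j0, hj0⟩ := h
      rw [Finset.sum_eq_single j0]
      · rcases h5 : s (Sum.inr j0) with _ | _ | _
        · exact absurd h5 hj0
        · decide
        · decide
      · intro j _ hj
        have : s (Sum.inr j) = 0 := by
          by_contra h0
          exact hj (TB_disj H hs h0 hj0)
        rw [this]
        decide
      · intro h; exact absurd (Finset.mem_univ _) h
  have h2 : (Cells (Sum.elim a g)).card = ∑ s ∈ Cells (Sum.elim a g), 1 := by simp
  rw [h2, Finset.sum_congr rfl h1, Finset.sum_add_distrib, ← Finset.card_filter,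
    Finset.sum_comm, Finset.mul_sum]
  congr 1
  refine Finset.sum_congr rfl fun j _ => ?_
  rw [Finset.sum_add_distrib, ← Finset.card_filter, ← Finset.card_filter, T0_card_neg]
  ring

theorem TB_inside_disj {α β : Type} [Fintype α] [Fintype β] {d : ℕ} {a : α → E d} {g : β → E d}
    (H : HypB a g) {j k : β} {s t : SignType} {c : α → SignType} (h1 : c ∈ Inside a g j s)
    (h2 : c ∈ Inside a g k t) : j = k ∧ s = t := by
  rw [Inside, Finset.mem_filter] at h1 h2
  obtain ⟨x, hx⟩ := t1_mem.1 h1.1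
  exact H.disj x (t1_pol hx) j k s t (h1.2 x hx).le (h2.2 x hx).le

theorem inside_cardB {α β : Type} [Fintype α] [Fintype β] {d : ℕ} {a : α → E d} {g : β → E d}
    (H : HypB a g) :
    ((Cells (Sum.elim a g)).filter (fun s => ∀ j : β, s (Sum.inr j) = 0)).card +
      ∑ j : β, ((Inside a g j 1).card + (Inside a g j (-1)).card) ≤ (Cells a).card := by
  set A := (Cells (Sum.elim a g)).filter (fun s => ∀ j : β, s (Sum.inr j) = 0) with hA
  have hinj : Set.InjOn (fun s : (α ⊕ β) → SignType => s ∘ Sum.inl)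
      (A : Set ((α ⊕ β) → SignType)) := by
    intro s hs t ht hst
    rw [hA, Finset.coe_filter] at hs ht
    funext l
    rcases l with i | j
    · exact congrFun hst i
    · rw [hs.2 j, ht.2 j]
  rw [← Finset.card_image_of_injOn hinj]
  have h1 : ∀ j : β, (Inside a g j 1).card + (Inside a g j (-1)).card =
      (Inside a g j 1 ∪ Inside a g j (-1)).card := by
    intro j
    rw [Finset.card_union_of_disjoint]
    rw [Finset.disjoint_left]
    intro c hc hc'
    have := (TB_inside_disj H hc hc').2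
    exact absurd this (by decide)
  rw [Finset.sum_congr rfl (fun j _ => h1 j), ← Finset.card_biUnion, ← Finset.card_union_of_disjoint]
  · apply Finset.card_le_card
    intro c hc
    rw [Finset.mem_union] at hc
    rcases hc with hc | hc
    · rw [Finset.mem_image] at hc
      obtain ⟨s, hs, rfl⟩ := hc
      rw [hA, Finset.mem_filter] at hs
      obtain ⟨x, hx⟩ := t1_mem.1 hs.1
      exact t1_mem.2 ⟨x, fun i => hx (Sum.inl i)⟩
    · rw [Finset.mem_biUnion] at hc
      obtain ⟨j, -, hc⟩ := hc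
      rw [Finset.mem_union] at hc
      rcases hc with hc | hc
      · exact (Finset.mem_filter.1 hc).1
      · exact (Finset.mem_filter.1 hc).1
  · rw [Finset.disjoint_left]
    intro c hc hc'
    rw [Finset.mem_image] at hc
    obtain ⟨s, hs, rfl⟩ := hc
    rw [hA, Finset.mem_filter] at hs
    obtain ⟨x, hx⟩ := t1_mem.1 hs.1
    have hxa : IsCell a (s ∘ Sum.inl) x := fun i => hx (Sum.inl i)
    rw [Finset.mem_biUnion] at hc'
    obtain ⟨j, -, hc'⟩ := hc'
    have hj : |⟪g j, x⟫| < 1 := (hx (Sum.inr j)).1 (hs.2 j)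
    rw [abs_lt] at hj
    rw [Finset.mem_union] at hc'
    rcases hc' with hc' | hc'
    · have := (Finset.mem_filter.1 hc').2 x hxa
      simp only [SignType.coe_one, one_mul] at this
      linarith [hj.2]
    · have := (Finset.mem_filter.1 hc').2 x hxa
      simp only [SignType.coe_neg_one, neg_mul, one_mul] at this
      linarith [hj.1]
  · intro j _ k _ hjk
    refine Finset.disjoint_left.2 ?_
    intro c hc hc'
    rw [Finset.mem_union] at hc hc'
    rcases hc with hc | hc <;> rcases hc' with hc' | hc' <;>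
      exact hjk (TB_inside_disj H hc hc').1

theorem inside_posB {α β : Type} [Fintype α] [Fintype β] {d : ℕ} {a : α → E d} {g : β → E d}
    (H : HypB a g) (hb : Bornology.IsBounded (Pol a)) (j : β) (s : SignType) (hs : s ≠ 0)
    (h : ∃ t ∈ Cells (Sum.elim a g), t (Sum.inr j) = s) : 1 ≤ (Inside a g j s).card := by
  obtain ⟨t, ht, htj⟩ := h
  obtain ⟨x0, hx0⟩ := t1_mem.1 ht
  have hss : ((s : SignType) : ℝ) * ((s : SignType) : ℝ) = 1 := by
    rcases s with _ | _ | _
    · exact absurd rfl hs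
    · simp
    · simp
  have htj0 : t (Sum.inr j) ≠ 0 := by rw [htj]; exact hs
  obtain ⟨u, hdv⟩ := t1_dual (H.simple t ht) (Sum.inr j) htj0 ((s : SignType) : ℝ)
  have hxa : IsCell a (t ∘ Sum.inl) x0 := fun i => hx0 (Sum.inl i)
  obtain ⟨ε, hε, hmem⟩ := t1_small (a := a) (c := t ∘ Sum.inl) (x := x0) (u := u) hxa (by
    intro i hi
    have := hdv (Sum.inl i) hi
    simpa using this)
  have hgu : ⟪g j, u⟫ = ((s : SignType) : ℝ) := by
    have := hdv (Sum.inr j) htj0
    simpa [htj] using this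
  have hgx : ⟪g j, x0⟫ = ((s : SignType) : ℝ) := by
    have := (hx0 (Sum.inr j)).2 htj0
    simpa [htj] using this
  have hclosed : IsClosed (Pol a) := by
    have : Pol a = ⋂ i, {x | |⟪a i, x⟫| ≤ 1} := by
      ext x; simp [Pol]
    rw [this]
    exact isClosed_iInter fun i => isClosed_le (by fun_prop) continuous_const
  have hcomp : IsCompact (Pol a) := Metric.isCompact_of_isClosed_isBounded hclosed hb
  obtain ⟨xm, hxm, hmax⟩ := hcomp.exists_isMaxOn ⟨_, hmem⟩
    (f := fun x => ((s : SignType) : ℝ) * ⟪g j, x⟫) (by fun_prop)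
  have hM : 1 < ((s : SignType) : ℝ) * ⟪g j, xm⟫ := by
    have h1 : ((s : SignType) : ℝ) * ⟪g j, x0 + ε • u⟫ ≤ ((s : SignType) : ℝ) * ⟪g j, xm⟫ :=
      hmax hmem
    rw [inner_add_right, inner_smul_right, hgu, hgx] at h1
    have : ((s : SignType) : ℝ) * (((s : SignType) : ℝ) + ε * ((s : SignType) : ℝ)) = 1 + ε := by
      linear_combination (1 + ε) * hss
    rw [this] at h1
    linarith
  obtain ⟨c, hc⟩ := t1_cell hxm
  apply Finset.card_pos.2
  refine ⟨c, Finset.mem_filter.2 ⟨t1_mem.2 ⟨xm, hc⟩, ?_⟩⟩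
  intro y hy
  obtain ⟨δ, hδ, hz⟩ := t1_small (a := a) (c := c) (x := xm) (u := xm - y) hc (by
    intro i hi
    rw [inner_sub_right, (hc i).2 hi, (hy i).2 hi, sub_self])
  have h1 : ((s : SignType) : ℝ) * ⟪g j, xm + δ • (xm - y)⟫ ≤ ((s : SignType) : ℝ) * ⟪g j, xm⟫ :=
    hmax hz
  rw [inner_add_right, inner_smul_right, inner_sub_right] at h1
  have h2 : δ * (((s : SignType) : ℝ) * ⟪g j, xm⟫ - ((s : SignType) : ℝ) * ⟪g j, y⟫) ≤ 0 := by
    nlinarith [h1]
  have h3 : ((s : SignType) : ℝ) * ⟪g j, xm⟫ - ((s : SignType) : ℝ) * ⟪g j, y⟫ ≤ 0 := by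
    by_contra hcon
    push Not at hcon
    have := mul_pos hδ hcon
    linarith
  linarith

end

end WLP
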