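import Pool.Agent.WLP.MainBP
import Pool.Agent.WLP.NB2
import Pool.Agent.WLP.TB
import Pool.Agent.CTC.Q4C
import Pool.Agent.KST.Q5

/-!
WLP: the numbers of the proof of theorem B for a polytope with simple vertex figures.
-/

set_option autoImplicit false

open scoped BigOperators RealInnerProductSpace

namespace WLP

noncomputable section

open Classical

open Pool.Agent.KST (E IsCell Cells Verts Simple Pol pt PP Gen Star VF Low LowF Inside hh)

/-- the numerical properties, in dimension `d + 1` -/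
structure Num (d : ℕ) (k H : ℕ → ℤ) : Prop where
  k0 : k 0 = 0
  kpos : ∀ n, 0 ≤ k n
  ksym : ∀ n ≤ d + 1, k (d + 1 - n) = k n
  hsym : ∀ n < d + 1, H (d + 1 - 1 - n) = H n
  h1 : ∀ n < d + 1, H 0 ≤ H n
  h0 : 0 ≤ H 0
  hle : ∀ n, d + 1 ≤ 2 * n → n < d + 1 → H n ≤ k n
  two : 1 ≤ d → 2 * (H 2 - H 1) ≤ (H 1 - H 0) * (H 1 - H 0 + 1)

theorem Data.num {ι : Type} [Fintype ι] {d : ℕ} {b : ι → E (d + 1)} {J : Finset ι}
    {k H : ℕ → ℤ} (h : Data b J k H) : Num d k H :=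
  ⟨h.k0, h.kpos, h.ksym, h.hsym, h.h1, h.h0, h.hle, h.two⟩

/-- arithmetic of theorem B+ -/
theorem Num.plus {d : ℕ} (hd : 2 ≤ d) {k H : ℕ → ℤ} (h : Num d k H) :
    2 ^ (d / 2) * (∑ n ∈ Finset.range (d + 1 + 1), k n - ∑ n ∈ Finset.range (d + 1), H n + H 0) +
        (2 ^ d + 2 - 2 * 2 ^ (d / 2)) * (k 1 - H 0) ≤
    ∑ n ∈ Finset.range (d + 1 + 1), 2 ^ n * k n - ∑ n ∈ Finset.range (d + 1), 2 ^ n * H n +
      H 0 := by
  have h1 := ari_plus (d + 1) (by omega) k H h.k0 h.ksym h.hsym h.hle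
  rw [Nat.add_sub_cancel] at h1
  have h2 : k d = k 1 := by
    have := h.ksym 1 (by omega)
    rwa [Nat.add_sub_cancel] at this
  have h3 : H d = H 0 := by
    have := h.hsym 0 (by omega)
    rwa [Nat.add_sub_cancel, Nat.sub_zero] at this
  rw [h2, h3] at h1
  have h4 : 0 ≤ ∑ i ∈ Finset.range (d / 2), (2 : ℤ) ^ i * (H i - H 0) := by
    refine Finset.sum_nonneg fun i hi => ?_
    have hi' := Finset.mem_range.1 hi
    exact mul_nonneg (by positivity) (sub_nonneg.2 (h.h1 i (by omega)))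
  linarith

private theorem dn_filter {X : Type} (s : Finset X) {p q : X → Prop} (i1 : DecidablePred p)
    (i2 : DecidablePred q) (h : ∀ x ∈ s, p x ↔ q x) :
    @Finset.filter X p i1 s = @Finset.filter X q i2 s := Finset.filter_congr h

private theorem dn_mem {X : Type} {s : Finset X} {p : X → Prop} (i : DecidablePred p) {x : X} :
    x ∈ @Finset.filter X p i s ↔ x ∈ s ∧ p x := Finset.mem_filter

/-- the numbers of a polytope with simple vertex figures -/
theorem dataN {α : Type} [Fintype α] {d : ℕ} (hd : 1 ≤ d) (a : α → E (d + 1))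
    (hb : Bornology.IsBounded (Pol a))
    (hns : ∀ x ∈ Pol a, ¬ LinearIndependent ℝ (fun i : {i : α // |⟪a i, x⟫| = 1} => a i.1) →
      x ∈ Set.extremePoints ℝ (Pol a)) :
    ∃ (L : Finset α) (k H : ℕ → ℤ), Num d k H ∧ Pol a = {x | ∀ i ∈ L, |⟪a i, x⟫| ≤ 1} ∧
      (L.card : ℤ) ≤ k 1 - H 0 + (d + 1) ∧
      ((Set.extremePoints ℝ (Pol a)).ncard : ℤ) - 2 ^ (d + 1) ≤
        2 * (∑ n ∈ Finset.range (d + 1 + 1), k n - ∑ n ∈ Finset.range (d + 1), H n + H 0) ∧
      3 ^ (d + 1) + 2 * (∑ n ∈ Finset.range (d + 1 + 1), 2 ^ n * k n -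
        ∑ n ∈ Finset.range (d + 1), 2 ^ n * H n + H 0) ≤ ((Cells a).card : ℤ) := by
  obtain ⟨r, g, HB, hcap, hin, hle⟩ := nat_hypB2 a hb hns
  have hb' : Bornology.IsBounded (Pol (Sum.elim a g)) := by
    refine hb.subset fun x hx i => ?_
    have h := hx (Sum.inl i)
    rwa [Sum.elim_inl] at h
  obtain ⟨J, hsep, hmemJ⟩ : ∃ J : Finset (α ⊕ Fin r), SepB (Sum.elim a g) J ∧
      ∀ l, l ∈ J ↔ ∃ j, l = Sum.inr j := by
    exact ⟨_, hypB_sep HB, fun l => ⟨fun h => ((dn_mem _).1 h).2,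
      fun h => (dn_mem _).2 ⟨Finset.mem_univ _, h⟩⟩⟩
  obtain ⟨k, H, hD⟩ := dataB HB.simple hb' hsep
  have hJ : J = Finset.univ.map ⟨Sum.inr, Sum.inr_injective⟩ := by
    ext l
    rw [hmemJ, Finset.mem_map]
    constructor
    · rintro ⟨j, rfl⟩
      exact ⟨j, Finset.mem_univ _, rfl⟩
    · rintro ⟨j, -, rfl⟩
      exact ⟨j, rfl⟩
  have hsum : ∑ j ∈ J, (((Cells (Sum.elim a g)).filter (fun s => s j = 1)).card : ℤ) =
      ∑ j : Fin r, (((Cells (Sum.elim a g)).filter (fun s => s (Sum.inr j) = 1)).card : ℤ) := by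
    rw [hJ, Finset.sum_map]
    rfl
  have hr : (J.filter (fun j => ∃ t ∈ Cells (Sum.elim a g), t j = 1)).card = r := by
    rw [Finset.filter_true_of_mem]
    · rw [hJ, Finset.card_map, Finset.card_univ, Fintype.card_fin]
    · intro l hl
      obtain ⟨j, rfl⟩ := (hmemJ l).1 hl
      exact hcap j
  have hr' := hD.hr
  rw [hr] at hr'
  have hfac := hD.facets
  rw [hsum] at hfac
  refine ⟨Finset.univ.filter (fun i => ∃ t ∈ Cells (Sum.elim a g), t (Sum.inl i) = 1), k, H,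
    hD.num, ?_, ?_, ?_, ?_⟩
  · ext x
    constructor
    · intro hx i _
      exact hx i
    · intro hx
      refine Pool.Agent.CTC.pol_eqB HB hb (by omega) hin x fun i hi => ?_
      exact hx i (Finset.mem_filter.2 ⟨Finset.mem_univ _, hi⟩)
  · have h1 := Pool.Agent.KST.q5_card (Sum.elim a g) Sum.inl Sum.inl_injective J (by
      intro i hi
      obtain ⟨j, hj⟩ := (hmemJ _).1 hi
      exact absurd hj (by simp))
    have h2 := hD.fac
    have key : ∀ {A A' : Finset α} {B B' : Finset (α ⊕ Fin r)} {x y z : ℤ}, A.card ≤ B.card →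
        (B'.card : ℤ) + x ≤ y + z → A' = A → B = B' → (A'.card : ℤ) ≤ y - x + z := by
      intro A A' B B' x y z h3 h4 h5 h6
      subst h5 h6
      have h7 : (A'.card : ℤ) ≤ B.card := by exact_mod_cast h3
      linarith
    exact key h1 h2 (dn_filter _ _ _ fun i _ => Iff.rfl) (dn_filter _ _ _ fun i _ => Iff.rfl)
  · have h1 := hD.verts
    have key : ∀ {V W : Finset (α ⊕ Fin r → SignType)} {n : ℕ} {x y z : ℤ},
        n ≤ V.card + 2 * r → (W.card : ℤ) + 2 * x - y = z → W = V → (r : ℤ) = x →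
        (n : ℤ) - y ≤ z := by
      intro V W n x y z h3 h4 h5 h6
      subst h5
      have h7 : (n : ℤ) ≤ (W.card : ℤ) + 2 * (r : ℤ) := by exact_mod_cast h3
      linarith
    refine key hle h1 (dn_filter _ _ _ fun v _ => ⟨fun h j => h _ ((hmemJ _).2 ⟨j, rfl⟩),
      fun h l hl => ?_⟩) hr'
    obtain ⟨j, rfl⟩ := (hmemJ l).1 hl
    exact h j
  · -- faces inside the caps
    have hin2 : 2 * r ≤ ∑ j : Fin r, ((Inside a g j 1).card + (Inside a g j (-1)).card) := by
      calc 2 * r = ∑ _j : Fin r, 2 := by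
            rw [Finset.sum_const, Finset.card_univ, Fintype.card_fin, smul_eq_mul, mul_comm]
        _ ≤ _ := by
            refine Finset.sum_le_sum fun j _ => ?_
            obtain ⟨t, ht, htj⟩ := hcap j
            have h2 := inside_posB HB hb j 1 (by decide) ⟨t, ht, htj⟩
            have h3 := inside_posB HB hb j (-1) (by decide)
              ⟨-t, Pool.Agent.KST.neg_mem_cells ht, by rw [Pi.neg_apply, htj]⟩
            omega
    have hsplit := card_splitB HB
    have hins := inside_cardB HB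
    have h1 := hD.cells
    have hcast : ∑ j : Fin r,
        (((Cells (Sum.elim a g)).filter (fun s => s (Sum.inr j) = 1)).card : ℤ) =
        ((∑ j : Fin r,
          ((Cells (Sum.elim a g)).filter (fun s => s (Sum.inr j) = 1)).card : ℕ) : ℤ) := by
      rw [Nat.cast_sum]
    rw [hcast] at hfac
    have h5 : (((Cells (Sum.elim a g)).card : ℕ) : ℤ) - 2 *
        ((∑ j : Fin r, ((Cells (Sum.elim a g)).filter (fun s => s (Sum.inr j) = 1)).card : ℕ) : ℤ)
        + 2 * (r : ℤ) ≤ ((Cells a).card : ℤ) := by omega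
    rw [hfac, h1] at h5
    linarith

/-- **Theorem B+** for simple vertex figures -/
theorem kalaiBP {α : Type} [Fintype α] {d : ℕ} (hd : 2 ≤ d) (a : α → E (d + 1))
    (hb : Bornology.IsBounded (Pol a))
    (hns : ∀ x ∈ Pol a, ¬ LinearIndependent ℝ (fun i : {i : α // |⟪a i, x⟫| = 1} => a i.1) →
      x ∈ Set.extremePoints ℝ (Pol a)) :
    ∃ L : Finset α, Pol a = {x | ∀ i ∈ L, |⟪a i, x⟫| ≤ 1} ∧
      (3 : ℤ) ^ (d + 1) + 2 ^ (d / 2) *
          (((Set.extremePoints ℝ (Pol a)).ncard : ℤ) - 2 ^ (d + 1)) +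
        (2 ^ d + 2 - 2 * 2 ^ (d / 2)) * (2 * (L.card : ℤ) - 2 * (d + 1)) ≤
      ((Cells a).card : ℤ) := by
  obtain ⟨L, k, H, hN, hL, h1, h2, h3⟩ := dataN (by omega) a hb hns
  refine ⟨L, hL, ?_⟩
  have h4 := hN.plus hd
  have h5 : (0 : ℤ) ≤ 2 ^ d + 2 - 2 * 2 ^ (d / 2) := by
    have h5 : (2 : ℤ) ^ (d / 2 + 1) ≤ 2 ^ d := pow_le_pow_right₀ (by norm_num) (by omega)
    rw [pow_succ] at h5
    linarith
  have h6 : (L.card : ℤ) - (d + 1) ≤ k 1 - H 0 := by linarith
  have h7 := mul_le_mul_of_nonneg_left h6 h5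
  have h8 := mul_le_mul_of_nonneg_left h2 (show (0 : ℤ) ≤ 2 ^ (d / 2) by positivity)
  linarith

end

end WLP
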