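import Pool.Agent.WLP.Defs

/-! WLP, row DET: functions in `K_n` are determined by their values at the points
`ind (v \ P v)` (induction on the height of the highest vertex of the support). -/

set_option maxHeartbeats 4000000

namespace WLP

variable {M : Type} [Fintype M] [DecidableEq M] {D : ℕ}

theorem det_mem_supp (e : M → ℕ) (l : M) : l ∈ supp e ↔ e l ≠ 0 := by
  simp [supp]

/-- a functional (given by coefficients) that sees only one of several independent vectors -/
theorem det_dual {K : Type*} [Field K] (a : Fin D → M → K) (v : Finset M)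
    (hind : LinearIndependent K (fun l : v => fun r => a r l.1)) (l : M) (hl : l ∈ v) :
    ∃ y : Fin D → K, (∑ r, y r * a r l ≠ 0) ∧
      ∀ q ∈ v, q ≠ l → ∑ r, y r * a r q = 0 := by
  classical
  have hnot : (fun r => a r l) ∉ Submodule.span K
      ((fun l : v => fun r => a r l.1) '' {q | q ≠ ⟨l, hl⟩}) := by
    have := hind.notMem_span_image (s := {q | q ≠ (⟨l, hl⟩ : v)}) (x := ⟨l, hl⟩) (by simp)
    exact this
  obtain ⟨φ, h1, h2⟩ := Submodule.exists_dual_map_eq_bot_of_notMem hnot inferInstance
  have hφ : ∀ x : Fin D → K, φ x = ∑ r, φ (fun j => if r = j then 1 else 0) * x r := by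
    intro x
    rw [LinearMap.pi_apply_eq_sum_univ φ x]
    refine Finset.sum_congr rfl fun r _ => ?_
    rw [smul_eq_mul, mul_comm]
  refine ⟨fun r => φ (fun j => if r = j then 1 else 0), ?_, ?_⟩
  · rw [← hφ (fun r => a r l)]
    exact h1
  · intro q hq hql
    rw [← hφ (fun r => a r q)]
    have hmem : φ (fun r => a r q) ∈ Submodule.map φ (Submodule.span K
        ((fun l : v => fun r => a r l.1) '' {q | q ≠ ⟨l, hl⟩})) := by
      refine Submodule.mem_map_of_mem (Submodule.subset_span ?_)
      exact ⟨⟨q, hq⟩, by simpa using hql, rfl⟩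
    rw [h2] at hmem
    exact (Submodule.mem_bot K).1 hmem

/-- functions in `K_n` are determined by their values at the points `ind (v \ P v)` -/
theorem det_hi (S : Swp M D) {K : Type*} [Field K] (a : Fin D → M → K)
    (hind : ∀ v ∈ S.V, LinearIndependent K (fun l : v => fun r => a r l.1))
    (n : ℕ) (f : (M → ℕ) → K) (hf : KK S a n f)
    (h0 : ∀ v ∈ S.V, (v \ S.P v).card = n → f (ind (v \ S.P v)) = 0) :
    ∀ e : M → ℕ, ∑ l, e l = n → f e = 0 := by
  classical
  obtain ⟨hf1, hf2⟩ := hf
  suffices H : ∀ k : ℕ, ∀ e : M → ℕ, ∑ l, e l = n → S.ht (S.hi (supp e)) = k → f e = 0 from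
    fun e he => H _ e he rfl
  intro k
  induction k using Nat.strong_induction_on with
  | _ k ih =>
    intro e he hk
    by_cases hface : S.face (supp e)
    swap
    · exact hf1 e hface
    obtain ⟨v₀, hv₀, hs₀⟩ := hface
    set v := S.hi (supp e) with hv
    have hvV : v ∈ S.V := S.hi_mem v₀ hv₀ _ hs₀
    have hsv : supp e ⊆ v := S.sub_hi v₀ hv₀ _ hs₀
    have hN : v \ S.P v ⊆ supp e := S.N_hi v₀ hv₀ _ hs₀
    by_cases heq : e = ind (v \ S.P v)
    · have hcard : (v \ S.P v).card = n := by
        rw [← he, heq]
        simp only [ind, Finset.sum_ite_mem, Finset.univ_inter, Finset.sum_const, smul_eq_mul,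
          mul_one]
      rw [heq]
      exact h0 v hvV hcard
    -- a place where `e` exceeds the indicator function
    have hex : ∃ l, ind (v \ S.P v) l < e l := by
      by_contra hcon
      push Not at hcon
      apply heq
      funext l
      apply le_antisymm (hcon l)
      unfold ind
      split_ifs with hl
      · have := hN hl
        rw [det_mem_supp] at this
        omega
      · exact Nat.zero_le _
    obtain ⟨l, hl⟩ := hex
    have hel : e l ≠ 0 := by omega
    have hlv : l ∈ v := hsv ((det_mem_supp e l).2 hel)
    set e' : M → ℕ := Function.update e l (e l - 1) with he'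
    have hee : e' + Pi.single l 1 = e := by
      funext q
      by_cases hq : q = l
      · subst hq
        simp [he']
        omega
      · simp [he', hq]
    have hsum : ∑ q, e' q + 1 = n := by
      rw [← he, ← hee]
      simp [Finset.sum_add_distrib]
    have hN' : ∀ q, v \ S.P v ⊆ supp (e' + Pi.single q 1) := by
      intro q x hx
      rw [det_mem_supp]
      have hx1 : e x ≠ 0 := (det_mem_supp e x).1 (hN hx)
      by_cases hxl : x = l
      · subst hxl
        have : ind (v \ S.P v) x = 1 := by simp only [ind, if_pos hx]
        have h2 : e' x = e x - 1 := by simp [he']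
        rw [Pi.add_apply, h2]
        omega
      · have h2 : e' x = e x := by simp [he', hxl]
        rw [Pi.add_apply, h2]
        omega
    obtain ⟨y, hy1, hy2⟩ := det_dual a v (hind v hvV) l hlv
    have hrel : ∑ q, (∑ r, y r * a r q) * f (e' + Pi.single q 1) = 0 := by
      have h1 : ∀ r, ∑ q, a r q * f (e' + Pi.single q 1) = 0 := hf2 e' hsum
      calc ∑ q, (∑ r, y r * a r q) * f (e' + Pi.single q 1)
          = ∑ r, y r * ∑ q, a r q * f (e' + Pi.single q 1) := by
            simp_rw [Finset.sum_mul, Finset.mul_sum]
            rw [Finset.sum_comm]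
            refine Finset.sum_congr rfl fun r _ => Finset.sum_congr rfl fun q _ => ?_
            ring
        _ = 0 := by simp [h1]
    have hz : ∀ q, q ≠ l → (∑ r, y r * a r q) * f (e' + Pi.single q 1) = 0 := by
      intro q hql
      by_cases hqv : q ∈ v
      · rw [hy2 q hqv hql, zero_mul]
      · have hfz : f (e' + Pi.single q 1) = 0 := by
          by_cases hfc : S.face (supp (e' + Pi.single q 1))
          swap
          · exact hf1 _ hfc
          obtain ⟨w₀, hw₀, hs₁⟩ := hfc
          have hle : S.ht (S.hi (supp (e' + Pi.single q 1))) ≤ S.ht v :=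
            S.hi_le w₀ hw₀ _ hs₁ v hvV (hN' q)
          have hne : S.ht (S.hi (supp (e' + Pi.single q 1))) ≠ S.ht v := by
            intro hEq
            have h3 := S.ht_inj _ (S.hi_mem w₀ hw₀ _ hs₁) v hvV hEq
            have h4 := S.sub_hi w₀ hw₀ _ hs₁
            rw [h3] at h4
            apply hqv
            apply h4
            rw [det_mem_supp]
            simp
          refine ih _ (lt_of_le_of_ne (hk ▸ hle) (hk ▸ hne)) _ ?_ rfl
          rw [← hsum]
          simp [Finset.sum_add_distrib]
        rw [hfz, mul_zero]
    rw [Finset.sum_eq_single l (fun q _ hq => hz q hq) (fun h => absurd (Finset.mem_univ l) h),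
      hee] at hrel
    exact (mul_eq_zero.1 hrel).resolve_left hy1

end WLP
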