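import Pool.Agent.WLP.Gen
/-!
# The degree map
-/
set_option maxHeartbeats 4000000

namespace WLP

open MvPolynomial

variable {M : Type} [Fintype M] [DecidableEq M] {D : ℕ}

/-- Cramer's rule. -/
theorem minor_cramer (C : Finset (Option M)) (hC : C.card = D + 1) (r : Fin D) :
    ∑ l ∈ C, X (some r, l) * minor D (C.erase l) = (0 : R2 M D) := by
  classical
  have h1 : ∑ l ∈ C, X (some r, l) * minor D (C.erase l) =
      ∑ x ∈ C.sigma (fun l => Finset.univ.filter
        (fun τ : Fin D → Option M => Finset.univ.image τ = C.erase l)),
        (X (some r, x.1) * ∏ s : Fin D, X (some s, x.2 s) : R2 M D) := by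
    rw [Finset.sum_sigma]
    apply Finset.sum_congr rfl
    intro l _
    rw [minor, Finset.mul_sum]
  rw [h1]
  have hinj : ∀ (l : Option M) (τ : Fin D → Option M), l ∈ C →
      Finset.univ.image τ = C.erase l → Function.Injective τ := by
    intro l τ hl hτ
    have h2 : (Finset.univ.image τ).card = (Finset.univ : Finset (Fin D)).card := by
      rw [hτ, Finset.card_erase_of_mem hl, hC, Finset.card_univ, Fintype.card_fin]
      rfl
    have h3 := Finset.card_image_iff.1 h2
    exact fun a b hab => h3 (by simp) (by simp) hab
  have hmem : ∀ (l : Option M) (τ : Fin D → Option M) (s : Fin D),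
      Finset.univ.image τ = C.erase l → τ s ∈ C.erase l := by
    intro l τ s hτ
    rw [← hτ]
    exact Finset.mem_image_of_mem _ (Finset.mem_univ _)
  refine Finset.sum_involution (fun x _ => ⟨x.2 r, Function.update x.2 r x.1⟩) ?_ ?_ ?_ ?_
  · rintro ⟨l, τ⟩ hx
    have h2 : (X (some r, τ r) * ∏ s : Fin D, X (some s, Function.update τ r l s) : R2 M D) =
        X (some r, l) * ∏ s : Fin D, X (some s, τ s) := by
      rw [← Finset.mul_prod_erase Finset.univ _ (Finset.mem_univ r),
        ← Finset.mul_prod_erase Finset.univ (fun s => (X (some s, τ s) : R2 M D))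
          (Finset.mem_univ r), Function.update_self]
      have h3 : ∏ s ∈ Finset.univ.erase r, (X (some s, Function.update τ r l s) : R2 M D) =
          ∏ s ∈ Finset.univ.erase r, X (some s, τ s) := by
        apply Finset.prod_congr rfl
        intro s hs
        rw [Function.update_of_ne (Finset.ne_of_mem_erase hs)]
      rw [h3]
      ring
    simp only
    rw [h2]
    exact CharTwo.add_self_eq_zero _
  · rintro ⟨l, τ⟩ hx _ h2
    rw [Finset.mem_sigma, Finset.mem_filter] at hx
    have h3 := congrArg Sigma.fst h2
    simp only at h3
    have h4 := hmem l τ r hx.2.2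
    rw [h3] at h4
    exact Finset.notMem_erase _ _ h4
  · rintro ⟨l, τ⟩ hx
    rw [Finset.mem_sigma, Finset.mem_filter] at hx ⊢
    simp only at hx ⊢
    obtain ⟨hl, -, hτ⟩ := hx
    have hr := hmem l τ r hτ
    have hi := hinj l τ hl hτ
    refine ⟨Finset.mem_of_mem_erase hr, Finset.mem_univ _, ?_⟩
    ext c
    simp only [Finset.mem_image, Finset.mem_univ, true_and, Finset.mem_erase]
    constructor
    · rintro ⟨s, rfl⟩
      by_cases hs : s = r
      · subst hs
        rw [Function.update_self]
        exact ⟨(Finset.ne_of_mem_erase hr).symm, hl⟩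
      · rw [Function.update_of_ne hs]
        exact ⟨fun h => hs (hi h), Finset.mem_of_mem_erase (hmem l τ s hτ)⟩
    · rintro ⟨hc1, hc2⟩
      by_cases hcl : c = l
      · exact ⟨r, by rw [Function.update_self, hcl]⟩
      · have h5 : c ∈ Finset.univ.image τ := by
          rw [hτ]
          exact Finset.mem_erase.2 ⟨hcl, hc2⟩
        obtain ⟨s, -, hs⟩ := Finset.mem_image.1 h5
        refine ⟨s, ?_⟩
        rw [Function.update_of_ne, hs]
        rintro rfl
        exact hc1 hs.symm
  · rintro ⟨l, τ⟩ hx
    simp only [Function.update_self, Function.update_idem, Function.update_eq_self]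

theorem supp_add_single {N : Type*} [Fintype N] [DecidableEq N] (e : N → ℕ) (l : N) :
    supp (e + Pi.single l 1) = insert l (supp e) := by
  ext c
  simp only [supp, Finset.mem_filter, Finset.mem_univ, true_and, Pi.add_apply,
    Finset.mem_insert]
  by_cases h : c = l
  · subst h
    simp
  · rw [Pi.single_eq_of_ne h]
    simp [h]

theorem Phi_add (S : Swp M D) (e : Option M → ℕ) (l : Option M) :
    Phi S (e + Pi.single l 1) = ∑ F ∈ S.V.filter (fun F => supp e ⊆ cols F),
      if l ∈ cols F then (EF S F * ∏ j ∈ cols F, minor D ((cols F).erase j) ^ e j) *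
        minor D ((cols F).erase l) else 0 := by
  classical
  rw [← Finset.sum_filter, Finset.filter_filter, Phi]
  have h1 : S.V.filter (fun F => supp (e + Pi.single l 1) ⊆ cols F) =
      S.V.filter (fun F => supp e ⊆ cols F ∧ l ∈ cols F) := by
    apply Finset.filter_congr
    intro F _
    rw [supp_add_single, Finset.insert_subset_iff, and_comm]
  rw [h1]
  apply Finset.sum_congr rfl
  intro F hF
  rw [Finset.mem_filter] at hF
  have h2 : ∏ j ∈ cols F, minor D ((cols F).erase j) ^ ((e + Pi.single l 1 : Option M → ℕ) j) =
      (∏ j ∈ cols F, minor D ((cols F).erase j) ^ e j) * minor D ((cols F).erase l) := by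
    simp only [Pi.add_apply, pow_add]
    rw [Finset.prod_mul_distrib]
    congr 1
    rw [Finset.prod_eq_single_of_mem l hF.2.2]
    · rw [Pi.single_eq_same, pow_one]
    · intro j _ hj
      rw [Pi.single_eq_of_ne hj, pow_zero]
  rw [h2, mul_assoc]

theorem card_cols (S : Swp M D) {F : Finset M} (hF : F ∈ S.V) : (cols F).card = D + 1 := by
  rw [cols, Finset.card_insert_of_notMem (by simp),
    Finset.card_image_of_injective _ (Option.some_injective M), S.card_eq F hF]

theorem Phi_cramer (S : Swp M D) (e : Option M → ℕ) (r : Fin D) :
    ∑ l, X (some r, l) * Phi S (e + Pi.single l 1) = 0 := by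
  classical
  have h1 : ∀ l, X (some r, l) * Phi S (e + Pi.single l 1) =
      ∑ F ∈ S.V.filter (fun F => supp e ⊆ cols F),
        if l ∈ cols F then (EF S F * ∏ j ∈ cols F, minor D ((cols F).erase j) ^ e j) *
          (X (some r, l) * minor D ((cols F).erase l)) else 0 := by
    intro l
    rw [Phi_add, Finset.mul_sum]
    apply Finset.sum_congr rfl
    intro F _
    split_ifs
    · ring
    · rw [mul_zero]
  simp only [h1]
  rw [Finset.sum_comm]
  apply Finset.sum_eq_zero
  intro F hF
  rw [Finset.mem_filter] at hF
  rw [← Finset.sum_filter, Finset.filter_mem_eq_inter, Finset.univ_inter, ← Finset.mul_sum,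
    minor_cramer _ (card_cols S hF.1), mul_zero]

theorem EF_mul (S : Swp M D) {F : Finset M} (hF : F ∈ S.V) :
    EF S F * ∏ j ∈ cols F, minor D ((cols F).erase j) = EE S := by
  rw [EF, EE, mul_comm]
  exact Finset.mul_prod_erase S.V (fun G => ∏ j ∈ cols G, minor D ((cols G).erase j)) hF

theorem Phi_sqfree (S : Swp M D) (J : Option M → ℕ) (hJ : ∑ o, J o = D) (h0 : J none ≠ 0)
    (h1 : ∀ o, J o ≤ 1) : Phi S J = 0 := by
  classical
  set T := supp J with hT
  have hJT : ∀ o ∈ T, J o = 1 := by
    intro o ho
    rw [hT, supp, Finset.mem_filter] at ho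
    have := h1 o
    omega
  have hJT' : ∀ o, o ∉ T → J o = 0 := by
    intro o ho
    rw [hT, supp, Finset.mem_filter] at ho
    by_contra h
    exact ho ⟨Finset.mem_univ _, h⟩
  have hTc : T.card = D := by
    rw [← hJ, ← Finset.sum_subset (Finset.subset_univ T) (fun o _ ho => hJT' o ho),
      Finset.sum_congr rfl hJT, Finset.sum_const, smul_eq_mul, mul_one]
  have hnT : none ∈ T := by
    rw [hT, supp, Finset.mem_filter]
    exact ⟨Finset.mem_univ _, h0⟩
  have hm := minor_ne_zero T hTc
  have key : minor D T * Phi S J = 0 := by
    rw [Phi, Finset.mul_sum]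
    have h2 : ∀ F ∈ S.V.filter (fun F => supp J ⊆ cols F),
        minor D T * (EF S F * ∏ j ∈ cols F, minor D ((cols F).erase j) ^ J j) = EE S := by
      intro F hF
      rw [Finset.mem_filter] at hF
      obtain ⟨hFV, hFT⟩ := hF
      rw [← hT] at hFT
      have h3 : (cols F \ T).card = 1 := by
        rw [Finset.card_sdiff_of_subset hFT, card_cols S hFV, hTc]
        omega
      obtain ⟨c, hc⟩ := Finset.card_eq_one.1 h3
      have hcF : c ∈ cols F ∧ c ∉ T := by
        rw [← Finset.mem_sdiff, hc]
        exact Finset.mem_singleton_self c
      have h4 : (cols F).erase c = T := by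
        ext o
        rw [Finset.mem_erase]
        constructor
        · rintro ⟨h5, h6⟩
          by_contra h7
          have : o ∈ cols F \ T := Finset.mem_sdiff.2 ⟨h6, h7⟩
          rw [hc, Finset.mem_singleton] at this
          exact h5 this
        · intro h5
          refine ⟨?_, hFT h5⟩
          rintro rfl
          exact hcF.2 h5
      rw [← EF_mul S hFV, ← Finset.mul_prod_erase (cols F) (fun j => minor D ((cols F).erase j))
        hcF.1, ← Finset.mul_prod_erase (cols F) (fun j => minor D ((cols F).erase j) ^ J j)
        hcF.1, h4, hJT' c hcF.2, pow_zero, one_mul]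
      have h5 : ∏ j ∈ T, minor D ((cols F).erase j) ^ J j =
          ∏ j ∈ T, minor D ((cols F).erase j) := by
        apply Finset.prod_congr rfl
        intro j hj
        rw [hJT j hj, pow_one]
      rw [h5]
      ring
    rw [Finset.sum_congr rfl h2, Finset.sum_const, nsmul_eq_mul]
    set G : Finset M := Finset.univ.filter (fun m => some m ∈ T) with hG
    have hGT : T = insert none (G.image some) := by
      ext o
      rw [Finset.mem_insert, Finset.mem_image]
      cases o with
      | none => simp [hnT]
      | some m => simp [hG]
    have hGc : G.card + 1 = D := by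
      rw [← hTc, hGT, Finset.card_insert_of_notMem (by simp),
        Finset.card_image_of_injective _ (Option.some_injective M)]
    have h6 : S.V.filter (fun F => supp J ⊆ cols F) = S.V.filter (fun F => G ⊆ F) := by
      apply Finset.filter_congr
      intro F _
      rw [← hT, hGT, cols]
      constructor
      · intro h m hm
        have h7 := h (Finset.mem_insert_of_mem (Finset.mem_image_of_mem some hm))
        simpa using h7
      · intro h
        exact Finset.insert_subset_insert _ (Finset.image_subset_image h)
    rw [h6]
    have h7 := S.even G hGc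
    rw [(CharP.cast_eq_zero_iff (R2 M D) 2 _).2 h7.two_dvd, zero_mul]
  rcases mul_eq_zero.1 key with h | h
  · exact absurd h hm
  · exact h

theorem Phi_none (S : Swp M D) (J : Option M → ℕ) (hJ : ∑ o, J o = D) (h0 : J none ≠ 0) :
    Phi S J = 0 := by
  classical
  rcases S.V.eq_empty_or_nonempty with hV | ⟨v0, hv0⟩
  · rw [Phi, hV]
    simp
  have hD : D ≤ Fintype.card (Option M) := by
    have h1 := Finset.card_le_univ v0
    rw [S.card_eq v0 hv0] at h1
    rw [Fintype.card_option]
    omega
  have main : ∀ (k : ℕ) (J : Option M → ℕ), D - (supp J).card = k → ∑ o, J o = D →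
      J none ≠ 0 → Phi S J = 0 := by
    intro k
    induction k using Nat.strong_induction_on with
    | _ k ih =>
      intro J hk hJ h0
      by_cases h1 : ∀ o, J o ≤ 1
      · exact Phi_sqfree S J hJ h0 h1
      push Not at h1
      obtain ⟨p, hp⟩ := h1
      set T := supp J with hT
      have hpT : p ∈ T := by
        rw [hT, supp, Finset.mem_filter]
        exact ⟨Finset.mem_univ _, by omega⟩
      let e : Option M → ℕ := fun o => if o = p then J p - 1 else J o
      have he : e + Pi.single p 1 = J := by
        funext o
        by_cases h : o = p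
        · subst h
          simp only [Pi.add_apply, e, if_true, Pi.single_eq_same]
          omega
        · simp [e, h]
      have hes : supp e = T := by
        ext o
        simp only [hT, supp, Finset.mem_filter, Finset.mem_univ, true_and, e]
        by_cases h : o = p
        · subst h
          simp only [if_true]
          omega
        · rw [if_neg h]
      have hesum : ∑ o, e o + 1 = D := by
        rw [← hJ, ← he]
        simp only [Pi.add_apply]
        rw [Finset.sum_add_distrib, Finset.sum_pi_single']
        simp
      have hTc : T.card + 1 ≤ D := by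
        have h2 : T.card ≤ ∑ o, e o := by
          calc T.card = ∑ o ∈ T, 1 := by simp
            _ ≤ ∑ o ∈ T, e o := by
              apply Finset.sum_le_sum
              intro o ho
              rw [← hes, supp, Finset.mem_filter] at ho
              omega
            _ ≤ ∑ o, e o := Finset.sum_le_sum_of_subset (Finset.subset_univ T)
        omega
      have hen : e none ≠ 0 := by
        simp only [e]
        split_ifs with h
        · omega
        · exact h0
      obtain ⟨y, hy1, hy2⟩ := dual_vec (D := D) T (by omega) p hpT hD
      have h3 : ∑ l, (∑ r, y r * X (some r, l)) * Phi S (e + Pi.single l 1) = 0 := by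
        have h4 : ∀ l, (∑ r, y r * X (some r, l)) * Phi S (e + Pi.single l 1) =
            ∑ r, y r * (X (some r, l) * Phi S (e + Pi.single l 1)) := by
          intro l
          rw [Finset.sum_mul]
          apply Finset.sum_congr rfl
          intro r _
          ring
        simp only [h4]
        rw [Finset.sum_comm]
        apply Finset.sum_eq_zero
        intro r _
        rw [← Finset.mul_sum, Phi_cramer, mul_zero]
      rw [Finset.sum_eq_single_of_mem p (Finset.mem_univ p)] at h3
      · rw [he] at h3
        rcases mul_eq_zero.1 h3 with h | h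
        · exact absurd h hy1
        · exact h
      · intro l _ hl
        by_cases hlT : l ∈ T
        · rw [hy2 l hlT hl, zero_mul]
        · have h5 : Phi S (e + Pi.single l 1) = 0 := by
            have h6 : (supp (e + Pi.single l 1)).card = T.card + 1 := by
              rw [supp_add_single, hes, Finset.card_insert_of_notMem hlT]
            refine ih (D - (supp (e + Pi.single l 1)).card) ?_ _ rfl ?_ ?_
            · rw [h6]
              omega
            · simp only [Pi.add_apply]
              rw [Finset.sum_add_distrib, Finset.sum_pi_single']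
              simpa using hesum
            · simp only [Pi.add_apply]
              omega
          rw [h5, mul_zero]
  exact main _ J rfl hJ h0

omit [Fintype M] in
theorem ext_add (e : M → ℕ) (l : M) :
    ext (e + Pi.single l 1) = ext e + Pi.single (some l) 1 := by
  classical
  funext o
  cases o with
  | none => simp [ext]
  | some m =>
    by_cases h : m = l
    · subst h
      simp [ext]
    · simp [ext, h]

theorem phi_rel (S : Swp M D) (e : M → ℕ) (he : ∑ l, e l + 1 = D) (r : Fin D) :
    ∑ l, X (some r, some l) * phi S (e + Pi.single l 1) = 0 := by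
  classical
  have h1 := Phi_cramer S (ext e) r
  rw [Fintype.sum_option] at h1
  have h2 : Phi S (ext e + Pi.single none 1) = 0 := by
    apply Phi_none
    · rw [Fintype.sum_option]
      simp only [Pi.add_apply]
      have h3 : ∀ m : M, ext e (some m) + (Pi.single none 1 : Option M → ℕ) (some m) = e m := by
        intro m
        simp [ext]
      simp only [h3]
      simp only [ext, Option.elim, Pi.single_eq_same]
      omega
    · simp [ext]
  rw [h2, mul_zero, zero_add] at h1
  rw [← h1]
  apply Finset.sum_congr rfl
  intro l _
  rw [phi, ext_add]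

theorem supp_ext (e : M → ℕ) : supp (ext e) = (supp e).image some := by
  ext o
  cases o with
  | none => simp [supp, ext]
  | some m => simp [supp, ext]

omit [Fintype M] in
theorem image_sub_cols {s F : Finset M} : s.image some ⊆ cols F ↔ s ⊆ F := by
  rw [cols]
  constructor
  · intro h m hm
    have h7 := h (Finset.mem_image_of_mem some hm)
    simpa using h7
  · intro h
    exact (Finset.image_subset_image h).trans (Finset.subset_insert _ _)

theorem supp_ind (s : Finset M) : supp (ind s) = s := by
  ext m
  simp [supp, ind]

theorem phi_vertex (S : Swp M D) (v : Finset M) (hv : v ∈ S.V) : phi S (ind v) ≠ 0 := by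
  classical
  have hmin : ∀ F ∈ S.V, ∀ j ∈ cols F, minor D ((cols F).erase j) ≠ 0 := by
    intro F hF j hj
    apply minor_ne_zero
    rw [Finset.card_erase_of_mem hj, card_cols S hF]
    rfl
  have h1 : S.V.filter (fun F => supp (ext (ind v)) ⊆ cols F) = {v} := by
    ext F
    rw [Finset.mem_filter, supp_ext, supp_ind, image_sub_cols, Finset.mem_singleton]
    constructor
    · rintro ⟨h2, h3⟩
      refine (Finset.eq_of_subset_of_card_le h3 ?_).symm
      rw [S.card_eq F h2, S.card_eq v hv]
    · rintro rfl
      exact ⟨hv, Finset.Subset.refl _⟩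
  rw [phi, Phi, h1, Finset.sum_singleton]
  refine mul_ne_zero ?_ ?_
  · rw [EF]
    refine Finset.prod_ne_zero_iff.2 fun G hG => Finset.prod_ne_zero_iff.2 fun j hj => ?_
    exact hmin G (Finset.mem_of_mem_erase hG) j hj
  · exact Finset.prod_ne_zero_iff.2 fun j hj => pow_ne_zero _ (hmin v hv j hj)

theorem phi_supp (S : Swp M D) (e : M → ℕ) (he : ¬ S.face (supp e)) : phi S e = 0 := by
  classical
  rw [phi, Phi, supp_ext]
  apply Finset.sum_eq_zero
  intro F hF
  rw [Finset.mem_filter, image_sub_cols] at hF
  exact absurd ⟨F, hF.1, hF.2⟩ he

end WLP
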