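import Pool.Agent.WLP.DualOf
import Pool.Agent.WLP.Det
import Pool.Agent.WLP.Phi

/-!
WLP: duality (step 4 of KAL_helper60.md).
-/

set_option maxHeartbeats 4000000

namespace WLP

open MvPolynomial

variable {M : Type} [Fintype M] [DecidableEq M] {D : ℕ}

theorem dual_rep (S : Swp M D) (n : ℕ) (hn : n ≤ D) (f : (M → ℕ) → R2 M D)
    (hf : KK S (fun (r : Fin D) l => (X (some r, some l) : R2 M D)) n f) :
    ∃ s : R2 M D, s ≠ 0 ∧ ∃ c : Finset M → R2 M D, ∀ e : M → ℕ, ∑ l, e l = n →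
      s * f e = ∑ w ∈ S.V.filter (fun w => (w \ S.P w).card = n),
        c w * phi S (ind (S.P w) + e) :=
  dual_rep_of S (fun K _ a hind n f hf h0 => det_hi S a hind n f hf h0)
    (phi_rel S) (phi_vertex S) (phi_supp S) n hn f hf

end WLP
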