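import Pool.Agent.WLP.Defs

/-! Row END: injectivity in characteristic 2 (step 5), inputs as hypotheses -/

set_option maxHeartbeats 4000000
set_option linter.unusedSectionVars false

namespace WLP

open MvPolynomial

variable {M : Type} [Fintype M] [DecidableEq M] {D : ℕ}

theorem end_two : (2 : R2 M D) = 0 := by
  have h : (2 : ZMod 2) = 0 := by decide
  have h1 : (C (2 : ZMod 2) : R2 M D) = 2 := map_ofNat C 2
  rw [← h1, h, map_zero]

theorem end_double (x : R2 M D) : x + x = 0 := by
  rw [← two_mul, end_two, zero_mul]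

theorem end_sq (i : Option (Fin D) × Option M) (c g : R2 M D) :
    pderiv i (c ^ 2 * g) = c ^ 2 * pderiv i g := by
  rw [Derivation.leibniz, Derivation.leibniz_pow]
  simp only [smul_eq_mul, nsmul_eq_mul]
  have : ((2 : ℕ) : R2 M D) = 0 := by exact_mod_cast (end_two (M := M) (D := D))
  rw [this]
  ring

theorem end_list (L : List (R2 M D →ₗ[ZMod 2] R2 M D))
    (h : ∀ T ∈ L, ∀ c g : R2 M D, T (c ^ 2 * g) = c ^ 2 * T g) (c g : R2 M D) :
    L.prod (c ^ 2 * g) = c ^ 2 * L.prod g := by
  induction L generalizing g with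
  | nil => simp
  | cons T L ih =>
    rw [List.prod_cons, Module.End.mul_apply, Module.End.mul_apply,
      ih (fun T hT => h T (List.mem_cons_of_mem _ hT)) g, h T List.mem_cons_self]

theorem end_dI (I : Fin D → Option M) (c g : R2 M D) :
    dI I (c ^ 2 * g) = c ^ 2 * dI I g := by
  apply end_list
  intro T hT c g
  rw [List.mem_map] at hT
  obtain ⟨r, -, rfl⟩ := hT
  exact end_sq _ c g

theorem end_sym {α : Type*} [DecidableEq α] (W : Finset α) (g : α → α → R2 M D)
    (hg : ∀ x y, g x y = g y x) : ∑ x ∈ W, ∑ y ∈ W, g x y = ∑ x ∈ W, g x x := by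
  induction W using Finset.induction_on with
  | empty => simp
  | insert a s ha ih =>
    rw [Finset.sum_insert ha, Finset.sum_insert ha, Finset.sum_insert ha]
    have h1 : ∀ x ∈ s, ∑ y ∈ insert a s, g x y = g a x + ∑ y ∈ s, g x y := by
      intro x _
      rw [Finset.sum_insert ha, hg x a]
    rw [Finset.sum_congr rfl h1, Finset.sum_add_distrib, ih]
    have h2 := end_double (∑ x ∈ s, g a x)
    linear_combination h2

theorem end_pd_sum {α : Type*} (s : Finset α) (i : Option (Fin D) × Option M) (g : α → R2 M D)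
    (h : ∀ x ∈ s, pderiv i (g x) = 0) : pderiv i (∑ x ∈ s, g x) = 0 := by
  rw [map_sum]
  exact Finset.sum_eq_zero h

theorem end_pd_mul (i : Option (Fin D) × Option M) (x y : R2 M D) (hx : pderiv i x = 0)
    (hy : pderiv i y = 0) : pderiv i (x * y) = 0 := by
  rw [Derivation.leibniz, hx, hy, smul_zero, smul_zero, add_zero]

theorem end_pd_prod {α : Type*} (s : Finset α) (i : Option (Fin D) × Option M)
    (g : α → R2 M D) (h : ∀ x ∈ s, pderiv i (g x) = 0) : pderiv i (∏ x ∈ s, g x) = 0 := by
  classical
  induction s using Finset.induction_on with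
  | empty => rw [Finset.prod_empty]; exact Derivation.map_one_eq_zero _
  | insert a s ha ih =>
    rw [Finset.prod_insert ha]
    exact end_pd_mul i _ _ (h a (Finset.mem_insert_self a s))
      (ih (fun x hx => h x (Finset.mem_insert_of_mem hx)))

theorem end_pd_pow (i : Option (Fin D) × Option M) (x : R2 M D) (n : ℕ) (hx : pderiv i x = 0) :
    pderiv i (x ^ n) = 0 := by
  rw [Derivation.leibniz_pow, hx, smul_zero, smul_zero]

theorem end_minor (C : Finset (Option M)) (x : Option M) :
    pderiv ((none, x) : Option (Fin D) × Option M) (minor D C) = 0 := by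
  apply end_pd_sum
  intro τ _
  apply end_pd_prod
  intro r _
  rw [pderiv_X_of_ne]
  intro h
  exact absurd (congrArg Prod.fst h) (by simp)

theorem end_const (S : Swp M D) (J : M → ℕ) (x : Option M) :
    pderiv ((none, x) : Option (Fin D) × Option M) (EE S * phi S J) = 0 := by
  apply end_pd_mul
  · apply end_pd_prod
    intro F _
    apply end_pd_prod
    intro j _
    exact end_minor _ _
  · apply end_pd_sum
    intro F _
    apply end_pd_mul
    · apply end_pd_prod
      intro F _
      apply end_pd_prod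
      intro j _
      exact end_minor _ _
    · apply end_pd_prod
      intro j _
      exact end_pd_pow _ _ _ (end_minor _ _)

theorem end_split (k : ℕ) (μ : M → ℕ) (m : ℕ) (h : ∑ l, μ l = m + k) :
    ∃ (I : Fin k → M) (ρ : M → ℕ), ∑ l, ρ l = m ∧
      ∀ l, μ l = ρ l + (Finset.univ.filter (fun r => I r = l)).card := by
  induction k generalizing μ with
  | zero => exact ⟨Fin.elim0, μ, h, fun l => by simp⟩
  | succ k ih =>
    have hex : ∃ l, μ l ≠ 0 := by
      by_contra hcon
      push Not at hcon
      rw [Finset.sum_eq_zero (fun l _ => hcon l)] at h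
      omega
    obtain ⟨l0, hl0⟩ := hex
    have hdec : ∀ l, μ l = (fun l => if l = l0 then μ l - 1 else μ l) l +
        (if l = l0 then 1 else 0) := by
      intro l
      by_cases hl : l = l0
      · subst hl
        simp only [if_true]
        omega
      · simp [hl]
    have hsum : ∑ l, (fun l => if l = l0 then μ l - 1 else μ l) l = m + k := by
      have h1 : ∑ l, μ l = ∑ l, (fun l => if l = l0 then μ l - 1 else μ l) l +
          ∑ l, (if l = l0 then 1 else 0) := by
        rw [← Finset.sum_add_distrib]
        exact Finset.sum_congr rfl (fun l _ => hdec l)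
      have h2 : ∑ l : M, (if l = l0 then 1 else 0) = 1 := by simp
      rw [h2, h] at h1
      omega
    obtain ⟨I, ρ, h1, h2⟩ := ih _ hsum
    refine ⟨Fin.cons l0 I, ρ, h1, ?_⟩
    intro l
    have h3 : (if l = l0 then μ l - 1 else μ l) = ρ l +
        (Finset.univ.filter (fun r => I r = l)).card := h2 l
    rw [hdec l]
    change (if l = l0 then μ l - 1 else μ l) + (if l = l0 then 1 else 0) = _
    rw [h3, add_assoc]
    congr 1
    rw [Finset.card_filter, Finset.card_filter, Fin.sum_univ_succ, add_comm]
    simp only [Fin.cons_zero, Fin.cons_succ]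
    congr 1
    by_cases h4 : l = l0
    · rw [if_pos h4, if_pos h4.symm]
    · rw [if_neg h4, if_neg (fun h5 => h4 h5.symm)]

/-- END with its inputs as hypotheses -/
theorem inj2_of
    (DIh : ∀ (S : Swp M D) (I : Fin D → M) (J : M → ℕ) (ν : M → ℕ),
      (∀ l, J l + (Finset.univ.filter (fun r => I r = l)).card = 2 * ν l) →
      dI (fun r => some (I r)) (EE S * phi S J) = phi S ν ^ 2)
    (DUALh : ∀ (S : Swp M D) (n : ℕ), n ≤ D → ∀ f : (M → ℕ) → R2 M D,
      KK S (fun (r : Fin D) l => (X (some r, some l) : R2 M D)) n f →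
      ∃ s : R2 M D, s ≠ 0 ∧ ∃ c : Finset M → R2 M D, ∀ e : M → ℕ, ∑ l, e l = n →
      s * f e = ∑ w ∈ S.V.filter (fun w => (w \ S.P w).card = n),
        c w * phi S (ind (S.P w) + e))
    (S : Swp M D) (n : ℕ) (hn : D + 1 ≤ 2 * n) (hn' : n ≤ D) (f : (M → ℕ) → R2 M D)
    (hf : KK S (fun (r : Option (Fin D)) l => (X (r, some l) : R2 M D)) n f) :
    ∀ e : M → ℕ, ∑ l, e l = n → f e = 0 := by
  intro ν hν
  obtain ⟨s, hs, c, hc⟩ := DUALh S n hn' f ⟨hf.1, fun e he r => hf.2 e he (some r)⟩
  set W := S.V.filter (fun w => (w \ S.P w).card = n) with hW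
  -- decomposition of `2 ν`
  obtain ⟨I', ρ, hρ, hI'⟩ := end_split (D + 1) (fun l => 2 * ν l) (2 * n - D - 1) (by
    rw [← Finset.mul_sum, hν]; omega)
  have hcount : ∀ l, 2 * ν l = ρ l + (if I' 0 = l then 1 else 0) +
      (Finset.univ.filter (fun r : Fin D => I' r.succ = l)).card := by
    intro l
    have h1 := hI' l
    rw [h1, Finset.card_filter, Finset.card_filter, Fin.sum_univ_succ]
    ring
  have hPcard : ∀ w ∈ W, ∑ l, ind (S.P w) l = D - n := by
    intro w hw
    rw [hW, Finset.mem_filter] at hw
    have h1 := S.card_eq w hw.1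
    have h2 := Finset.card_sdiff_add_card_eq_card (S.P_sub w hw.1)
    have h3 : ∑ l, ind (S.P w) l = (S.P w).card := by
      simp [ind]
    rw [h3]
    omega
  have h1 : ∀ w' ∈ W, ∑ w ∈ W, c w * ∑ l, X (none, some l) *
      phi S (ind (S.P w) + (ind (S.P w') + ρ + Pi.single l 1)) = 0 := by
    intro w' hw'
    have h2 : ∑ l, (ind (S.P w') + ρ) l + 1 = n := by
      simp only [Pi.add_apply, Finset.sum_add_distrib]
      rw [hPcard w' hw', hρ]
      omega
    have h3 := hf.2 (ind (S.P w') + ρ) h2 none
    have h4 : ∑ l, X (none, some l) * (s * f (ind (S.P w') + ρ + Pi.single l 1)) = 0 := by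
      have h5 := congrArg (fun z => s * z) h3
      simp only [mul_zero, Finset.mul_sum] at h5
      rw [← h5]
      exact Finset.sum_congr rfl (fun l _ => by ring)
    rw [← h4]
    have h6 : ∀ l, s * f (ind (S.P w') + ρ + Pi.single l 1) =
        ∑ w ∈ W, c w * phi S (ind (S.P w) + (ind (S.P w') + ρ + Pi.single l 1)) := by
      intro l
      apply hc
      have h7 : ∑ k, (ind (S.P w') + ρ + (Pi.single l 1 : M → ℕ)) k =
          ∑ k, (ind (S.P w') + ρ) k + ∑ k, (Pi.single l 1 : M → ℕ) k := by
        rw [← Finset.sum_add_distrib]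
        rfl
      rw [h7, Finset.sum_pi_single']
      simpa using h2
    have h8 : ∑ l, (X (none, some l) : R2 M D) * (s * f (ind (S.P w') + ρ + Pi.single l 1)) =
        ∑ l, X (none, some l) *
          ∑ w ∈ W, c w * phi S (ind (S.P w) + (ind (S.P w') + ρ + Pi.single l 1)) :=
      Finset.sum_congr rfl (fun l _ => by rw [h6 l])
    rw [h8]
    simp only [Finset.mul_sum]
    rw [Finset.sum_comm]
    exact Finset.sum_congr rfl (fun l _ => Finset.sum_congr rfl (fun w _ => by ring))
  have h2 : ∑ w ∈ W, c w ^ 2 * ∑ l, X (none, some l) *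
      phi S (ind (S.P w) + (ind (S.P w) + ρ + Pi.single l 1)) = 0 := by
    have h3 : ∑ w' ∈ W, ∑ w ∈ W, c w' * (c w * ∑ l, X (none, some l) *
      phi S (ind (S.P w) + (ind (S.P w') + ρ + Pi.single l 1))) = 0 := by
      apply Finset.sum_eq_zero
      intro w' hw'
      rw [← Finset.mul_sum, h1 w' hw', mul_zero]
    have h5 := end_sym W (fun w' w => c w' * (c w * ∑ l, X (none, some l) *
      phi S (ind (S.P w) + (ind (S.P w') + ρ + Pi.single l 1)))) ?_
    · have h6 := h5.symm.trans h3
      rw [← h6]
      exact Finset.sum_congr rfl (fun w _ => by ring)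
    · intro x y
      have h4 : ∀ l, ind (S.P y) + (ind (S.P x) + ρ + (Pi.single l 1 : M → ℕ)) =
          ind (S.P x) + (ind (S.P y) + ρ + (Pi.single l 1 : M → ℕ)) := by
        intro l
        funext k
        simp only [Pi.add_apply]
        ring
      simp only [h4]
      ring
  -- multiply by `E` and differentiate in the row `none`
  have h3 : ∑ w ∈ W, c w ^ 2 * ∑ l, X (none, some l) *
      (EE S * phi S (ind (S.P w) + (ind (S.P w) + ρ + Pi.single l 1))) = 0 := by
    have h4 := congrArg (fun z => EE S * z) h2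
    simp only [mul_zero, Finset.mul_sum] at h4
    rw [← h4]
    simp only [Finset.mul_sum]
    exact Finset.sum_congr rfl (fun w _ => Finset.sum_congr rfl (fun l _ => by ring))
  have h4 : ∑ w ∈ W, c w ^ 2 *
      (EE S * phi S (ind (S.P w) + (ind (S.P w) + ρ + Pi.single (I' 0) 1))) = 0 := by
    have h5 := congrArg (fun z => pderiv ((none, some (I' 0)) : Option (Fin D) × Option M) z) h3
    simp only [map_sum, map_zero, end_sq] at h5
    rw [← h5]
    apply Finset.sum_congr rfl
    intro w _
    congr 1
    rw [Finset.sum_eq_single (I' 0)]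
    · rw [Derivation.leibniz, end_const, smul_zero, zero_add, pderiv_X_self, smul_eq_mul, mul_one]
    · intro l _ hl
      rw [Derivation.leibniz, end_const, smul_zero, zero_add, pderiv_X_of_ne, smul_zero]
      intro h6
      apply hl
      have h7 := congrArg Prod.snd h6
      exact Option.some_injective _ h7
    · intro h6
      exact absurd (Finset.mem_univ _) h6
  -- differentiate in the other rows
  have h5 : ∑ w ∈ W, c w ^ 2 * phi S (ind (S.P w) + ν) ^ 2 = 0 := by
    have h6 := congrArg (fun z => dI (fun r : Fin D => some (I' r.succ)) z) h4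
    simp only [map_sum, map_zero, end_dI] at h6
    rw [← h6]
    apply Finset.sum_congr rfl
    intro w _
    congr 1
    symm
    apply DIh S (fun r => I' r.succ)
    intro l
    have h7 := hcount l
    simp only [Pi.add_apply]
    have h8 : (Pi.single (I' 0) 1 : M → ℕ) l = if I' 0 = l then 1 else 0 := by
      rw [Pi.single_apply]
      by_cases h9 : l = I' 0
      · rw [if_pos h9, if_pos h9.symm]
      · rw [if_neg h9, if_neg (fun h10 => h9 h10.symm)]
    rw [h8]
    omega
  have h6 : (s * f ν) ^ 2 = 0 := by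
    rw [hc ν hν, ← h5]
    have h7 : ∀ (A : Finset (Finset M)) (g : Finset M → R2 M D),
        (∑ w ∈ A, g w) ^ 2 = ∑ w ∈ A, g w ^ 2 := by
      intro A g
      rw [pow_two, Finset.sum_mul_sum]
      rw [end_sym A (fun x y => g x * g y) (fun x y => mul_comm _ _)]
      exact Finset.sum_congr rfl (fun w _ => by ring)
    rw [h7]
    exact Finset.sum_congr rfl (fun w _ => by ring)
  have h7 := pow_eq_zero_iff (two_ne_zero) |>.1 h6
  rcases mul_eq_zero.1 h7 with h8 | h8
  · exact absurd h8 hs
  · exact h8

end WLP
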