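import Mathlib

/-! Row RANK -/

set_option autoImplicit false

namespace WLP

open Classical in
theorem exists_rank {α : Type*} (V : Finset α) (f : α → ℝ) :
    ∃ r : α → ℕ, (∀ v ∈ V, ∀ w ∈ V, r v = r w → v = w) ∧
      ∀ v ∈ V, ∀ w ∈ V, f v < f w → r v < r w := by
  induction hn : V.card generalizing V with
  | zero =>
    rw [Finset.card_eq_zero] at hn
    subst hn
    exact ⟨fun _ => 0, by simp, by simp⟩
  | succ n ih =>
    have hne : V.Nonempty := by
      rw [← Finset.card_pos, hn]
      exact Nat.succ_pos n
    obtain ⟨v0, hv0, hmax⟩ := Finset.exists_max_image V f hne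
    obtain ⟨r, h1, h2⟩ := ih (V.erase v0) (by rw [Finset.card_erase_of_mem hv0, hn]; rfl)
    have hlt : ∀ v ∈ V, v ≠ v0 → r v < (V.erase v0).sup r + 1 := fun v hv hne =>
      Nat.lt_succ_of_le (Finset.le_sup (f := r) (Finset.mem_erase.2 ⟨hne, hv⟩))
    refine ⟨fun v => if v = v0 then (V.erase v0).sup r + 1 else r v, ?_, ?_⟩
    · intro v hv w hw h
      by_cases e1 : v = v0
      · by_cases e2 : w = v0
        · rw [e1, e2]
        · simp only [e1, e2, if_true, if_false] at h
          exact absurd h (hlt w hw e2).ne'
      · by_cases e2 : w = v0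
        · simp only [e1, e2, if_true, if_false] at h
          exact absurd h (hlt v hv e1).ne
        · simp only [e1, e2, if_false] at h
          exact h1 v (Finset.mem_erase.2 ⟨e1, hv⟩) w (Finset.mem_erase.2 ⟨e2, hw⟩) h
    · intro v hv w hw h
      by_cases e2 : w = v0
      · have e1 : v ≠ v0 := by
          intro e1
          rw [e1, e2] at h
          exact lt_irrefl _ h
        simp only [e1, e2, if_true, if_false]
        exact hlt v hv e1
      · have e1 : v ≠ v0 := by
          intro e1
          rw [e1] at h
          exact absurd h (not_lt.2 (hmax w hw))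
        simp only [e1, e2, if_false]
        exact h2 v (Finset.mem_erase.2 ⟨e1, hv⟩) w (Finset.mem_erase.2 ⟨e2, hw⟩) h

end WLP
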