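import Pool.Agent.WLP.Defs2
import Pool.Agent.WLP.Rank
import Pool.Agent.KST.G0
import Pool.Agent.KST.G1b
import Pool.Agent.KST.G2

/-! Row LINK of the WLP project: the facet `(j, +)` of a simple centrally symmetric polytope as
sweep data. -/

set_option autoImplicit false

open scoped BigOperators RealInnerProductSpace

namespace WLP

noncomputable section

open Classical

open Pool.Agent.KST (E IsCell Cells Verts Simple Pol pt PP Gen Star VF Low LowF Inside hh)

namespace Link

variable {ι : Type} [Fintype ι] {d : ℕ} {b : ι → E d}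

theorem mem_supp {s : ι → SignType} {l : ι} : l ∈ Pool.Agent.KST.supp s ↔ s l ≠ 0 :=
  Pool.Agent.KST.G1b_mem_supp

theorem mem_VF {v : ι → SignType} {j : ι} : v ∈ VF b j ↔ v ∈ Verts b ∧ v j = 1 := by
  unfold VF
  rw [Finset.mem_filter]

theorem VF_cell {v : ι → SignType} {j : ι} (hv : v ∈ VF b j) : v ∈ Cells b :=
  Pool.Agent.KST.G1b_verts_sub (mem_VF.1 hv).1

theorem VF_j {v : ι → SignType} {j : ι} (hv : v ∈ VF b j) : v j ≠ 0 := by
  rw [(mem_VF.1 hv).2]
  decide

/-- the common sign of the constraint `l` on the facet `(j, +)` -/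
def gs (b : ι → E d) (j : ι) (l : ι) : SignType :=
  if h : ∃ t, t ∈ Cells b ∧ t j = 1 ∧ t l ≠ 0 then h.choose l else 0

/-- the sign vector of the face with labels `s` -/
def sig (b : ι → E d) (j : ι) (s : Finset ι) : ι → SignType :=
  fun l => if l = j ∨ l ∈ s then gs b j l else 0

/-- hypothesis: no two opposite facets meet `(j, +)` -/
def HA (b : ι → E d) (j : ι) : Prop :=
  ∀ s ∈ Cells b, ∀ t ∈ Cells b, s j = 1 → t j = 1 → ∀ l, s l ≠ 0 → t l ≠ 0 → s l = t l

theorem gs_eq {j : ι} (hA : HA b j) {t : ι → SignType} (ht : t ∈ Cells b) (hj : t j = 1) {l : ι}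
    (hl : t l ≠ 0) : gs b j l = t l := by
  have h : ∃ t, t ∈ Cells b ∧ t j = 1 ∧ t l ≠ 0 := ⟨t, ht, hj, hl⟩
  unfold gs
  rw [dif_pos h]
  exact hA _ h.choose_spec.1 t ht h.choose_spec.2.1 hj l h.choose_spec.2.2 hl

theorem sig_vertex {j : ι} (hA : HA b j) {v : ι → SignType} (hv : v ∈ VF b j) :
    sig b j ((Pool.Agent.KST.supp v).erase j) = v := by
  funext l
  unfold sig
  by_cases h : v l = 0
  · have h1 : ¬ (l = j ∨ l ∈ (Pool.Agent.KST.supp v).erase j) := by
      rintro (h1 | h1)
      · exact VF_j hv (h1 ▸ h)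
      · exact mem_supp.1 (Finset.mem_of_mem_erase h1) h
    rw [if_neg h1, h]
  · have h1 : l = j ∨ l ∈ (Pool.Agent.KST.supp v).erase j := by
      by_cases h2 : l = j
      · exact Or.inl h2
      · exact Or.inr (Finset.mem_erase.2 ⟨h2, mem_supp.2 h⟩)
    rw [if_pos h1]
    exact gs_eq hA (VF_cell hv) (mem_VF.1 hv).2 h

theorem sig_eq {j : ι} (hA : HA b j) {v : ι → SignType} (hv : v ∈ VF b j) {s : Finset ι}
    (hs : s ⊆ (Pool.Agent.KST.supp v).erase j) {l : ι} (hl : l = j ∨ l ∈ s) :
    sig b j s l = v l ∧ v l ≠ 0 := by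
  have h1 : v l ≠ 0 := by
    rcases hl with h | h
    · rw [h]; exact VF_j hv
    · exact mem_supp.1 (Finset.mem_of_mem_erase (hs h))
  refine ⟨?_, h1⟩
  unfold sig
  rw [if_pos hl]
  exact gs_eq hA (VF_cell hv) (mem_VF.1 hv).2 h1

theorem sig_ne {j : ι} (hA : HA b j) {v : ι → SignType} (hv : v ∈ VF b j) {s : Finset ι}
    (hs : s ⊆ (Pool.Agent.KST.supp v).erase j) (l : ι) :
    sig b j s l ≠ 0 ↔ (l = j ∨ l ∈ s) := by
  constructor
  · intro h
    by_contra h1
    apply h
    unfold sig
    rw [if_neg h1]
  · intro h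
    have := sig_eq hA hv hs h
    rw [this.1]
    exact this.2

theorem sig_le {j : ι} (hA : HA b j) {v : ι → SignType} (hv : v ∈ VF b j) {s : Finset ι}
    (hs : s ⊆ (Pool.Agent.KST.supp v).erase j) : Pool.Agent.KST.Le (sig b j s) v := by
  intro l hl
  exact (sig_eq hA hv hs ((sig_ne hA hv hs l).1 hl)).1.symm

theorem sig_cell (hS : Simple b) {j : ι} (hA : HA b j) {v : ι → SignType} (hv : v ∈ VF b j)
    {s : Finset ι} (hs : s ⊆ (Pool.Agent.KST.supp v).erase j) : sig b j s ∈ Cells b :=
  Pool.Agent.KST.cells_down hS (VF_cell hv) (sig_le hA hv hs)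

theorem sig_j {j : ι} (hA : HA b j) {v : ι → SignType} (hv : v ∈ VF b j)
    {s : Finset ι} (hs : s ⊆ (Pool.Agent.KST.supp v).erase j) : sig b j s j = 1 := by
  rw [(sig_eq hA hv hs (Or.inl rfl)).1]
  exact (mem_VF.1 hv).2

theorem low_mem {j : ι} {a : E d} {x t : ι → SignType} (hx : x ∈ Verts b)
    (h : Low (PP b a) x t) (hj : t j = 1) : x ∈ VF b j := by
  rw [mem_VF]
  refine ⟨hx, ?_⟩
  have h1 : x j = t j := h.1 j (by rw [hj]; decide)
  rw [h1, hj]

theorem low_ex (hS : Simple b) (hb : Bornology.IsBounded (Pol b)) {a : E d} (ha : Gen b a) {j : ι}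
    {t : ι → SignType} (ht : t ∈ Cells b) (hj : t j = 1) :
    ∃ x, x ∈ VF b j ∧ Low (PP b a) x t := by
  obtain ⟨x, hx, h⟩ := (Pool.Agent.KST.sweep_cells hS hb ha).ex t ht
  exact ⟨x, low_mem hx h hj, h⟩

theorem low_uniq (hS : Simple b) (hb : Bornology.IsBounded (Pol b)) {a : E d} (ha : Gen b a)
    {j : ι} {t : ι → SignType} (ht : t ∈ Cells b) {x y : ι → SignType} (hx : x ∈ VF b j)
    (hy : y ∈ VF b j) (h1 : Low (PP b a) x t) (h2 : Low (PP b a) y t) : x = y :=
  (Pool.Agent.KST.sweep_cells hS hb ha).uniq t ht x (mem_VF.1 hx).1 y (mem_VF.1 hy).1 h1 h2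

/-- the vertex `w` whose lower face contains `t` is not above the lowest vertex of `t` -/
theorem low_ge (hS : Simple b) (hb : Bornology.IsBounded (Pol b)) {a : E d} (ha : Gen b a) {j : ι}
    (hA : HA b j) {t : ι → SignType} (ht : t ∈ Cells b) (hj : t j = 1) {w x : ι → SignType}
    (hw : w ∈ VF b j) (hx : x ∈ VF b j) (hx' : Low (PP b a) x t)
    (hP : ∀ l ∈ PP b a w, l ≠ j → t l ≠ 0) :
    w = x ∨ ⟪a, pt b w⟫ < ⟪a, pt b x⟫ := by
  have hP' : ∀ l ∈ PP b a w, t l ≠ 0 := by
    intro l hl
    by_cases h : l = j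
    · rw [h, hj]; decide
    · exact hP l hl h
  by_cases hle : Pool.Agent.KST.Le t w
  · left
    exact low_uniq hS hb ha ht hw hx ⟨hle, hP'⟩ hx'
  · right
    let s0 : ι → SignType := fun l => if l = j ∨ l ∈ PP b a w then w l else 0
    have h1 : Pool.Agent.KST.Le s0 w := by
      intro l hl
      by_cases h : l = j ∨ l ∈ PP b a w
      · exact (if_pos h).symm
      · exact absurd (if_neg h) hl
    have h2 : Low (PP b a) w s0 := by
      refine ⟨h1, fun l hl => ?_⟩
      have h3 : s0 l = w l := if_pos (Or.inr hl)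
      rw [h3]
      exact (Pool.Agent.KST.G1b_mem_PP.1 hl).1
    have h3 : Pool.Agent.KST.Le s0 t := by
      intro l hl
      by_cases h : l = j ∨ l ∈ PP b a w
      · have h4 : s0 l = w l := if_pos h
        rw [h4] at hl ⊢
        have h5 : t l ≠ 0 := by
          rcases h with h | h
          · rw [h, hj]; decide
          · exact hP' l h
        exact hA t ht w (VF_cell hw) hj (mem_VF.1 hw).2 l h5 hl
      · exact absurd (if_neg h) hl
    exact (Pool.Agent.KST.sweep_cells hS hb ha).up s0 t ht h3 w (mem_VF.1 hw).1 h2 hle x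
      (mem_VF.1 hx).1 hx'

theorem pt_ne {x y : ι → SignType} (hx : x ∈ Cells b) (hy : y ∈ Cells b) (h : x ≠ y) :
    pt b y ≠ pt b x := by
  intro h1
  apply h
  have h2 := Pool.Agent.KST.isCell_pt hx
  have h3 := Pool.Agent.KST.isCell_pt hy
  rw [h1] at h3
  exact Pool.Agent.KST.isCell_inj h2 h3

theorem low_le_high (hS : Simple b) {a : E d} (ha : Gen b a) {j : ι}
    {t : ι → SignType} {x y : ι → SignType} (hx : x ∈ VF b j)
    (hy : y ∈ VF b j) (h1 : Low (PP b a) x t) (h2 : Pool.Agent.KST.Le t y) :
    x = y ∨ ⟪a, pt b x⟫ < ⟪a, pt b y⟫ := by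
  by_cases h : x = y
  · exact Or.inl h
  · right
    have hy' := Pool.Agent.KST.isCell_pt (VF_cell hy)
    refine Pool.Agent.KST.low_lt hS ha (mem_VF.1 hx).1 h1 (Pool.Agent.KST.isCell_pol hy') ?_
      (pt_ne (VF_cell hx) (VF_cell hy) h)
    intro l hl
    have h3 : y l = t l := h2 l hl
    rw [(hy' l).2 (by rw [h3]; exact hl), h3]

/-- the lowest vertex for `a` of the face with labels `s` -/
def lov (b : ι → E d) (a : E d) (j : ι) (s : Finset ι) : ι → SignType :=
  if h : ∃ x, x ∈ VF b j ∧ Low (PP b a) x (sig b j s) then h.choose else 0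

theorem lov_spec (hS : Simple b) (hb : Bornology.IsBounded (Pol b)) {a : E d} (ha : Gen b a)
    {j : ι} (hA : HA b j) {v : ι → SignType} (hv : v ∈ VF b j) {s : Finset ι}
    (hs : s ⊆ (Pool.Agent.KST.supp v).erase j) :
    lov b a j s ∈ VF b j ∧ Low (PP b a) (lov b a j s) (sig b j s) := by
  have h := low_ex hS hb ha (sig_cell hS hA hv hs) (sig_j hA hv hs)
  unfold lov
  rw [dif_pos h]
  exact h.choose_spec

theorem erase_inj {j : ι} (hA : HA b j) {v w : ι → SignType} (hv : v ∈ VF b j) (hw : w ∈ VF b j)
    (h : (Pool.Agent.KST.supp v).erase j = (Pool.Agent.KST.supp w).erase j) : v = w := by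
  rw [← sig_vertex hA hv, h, sig_vertex hA hw]

theorem card_erase {d : ℕ} {b : ι → E (d + 1)} {j : ι} {v : ι → SignType} (hv : v ∈ VF b j) :
    ((Pool.Agent.KST.supp v).erase j).card = d := by
  have h1 : (Pool.Agent.KST.supp v).card = d + 1 := (Finset.mem_filter.1 (mem_VF.1 hv).1).2
  rw [Finset.card_erase_of_mem (mem_supp.2 (VF_j hv)), h1]
  rfl

end Link

open Link

theorem link_swp {ι : Type} [Fintype ι] {d : ℕ} {b : ι → E (d + 1)} (hS : Simple b)
    (hb : Bornology.IsBounded (Pol b)) {a : E (d + 1)} (ha : Gen b a) (j : ι)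
    (hA : ∀ s ∈ Cells b, ∀ t ∈ Cells b, s j = 1 → t j = 1 → ∀ l, s l ≠ 0 → t l ≠ 0 → s l = t l) :
    ∃ S : Swp ι d, S.V = (VF b j).image (fun v => (Pool.Agent.KST.supp v).erase j) ∧
      ∀ v ∈ VF b j, S.P ((Pool.Agent.KST.supp v).erase j) = (PP b a v).erase j := by
  have hA' : HA b j := hA
  have hna := Pool.Agent.KST.gen_neg ha
  obtain ⟨r, hr1, hr2⟩ := exists_rank ((VF b j).image (fun v => (Pool.Agent.KST.supp v).erase j))
    (fun u => ⟪a, pt b (sig b j u)⟫)
  have hr3 : ∀ v ∈ VF b j, ∀ w ∈ VF b j, ⟪a, pt b v⟫ < ⟪a, pt b w⟫ →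
      r ((Pool.Agent.KST.supp v).erase j) < r ((Pool.Agent.KST.supp w).erase j) := by
    intro v hv w hw h
    apply hr2 _ (Finset.mem_image_of_mem _ hv) _ (Finset.mem_image_of_mem _ hw)
    rw [sig_vertex hA' hv, sig_vertex hA' hw]
    exact h
  have hN : ∀ v ∈ VF b j, (Pool.Agent.KST.supp v).erase j \ (PP b a v).erase j =
      (PP b (-a) v).erase j := by
    intro v hv
    rw [Pool.Agent.KST.PP_neg ha (mem_VF.1 hv).1]
    ext l
    simp only [Finset.mem_sdiff, Finset.mem_erase]
    tauto
  let S : Swp ι d :=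
    { V := (VF b j).image (fun v => (Pool.Agent.KST.supp v).erase j)
      card_eq := by
        intro u hu
        obtain ⟨v, hv, rfl⟩ := Finset.mem_image.1 hu
        exact card_erase hv
      P := fun u => (PP b a (sig b j u)).erase j
      P_sub := by
        intro u hu
        obtain ⟨v, hv, rfl⟩ := Finset.mem_image.1 hu
        simp only [sig_vertex hA' hv]
        exact Finset.erase_subset_erase _ (Finset.filter_subset _ _)
      lo := fun s => (Pool.Agent.KST.supp (lov b a j s)).erase j
      hi := fun s => (Pool.Agent.KST.supp (lov b (-a) j s)).erase j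
      ht := r
      ht_inj := hr1
      lo_mem := by
        intro u hu s hs
        obtain ⟨v, hv, rfl⟩ := Finset.mem_image.1 hu
        exact Finset.mem_image_of_mem _ (lov_spec hS hb ha hA' hv hs).1
      hi_mem := by
        intro u hu s hs
        obtain ⟨v, hv, rfl⟩ := Finset.mem_image.1 hu
        exact Finset.mem_image_of_mem _ (lov_spec hS hb hna hA' hv hs).1
      sub_lo := by
        intro u hu s hs l hl
        obtain ⟨v, hv, rfl⟩ := Finset.mem_image.1 hu
        have h1 := lov_spec hS hb ha hA' hv hs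
        have h2 := (sig_ne hA' hv hs l).2 (Or.inr hl)
        have h3 := h1.2.1 l h2
        refine Finset.mem_erase.2 ⟨(Finset.mem_erase.1 (hs hl)).1, mem_supp.2 ?_⟩
        rw [h3]
        exact h2
      sub_hi := by
        intro u hu s hs l hl
        obtain ⟨v, hv, rfl⟩ := Finset.mem_image.1 hu
        have h1 := lov_spec hS hb hna hA' hv hs
        have h2 := (sig_ne hA' hv hs l).2 (Or.inr hl)
        have h3 := h1.2.1 l h2
        refine Finset.mem_erase.2 ⟨(Finset.mem_erase.1 (hs hl)).1, mem_supp.2 ?_⟩
        rw [h3]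
        exact h2
      P_lo := by
        intro u hu s hs l hl
        obtain ⟨v, hv, rfl⟩ := Finset.mem_image.1 hu
        have h1 := lov_spec hS hb ha hA' hv hs
        simp only [sig_vertex hA' h1.1] at hl
        have h2 := Finset.mem_erase.1 hl
        have h3 := h1.2.2 l h2.2
        rcases (sig_ne hA' hv hs l).1 h3 with h4 | h4
        · exact absurd h4 h2.1
        · exact h4
      N_hi := by
        intro u hu s hs l hl
        obtain ⟨v, hv, rfl⟩ := Finset.mem_image.1 hu
        have h1 := lov_spec hS hb hna hA' hv hs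
        simp only [sig_vertex hA' h1.1] at hl
        rw [hN _ h1.1] at hl
        have h2 := Finset.mem_erase.1 hl
        have h3 := h1.2.2 l h2.2
        rcases (sig_ne hA' hv hs l).1 h3 with h4 | h4
        · exact absurd h4 h2.1
        · exact h4
      lo_ge := by
        intro u hu s hs u' hu' hP
        obtain ⟨v, hv, rfl⟩ := Finset.mem_image.1 hu
        obtain ⟨w, hw, rfl⟩ := Finset.mem_image.1 hu'
        simp only [sig_vertex hA' hw] at hP
        have h1 := lov_spec hS hb ha hA' hv hs
        rcases low_ge hS hb ha hA' (sig_cell hS hA' hv hs) (sig_j hA' hv hs) hw h1.1 h1.2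
          (fun l hl hlj => (sig_ne hA' hv hs l).2 (Or.inr (hP (Finset.mem_erase.2 ⟨hlj, hl⟩))))
          with h2 | h2
        · rw [← h2]
        · exact (hr3 _ hw _ h1.1 h2).le
      hi_le := by
        intro u hu s hs u' hu' hP
        obtain ⟨v, hv, rfl⟩ := Finset.mem_image.1 hu
        obtain ⟨w, hw, rfl⟩ := Finset.mem_image.1 hu'
        simp only [sig_vertex hA' hw] at hP
        rw [hN _ hw] at hP
        have h1 := lov_spec hS hb hna hA' hv hs
        rcases low_ge hS hb hna hA' (sig_cell hS hA' hv hs) (sig_j hA' hv hs) hw h1.1 h1.2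
          (fun l hl hlj => (sig_ne hA' hv hs l).2 (Or.inr (hP (Finset.mem_erase.2 ⟨hlj, hl⟩))))
          with h2 | h2
        · rw [← h2]
        · rw [inner_neg_left, inner_neg_left] at h2
          exact (hr3 _ h1.1 _ hw (by linarith)).le
      lo_le_hi := by
        intro u hu s hs
        obtain ⟨v, hv, rfl⟩ := Finset.mem_image.1 hu
        have h1 := lov_spec hS hb ha hA' hv hs
        have h2 := lov_spec hS hb hna hA' hv hs
        rcases low_le_high hS ha h1.1 h2.1 h1.2 h2.2.1 with h3 | h3
        · rw [h3]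
        · exact (hr3 _ h1.1 _ h2.1 h3).le
      even := by
        intro G hG
        by_cases hex : ∃ v, v ∈ VF b j ∧ G ⊆ (Pool.Agent.KST.supp v).erase j
        · obtain ⟨v, hv, hs⟩ := hex
          have h1 := lov_spec hS hb ha hA' hv hs
          have h2 := lov_spec hS hb hna hA' hv hs
          have hGj : j ∉ G := fun h => (Finset.mem_erase.1 (hs h)).1 rfl
          -- the other label of a vertex of the edge
          have hkey : ∀ x ∈ VF b j, G ⊆ (Pool.Agent.KST.supp x).erase j →
              ∃ l, l ∉ G ∧ (Pool.Agent.KST.supp x).erase j = insert l G := by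
            intro x hx hGx
            have h3 : ((Pool.Agent.KST.supp x).erase j \ G).card = 1 := by
              rw [Finset.card_sdiff_of_subset hGx, card_erase hx]
              omega
            obtain ⟨l, hl⟩ := Finset.card_eq_one.1 h3
            refine ⟨l, ?_, ?_⟩
            · have : l ∈ (Pool.Agent.KST.supp x).erase j \ G := by rw [hl]; simp
              exact (Finset.mem_sdiff.1 this).2
            · rw [← Finset.sdiff_union_of_subset hGx, hl]
              ext m
              simp
          have hle : ∀ x ∈ VF b j, G ⊆ (Pool.Agent.KST.supp x).erase j →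
              Pool.Agent.KST.Le (sig b j G) x := fun x hx hGx => sig_le hA' hx hGx
          have hsub : ((VF b j).image (fun v => (Pool.Agent.KST.supp v).erase j)).filter
              (fun v => G ⊆ v) = {(Pool.Agent.KST.supp (lov b a j G)).erase j,
                (Pool.Agent.KST.supp (lov b (-a) j G)).erase j} := by
            ext u
            rw [Finset.mem_filter, Finset.mem_insert, Finset.mem_singleton]
            constructor
            · rintro ⟨hu, hGu⟩
              obtain ⟨x, hx, rfl⟩ := Finset.mem_image.1 hu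
              obtain ⟨l, hlG, hl⟩ := hkey x hx hGu
              have hmem : ∀ m, x m ≠ 0 → m = j ∨ m = l ∨ m ∈ G := by
                intro m hm
                by_cases hmj : m = j
                · exact Or.inl hmj
                · have : m ∈ (Pool.Agent.KST.supp x).erase j :=
                    Finset.mem_erase.2 ⟨hmj, mem_supp.2 hm⟩
                  rw [hl] at this
                  exact Or.inr (Finset.mem_insert.1 this)
              by_cases hlP : l ∈ PP b a x
              · right
                have h3 : Low (PP b (-a)) x (sig b j G) := by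
                  refine ⟨hle x hx hGu, fun m hm => ?_⟩
                  rw [Pool.Agent.KST.PP_neg ha (mem_VF.1 hx).1, Finset.mem_sdiff] at hm
                  rcases hmem m (mem_supp.1 hm.1) with h4 | h4 | h4
                  · exact (sig_ne hA' hv hs m).2 (Or.inl h4)
                  · exact absurd (h4 ▸ hlP) hm.2
                  · exact (sig_ne hA' hv hs m).2 (Or.inr h4)
                rw [low_uniq hS hb hna (sig_cell hS hA' hv hs) hx h2.1 h3 h2.2]
              · left
                have h3 : Low (PP b a) x (sig b j G) := by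
                  refine ⟨hle x hx hGu, fun m hm => ?_⟩
                  rcases hmem m (Pool.Agent.KST.G1b_mem_PP.1 hm).1 with h4 | h4 | h4
                  · exact (sig_ne hA' hv hs m).2 (Or.inl h4)
                  · exact absurd (h4 ▸ hm) hlP
                  · exact (sig_ne hA' hv hs m).2 (Or.inr h4)
                rw [low_uniq hS hb ha (sig_cell hS hA' hv hs) hx h1.1 h3 h1.2]
            · rintro (rfl | rfl)
              · refine ⟨Finset.mem_image_of_mem _ h1.1, fun l hl => ?_⟩
                have h4 := (sig_ne hA' hv hs l).2 (Or.inr hl)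
                refine Finset.mem_erase.2 ⟨fun h => hGj (h ▸ hl), mem_supp.2 ?_⟩
                rw [h1.2.1 l h4]
                exact h4
              · refine ⟨Finset.mem_image_of_mem _ h2.1, fun l hl => ?_⟩
                have h4 := (sig_ne hA' hv hs l).2 (Or.inr hl)
                refine Finset.mem_erase.2 ⟨fun h => hGj (h ▸ hl), mem_supp.2 ?_⟩
                rw [h2.2.1 l h4]
                exact h4
          rw [hsub, Finset.card_pair]
          · exact ⟨1, rfl⟩
          · intro heq
            have h3 := erase_inj hA' h1.1 h2.1 heq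
            have h4 := h2.2
            rw [← h3] at h4
            -- every label of the vertex is a label of the edge
            have hGx : G ⊆ (Pool.Agent.KST.supp (lov b a j G)).erase j := by
              intro l hl
              have h4 := (sig_ne hA' hv hs l).2 (Or.inr hl)
              refine Finset.mem_erase.2 ⟨fun h => hGj (h ▸ hl), mem_supp.2 ?_⟩
              rw [h1.2.1 l h4]
              exact h4
            obtain ⟨l, hlG, hl⟩ := hkey _ h1.1 hGx
            have h5 : l ∈ (Pool.Agent.KST.supp (lov b a j G)).erase j := by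
              rw [hl]; exact Finset.mem_insert_self _ _
            have h6 := Finset.mem_erase.1 h5
            have h7 : sig b j G l ≠ 0 := by
              by_cases hP : l ∈ PP b a (lov b a j G)
              · exact h1.2.2 l hP
              · refine h4.2 l ?_
                rw [Pool.Agent.KST.PP_neg ha (mem_VF.1 h1.1).1, Finset.mem_sdiff]
                exact ⟨h6.2, hP⟩
            rcases (sig_ne hA' hv hs l).1 h7 with h8 | h8
            · exact h6.1 h8
            · exact hlG h8
        · have h0 : ((VF b j).image (fun v => (Pool.Agent.KST.supp v).erase j)).filter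
              (fun v => G ⊆ v) = ∅ := by
            rw [Finset.filter_eq_empty_iff]
            intro u hu hGu
            obtain ⟨v, hv, rfl⟩ := Finset.mem_image.1 hu
            exact hex ⟨v, hv, hGu⟩
          rw [h0, Finset.card_empty]
          exact ⟨0, rfl⟩ }
  refine ⟨S, rfl, fun v hv => ?_⟩
  show (PP b a (sig b j ((Pool.Agent.KST.supp v).erase j))).erase j = _
  rw [sig_vertex hA' hv]

end

end WLP
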