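import Mathlib

/-! # Algebraically independent real numbers -/

set_option autoImplicit false

namespace WLP

theorem exists_algInd (σ : Type) [Finite σ] : ∃ x : σ → ℝ, AlgebraicIndependent ℤ x := by
  obtain ⟨s, hs⟩ := exists_isTranscendenceBasis ℤ ℝ
  have hinf : Infinite s := by
    by_contra hfin
    rw [not_infinite_iff_finite] at hfin
    have h1 := hs.isAlgebraic
    have h2 : Cardinal.mk ℝ ≤ max (Cardinal.mk (Algebra.adjoin ℤ (Set.range ((↑) : s → ℝ))))
        Cardinal.aleph0 := Algebra.IsAlgebraic.cardinalMk_le_max _ _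
    have h3 : Cardinal.mk (Algebra.adjoin ℤ (Set.range ((↑) : s → ℝ))) ≤ Cardinal.aleph0 := by
      rw [← Cardinal.mk_congr hs.1.aevalEquiv.toEquiv]
      refine le_trans MvPolynomial.cardinalMk_le_max (max_le (max_le ?_ ?_) le_rfl)
      · exact Cardinal.mk_le_aleph0
      · exact Cardinal.mk_le_aleph0
    rw [max_eq_right h3, Cardinal.mk_real] at h2
    exact absurd h2 (not_le.mpr Cardinal.aleph0_lt_continuum)
  obtain ⟨n, ⟨e⟩⟩ := Finite.exists_equiv_fin σ
  obtain ⟨f⟩ : Nonempty (σ ↪ s) := ⟨e.toEmbedding.trans ((Fin.valEmbedding).trans (Infinite.natEmbedding s))⟩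
  exact ⟨fun a => (f a : ℝ), hs.1.comp f f.injective⟩

end WLP
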