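import Pool.Agent.KST.Defs
import Pool.Agent.WLP.AlgInd

/-! # Generic real vectors: independence, and change of vectors in a sweep -/

set_option autoImplicit false

namespace WLP

theorem algInd_linInd {ι : Type} {d : ℕ} (c : ι → Fin d → ℝ)
    (h : AlgebraicIndependent ℤ (fun p : ι × Fin d => c p.1 p.2)) (g : Fin d → ι)
    (hg : Function.Injective g) : LinearIndependent ℝ (fun i => c (g i)) := by
  have hx : AlgebraicIndependent ℤ (fun p : Fin d × Fin d => c (g p.1) p.2) := by
    refine h.comp (fun p : Fin d × Fin d => ((g p.1, p.2) : ι × Fin d)) ?_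
    rintro ⟨a, b⟩ ⟨a', b'⟩ h
    simp only [Prod.mk.injEq] at h
    rw [Prod.mk.injEq]
    exact ⟨hg h.1, h.2⟩
  have hdet : (Matrix.of fun i j => c (g i) j).det ≠ 0 := by
    intro h0
    have h1 : MvPolynomial.aeval (fun p : Fin d × Fin d => c (g p.1) p.2)
        (Matrix.mvPolynomialX (Fin d) (Fin d) ℤ).det = 0 := by
      rw [AlgHom.map_det, ← h0]
      congr 1
      ext i j
      simp
    exact Matrix.det_mvPolynomialX_ne_zero (Fin d) ℤ
      ((injective_iff_map_eq_zero _).mp hx _ h1)
  exact Matrix.linearIndependent_rows_of_det_ne_zero hdet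

open Pool.Agent.KST in
theorem algInd_linInd_sign {ι : Type} [Fintype ι] {d : ℕ} (c : ι → E d)
    (h : AlgebraicIndependent ℤ (fun p : ι × Fin d => c p.1 p.2)) (v : ι → SignType)
    (hv : (supp v).card = d) :
    LinearIndependent ℝ (fun l : {l : ι // v l ≠ 0} => c l.1) := by
  classical
  have hcard : Fintype.card {l : ι // v l ≠ 0} = d := by
    rw [← hv, Fintype.card_subtype, supp]
  let e : Fin d ≃ {l : ι // v l ≠ 0} := (Fintype.equivFinOfCardEq hcard).symm
  have h1 := algInd_linInd (fun l i => c l i) h (fun i => (e i).1)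
    (Subtype.val_injective.comp e.injective)
  have h2 : LinearIndependent ℝ (fun i : Fin d => c (e i).1) := by
    refine LinearIndependent.of_comp
      ((EuclideanSpace.equiv (Fin d) ℝ).toLinearEquiv.toLinearMap) ?_
    exact h1
  have h3 := h2.comp e.symm e.symm.injective
  have : (fun i : Fin d => c (e i).1) ∘ e.symm = fun l : {l : ι // v l ≠ 0} => c l.1 := by
    funext l; simp
  rwa [this] at h3

open Pool.Agent.KST in
/-- a sweep for `b` is a sweep for generic vectors -/
theorem sweep_change {ι : Type} [Fintype ι] {d : ℕ} {b : ι → E d} (c : ι → E d)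
    (h : AlgebraicIndependent ℤ (fun p : ι × Fin d => c p.1 p.2))
    {C V : Finset (ι → SignType)} {P : (ι → SignType) → Finset ι} {ht : (ι → SignType) → ℝ}
    (hs : Sweep b C V P ht) : Sweep c C V P ht :=
  { zero := hs.zero
    sub := hs.sub
    card := hs.card
    ind := fun v hv => algInd_linInd_sign c h v (hs.card v hv)
    psub := hs.psub
    down := hs.down
    ex := hs.ex
    uniq := hs.uniq
    up := hs.up }

open Pool.Agent.KST in
/-- generic real vectors -/
theorem exists_generic (ι : Type) [Finite ι] (d : ℕ) : ∃ c : ι → E d,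
    AlgebraicIndependent ℤ (fun p : ι × Fin d => c p.1 p.2) := by
  obtain ⟨x, hx⟩ := exists_algInd (ι × Fin d)
  exact ⟨fun l => WithLp.toLp 2 (fun i => x (l, i)), hx⟩

end WLP
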