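import Pool.Agent.WLP.Defs2
import Pool.Agent.WLP.Change
import Pool.Agent.KST.A2b
import Pool.Agent.KST.G0

/-! # Theorem B, step 0: independence of the kernels of the disjoint facets -/

set_option autoImplicit false

open scoped BigOperators RealInnerProductSpace

namespace WLP

noncomputable section

open Classical

open Pool.Agent.KST (E IsCell Cells Verts Simple Pol pt PP Gen Star VF Low LowF Inside hh Fn FF
  Ker Par Le sgn)

/-- sign changes keep algebraic independence -/
theorem algInd_sign {σ : Type*} {x : σ → ℝ} (h : AlgebraicIndependent ℤ x) (ε : σ → ℤ)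
    (hε : ∀ i, ε i = 1 ∨ ε i = -1) : AlgebraicIndependent ℤ (fun i => (ε i : ℝ) * x i) := by
  rw [algebraicIndependent_iff_injective_aeval] at h ⊢
  let T : MvPolynomial σ ℤ →ₐ[ℤ] MvPolynomial σ ℤ :=
    MvPolynomial.aeval (fun i => MvPolynomial.C (ε i) * MvPolynomial.X i)
  have hT : T.comp T = AlgHom.id ℤ _ := by
    apply MvPolynomial.algHom_ext
    intro i
    have hCi : (T (MvPolynomial.C (ε i)) : MvPolynomial σ ℤ) = MvPolynomial.C (ε i) := by
      exact MvPolynomial.algHom_C T (ε i)
    simp only [AlgHom.comp_apply, AlgHom.id_apply]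
    have h1 : T (MvPolynomial.X i) = MvPolynomial.C (ε i) * MvPolynomial.X i := by
      simp only [T, MvPolynomial.aeval_X]
    rw [h1, map_mul, hCi, h1, ← mul_assoc, ← MvPolynomial.C_mul]
    rcases hε i with h | h <;> simp [h]
  have hTinj : Function.Injective T := by
    intro p q hpq
    have h2 : (T.comp T) p = (T.comp T) q := by
      simp only [AlgHom.comp_apply, hpq]
    rwa [hT] at h2
  have h3 : (MvPolynomial.aeval (fun i => (ε i : ℝ) * x i) : MvPolynomial σ ℤ →ₐ[ℤ] ℝ) =
      (MvPolynomial.aeval x).comp T := by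
    apply MvPolynomial.algHom_ext
    intro i
    simp [T]
  rw [h3]
  intro p q hpq
  exact hTinj (h hpq)

private theorem K_D_apply {ι : Type} [Fintype ι] {d : ℕ} (b : ι → E d) (y : E d) (f : Fn ι)
    (e : ι → ℤ) :
    Pool.Agent.KST.D b y f e = ∑ l, ⟪b l, y⟫ * Pool.Agent.KST.X l f e := by
  simp only [Pool.Agent.KST.D, LinearMap.sum_apply, LinearMap.smul_apply, Finset.sum_apply,
    Pi.smul_apply, smul_eq_mul]

private theorem K_X_apply {ι : Type} (l : ι) (f : Fn ι) (e : ι → ℤ) :
    Pool.Agent.KST.X l f e = (if 0 ≤ e l then f (Function.update e l (e l + 1)) else 0) -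
      (if e l ≤ 0 then f (Function.update e l (e l - 1)) else 0) := rfl

private theorem K_mem_Ker {ι : Type} [Fintype ι] {d : ℕ} (b : ι → E d) (f : Fn ι) :
    f ∈ Ker b ↔ ∀ y, Pool.Agent.KST.D b y f = 0 := by
  rw [Ker, Submodule.mem_iInf]
  rfl

private theorem K_sgn_pos {ι : Type} {e : ι → ℤ} {l : ι} (h : 0 < e l) : sgn e l = 1 := by
  show SignType.sign (e l) = 1
  exact sign_pos h

private theorem K_sgn_neg {ι : Type} {e : ι → ℤ} {l : ι} (h : e l < 0) : sgn e l = -1 := by
  show SignType.sign (e l) = -1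
  exact sign_neg h

/-- a kernel function of a facet that vanishes off the link is zero -/
theorem link_core {ι : Type} [Fintype ι] {d : ℕ} {b c : ι → E (d + 1)}
    (hc : AlgebraicIndependent ℤ (fun p : ι × Fin (d + 1) => c p.1 p.2)) (j : ι)
    (hA : ∀ s ∈ Cells b, ∀ t ∈ Cells b, s j = 1 → t j = 1 →
      ∀ l, s l ≠ 0 → t l ≠ 0 → s l = t l)
    (hex : ∀ t ∈ Cells b, ∃ v ∈ Verts b, Le t v)
    (S : Swp ι d) (hSV : S.V = (VF b j).image (fun v => (Pool.Agent.KST.supp v).erase j))
    {n : ℕ}
    (hinj : ∀ a : Option (Fin d) → ι → ℝ,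
      AlgebraicIndependent ℤ (fun p : Option (Fin d) × ι => a p.1 p.2) →
      ∀ g : (ι → ℕ) → ℝ, KK S a n g → ∀ e : ι → ℕ, ∑ l, e l = n → g e = 0)
    {f : Fn ι} (hf : f ∈ FF (Star b j) n ⊓ Ker c) (h0 : ∀ e : ι → ℤ, 0 < e j → f e = 0) :
    f = 0 := by
  -- sign labelling
  let σ : ι → ℤ := fun l => if ∃ t ∈ Cells b, t j = 1 ∧ t l = -1 then -1 else 1
  have hσ : ∀ l, σ l = 1 ∨ σ l = -1 := by
    intro l
    simp only [σ]
    split_ifs
    · right; rfl
    · left; rfl
  have hσneg : ∀ l, ∀ t ∈ Cells b, t j = 1 → t l = -1 → σ l = -1 := by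
    intro l t ht htj htl
    simp only [σ]
    rw [if_pos ⟨t, ht, htj, htl⟩]
  have hσpos : ∀ l, ∀ t ∈ Cells b, t j = 1 → t l = 1 → σ l = 1 := by
    intro l t ht htj htl
    simp only [σ]
    rw [if_neg]
    rintro ⟨s, hs, hsj, hsl⟩
    have h1 := hA s hs t ht hsj htj l (by rw [hsl]; decide) (by rw [htl]; decide)
    rw [hsl, htl] at h1
    exact absurd h1 (by decide)
  -- the support of `f`
  have hsupp : ∀ e, f e ≠ 0 → e j = 0 ∧ (∃ t ∈ Cells b, Le (sgn e) t ∧ t j = 1) ∧
      ∑ l, (e l).natAbs = n := by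
    intro e he
    have h1 : e ∈ Pool.Agent.KST.EE (Star b j) n := by
      by_contra h
      exact he (hf.1 e h)
    simp only [Pool.Agent.KST.EE, Finset.mem_filter] at h1
    obtain ⟨t, ht, hle, htj⟩ := (Finset.mem_filter.1 h1.2.2).2
    refine ⟨?_, ⟨t, ht, hle, htj⟩, h1.2.1⟩
    by_contra hej
    rcases lt_or_gt_of_ne hej with hneg | hpos
    · have h2 := K_sgn_neg hneg
      have h3 := hle j (by rw [h2]; decide)
      rw [h2, htj] at h3
      exact absurd h3 (by decide)
    · exact he (h0 e hpos)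
  have hsg : ∀ e, f e ≠ 0 → ∀ l, (0 < e l → σ l = 1) ∧ (e l < 0 → σ l = -1) := by
    intro e he l
    obtain ⟨-, ⟨t, ht, hle, htj⟩, -⟩ := hsupp e he
    constructor
    · intro h
      have h2 := K_sgn_pos h
      have h3 := hle l (by rw [h2]; decide)
      exact hσpos l t ht htj (by rw [h3, h2])
    · intro h
      have h2 := K_sgn_neg h
      have h3 := hle l (by rw [h2]; decide)
      exact hσneg l t ht htj (by rw [h3, h2])
  -- the rows
  let ρ : Option (Fin d) ≃ Fin (d + 1) := (finSuccEquiv d).symm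
  let a : Option (Fin d) → ι → ℝ := fun r l => (σ l : ℝ) * c l (ρ r)
  have ha : AlgebraicIndependent ℤ (fun p : Option (Fin d) × ι => a p.1 p.2) := by
    have h1 : AlgebraicIndependent ℤ
        (fun p : Option (Fin d) × ι => c p.2 (ρ p.1)) := by
      refine hc.comp (fun p : Option (Fin d) × ι => ((p.2, ρ p.1) : ι × Fin (d + 1))) ?_
      rintro ⟨r, l⟩ ⟨r', l'⟩ h
      simp only [Prod.mk.injEq] at h
      rw [Prod.mk.injEq]
      exact ⟨ρ.injective h.2, h.1⟩
    exact algInd_sign h1 (fun p => σ p.2) (fun p => hσ p.2)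
  -- the function on naturals
  let g : (ι → ℕ) → ℝ := fun e => f (fun l => σ l * (e l : ℤ))
  have hσne : ∀ l, σ l ≠ 0 := by
    intro l
    rcases hσ l with h | h <;> rw [h] <;> decide
  have hg : KK S a n g := by
    constructor
    · intro e he
      by_contra hne
      apply he
      obtain ⟨hej, ⟨t, ht, hle, htj⟩, -⟩ := hsupp _ hne
      obtain ⟨v, hv, htv⟩ := hex t ht
      have hvj : v j = 1 := by rw [htv j (by rw [htj]; decide), htj]
      refine ⟨(Pool.Agent.KST.supp v).erase j, ?_, ?_⟩
      · rw [hSV, Finset.mem_image]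
        exact ⟨v, Finset.mem_filter.2 ⟨hv, hvj⟩, rfl⟩
      · intro l hl
        have hel : e l ≠ 0 := (Finset.mem_filter.1 hl).2
        rw [Finset.mem_erase]
        constructor
        · rintro rfl
          have h1 : σ l * (e l : ℤ) = 0 := hej
          rcases mul_eq_zero.1 h1 with h2 | h2
          · exact hσne l h2
          · exact hel (by exact_mod_cast h2)
        · have h1 : σ l * (e l : ℤ) ≠ 0 :=
            mul_ne_zero (hσne l) (by exact_mod_cast hel)
          have h2 : sgn (fun l => σ l * (e l : ℤ)) l ≠ 0 := by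
            show SignType.sign (σ l * (e l : ℤ)) ≠ 0
            rw [Ne, sign_eq_zero_iff]
            exact h1
          have h3 := hle l h2
          have h4 : t l ≠ 0 := by rw [h3]; exact h2
          have h5 := htv l h4
          exact Finset.mem_filter.2 ⟨Finset.mem_univ l, by rw [h5]; exact h4⟩
    · intro e he r
      have hD := (K_mem_Ker c f).1 hf.2 (EuclideanSpace.single (ρ r) (1 : ℝ))
      have hDe := congrFun hD (fun l => σ l * (e l : ℤ))
      rw [K_D_apply] at hDe
      rw [← (show (0 : Fn ι) (fun l => σ l * (e l : ℤ)) = 0 from rfl), ← hDe]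
      apply Finset.sum_congr rfl
      intro l _
      have hin : ⟪c l, EuclideanSpace.single (ρ r) (1 : ℝ)⟫ = c l (ρ r) := by
        rw [EuclideanSpace.inner_single_right]
        simp
      rw [hin]
      have hX : Pool.Agent.KST.X l f (fun l => σ l * (e l : ℤ)) =
          (σ l : ℝ) * g (e + Pi.single l 1) := by
        rw [K_X_apply]
        have hel : (0 : ℤ) ≤ (e l : ℤ) := by positivity
        have hupd : ∀ z : ℤ, z = σ l * ((e l : ℤ) + 1) →
            Function.update (fun l => σ l * (e l : ℤ)) l z =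
              (fun k => σ k * (((e + Pi.single l 1 : ι → ℕ) k : ℕ) : ℤ)) := by
          intro z hz
          funext k
          by_cases hk : k = l
          · subst hk
            rw [Function.update_self, hz]
            simp
          · rw [Function.update_of_ne hk]
            simp [hk]
        rcases hσ l with h | h
        · have h1 : (if 0 ≤ σ l * (e l : ℤ) then
              f (Function.update (fun l => σ l * (e l : ℤ)) l (σ l * (e l : ℤ) + 1)) else 0) =
              g (e + Pi.single l 1) := by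
            rw [if_pos (by rw [h]; omega)]
            show _ = f (fun k => σ k * (((e + Pi.single l 1 : ι → ℕ) k : ℕ) : ℤ))
            rw [hupd _ (by rw [h]; ring)]
          have h2 : (if σ l * (e l : ℤ) ≤ 0 then
              f (Function.update (fun l => σ l * (e l : ℤ)) l (σ l * (e l : ℤ) - 1)) else 0) =
              0 := by
            split_ifs with h3
            · by_contra hne
              have h4 := (hsg _ hne l).2
              rw [Function.update_self] at h4
              have h5 := h4 (by omega)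
              rw [h] at h5
              exact absurd h5 (by decide)
            · rfl
          rw [h1, h2, h]
          push_cast
          ring
        · have h1 : (if σ l * (e l : ℤ) ≤ 0 then
              f (Function.update (fun l => σ l * (e l : ℤ)) l (σ l * (e l : ℤ) - 1)) else 0) =
              g (e + Pi.single l 1) := by
            rw [if_pos (by rw [h]; omega)]
            show _ = f (fun k => σ k * (((e + Pi.single l 1 : ι → ℕ) k : ℕ) : ℤ))
            rw [hupd _ (by rw [h]; ring)]
          have h2 : (if 0 ≤ σ l * (e l : ℤ) then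
              f (Function.update (fun l => σ l * (e l : ℤ)) l (σ l * (e l : ℤ) + 1)) else 0) =
              0 := by
            split_ifs with h3
            · by_contra hne
              have h4 := (hsg _ hne l).1
              rw [Function.update_self] at h4
              have h5 := h4 (by omega)
              rw [h] at h5
              exact absurd h5 (by decide)
            · rfl
          rw [h1, h2, h]
          push_cast
          ring
      rw [hX]
      simp only [a]
      ring
  -- conclusion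
  funext e
  by_contra hne
  have hne' : f e ≠ 0 := hne
  obtain ⟨-, -, hn⟩ := hsupp e hne'
  have h1 := hinj a ha g hg (fun l => (e l).natAbs) hn
  apply hne'
  rw [← h1]
  show f e = f (fun l => σ l * (((e l).natAbs : ℕ) : ℤ))
  congr 1
  funext l
  rcases lt_trichotomy (e l) 0 with h | h | h
  · rw [(hsg e hne' l).2 h]
    omega
  · rw [h]
    simp
  · rw [(hsg e hne' l).1 h]
    omega

private theorem K_star_FF {ι : Type} [Fintype ι] {d : ℕ} (b : ι → E d) (j : ι) (n : ℕ) :
    FF (Star b j) n ≤ FF (Cells b) n := by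
  intro f hf e he
  apply hf
  intro h
  apply he
  simp only [Pool.Agent.KST.EE, Finset.mem_filter] at h ⊢
  exact ⟨h.1, h.2.1, (Finset.mem_filter.1 h.2.2).1⟩

private theorem K_star_supp {ι : Type} [Fintype ι] {d : ℕ} {b : ι → E d} {j : ι} {n : ℕ}
    {f : Fn ι} (hf : f ∈ FF (Star b j) n)
    {e : ι → ℤ} (he : f e ≠ 0) : ∃ t ∈ Cells b, Le (sgn e) t ∧ t j = 1 := by
  have h1 : e ∈ Pool.Agent.KST.EE (Star b j) n := by
    by_contra h
    exact he (hf e h)
  simp only [Pool.Agent.KST.EE, Finset.mem_filter] at h1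
  exact (Finset.mem_filter.1 h1.2.2).2

/-- the antisymmetrisation -/
private def anti (ι : Type) : Fn ι →ₗ[ℝ] Fn ι where
  toFun f e := f e - f (-e)
  map_add' f g := by
    funext e
    simp only [Pi.add_apply]
    ring
  map_smul' c f := by
    funext e
    simp only [Pi.smul_apply, smul_eq_mul, RingHom.id_apply]
    ring

private theorem K_anti_mem {ι : Type} [Fintype ι] {d : ℕ} {b c : ι → E d} {j : ι} {n : ℕ}
    {f : Fn ι} (hf : f ∈ FF (Star b j) n ⊓ Ker c) :
    anti ι f ∈ FF (Cells b) n ⊓ Ker c ⊓ Par ι (-1) := by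
  obtain ⟨h1, h2⟩ := hf
  have h1' := K_star_FF b j n h1
  have h3 := Pool.Agent.KST.a2b_neg_FF (C := Cells b)
    (fun s hs => Pool.Agent.KST.neg_mem_cells hs) n f h1'
  have h4 := Pool.Agent.KST.a2b_neg_Ker c f h2
  refine ⟨⟨(FF (Cells b) n).sub_mem h1' h3, (Ker c).sub_mem h2 h4⟩, ?_⟩
  intro e
  show f (-e) - f (- -e) = -1 * (f e - f (-e))
  rw [neg_neg]
  ring

/-- if the antisymmetrisations of functions on the stars of disjoint facets have sum zero then the
functions vanish where `0 < e j` -/
private theorem K_pos {ι : Type} [Fintype ι] {d : ℕ} {b : ι → E d} {J : Finset ι}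
    (hJ : SepB b J) {n : ℕ} (F : J → Fn ι) (hF : ∀ j : J, F j ∈ FF (Star b j) n)
    (hsum : ∑ j : J, anti ι (F j) = 0) (j : J) (e : ι → ℤ) (he : 0 < e j) : F j e = 0 := by
  have hs : ∑ k : J, (F k e - F k (-e)) = 0 := by
    have := congrFun hsum e
    rw [Finset.sum_apply] at this
    exact this
  have hj1 : sgn e (j : ι) = 1 := K_sgn_pos he
  have hj2 : sgn (-e) (j : ι) = -1 := K_sgn_neg (by
    show -(e j) < 0
    omega)
  have h1 : ∀ k : J, k ≠ j → F k e = 0 := by
    intro k hk
    by_contra hne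
    obtain ⟨t, ht, hle, htk⟩ := K_star_supp (hF k) hne
    apply hk
    apply Subtype.ext
    have h2 := hle j (by rw [hj1]; decide)
    exact hJ.disj t ht k k.2 j j.2 (by rw [htk]; decide) (by rw [h2, hj1]; decide)
  have h3 : ∀ k : J, F k (-e) = 0 := by
    intro k
    by_contra hne
    obtain ⟨t, ht, hle, htk⟩ := K_star_supp (hF k) hne
    have h2 := hle j (by rw [hj2]; decide)
    have h4 := hJ.disj t ht k k.2 j j.2 (by rw [htk]; decide) (by rw [h2, hj2]; decide)
    rw [← h4, htk, h4, hj2] at h2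
    exact absurd h2 (by decide)
  rw [Finset.sum_eq_single j (fun k _ hk => by rw [h1 k hk, h3 k, sub_zero])
    (fun h => absurd (Finset.mem_univ j) h), h3 j, sub_zero] at hs
  exact hs

/-- independence, from the link statement as a hypothesis -/
theorem main_kerB_of {ι : Type} [Fintype ι] {d : ℕ} {b c : ι → E d} {J : Finset ι}
    (hJ : SepB b J) {n : ℕ}
    (hlink : ∀ j ∈ J, ∀ f : Fn ι, f ∈ FF (Star b j) n ⊓ Ker c →
      (∀ e : ι → ℤ, 0 < e j → f e = 0) → f = 0) :
    ∑ j ∈ J, Module.finrank ℝ ↥(FF (Star b j) n ⊓ Ker c) ≤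
      Module.finrank ℝ ↥(FF (Cells b) n ⊓ Ker c ⊓ Par ι (-1)) := by
  have hfin : FiniteDimensional ℝ (FF (Cells b) n) := Pool.Agent.KST.FF_fin _ n
  have hfin1 : FiniteDimensional ℝ ↥(FF (Cells b) n ⊓ Ker c) :=
    Submodule.finiteDimensional_inf_left _ _
  have hfin2 : FiniteDimensional ℝ ↥(FF (Cells b) n ⊓ Ker c ⊓ Par ι (-1)) :=
    Submodule.finiteDimensional_inf_left _ _
  have hfin3 : ∀ j : J, FiniteDimensional ℝ ↥(FF (Star b j) n ⊓ Ker c) := by
    intro j
    have := Pool.Agent.KST.FF_fin (Star b j) n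
    exact Submodule.finiteDimensional_inf_left _ _
  -- the map
  let Φ0 : (∀ j : J, ↥(FF (Star b j) n ⊓ Ker c)) →ₗ[ℝ] Fn ι :=
    ∑ j : J, (anti ι) ∘ₗ (FF (Star b j) n ⊓ Ker c).subtype ∘ₗ LinearMap.proj j
  have hΦ0 : ∀ F : (∀ j : J, ↥(FF (Star b j) n ⊓ Ker c)),
      Φ0 F = ∑ j : J, anti ι (F j : Fn ι) := by
    intro F
    simp only [Φ0, LinearMap.sum_apply]
    rfl
  have hmem : ∀ F, Φ0 F ∈ FF (Cells b) n ⊓ Ker c ⊓ Par ι (-1) := by
    intro F
    rw [hΦ0]
    exact Submodule.sum_mem _ fun j _ => K_anti_mem (F j).2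
  let Φ := Φ0.codRestrict _ hmem
  have hinj : Function.Injective Φ := by
    rw [← LinearMap.ker_eq_bot, eq_bot_iff]
    intro F hF
    rw [LinearMap.mem_ker] at hF
    rw [Submodule.mem_bot]
    have h1 : Φ0 F = 0 := congrArg Subtype.val hF
    rw [hΦ0] at h1
    funext j
    apply Subtype.ext
    exact hlink j j.2 _ (F j).2
      (K_pos hJ (fun j => (F j : Fn ι)) (fun j => (F j).2.1) h1 j)
  have h := LinearMap.finrank_le_finrank_of_injective hinj
  rw [Module.finrank_pi_fintype] at h
  rw [← Finset.sum_coe_sort J]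
  exact h

/-- functions on the stars of disjoint facets whose antisymmetrisations have sum zero are zero,
from the link statement as a hypothesis -/
theorem inj_anti_of {ι : Type} [Fintype ι] {d : ℕ} {b c : ι → E d} {J : Finset ι}
    (hJ : SepB b J) {n : ℕ}
    (hlink : ∀ j ∈ J, ∀ f : Fn ι, f ∈ FF (Star b j) n ⊓ Ker c →
      (∀ e : ι → ℤ, 0 < e j → f e = 0) → f = 0)
    (F : ι → Fn ι) (hF : ∀ j ∈ J, F j ∈ FF (Star b j) n ⊓ Ker c)
    (hsum : ∀ e : ι → ℤ, ∑ j ∈ J, (F j e - F j (-e)) = 0) : ∀ j ∈ J, F j = 0 := by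
  intro j hj
  refine hlink j hj (F j) (hF j hj) ?_
  intro e he
  refine K_pos hJ (fun k : J => F k) (fun k => (hF k k.2).1) ?_ ⟨j, hj⟩ e he
  funext e'
  rw [Finset.sum_apply]
  have h1 := hsum e'
  rw [← Finset.sum_coe_sort J] at h1
  exact h1

end

end WLP
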