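import Pool.Agent.WLP.Defs

/-!
TRANS: transfer of the injectivity statement from characteristic 2 to the generic matrix over the
integers and then to every algebraically independent family in a field.
-/

set_option maxHeartbeats 4000000

namespace WLP

open MvPolynomial

variable {M : Type} [Fintype M] [DecidableEq M] {D : ℕ}

/-- generic matrix over `Frac ℤ[a]` -/
abbrev RZ (M : Type) (D : ℕ) : Type := MvPolynomial (Option (Fin D) × M) ℤ

/-- reduction modulo 2, with values in the ring with the auxiliary column -/
noncomputable def red2 (M : Type) (D : ℕ) : RZ M D →+* R2 M D :=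
  (rename (fun p : Option (Fin D) × M => ((p.1, some p.2) : Option (Fin D) × Option M)) :
    MvPolynomial (Option (Fin D) × M) (ZMod 2) →ₐ[ZMod 2] R2 M D).toRingHom.comp
    (MvPolynomial.map (Int.castRingHom (ZMod 2)))

theorem red2_X (r : Option (Fin D)) (l : M) : red2 M D (X (r, l)) = X (r, some l) := by
  simp [red2]

theorem red2_eq_zero (p : RZ M D) (hp : red2 M D p = 0) : ∃ q : RZ M D, p = 2 * q := by
  have hinj : Function.Injective
      (rename (fun p : Option (Fin D) × M => ((p.1, some p.2) : Option (Fin D) × Option M)) :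
        MvPolynomial (Option (Fin D) × M) (ZMod 2) →ₐ[ZMod 2] R2 M D) := by
    apply rename_injective
    rintro ⟨a, b⟩ ⟨c, d⟩ h
    simp only [Prod.mk.injEq, Option.some.injEq] at h
    exact Prod.ext h.1 h.2
  have h1 : MvPolynomial.map (Int.castRingHom (ZMod 2)) p = 0 := by
    apply hinj
    rw [map_zero]
    exact hp
  have h2 : (C ((2 : ℕ) : ℤ) : RZ M D) ∣ p := (C_dvd_iff_zmod 2 p).2 h1
  obtain ⟨q, hq⟩ := h2
  refine ⟨q, ?_⟩
  rw [hq]
  simp

theorem dvd_pow_two (S : Swp M D) (n : ℕ)
    (h2 : ∀ f : (M → ℕ) → R2 M D,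
      KK S (fun (r : Option (Fin D)) l => (X (r, some l) : R2 M D)) n f →
      ∀ e : M → ℕ, ∑ l, e l = n → f e = 0) (k : ℕ) :
    ∀ f : (M → ℕ) → RZ M D,
      KK S (fun (r : Option (Fin D)) l => (X (r, l) : RZ M D)) n f →
      ∀ e : M → ℕ, ∑ l, e l = n → ∃ q : RZ M D, f e = 2 ^ k * q := by
  induction k with
  | zero =>
    intro f _ e _
    exact ⟨f e, by simp⟩
  | succ k ih =>
    intro f hf
    -- all values are divisible by two
    have hdiv : ∀ e : M → ℕ, ∑ l, e l = n → ∃ q : RZ M D, f e = 2 * q := by
      intro e he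
      apply red2_eq_zero
      refine h2 (fun e => red2 M D (f e)) ⟨?_, ?_⟩ e he
      · intro e' he'
        change red2 M D (f e') = 0
        rw [hf.1 e' he', map_zero]
      · intro e' he' r
        have h := hf.2 e' he' r
        have h' := congrArg (red2 M D) h
        rw [map_sum, map_zero] at h'
        rw [← h']
        apply Finset.sum_congr rfl
        intro l _
        rw [map_mul, red2_X]
    classical
    let g : (M → ℕ) → RZ M D := fun e =>
      if he : ∑ l, e l = n then (hdiv e he).choose else 0
    have hg : ∀ e : M → ℕ, ∑ l, e l = n → f e = 2 * g e := by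
      intro e he
      have := (hdiv e he).choose_spec
      simp only [g, dif_pos he]
      exact this
    have h2ne : (2 : RZ M D) ≠ 0 := two_ne_zero
    have hgK : KK S (fun (r : Option (Fin D)) l => (X (r, l) : RZ M D)) n g := by
      constructor
      · intro e he
        by_cases hs : ∑ l, e l = n
        · have h := hg e hs
          rw [hf.1 e he] at h
          rcases mul_eq_zero.1 h.symm with h | h
          · exact absurd h h2ne
          · exact h
        · simp only [g, dif_neg hs]
      · intro e he r
        have h := hf.2 e he r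
        have h' : 2 * ∑ l, (X (r, l) : RZ M D) * g (e + Pi.single l 1) = 0 := by
          rw [← h, Finset.mul_sum]
          apply Finset.sum_congr rfl
          intro l _
          have hs : ∑ l', (e + Pi.single l 1 : M → ℕ) l' = n := by
            simp only [Pi.add_apply, Finset.sum_add_distrib, Finset.sum_pi_single',
              Finset.mem_univ, if_true]
            exact he
          rw [hg _ hs]
          ring
        rcases mul_eq_zero.1 h' with h | h
        · exact absurd h h2ne
        · exact h
    intro e he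
    obtain ⟨q, hq⟩ := ih g hgK e he
    refine ⟨q, ?_⟩
    rw [hg e he, hq, pow_succ]
    ring

theorem inj0_of (S : Swp M D) (n : ℕ)
    (h2 : ∀ f : (M → ℕ) → R2 M D,
      KK S (fun (r : Option (Fin D)) l => (X (r, some l) : R2 M D)) n f →
      ∀ e : M → ℕ, ∑ l, e l = n → f e = 0) (f : (M → ℕ) → RZ M D)
    (hf : KK S (fun (r : Option (Fin D)) l => (X (r, l) : RZ M D)) n f) :
    ∀ e : M → ℕ, ∑ l, e l = n → f e = 0 := by
  intro e he
  ext m
  rw [coeff_zero]
  have hk : ∀ k : ℕ, (2 : ℤ) ^ k ∣ coeff m (f e) := by
    intro k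
    obtain ⟨q, hq⟩ := dvd_pow_two S n h2 k f hf e he
    refine ⟨coeff m q, ?_⟩
    rw [hq]
    have : (2 : RZ M D) ^ k = C ((2 : ℤ) ^ k) := by simp
    rw [this, coeff_C_mul]
  by_contra hne
  have h := Int.le_of_dvd (abs_pos.2 hne) ((dvd_abs _ _).2 (hk (coeff m (f e)).natAbs))
  rw [Int.abs_eq_natAbs] at h
  generalize (coeff m (f e)).natAbs = k at h
  have h3 : k < 2 ^ k := Nat.lt_two_pow_self
  have h4 : ((2 ^ k : ℕ) : ℤ) ≤ (k : ℤ) := by
    rw [Nat.cast_pow]
    exact h
  omega

theorem inj_alg_of (S : Swp M D) (n : ℕ)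
    (h0 : ∀ f : (M → ℕ) → RZ M D,
      KK S (fun (r : Option (Fin D)) l => (X (r, l) : RZ M D)) n f →
      ∀ e : M → ℕ, ∑ l, e l = n → f e = 0) {K : Type*} [Field K]
    (a : Option (Fin D) → M → K)
    (halg : AlgebraicIndependent ℤ (fun p : Option (Fin D) × M => a p.1 p.2))
    (f : (M → ℕ) → K) (hf : KK S a n f) :
    ∀ e : M → ℕ, ∑ l, e l = n → f e = 0 := by
  classical
  intro e0 he0
  by_contra hne
  let φ0 : RZ M D →+* K :=
    (MvPolynomial.aeval (fun p : Option (Fin D) × M => a p.1 p.2) :
      MvPolynomial (Option (Fin D) × M) ℤ →ₐ[ℤ] K).toRingHom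
  have hφ0 : Function.Injective φ0 := halg
  have hφX : ∀ r l, φ0 (X (r, l)) = a r l := by
    intro r l
    change (MvPolynomial.aeval (fun p : Option (Fin D) × M => a p.1 p.2)) (X (r, l)) = a r l
    rw [aeval_X]
  let F := FractionRing (RZ M D)
  let φ : F →+* K := IsFractionRing.lift hφ0
  have hφ : ∀ p : RZ M D, φ (algebraMap (RZ M D) F p) = φ0 p := fun p =>
    IsFractionRing.lift_algebraMap hφ0 p
  let _ : Algebra F K := φ.toAlgebra
  have hsm : ∀ (c : F) (x : K), c • x = φ c * x := fun c x => Algebra.smul_def c x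
  obtain ⟨lam, hlam⟩ : ∃ lam : Module.Dual F K, lam (f e0) ≠ 0 := by
    by_contra hcon
    push Not at hcon
    exact hne ((Module.forall_dual_apply_eq_zero_iff F (f e0)).1 hcon)
  -- the functional applied to `f`
  have hrel : ∀ e : M → ℕ, ∑ l, e l + 1 = n → ∀ r,
      ∑ l, algebraMap (RZ M D) F (X (r, l)) * lam (f (e + Pi.single l 1)) = 0 := by
    intro e he r
    have h := congrArg lam (hf.2 e he r)
    rw [map_sum, map_zero] at h
    rw [← h]
    apply Finset.sum_congr rfl
    intro l _
    rw [← hφX r l, ← hφ, ← hsm, map_smul, smul_eq_mul]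
  -- clear denominators
  obtain ⟨b, hb⟩ := IsLocalization.exist_integer_multiples_of_finset
    (nonZeroDivisors (RZ M D)) ((Finset.piAntidiag Finset.univ n).image (fun e => lam (f e)))
  have hb' : ∀ e : M → ℕ, ∑ l, e l = n →
      ∃ q : RZ M D, algebraMap (RZ M D) F q = algebraMap (RZ M D) F b * lam (f e) := by
    intro e he
    have hmem : lam (f e) ∈ (Finset.piAntidiag Finset.univ n).image (fun e => lam (f e)) := by
      apply Finset.mem_image_of_mem
      rw [Finset.mem_piAntidiag]
      exact ⟨he, fun i _ => Finset.mem_univ i⟩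
    obtain ⟨q, hq⟩ := hb _ hmem
    refine ⟨q, ?_⟩
    rw [hq, Algebra.smul_def]
  let g : (M → ℕ) → RZ M D := fun e => if he : ∑ l, e l = n then (hb' e he).choose else 0
  have hg : ∀ e : M → ℕ, ∑ l, e l = n →
      algebraMap (RZ M D) F (g e) = algebraMap (RZ M D) F b * lam (f e) := by
    intro e he
    have := (hb' e he).choose_spec
    simp only [g, dif_pos he]
    exact this
  have hinj : Function.Injective (algebraMap (RZ M D) F) := IsFractionRing.injective _ _
  have hgK : KK S (fun (r : Option (Fin D)) l => (X (r, l) : RZ M D)) n g := by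
    constructor
    · intro e he
      by_cases hs : ∑ l, e l = n
      · apply hinj
        rw [hg e hs, hf.1 e he, map_zero, map_zero, mul_zero]
      · simp only [g, dif_neg hs]
    · intro e he r
      apply hinj
      rw [map_zero, map_sum]
      have h := hrel e he r
      have h' : ∑ l, algebraMap (RZ M D) F ((X (r, l) : RZ M D) * g (e + Pi.single l 1)) =
          algebraMap (RZ M D) F b *
            ∑ l, algebraMap (RZ M D) F (X (r, l)) * lam (f (e + Pi.single l 1)) := by
        rw [Finset.mul_sum]
        apply Finset.sum_congr rfl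
        intro l _
        have hs : ∑ l', (e + Pi.single l 1 : M → ℕ) l' = n := by
          simp only [Pi.add_apply, Finset.sum_add_distrib, Finset.sum_pi_single',
            Finset.mem_univ, if_true]
          exact he
        rw [map_mul, hg _ hs]
        ring
      rw [h', h, mul_zero]
  have hz := h0 g hgK e0 he0
  have h1 := hg e0 he0
  rw [hz, map_zero] at h1
  rcases mul_eq_zero.1 h1.symm with h | h
  · have hbne : (b : RZ M D) ≠ 0 := nonZeroDivisors.ne_zero b.2
    exact hbne (hinj (by rw [h, map_zero]))
  · exact hlam h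

/-- both steps together -/
theorem inj_alg_of2 (S : Swp M D) (n : ℕ)
    (h2 : ∀ f : (M → ℕ) → R2 M D,
      KK S (fun (r : Option (Fin D)) l => (X (r, some l) : R2 M D)) n f →
      ∀ e : M → ℕ, ∑ l, e l = n → f e = 0) {K : Type*} [Field K]
    (a : Option (Fin D) → M → K)
    (halg : AlgebraicIndependent ℤ (fun p : Option (Fin D) × M => a p.1 p.2))
    (f : (M → ℕ) → K) (hf : KK S a n f) :
    ∀ e : M → ℕ, ∑ l, e l = n → f e = 0 :=
  inj_alg_of S n (inj0_of S n h2) a halg f hf

end WLP
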