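import Pool.Agent.WLP.DI
import Pool.Agent.WLP.Dual
import Pool.Agent.WLP.EndOf
import Pool.Agent.WLP.Trans
import Pool.Agent.WLP.Link
import Pool.Agent.WLP.MainKer
import Pool.Agent.KST.G1b
import Pool.Agent.KST.G3

/-! # Theorem B: the kernels of the disjoint facets are independent for generic vectors -/

set_option autoImplicit false

open scoped BigOperators RealInnerProductSpace

namespace WLP

noncomputable section

open Classical

open Pool.Agent.KST (E IsCell Cells Verts Simple Pol pt PP Gen Star VF Low LowF Inside hh Fn FF Ker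
  Par Le)

theorem core {ι : Type} [Fintype ι] {d : ℕ} {b : ι → E (d + 1)} (hS : Simple b)
    (hb : Bornology.IsBounded (Pol b)) (j : ι)
    (hA : ∀ s ∈ Cells b, ∀ t ∈ Cells b, s j = 1 → t j = 1 → ∀ l, s l ≠ 0 → t l ≠ 0 → s l = t l)
    {c : ι → E (d + 1)}
    (hc : AlgebraicIndependent ℤ (fun p : ι × Fin (d + 1) => c p.1 p.2)) {n : ℕ}
    (hn : d + 1 ≤ 2 * n) (hn' : n ≤ d) (f : Fn ι) (hf : f ∈ FF (Star b j) n) (hk : f ∈ Ker c)
    (h0 : ∀ e : ι → ℤ, 1 ≤ e j → f e = 0) : f = 0 := by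
  obtain ⟨a, ha, -⟩ := Pool.Agent.KST.exists_gen_near hS 0 one_pos
  obtain ⟨S, hSV, -⟩ := link_swp hS hb ha j hA
  have hsw := Pool.Agent.KST.sweep_cells hS hb ha
  refine link_core (b := b) hc j hA ?_ S hSV (n := n) ?_ ⟨hf, hk⟩ (fun e he => h0 e he)
  · intro t ht
    obtain ⟨v, hv, hlow⟩ := hsw.ex t ht
    exact ⟨v, hv, hlow.1⟩
  · intro a' ha' g hg e he
    exact inj_alg_of2 S n (fun f hf => inj2_of DI dual_rep S n hn hn' f hf) a' ha' g hg e he

end

end WLP
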