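import Pool.Agent.WLP.Low56
import Pool.Agent.GRD.K2
import Pool.Agent.K2L.Final

/-!
WLP: Kalai's inequality in dimensions five and six for polytopes with simple vertex figures.
-/

set_option autoImplicit false

open scoped BigOperators RealInnerProductSpace

namespace WLP

theorem tm_all (d : ℕ) : TM d := fun _ a hn P hP =>
  Pool.Agent.GRD.final2 Pool.Agent.K2L.hS a hn P hP

/-- **Kalai's inequality in dimensions five and six** for simple vertex figures -/
theorem kalai56 {α : Type} [Fintype α] {d : ℕ} (hd : d = 5 ∨ d = 6)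
    (a : α → Pool.Agent.KST.E d)
    (hb : Bornology.IsBounded (Pool.Agent.KST.Pol a))
    (hns : ∀ x ∈ Pool.Agent.KST.Pol a,
      ¬ LinearIndependent ℝ (fun i : {i : α // |⟪a i, x⟫| = 1} => a i.1) →
      x ∈ Set.extremePoints ℝ (Pool.Agent.KST.Pol a)) :
    (3 : ℕ∞) ^ d ≤ {F : Set (Pool.Agent.KST.E d) |
      F.Nonempty ∧ IsExposed ℝ (Pool.Agent.KST.Pol a) F}.encard :=
  kalai56_of hd (tm_all d) a hb hns

end WLP
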