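import Mathlib

/-!
# The final arithmetic of Theorem B
-/

set_option autoImplicit false

namespace WLP

open Finset

theorem ari_sum (d : ℕ) (hd : 1 ≤ d) (k H w : ℕ → ℤ) (hk0 : k 0 = 0) (hkd : k d = 0) :
    ∑ n ∈ range (d + 1), w n * k n - ∑ n ∈ range d, w n * H n + w 0 * H 0 =
      ∑ n ∈ range (d - 1), w (n + 1) * (k (n + 1) - H (n + 1)) := by
  obtain ⟨m, rfl⟩ : ∃ m, d = m + 1 := ⟨d - 1, by omega⟩
  rw [Finset.sum_range_succ, hkd, mul_zero, add_zero, Finset.sum_range_succ' (fun n => w n * k n),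
    Finset.sum_range_succ' (fun n => w n * H n), hk0, mul_zero, add_zero]
  simp only [Nat.add_sub_cancel, mul_sub, Finset.sum_sub_distrib]
  ring

/-- summation by parts -/
theorem ari_abel (H : ℕ → ℤ) (D : ℕ) :
    ∑ n ∈ range D, ((2 : ℤ) ^ D - 2 ^ (n + 1)) * (H (n + 1) - H n) =
      ∑ i ∈ range D, (2 : ℤ) ^ i * (H i - H 0) := by
  induction D with
  | zero => simp
  | succ D ih =>
    rw [Finset.sum_range_succ, Finset.sum_range_succ, ← ih, sub_self, zero_mul, add_zero]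
    have h1 : ∀ m : ℕ, ∑ n ∈ range m, (H (n + 1) - H n) = H m - H 0 :=
      fun m => Finset.sum_range_sub H m
    rw [← h1 D, Finset.mul_sum, ← Finset.sum_add_distrib]
    refine Finset.sum_congr rfl fun n _ => ?_
    ring

/-- the symmetric numbers -/
def gg (d : ℕ) (k H : ℕ → ℤ) (n : ℕ) : ℤ :=
  if d ≤ 2 * (n + 1) then k (n + 1) - H (n + 1) else k (n + 1) - H n

theorem gg_symm (d : ℕ) (k H : ℕ → ℤ) (hk : ∀ n ≤ d, k (d - n) = k n)
    (hH : ∀ n < d, H (d - 1 - n) = H n) (n : ℕ) (hn : n < d - 1) :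
    gg d k H (d - 1 - 1 - n) = gg d k H n := by
  have e1 : d - 1 - 1 - n + 1 = d - (n + 1) := by omega
  have hk1 : k (d - (n + 1)) = k (n + 1) := hk (n + 1) (by omega)
  unfold gg
  rw [e1, hk1]
  rcases lt_trichotomy d (2 * (n + 1)) with h | h | h
  · rw [if_neg (by omega), if_pos (by omega)]
    have e2 : d - 1 - 1 - n = d - 1 - (n + 1) := by omega
    rw [e2, hH (n + 1) (by omega)]
  · rw [if_pos (by omega), if_pos (by omega)]
    have e2 : d - (n + 1) = n + 1 := by omega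
    rw [e2]
  · rw [if_pos (by omega), if_neg (by omega)]
    have e2 : d - (n + 1) = d - 1 - n := by omega
    rw [e2, hH n (by omega)]

theorem gg_nonneg (d : ℕ) (k H : ℕ → ℤ) (hk : ∀ n ≤ d, k (d - n) = k n)
    (hH : ∀ n < d, H (d - 1 - n) = H n) (hle : ∀ n, d ≤ 2 * n → n < d → H n ≤ k n) (n : ℕ)
    (hn : n < d - 1) : 0 ≤ gg d k H n := by
  unfold gg
  split_ifs with h
  · have := hle (n + 1) h (by omega)
    linarith
  · have h1 := hle (d - (n + 1)) (by omega) (by omega)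
    rw [hk (n + 1) (by omega)] at h1
    have e2 : d - (n + 1) = d - 1 - n := by omega
    rw [e2, hH n (by omega)] at h1
    linarith

/-- exact form -/
theorem ari_exact (d : ℕ) (hd : 1 ≤ d) (k H : ℕ → ℤ) (hk0 : k 0 = 0)
    (hk : ∀ n ≤ d, k (d - n) = k n) (hH : ∀ n < d, H (d - 1 - n) = H n) :
    2 * (∑ n ∈ range (d + 1), 2 ^ n * k n - ∑ n ∈ range d, 2 ^ n * H n + H 0 -
      2 ^ ((d - 1) / 2) * (∑ n ∈ range (d + 1), k n - ∑ n ∈ range d, H n + H 0)) =
      ∑ n ∈ range (d - 1), ((2 : ℤ) ^ (n + 1) + 2 ^ (d - 1 - n) - 2 * 2 ^ ((d - 1) / 2)) *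
        gg d k H n + 2 * ∑ i ∈ range ((d - 1) / 2), (2 : ℤ) ^ i * (H i - H 0) := by
  set D := (d - 1) / 2 with hD
  have hkd : k d = 0 := by
    have := hk 0 (Nat.zero_le _)
    rw [Nat.sub_zero] at this
    rw [this, hk0]
  have h1 := ari_sum d hd k H (fun n => 2 ^ n) hk0 hkd
  have h2 := ari_sum d hd k H (fun _ => 1) hk0 hkd
  simp only [pow_zero, one_mul] at h1 h2
  rw [h1, h2]
  -- the difference as one sum
  have h3 : ∑ n ∈ range (d - 1), (2 : ℤ) ^ (n + 1) * (k (n + 1) - H (n + 1)) -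
      2 ^ D * ∑ n ∈ range (d - 1), (k (n + 1) - H (n + 1)) =
      ∑ n ∈ range (d - 1), ((2 : ℤ) ^ (n + 1) - 2 ^ D) * gg d k H n +
        ∑ n ∈ range (d - 1), (if n < D then
          ((2 : ℤ) ^ D - 2 ^ (n + 1)) * (H (n + 1) - H n) else 0) := by
    rw [Finset.mul_sum, ← Finset.sum_sub_distrib, ← Finset.sum_add_distrib]
    refine Finset.sum_congr rfl fun n hn => ?_
    rw [Finset.mem_range] at hn
    unfold gg
    by_cases h : n < D
    · rw [if_neg (by omega), if_pos h]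
      ring
    · rw [if_pos (by omega), if_neg h]
      ring
  have h4 : ∑ n ∈ range (d - 1), (if n < D then
      ((2 : ℤ) ^ D - 2 ^ (n + 1)) * (H (n + 1) - H n) else 0) =
      ∑ i ∈ range D, (2 : ℤ) ^ i * (H i - H 0) := by
    rw [← ari_abel, ← Finset.sum_filter]
    refine Finset.sum_congr ?_ fun _ _ => rfl
    ext n
    simp only [Finset.mem_filter, Finset.mem_range]
    omega
  have h5 : ∑ n ∈ range (d - 1), ((2 : ℤ) ^ (n + 1) - 2 ^ D) * gg d k H n =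
      ∑ n ∈ range (d - 1), ((2 : ℤ) ^ (d - 1 - n) - 2 ^ D) * gg d k H n := by
    rw [← Finset.sum_range_reflect]
    refine Finset.sum_congr rfl fun n hn => ?_
    rw [Finset.mem_range] at hn
    rw [gg_symm d k H hk hH n hn]
    have e1 : d - 1 - 1 - n + 1 = d - 1 - n := by omega
    rw [e1]
  rw [h3, h4, mul_add]
  congr 1
  have h6 : ∑ n ∈ range (d - 1), ((2 : ℤ) ^ (n + 1) + 2 ^ (d - 1 - n) - 2 * 2 ^ D) *
      gg d k H n = ∑ n ∈ range (d - 1), ((2 : ℤ) ^ (n + 1) - 2 ^ D) * gg d k H n +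
      ∑ n ∈ range (d - 1), ((2 : ℤ) ^ (d - 1 - n) - 2 ^ D) * gg d k H n := by
    rw [← Finset.sum_add_distrib]
    refine Finset.sum_congr rfl fun n _ => ?_
    ring
  rw [h6, ← h5]
  ring

theorem ari_weight (d n : ℕ) (hn : n < d - 1) :
    (0 : ℤ) ≤ (2 : ℤ) ^ (n + 1) + 2 ^ (d - 1 - n) - 2 * 2 ^ ((d - 1) / 2) := by
  set D := (d - 1) / 2 with hD
  have h0 : ∀ m : ℕ, (0 : ℤ) ≤ 2 ^ m := fun m => by positivity
  by_cases h : D ≤ n
  · have h1 : (2 : ℤ) ^ (D + 1) ≤ 2 ^ (n + 1) :=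
      pow_le_pow_right₀ (by norm_num) (by omega)
    have h2 := h0 (d - 1 - n)
    rw [pow_succ] at h1
    linarith
  · have h1 : (2 : ℤ) ^ (D + 1) ≤ 2 ^ (d - 1 - n) :=
      pow_le_pow_right₀ (by norm_num) (by omega)
    have h2 := h0 (n + 1)
    rw [pow_succ] at h1
    linarith

/-- the arithmetic of Theorem B -/
theorem ari (d : ℕ) (hd : 1 ≤ d) (k H : ℕ → ℤ) (hk0 : k 0 = 0)
    (hk : ∀ n ≤ d, k (d - n) = k n) (hH : ∀ n < d, H (d - 1 - n) = H n)
    (h1 : ∀ n < d, H 0 ≤ H n) (h0 : 0 ≤ H 0)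
    (hle : ∀ n, d ≤ 2 * n → n < d → H n ≤ k n) :
    ∑ n ∈ range (d + 1), 2 ^ n * k n - ∑ n ∈ range d, 2 ^ n * H n + H 0 ≥
      2 ^ ((d - 1) / 2) * (∑ n ∈ range (d + 1), k n - ∑ n ∈ range d, H n + H 0) := by
  have hex := ari_exact d hd k H hk0 hk hH
  have hA : 0 ≤ ∑ n ∈ range (d - 1), ((2 : ℤ) ^ (n + 1) + 2 ^ (d - 1 - n) -
      2 * 2 ^ ((d - 1) / 2)) * gg d k H n :=
    Finset.sum_nonneg fun n hn => mul_nonneg (ari_weight d n (Finset.mem_range.1 hn))
      (gg_nonneg d k H hk hH hle n (Finset.mem_range.1 hn))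
  have hB : 0 ≤ ∑ i ∈ range ((d - 1) / 2), (2 : ℤ) ^ i * (H i - H 0) :=
    Finset.sum_nonneg fun i hi => mul_nonneg (by positivity)
      (by have := h1 i (by have := Finset.mem_range.1 hi; omega); linarith)
  linarith

/-- the arithmetic with the number of facets: `k (d - 1) - H (d - 1)` -/
theorem ari_plus (d : ℕ) (hd : 3 ≤ d) (k H : ℕ → ℤ) (hk0 : k 0 = 0)
    (hk : ∀ n ≤ d, k (d - n) = k n) (hH : ∀ n < d, H (d - 1 - n) = H n)
    (hle : ∀ n, d ≤ 2 * n → n < d → H n ≤ k n) :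
    ∑ n ∈ range (d + 1), 2 ^ n * k n - ∑ n ∈ range d, 2 ^ n * H n + H 0 ≥
      2 ^ ((d - 1) / 2) * (∑ n ∈ range (d + 1), k n - ∑ n ∈ range d, H n + H 0) +
        (2 ^ (d - 1) + 2 - 2 * 2 ^ ((d - 1) / 2)) * (k (d - 1) - H (d - 1)) +
        ∑ i ∈ range ((d - 1) / 2), (2 : ℤ) ^ i * (H i - H 0) := by
  have hex := ari_exact d (by omega) k H hk0 hk hH
  set D := (d - 1) / 2 with hD
  have hA : 2 * ((2 ^ (d - 1) + 2 - 2 * 2 ^ D) * (k (d - 1) - H (d - 1))) ≤
      ∑ n ∈ range (d - 1), ((2 : ℤ) ^ (n + 1) + 2 ^ (d - 1 - n) - 2 * 2 ^ D) *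
        gg d k H n := by
    obtain ⟨m, rfl⟩ : ∃ m, d = m + 3 := ⟨d - 3, by omega⟩
    have hg1 : gg (m + 3) k H (m + 1) = k (m + 2) - H (m + 2) := by
      unfold gg
      rw [if_pos (by omega)]
    have hg0 : gg (m + 3) k H 0 = k (m + 2) - H (m + 2) := by
      rw [← gg_symm (m + 3) k H hk hH 0 (by omega)]
      exact hg1
    have e1 : m + 3 - 1 = m + 1 + 1 := by omega
    rw [e1, Finset.sum_range_succ, Finset.sum_range_succ']
    have hrest : 0 ≤ ∑ n ∈ range m, ((2 : ℤ) ^ (n + 1 + 1) + 2 ^ (m + 1 + 1 - (n + 1)) -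
        2 * 2 ^ D) * gg (m + 3) k H (n + 1) := by
      refine Finset.sum_nonneg fun n hn => mul_nonneg ?_ ?_
      · have := ari_weight (m + 3) (n + 1) (by have := Finset.mem_range.1 hn; omega)
        rw [e1] at this
        rw [hD, e1]
        exact this
      · exact gg_nonneg (m + 3) k H hk hH hle (n + 1)
          (by have := Finset.mem_range.1 hn; omega)
    rw [hg0, hg1]
    have e2 : m + 1 + 1 - (m + 1) = 1 := by omega
    have e3 : m + 1 + 1 - 0 = m + 2 := by omega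
    rw [e2, e3]
    simp only [zero_add, pow_one]
    have e4 : m + 1 + 1 = m + 2 := rfl
    rw [e4]
    linarith
  linarith

end WLP
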