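import Pool.Agent.WLP.Phi
import Pool.Agent.WLP.Det

/-! Row HPOS: all entries of the `h`-vector of a sweep are positive. -/

set_option autoImplicit false

open scoped BigOperators

namespace WLP

open MvPolynomial

private theorem hpos_ind {M : Type} [Fintype M] [DecidableEq M] {D : ℕ} (S : Swp M D)
    (v : Finset M) (hv : v ∈ S.V) :
    LinearIndependent (FractionRing (R2 M D)) (fun l : v => fun r : Fin D =>
      algebraMap (R2 M D) (FractionRing (R2 M D)) (X (some r, some l.1))) := by
  classical
  have hcard : (v.image some).card = D := by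
    rw [Finset.card_image_of_injective _ (Option.some_injective M), S.card_eq v hv]
  have hD : D ≤ Fintype.card (Option M) := by
    rw [← hcard]
    exact Finset.card_le_univ _
  rw [Fintype.linearIndependent_iff]
  intro c hc l
  obtain ⟨y, hy1, hy2⟩ := dual_vec (D := D) (v.image some) hcard.le (some l.1)
    (Finset.mem_image_of_mem _ l.2) hD
  have h1 : ∀ r : Fin D, ∑ i : v, c i *
      algebraMap (R2 M D) (FractionRing (R2 M D)) (X (some r, some i.1)) = 0 := by
    intro r
    have := congrFun hc r
    rw [Finset.sum_apply] at this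
    exact this
  have h2 : ∑ i : v, c i * algebraMap (R2 M D) (FractionRing (R2 M D))
      (∑ r, y r * X (some r, some i.1)) = 0 := by
    have e : ∀ i : v, c i * algebraMap (R2 M D) (FractionRing (R2 M D))
        (∑ r, y r * X (some r, some i.1)) = ∑ r, algebraMap (R2 M D) (FractionRing (R2 M D)) (y r) *
          (c i * algebraMap (R2 M D) (FractionRing (R2 M D)) (X (some r, some i.1))) := by
      intro i
      rw [map_sum, Finset.mul_sum]
      refine Finset.sum_congr rfl fun r _ => ?_
      rw [map_mul]
      ring
    rw [Finset.sum_congr rfl fun i _ => e i, Finset.sum_comm]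
    refine Finset.sum_eq_zero fun r _ => ?_
    rw [← Finset.mul_sum, h1 r, mul_zero]
  rw [Finset.sum_eq_single l] at h2
  · rcases mul_eq_zero.1 h2 with h | h
    · exact h
    · exact absurd ((IsFractionRing.injective (R2 M D) (FractionRing (R2 M D)))
        (h.trans (map_zero _).symm)) hy1
  · intro i _ hi
    rw [hy2 (some i.1) (Finset.mem_image_of_mem _ i.2) (fun h => hi (Subtype.ext
      (Option.some_injective _ h))), map_zero, mul_zero]
  · intro h
    exact absurd (Finset.mem_univ l) h

theorem hpos {M : Type} [Fintype M] [DecidableEq M] {D : ℕ} (S : Swp M D) (hne : S.V.Nonempty)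
    (n : ℕ) (hn : n ≤ D) : 1 ≤ (S.V.filter (fun v => (S.P v).card = n)).card := by
  classical
  by_contra hcon
  have hno : ∀ v ∈ S.V, (S.P v).card ≠ n := by
    intro v hv h
    apply hcon
    exact Finset.card_pos.2 ⟨v, Finset.mem_filter.2 ⟨hv, h⟩⟩
  obtain ⟨v, hv⟩ := hne
  obtain ⟨u, huv, hu⟩ := Finset.exists_subset_card_eq (s := v) (n := n)
    (by rw [S.card_eq v hv]; exact hn)
  have hsum : ∀ s : Finset M, ∑ l, ind s l = s.card := by
    intro s
    simp [ind]
  have key := det_hi S (K := FractionRing (R2 M D))
    (fun r l => algebraMap (R2 M D) (FractionRing (R2 M D)) (X (some r, some l)))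
    (fun w hw => hpos_ind S w hw) (D - n)
    (fun e => algebraMap (R2 M D) (FractionRing (R2 M D)) (phi S (e + ind u)))
    ⟨fun e he => ?_, fun e he r => ?_⟩ (fun w hw hw' => ?_) (ind (v \ u)) ?_
  · have h1 : ind (v \ u) + ind u = ind v := by
      funext l
      simp only [ind, Pi.add_apply, Finset.mem_sdiff]
      by_cases h1 : l ∈ u
      · have h2 : l ∈ v := huv h1
        simp [h1, h2]
      · by_cases h2 : l ∈ v <;> simp [h1, h2]
    rw [h1] at key
    exact phi_vertex S v hv ((IsFractionRing.injective (R2 M D) (FractionRing (R2 M D)))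
      (key.trans (map_zero _).symm))
  · show algebraMap (R2 M D) (FractionRing (R2 M D)) (phi S (e + ind u)) = 0
    rw [phi_supp S, map_zero]
    rintro ⟨w, hw, hsub⟩
    refine he ⟨w, hw, fun l hl => hsub ?_⟩
    simp only [supp, Finset.mem_filter, Finset.mem_univ, true_and, Pi.add_apply] at hl ⊢
    omega
  · have h1 : ∑ l, (e + ind u) l + 1 = D := by
      simp only [Pi.add_apply]
      rw [Finset.sum_add_distrib, hsum, hu]
      omega
    have h2 := phi_rel S (e + ind u) h1 r
    have h3 := congrArg (algebraMap (R2 M D) (FractionRing (R2 M D))) h2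
    rw [map_sum, map_zero] at h3
    rw [← h3]
    refine Finset.sum_congr rfl fun l _ => ?_
    rw [map_mul, add_right_comm]
  · exfalso
    refine hno w hw ?_
    have h1 := Finset.card_sdiff_add_card_eq_card (S.P_sub w hw)
    rw [S.card_eq w hw] at h1
    omega
  · rw [hsum, Finset.card_sdiff_of_subset huv, S.card_eq v hv, hu]

end WLP
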