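import Pool.Agent.WLP.Defs

/-! Row HSYM: symmetry of the `h`-vector of a sweep. -/

set_option autoImplicit false

open scoped BigOperators

namespace WLP

noncomputable section

open Classical

/-- number of the sets of size `k` between a set of size `i` and a set of size `D` -/
private def hs_g (D i k : ℕ) : ℕ := if i ≤ k then (D - i).choose (k - i) else 0

private theorem hs_card {M : Type} [Fintype M] [DecidableEq M] (p w : Finset M) (hp : p ⊆ w)
    (k : ℕ) : ((w.powersetCard k).filter (fun s => p ⊆ s)).card = hs_g w.card p.card k := by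
  unfold hs_g
  split_ifs with h
  · rw [← Finset.card_sdiff_of_subset hp, ← Finset.card_powersetCard]
    refine Finset.card_nbij' (fun s => s \ p) (fun t => t ∪ p) ?_ ?_ ?_ ?_
    · intro s hs
      rw [Finset.mem_coe, Finset.mem_filter, Finset.mem_powersetCard] at hs
      rw [Finset.mem_coe, Finset.mem_powersetCard]
      refine ⟨Finset.sdiff_subset_sdiff hs.1.1 (Finset.Subset.refl _), ?_⟩
      rw [Finset.card_sdiff_of_subset hs.2, hs.1.2]
    · intro t ht
      rw [Finset.mem_coe, Finset.mem_powersetCard] at ht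
      rw [Finset.mem_coe, Finset.mem_filter, Finset.mem_powersetCard]
      refine ⟨⟨Finset.union_subset (ht.1.trans Finset.sdiff_subset) hp, ?_⟩,
        Finset.subset_union_right⟩
      rw [Finset.card_union_of_disjoint, ht.2]
      · omega
      · exact Finset.disjoint_of_subset_left ht.1 Finset.sdiff_disjoint
    · intro s hs
      rw [Finset.mem_coe, Finset.mem_filter, Finset.mem_powersetCard] at hs
      exact Finset.sdiff_union_of_subset hs.2
    · intro t ht
      rw [Finset.mem_coe, Finset.mem_powersetCard] at ht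
      show (t ∪ p) \ p = t
      rw [Finset.union_sdiff_right]
      exact Finset.sdiff_eq_self_of_disjoint
        (Finset.disjoint_of_subset_left ht.1 Finset.sdiff_disjoint)
  · rw [Finset.card_eq_zero, Finset.filter_eq_empty_iff]
    intro s hs hps
    rw [Finset.mem_powersetCard] at hs
    have := Finset.card_le_card hps
    omega

private theorem hs_faces {M : Type} [Fintype M] [DecidableEq M] {D : ℕ} (V : Finset (Finset M))
    (hV : ∀ v ∈ V, v.card = D) (p : Finset M → Finset M) (hp : ∀ v ∈ V, p v ⊆ v)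
    (hex : ∀ v ∈ V, ∀ s, s ⊆ v → ∃ w ∈ V, p w ⊆ s ∧ s ⊆ w)
    (huniq : ∀ v ∈ V, ∀ w ∈ V, ∀ s, p v ⊆ s → s ⊆ v → p w ⊆ s → s ⊆ w → v = w) (k : ℕ) :
    (V.biUnion (fun w => w.powersetCard k)).card =
      ∑ i ∈ Finset.range (D + 1), (V.filter (fun v => (p v).card = i)).card * hs_g D i k := by
  have h1 : V.biUnion (fun w => w.powersetCard k) =
      V.biUnion (fun w => (w.powersetCard k).filter (fun s => p w ⊆ s)) := by
    ext s
    simp only [Finset.mem_biUnion, Finset.mem_filter, Finset.mem_powersetCard]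
    constructor
    · rintro ⟨v, hv, hsv, hk⟩
      obtain ⟨w, hw, h2, h3⟩ := hex v hv s hsv
      exact ⟨w, hw, ⟨h3, hk⟩, h2⟩
    · rintro ⟨w, hw, h2, _⟩
      exact ⟨w, hw, h2⟩
  rw [h1, Finset.card_biUnion]
  · have h2 : ∀ v ∈ V, ((v.powersetCard k).filter (fun s => p v ⊆ s)).card =
        ∑ i ∈ Finset.range (D + 1), (if (p v).card = i then 1 else 0) * hs_g D i k := by
      intro v hv
      rw [hs_card _ _ (hp v hv), hV v hv, Finset.sum_eq_single (p v).card]
      · rw [if_pos rfl, one_mul]
      · intro i _ hi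
        rw [if_neg (fun h => hi h.symm), zero_mul]
      · intro h
        exfalso
        apply h
        rw [Finset.mem_range]
        have := Finset.card_le_card (hp v hv)
        rw [hV v hv] at this
        omega
    rw [Finset.sum_congr rfl h2, Finset.sum_comm]
    refine Finset.sum_congr rfl fun i _ => ?_
    rw [← Finset.sum_mul, Finset.card_filter]
  · intro v hv w hw hne
    rw [Function.onFun, Finset.disjoint_left]
    intro s hs hs'
    rw [Finset.mem_filter, Finset.mem_powersetCard] at hs hs'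
    exact hne (huniq v hv w hw s hs.2 hs.1.1 hs'.2 hs'.1.1)

private theorem hs_solve (D : ℕ) (u v : ℕ → ℕ)
    (h : ∀ k, ∑ i ∈ Finset.range (D + 1), u i * hs_g D i k =
      ∑ i ∈ Finset.range (D + 1), v i * hs_g D i k) : ∀ k, k ≤ D → u k = v k := by
  intro k
  induction k using Nat.strong_induction_on with
  | _ k ih =>
    intro hk
    have h1 : ∀ f : ℕ → ℕ, ∑ i ∈ Finset.range (D + 1), f i * hs_g D i k =
        ∑ i ∈ Finset.range k, f i * hs_g D i k + f k := by
      intro f
      rw [← Finset.sum_subset (Finset.range_subset_range.mpr (by omega : k + 1 ≤ D + 1)),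
        Finset.sum_range_succ]
      · congr 1
        unfold hs_g
        rw [if_pos le_rfl, Nat.sub_self, Nat.choose_zero_right, mul_one]
      · intro i _ hi
        rw [Finset.mem_range, not_lt] at hi
        unfold hs_g
        rw [if_neg (by omega), mul_zero]
    have h2 := h k
    rw [h1, h1] at h2
    have h3 : ∑ i ∈ Finset.range k, u i * hs_g D i k = ∑ i ∈ Finset.range k, v i * hs_g D i k := by
      refine Finset.sum_congr rfl fun i hi => ?_
      rw [Finset.mem_range] at hi
      rw [ih i hi (by omega)]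
    omega

/-! ### ROW HSYM -/

theorem hsym {M : Type} [Fintype M] [DecidableEq M] {D : ℕ} (S : Swp M D) (n : ℕ) (hn : n ≤ D) :
    (S.V.filter (fun v => (S.P v).card = n)).card =
      (S.V.filter (fun v => (S.P v).card = D - n)).card := by
  have hlo : ∀ w ∈ S.V, S.lo w = w := by
    intro w hw
    symm
    refine Finset.eq_of_subset_of_card_le (S.sub_lo w hw w (Finset.Subset.refl _)) ?_
    rw [S.card_eq _ (S.lo_mem w hw w (Finset.Subset.refl _)), S.card_eq w hw]
  have hhi : ∀ w ∈ S.V, S.hi w = w := by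
    intro w hw
    symm
    refine Finset.eq_of_subset_of_card_le (S.sub_hi w hw w (Finset.Subset.refl _)) ?_
    rw [S.card_eq _ (S.hi_mem w hw w (Finset.Subset.refl _)), S.card_eq w hw]
  have hul : ∀ w ∈ S.V, ∀ s, S.P w ⊆ s → s ⊆ w → w = S.lo s := by
    intro w hw s h1 h2
    apply S.ht_inj w hw _ (S.lo_mem w hw s h2)
    apply le_antisymm (S.lo_ge w hw s h2 w hw h1)
    have h3 := S.lo_ge w hw w (Finset.Subset.refl _) (S.lo s) (S.lo_mem w hw s h2)
      ((S.P_lo w hw s h2).trans h2)
    rwa [hlo w hw] at h3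
  have huh : ∀ w ∈ S.V, ∀ s, w \ S.P w ⊆ s → s ⊆ w → w = S.hi s := by
    intro w hw s h1 h2
    apply S.ht_inj w hw _ (S.hi_mem w hw s h2)
    refine le_antisymm ?_ (S.hi_le w hw s h2 w hw h1)
    have h3 := S.hi_le w hw w (Finset.Subset.refl _) (S.hi s) (S.hi_mem w hw s h2)
      ((S.N_hi w hw s h2).trans h2)
    rwa [hhi w hw] at h3
  have hA := hs_faces S.V S.card_eq S.P S.P_sub
    (fun v hv s hs => ⟨S.lo s, S.lo_mem v hv s hs, S.P_lo v hv s hs, S.sub_lo v hv s hs⟩)
    (fun v hv w hw s h1 h2 h3 h4 => (hul v hv s h1 h2).trans (hul w hw s h3 h4).symm)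
  have hB := hs_faces S.V S.card_eq (fun v => v \ S.P v) (fun v _ => Finset.sdiff_subset)
    (fun v hv s hs => ⟨S.hi s, S.hi_mem v hv s hs, S.N_hi v hv s hs, S.sub_hi v hv s hs⟩)
    (fun v hv w hw s h1 h2 h3 h4 => (huh v hv s h1 h2).trans (huh w hw s h3 h4).symm)
  have hC := hs_solve D _ _ (fun k => (hA k).symm.trans (hB k)) n hn
  rw [hC]
  congr 1
  refine Finset.filter_congr fun v hv => ?_
  have h1 := Finset.card_le_card (S.P_sub v hv)
  rw [Finset.card_sdiff_of_subset (S.P_sub v hv), S.card_eq v hv]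
  rw [S.card_eq v hv] at h1
  omega

end

end WLP
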