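import Pool.Agent.WLP.StarOf
import Pool.Agent.WLP.Core

/-!
# Row STAR
-/

set_option autoImplicit false

open scoped BigOperators RealInnerProductSpace

namespace WLP

noncomputable section

open Classical

open Pool.Agent.KST (E IsCell Cells Verts Simple Pol pt PP Gen Star VF Low LowF Inside hh Fn FF Ker
  Par)

theorem star_le {ι : Type} [Fintype ι] {d : ℕ} {b : ι → E (d + 1)} (hS : Simple b)
    (hb : Bornology.IsBounded (Pol b)) {J : Finset ι} (hJ : SepB b J) {c : ι → E (d + 1)}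
    (hc : AlgebraicIndependent ℤ (fun p : ι × Fin (d + 1) => c p.1 p.2)) {n : ℕ}
    (hn : d + 1 ≤ 2 * n) (hn' : n ≤ d) :
    ∑ j ∈ J, Module.finrank ℝ ↥(FF (Star b j) n ⊓ Ker c) ≤
      Module.finrank ℝ ↥(FF (Cells b) n ⊓ Ker c ⊓ Par ι (-1)) :=
  star_le_of hJ fun j hj f hf hk h0 => core hS hb j (hJ.opp j hj) hc hn hn' f hf hk h0

theorem star_inj {ι : Type} [Fintype ι] {d : ℕ} {b : ι → E (d + 1)} (hS : Simple b)
    (hb : Bornology.IsBounded (Pol b)) {J : Finset ι} (hJ : SepB b J) {c : ι → E (d + 1)}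
    (hc : AlgebraicIndependent ℤ (fun p : ι × Fin (d + 1) => c p.1 p.2)) {n : ℕ}
    (hn : d + 1 ≤ 2 * n) (hn' : n ≤ d) (f : ι → Fn ι) (hf : ∀ j ∈ J, f j ∈ FF (Star b j) n)
    (hk : ∀ j ∈ J, f j ∈ Ker c) (h0 : ∑ j ∈ J, (f j - fun e => f j (-e)) = 0) :
    ∀ j ∈ J, f j = 0 :=
  star_inj_of hJ (fun j hj f hf hk h0 => core hS hb j (hJ.opp j hj) hc hn hn' f hf hk h0)
    f hf hk h0

end

end WLP
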