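import Pool.Agent.KST.A5
import Pool.Agent.KST.G3
import Pool.Agent.KST.G4
import Pool.Agent.KST.Q1
import Pool.Agent.WLP.Link
import Pool.Agent.WLP.Hsym
import Pool.Agent.WLP.Hpos
import Pool.Agent.WLP.Ari
import Pool.Agent.WLP.Change
import Pool.Agent.WLP.Star

/-! Row MAINB: the main inequality of theorem B -/

set_option autoImplicit false

open scoped BigOperators RealInnerProductSpace

namespace WLP

noncomputable section

open Classical

open Pool.Agent.KST (E IsCell Cells Verts Simple Pol pt PP Gen Star VF Low LowF Inside hh Fn FF Ker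
  Par)

theorem mb_fiber {α : Type*} (V : Finset α) (p : α → ℕ) (m : ℕ) (hp : ∀ v ∈ V, p v < m)
    (w : ℕ → ℤ) :
    ∑ n ∈ Finset.range m, w n * ((V.filter (fun v => p v = n)).card : ℤ) =
      ∑ v ∈ V, w (p v) := by
  rw [← Finset.sum_fiberwise_of_maps_to (s := V) (t := Finset.range m) (g := p)
    (fun v hv => Finset.mem_range.2 (hp v hv))]
  apply Finset.sum_congr rfl
  intro n _
  rw [Finset.sum_congr rfl (g := fun _ => w n) (fun v hv => by rw [(Finset.mem_filter.1 hv).2]),
    Finset.sum_const, nsmul_eq_mul, mul_comm]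

variable {ι : Type} [Fintype ι] {d : ℕ}

theorem mb_neg_verts {b : ι → E d} {v : ι → SignType} (hv : v ∈ Verts b) : -v ∈ Verts b := by
  unfold Verts at hv ⊢
  rw [Finset.mem_filter] at hv ⊢
  refine ⟨Pool.Agent.KST.neg_mem_cells hv.1, ?_⟩
  rw [← hv.2]
  congr 1
  unfold Pool.Agent.KST.supp
  apply Finset.filter_congr
  intro l _
  simp only [Pi.neg_apply]
  cases v l <;> simp

theorem mb_two {b : ι → E d} (j : ι) :
    ((Verts b).filter (fun v => v j ≠ 0)).card = 2 * (VF b j).card := by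
  have h1 : (Verts b).filter (fun v => v j ≠ 0) =
      VF b j ∪ (Verts b).filter (fun v => v j = -1) := by
    ext v
    unfold VF
    rw [Finset.mem_union, Finset.mem_filter, Finset.mem_filter, Finset.mem_filter]
    constructor
    · rintro ⟨h, h2⟩
      rcases hv : v j with _ | _ | _
      · exact absurd hv h2
      · right; exact ⟨h, rfl⟩
      · left; exact ⟨h, rfl⟩
    · rintro (⟨h, h2⟩ | ⟨h, h2⟩)
      · exact ⟨h, by rw [h2]; decide⟩
      · exact ⟨h, by rw [h2]; decide⟩
  have h2 : Disjoint (VF b j) ((Verts b).filter (fun v => v j = -1)) := by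
    rw [Finset.disjoint_left]
    intro v hv hv'
    unfold VF at hv
    rw [Finset.mem_filter] at hv hv'
    rw [hv.2] at hv'
    exact absurd hv'.2 (by decide)
  have h3 : ((Verts b).filter (fun v => v j = -1)).card = (VF b j).card := by
    apply Finset.card_bij (fun v _ => -v)
    · intro v hv
      rw [Finset.mem_filter] at hv
      unfold VF
      rw [Finset.mem_filter]
      refine ⟨mb_neg_verts hv.1, ?_⟩
      rw [Pi.neg_apply, hv.2]
      decide
    · intro v _ w _ h
      exact neg_injective h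
    · intro v hv
      unfold VF at hv
      rw [Finset.mem_filter] at hv
      refine ⟨-v, ?_, neg_neg v⟩
      rw [Finset.mem_filter]
      refine ⟨mb_neg_verts hv.1, ?_⟩
      rw [Pi.neg_apply, hv.2]
  rw [h1, Finset.card_union_of_disjoint h2, h3, two_mul]

theorem mb_verts {b : ι → E d} {J : Finset ι} (hJ : SepB b J) :
    (Verts b).card = ((Verts b).filter (fun v => ∀ j ∈ J, v j = 0)).card +
      2 * ∑ j ∈ J, (VF b j).card := by
  have h1 : ((Verts b).filter (fun v => ¬ ∀ j ∈ J, v j = 0)) =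
      J.biUnion (fun j => (Verts b).filter (fun v => v j ≠ 0)) := by
    ext v
    rw [Finset.mem_filter, Finset.mem_biUnion]
    constructor
    · rintro ⟨h, h2⟩
      push Not at h2
      obtain ⟨j, hj, hj2⟩ := h2
      exact ⟨j, hj, Finset.mem_filter.2 ⟨h, hj2⟩⟩
    · rintro ⟨j, hj, h⟩
      rw [Finset.mem_filter] at h
      exact ⟨h.1, fun h3 => h.2 (h3 j hj)⟩
  have h2 : (J.biUnion (fun j => (Verts b).filter (fun v => v j ≠ 0))).card =
      ∑ j ∈ J, ((Verts b).filter (fun v => v j ≠ 0)).card := by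
    apply Finset.card_biUnion
    intro j hj k hk hjk
    rw [Function.onFun, Finset.disjoint_left]
    intro v hv hv'
    rw [Finset.mem_filter] at hv hv'
    apply hjk
    refine hJ.disj v ?_ j hj k hk hv.2 hv'.2
    have := hv.1
    unfold Verts at this
    exact (Finset.mem_filter.1 this).1
  rw [← Finset.card_filter_add_card_filter_not (s := Verts b) (p := fun v => ∀ j ∈ J, v j = 0), h1, h2,
    Finset.mul_sum]
  congr 1
  apply Finset.sum_congr rfl
  intro j _
  exact mb_two j

theorem mb_link {d : ℕ} {b : ι → E (d + 1)} (hS : Simple b) (hb : Bornology.IsBounded (Pol b))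
    {a : E (d + 1)} (ha : Gen b a) {j : ι} (hl : LowF b a j)
    (hA : ∀ s ∈ Cells b, ∀ t ∈ Cells b, s j = 1 → t j = 1 → ∀ l, s l ≠ 0 → t l ≠ 0 → s l = t l) :
    ∃ S : Swp ι d, (∀ n, (S.V.filter (fun v => (S.P v).card = n)).card = hh (VF b j) (PP b a) n) ∧
      ((VF b j).Nonempty → S.V.Nonempty) := by
  obtain ⟨S, hV, hP⟩ := link_swp hS hb ha j hA
  have hcell : ∀ v ∈ VF b j, v ∈ Cells b ∧ v j = 1 := by
    intro v hv
    unfold VF Verts at hv
    rw [Finset.mem_filter, Finset.mem_filter] at hv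
    exact ⟨hv.1.1, hv.2⟩
  have hinj : Set.InjOn (fun v => (Pool.Agent.KST.supp v).erase j)
      ((VF b j : Finset (ι → SignType)) : Set (ι → SignType)) := by
    intro v hv w hw h
    simp only at h
    have hv' := hcell v hv
    have hw' := hcell w hw
    funext l
    by_cases hlj : l = j
    · rw [hlj, hv'.2, hw'.2]
    · have h1 : v l ≠ 0 ↔ w l ≠ 0 := by
        have h2 : l ∈ (Pool.Agent.KST.supp v).erase j ↔ l ∈ (Pool.Agent.KST.supp w).erase j := by
          rw [h]
        simpa [Pool.Agent.KST.supp, hlj] using h2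
      by_cases h3 : v l = 0
      · have h4 : w l = 0 := by
          by_contra h5
          exact (h1.2 h5) h3
        rw [h3, h4]
      · exact hA v hv'.1 w hw'.1 hv'.2 hw'.2 l h3 (h1.1 h3)
  refine ⟨S, ?_, ?_⟩
  · intro n
    unfold hh
    have h1 : S.V.filter (fun v => (S.P v).card = n) =
        ((VF b j).filter (fun v => (PP b a v).card = n)).image
          (fun v => (Pool.Agent.KST.supp v).erase j) := by
      rw [hV, Finset.filter_image]
      congr 1
      apply Finset.filter_congr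
      intro v hv
      rw [hP v hv, Finset.erase_eq_of_notMem (Pool.Agent.KST.notMem_PP hS hb ha hl hv)]
    rw [h1]
    apply Finset.card_image_of_injOn
    intro v hv w hw h
    rw [Finset.coe_filter] at hv hw
    exact hinj hv.1 hw.1 h
  · intro h
    rw [hV]
    exact h.image _

theorem mb_supp_card {b : ι → E d} {a : E d} {v : ι → SignType} (hv : v ∈ Verts b) :
    (PP b a v).card ≤ d := by
  unfold Verts at hv
  rw [Finset.mem_filter] at hv
  refine le_trans (Finset.card_le_card ?_) hv.2.le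
  unfold PP
  exact Finset.filter_subset _ _

theorem mb_supp_card' {d : ℕ} {b : ι → E (d + 1)} (hS : Simple b)
    (hb : Bornology.IsBounded (Pol b))
    {a : E (d + 1)} (ha : Gen b a) {j : ι} (hl : LowF b a j) {v : ι → SignType}
    (hv : v ∈ VF b j) : (PP b a v).card ≤ d := by
  have hj := Pool.Agent.KST.notMem_PP hS hb ha hl hv
  unfold VF Verts at hv
  rw [Finset.mem_filter, Finset.mem_filter] at hv
  have h1 : PP b a v ⊆ (Pool.Agent.KST.supp v).erase j := by
    intro l hl'
    rw [Finset.mem_erase]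
    refine ⟨fun h => hj (h ▸ hl'), ?_⟩
    unfold PP at hl'
    exact (Finset.mem_filter.1 hl').1
  have h2 : j ∈ Pool.Agent.KST.supp v := by
    unfold Pool.Agent.KST.supp
    rw [Finset.mem_filter]
    refine ⟨Finset.mem_univ _, ?_⟩
    rw [hv.2]
    decide
  have h3 := Finset.card_le_card h1
  rw [Finset.card_erase_of_mem h2, hv.1.2] at h3
  omega

theorem mainB {d : ℕ} {b : ι → E (d + 1)} (hS : Simple b)
    (hb : Bornology.IsBounded (Pol b)) {J : Finset ι} (hJ : SepB b J) :
    (3 : ℤ) ^ (d + 1) + 2 ^ (d / 2) *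
        ((((Verts b).filter (fun v => ∀ j ∈ J, v j = 0)).card : ℤ) +
          2 * ((J.filter (fun j => ∃ t ∈ Cells b, t j = 1)).card : ℤ) - 2 ^ (d + 1)) +
        2 * ∑ j ∈ J, (((Cells b).filter (fun s => s j = 1)).card : ℤ) ≤
      ((Cells b).card : ℤ) + 2 * ((J.filter (fun j => ∃ t ∈ Cells b, t j = 1)).card : ℤ) := by
  obtain ⟨c, hc⟩ := exists_generic ι (d + 1)
  obtain ⟨a, ha, -⟩ := Pool.Agent.KST.exists_gen_near hS (0 : E (d + 1)) one_pos
  choose A hA using fun j => Pool.Agent.KST.exists_low hS j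
  have hsw := Pool.Agent.KST.sweep_cells hS hb ha
  have hmin : ∀ n, 2 * Module.finrank ℝ ↥(FF (Cells b) n ⊓ Ker c ⊓ Par ι (-1)) +
      (d + 1).choose n = hh (Verts b) (PP b a) n := fun n =>
    Pool.Agent.KST.finrank_minus (sweep_change c hc hsw)
      (fun s hs => Pool.Agent.KST.neg_mem_cells hs) n
  set κ : ℕ → ℤ := fun n => (Module.finrank ℝ ↥(FF (Cells b) n ⊓ Ker c ⊓ Par ι (-1)) : ℤ) with hκ
  set H : ℕ → ℤ := fun n => ∑ j ∈ J, (hh (VF b j) (PP b (A j)) n : ℤ) with hH
  have hmin' : ∀ n, (hh (Verts b) (PP b a) n : ℤ) = 2 * κ n + ((d + 1).choose n : ℤ) := by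
    intro n
    rw [← hmin n]
    push_cast
    rfl
  -- nonempty facets
  have hVFne : ∀ j, (∃ t ∈ Cells b, t j = 1) ↔ (VF b j).Nonempty := by
    intro j
    constructor
    · intro h
      obtain ⟨v, hv, -⟩ := (Pool.Agent.KST.sweep_star hS hb (hA j).1 (hA j).2 h).ex 0
        (Pool.Agent.KST.sweep_star hS hb (hA j).1 (hA j).2 h).zero
      exact ⟨v, hv⟩
    · rintro ⟨v, hv⟩
      unfold VF Verts at hv
      rw [Finset.mem_filter, Finset.mem_filter] at hv
      exact ⟨v, hv.1.1, hv.2⟩
  have hlink : ∀ j ∈ J, ∃ S : Swp ι d,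
      (∀ n, (S.V.filter (fun v => (S.P v).card = n)).card = hh (VF b j) (PP b (A j)) n) ∧
      ((VF b j).Nonempty → S.V.Nonempty) := fun j hj =>
    mb_link hS hb (hA j).1 (hA j).2 (hJ.opp j hj)
  have hHsym : ∀ j ∈ J, ∀ n ≤ d, hh (VF b j) (PP b (A j)) (d - n) =
      hh (VF b j) (PP b (A j)) n := by
    intro j hj n hn
    obtain ⟨S, hSn, -⟩ := hlink j hj
    rw [← hSn, ← hSn, hsym S n hn]
  have hHpos : ∀ j ∈ J, (VF b j).Nonempty → ∀ n ≤ d, 1 ≤ hh (VF b j) (PP b (A j)) n := by
    intro j hj hne n hn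
    obtain ⟨S, hSn, hS2⟩ := hlink j hj
    rw [← hSn]
    exact hpos S (hS2 hne) n hn
  have hHempty : ∀ j, ¬ (VF b j).Nonempty → ∀ n, hh (VF b j) (PP b (A j)) n = 0 := by
    intro j hne n
    rw [Finset.not_nonempty_iff_eq_empty] at hne
    unfold hh
    rw [hne]
    rfl
  have hH0 : ∀ j ∈ J, (hh (VF b j) (PP b (A j)) 0 : ℤ) =
      if (∃ t ∈ Cells b, t j = 1) then 1 else 0 := by
    intro j hj
    by_cases h : ∃ t ∈ Cells b, t j = 1
    · rw [if_pos h]
      have h1 := hHpos j hj ((hVFne j).1 h) 0 (Nat.zero_le _)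
      have h2 := Pool.Agent.KST.hh_zero_le hS hb (hA j).1 (hA j).2
      have h3 : hh (VF b j) (PP b (A j)) 0 = 1 := le_antisymm h2 h1
      rw [h3]; rfl
    · rw [if_neg h, hHempty j (fun h' => h ((hVFne j).2 h'))]
      rfl
  have hr : ((J.filter (fun j => ∃ t ∈ Cells b, t j = 1)).card : ℤ) = H 0 := by
    rw [hH]
    simp only
    rw [Finset.sum_congr rfl hH0, Finset.sum_boole]
  -- hypotheses of ari
  have hk0 : κ 0 = 0 := by
    have h1 : hh (Verts b) (PP b a) 0 ≤ 1 := by
      unfold hh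
      rw [Finset.card_le_one]
      intro v hv w hw
      rw [Finset.mem_filter, Finset.card_eq_zero] at hv hw
      refine hsw.uniq 0 hsw.zero v hv.1 w hw.1 ?_ ?_
      · refine ⟨fun l hl => absurd rfl hl, ?_⟩
        intro l hl
        rw [hv.2] at hl
        exact absurd hl (Finset.notMem_empty _)
      · refine ⟨fun l hl => absurd rfl hl, ?_⟩
        intro l hl
        rw [hw.2] at hl
        exact absurd hl (Finset.notMem_empty _)
    have h2 := hmin 0
    rw [Nat.choose_zero_right] at h2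
    have h3 : Module.finrank ℝ ↥(FF (Cells b) 0 ⊓ Ker c ⊓ Par ι (-1)) = 0 := by omega
    rw [hκ]
    simp only
    rw [h3]; rfl
  have hk : ∀ n ≤ d + 1, κ (d + 1 - n) = κ n := by
    intro n hn
    have h1 := Pool.Agent.KST.hh_symm hS hb ha hn
    have h2 := hmin' n
    have h3 := hmin' (d + 1 - n)
    rw [Nat.choose_symm hn] at h3
    rw [← h1, h2] at h3
    linarith
  have hHs : ∀ n < d + 1, H (d + 1 - 1 - n) = H n := by
    intro n hn
    rw [hH]
    simp only
    apply Finset.sum_congr rfl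
    intro j hj
    rw [Nat.add_sub_cancel, hHsym j hj n (by omega)]
  have h1 : ∀ n < d + 1, H 0 ≤ H n := by
    intro n hn
    rw [hH]
    simp only
    apply Finset.sum_le_sum
    intro j hj
    rw [hH0 j hj]
    by_cases h : ∃ t ∈ Cells b, t j = 1
    · rw [if_pos h]
      exact_mod_cast hHpos j hj ((hVFne j).1 h) n (by omega)
    · rw [if_neg h]
      positivity
  have h0 : 0 ≤ H 0 := by
    rw [hH]
    positivity
  have hle : ∀ n, d + 1 ≤ 2 * n → n < d + 1 → H n ≤ κ n := by
    intro n hn hn'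
    have h2 := star_le hS hb hJ hc hn (by omega : n ≤ d)
    have h3 : ∑ j ∈ J, hh (VF b j) (PP b (A j)) n ≤
        ∑ j ∈ J, Module.finrank ℝ ↥(FF (Star b j) n ⊓ Ker c) := by
      apply Finset.sum_le_sum
      intro j _
      by_cases h : ∃ t ∈ Cells b, t j = 1
      · rw [Pool.Agent.KST.finrank_ker (sweep_change c hc
          (Pool.Agent.KST.sweep_star hS hb (hA j).1 (hA j).2 h)) n]
      · rw [hHempty j (fun h' => h ((hVFne j).2 h'))]
        exact Nat.zero_le _
    have h4 := le_trans h3 h2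
    rw [hH, hκ]
    simp only
    exact_mod_cast h4
  have hari := ari (d + 1) (by omega) κ H hk0 hk hHs h1 h0 hle
  rw [Nat.add_sub_cancel] at hari
  -- the four sums
  have hc1 : ((Cells b).card : ℤ) =
      3 ^ (d + 1) + 2 * ∑ n ∈ Finset.range (d + 1 + 1), 2 ^ n * κ n := by
    rw [Pool.Agent.KST.card_cells hS hb ha]
    push_cast
    rw [← mb_fiber (Verts b) (fun v => (PP b a v).card) (d + 1 + 1)
      (fun v hv => Nat.lt_succ_of_le (mb_supp_card hv)) (fun n => (2 : ℤ) ^ n)]
    have h2 : ∀ n ∈ Finset.range (d + 1 + 1), (2 : ℤ) ^ n *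
        (((Verts b).filter (fun v => (PP b a v).card = n)).card : ℤ) =
        (2 : ℤ) ^ n * ((d + 1).choose n : ℤ) + 2 * (2 ^ n * κ n) := by
      intro n _
      have h3 := hmin' n
      unfold hh at h3
      rw [h3]
      ring
    rw [Finset.sum_congr rfl h2, Finset.sum_add_distrib, ← Finset.mul_sum]
    congr 1
    have h4 := add_pow (2 : ℤ) 1 (d + 1)
    simp only [one_pow, mul_one] at h4
    rw [← h4]
    norm_num
  have hc2 : ((Verts b).card : ℤ) =
      2 ^ (d + 1) + 2 * ∑ n ∈ Finset.range (d + 1 + 1), κ n := by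
    have h2 := mb_fiber (Verts b) (fun v => (PP b a v).card) (d + 1 + 1)
      (fun v hv => Nat.lt_succ_of_le (mb_supp_card hv)) (fun _ => (1 : ℤ))
    simp only [one_mul, Finset.sum_const, nsmul_eq_mul, mul_one] at h2
    rw [← h2]
    have h3 : ∀ n ∈ Finset.range (d + 1 + 1),
        (((Verts b).filter (fun v => (PP b a v).card = n)).card : ℤ) =
        ((d + 1).choose n : ℤ) + 2 * κ n := by
      intro n _
      have h3 := hmin' n
      unfold hh at h3
      rw [h3]
      ring
    rw [Finset.sum_congr rfl h3, Finset.sum_add_distrib, ← Finset.mul_sum]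
    congr 1
    exact_mod_cast Nat.sum_range_choose (d + 1)
  have hc3 : ∑ j ∈ J, (((Cells b).filter (fun s => s j = 1)).card : ℤ) =
      ∑ n ∈ Finset.range (d + 1), 2 ^ n * H n := by
    rw [hH]
    simp only
    simp_rw [Finset.mul_sum]
    rw [Finset.sum_comm]
    apply Finset.sum_congr rfl
    intro j _
    rw [Pool.Agent.KST.card_facet hS hb (hA j).1 (hA j).2]
    push_cast
    rw [← mb_fiber (VF b j) (fun v => (PP b (A j) v).card) (d + 1)
      (fun v hv => Nat.lt_succ_of_le (mb_supp_card' hS hb (hA j).1 (hA j).2 hv))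
      (fun n => (2 : ℤ) ^ n)]
    rfl
  have hc4 : ∑ j ∈ J, ((VF b j).card : ℤ) = ∑ n ∈ Finset.range (d + 1), H n := by
    rw [hH]
    simp only
    rw [Finset.sum_comm]
    apply Finset.sum_congr rfl
    intro j _
    have h2 := mb_fiber (VF b j) (fun v => (PP b (A j) v).card) (d + 1)
      (fun v hv => Nat.lt_succ_of_le (mb_supp_card' hS hb (hA j).1 (hA j).2 hv))
      (fun _ => (1 : ℤ))
    simp only [one_mul, Finset.sum_const, nsmul_eq_mul, mul_one] at h2
    rw [← h2]
    rfl
  have hc5 : ((Verts b).card : ℤ) =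
      (((Verts b).filter (fun v => ∀ j ∈ J, v j = 0)).card : ℤ) +
        2 * ∑ j ∈ J, ((VF b j).card : ℤ) := by
    have h2 := mb_verts hJ
    exact_mod_cast h2
  rw [hr, hc3]
  rw [hc4] at hc5
  set Vo : ℤ := (((Verts b).filter (fun v => ∀ j ∈ J, v j = 0)).card : ℤ) with hVo
  have h9 : Vo + 2 * H 0 - 2 ^ (d + 1) = 2 * (∑ n ∈ Finset.range (d + 1 + 1), κ n -
      ∑ n ∈ Finset.range (d + 1), H n + H 0) := by
    linarith
  rw [h9, hc1]
  linarith [hari]

end

end WLP
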