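import Pool.Agent.WLP.Defs2
import Pool.Agent.KST.N1
import Pool.Agent.KST.G0

/-! Row NB: polytopes that are simple away from their vertices -/

set_option autoImplicit false

open scoped BigOperators RealInnerProductSpace

namespace WLP

noncomputable section

open Classical

open Pool.Agent.KST

/-- the caps of the non-simple points -/
theorem nb_core {α : Type} [Fintype α] {d : ℕ} (a : α → E d) (hb : Bornology.IsBounded (Pol a))
    (hmono : ∀ v ∈ n1NS a, ∀ x ∈ Pol a, (∀ i, |⟪a i, v⟫| = 1 → ⟪a i, x⟫ = ⟪a i, v⟫) → x = v) :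
    ∃ (r : ℕ) (g vv : Fin r → E d), Simple (Sum.elim a g) ∧
      (∀ x ∈ Pol a, ∀ j k, ∀ s t : SignType, 1 ≤ ((s : SignType) : ℝ) * ⟪g j, x⟫ →
        1 ≤ ((t : SignType) : ℝ) * ⟪g k, x⟫ → j = k ∧ s = t) ∧
      (∀ j (s : SignType) x, x ∈ Pol a → 1 ≤ ((s : SignType) : ℝ) * ⟪g j, x⟫ →
        s ≠ 0 ∧ ((s : SignType) : ℝ) • vv j ∈ n1NS a ∧
        ∀ i, |⟪a i, x⟫| = 1 → ⟪a i, ((s : SignType) : ℝ) • vv j⟫ = ⟪a i, x⟫) ∧
      (∀ v ∈ n1NS a, ∃ j, vv j = v ∨ vv j = -v) ∧
      (∀ j, 1 < ⟪g j, vv j⟫) ∧ ∀ j, vv j ∈ n1NS a := by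
  -- finiteness
  have hfin : (n1NS a).Finite := by
    apply Set.Finite.of_finite_image (f := fun x : E d => fun i : α =>
      if |⟪a i, x⟫| = 1 then SignType.sign ⟪a i, x⟫ else 0) (Set.toFinite _)
    intro x hx y hy hxy
    apply hmono y hy x hx.1
    intro i hi
    have h1 := congrFun hxy i
    simp only [hi, if_true] at h1
    have hy0 : ⟪a i, y⟫ ≠ 0 := by
      intro h0; rw [h0, abs_zero] at hi; exact absurd hi (by norm_num)
    by_cases hxi : |⟪a i, x⟫| = 1
    · rw [if_pos hxi] at h1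
      rcases eq_or_eq_neg_of_abs_eq hxi with h2 | h2 <;>
        rcases eq_or_eq_neg_of_abs_eq hi with h3 | h3
      · rw [h2, h3]
      · rw [h2, h3] at h1
        exact absurd h1 (by simp)
      · rw [h2, h3] at h1
        exact absurd h1 (by simp)
      · rw [h2, h3]
    · rw [if_neg hxi] at h1
      exact absurd (sign_eq_zero_iff.1 h1.symm) hy0
  obtain ⟨U, hU, hUd⟩ := hfin.t2_separation
  -- the neighbourhoods
  let O : E d → Set (E d) := fun v => U v ∩ {x | -x ∈ U (-v)} ∩
    ⋂ i : α, {x | (⟪a i, v⟫ ≠ 1 → ⟪a i, x⟫ ≠ 1) ∧ (⟪a i, v⟫ ≠ -1 → ⟪a i, x⟫ ≠ -1)}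
  have hOo : ∀ v, IsOpen (O v) := by
    intro v
    apply IsOpen.inter
    · apply IsOpen.inter (hU v).2
      exact (hU (-v)).2.preimage continuous_neg
    · apply isOpen_iInter_of_finite
      intro i
      have hcont : Continuous (fun x : E d => ⟪a i, x⟫) := by fun_prop
      apply IsOpen.inter (s := {x : E d | ⟪a i, v⟫ ≠ 1 → ⟪a i, x⟫ ≠ 1})
        (t := {x : E d | ⟪a i, v⟫ ≠ -1 → ⟪a i, x⟫ ≠ -1})
      · by_cases h : ⟪a i, v⟫ = 1
        · have : {x : E d | ⟪a i, v⟫ ≠ 1 → ⟪a i, x⟫ ≠ 1} = Set.univ := by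
            ext x; simp [h]
          rw [this]; exact isOpen_univ
        · have : {x : E d | ⟪a i, v⟫ ≠ 1 → ⟪a i, x⟫ ≠ 1} = {x : E d | ⟪a i, x⟫ ≠ 1} := by
            ext x; simp [h]
          rw [this]; exact isOpen_ne_fun hcont continuous_const
      · by_cases h : ⟪a i, v⟫ = -1
        · have : {x : E d | ⟪a i, v⟫ ≠ -1 → ⟪a i, x⟫ ≠ -1} = Set.univ := by
            ext x; simp [h]
          rw [this]; exact isOpen_univ
        · have : {x : E d | ⟪a i, v⟫ ≠ -1 → ⟪a i, x⟫ ≠ -1} = {x : E d | ⟪a i, x⟫ ≠ -1} := by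
            ext x; simp [h]
          rw [this]; exact isOpen_ne_fun hcont continuous_const
  have hOv : ∀ v, v ∈ O v := by
    intro v
    refine ⟨⟨(hU v).1, (hU (-v)).1⟩, ?_⟩
    rw [Set.mem_iInter]
    intro i
    exact ⟨fun h => h, fun h => h⟩
  have hlam : ∀ v, ∃ c : ℝ, v ∈ n1NS a → 1 < c ∧ ∀ x ∈ Pol a, 1 ≤ c * ⟪n1g a v, x⟫ → x ∈ O v := by
    intro v
    by_cases hv : v ∈ n1NS a
    · obtain ⟨c, hc, hc'⟩ := n1_cap (n1_isCompact a hb) (fun x => ⟪n1g a v, x⟫) (by fun_prop) v (by
        intro x hx hne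
        apply n1g_lt a v (n1NS_tight hv) hx
        intro h
        exact hne (hmono v hv x hx h)) (O v) (hOo v) (hOv v)
      exact ⟨c, fun _ => ⟨hc, hc'⟩⟩
    · exact ⟨0, fun h => absurd h hv⟩
  choose lam hlam using hlam
  -- representatives
  let R : Finset (E d) := hfin.toFinset.filter (fun v => WellOrderingRel v (-v))
  have hR : ∀ v, v ∈ R → v ∈ n1NS a := by
    intro v hv
    exact hfin.mem_toFinset.1 (Finset.mem_filter.1 hv).1
  have hRno : ∀ v ∈ R, -v ∉ R := by
    intro v hv hv'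
    have h1 := (Finset.mem_filter.1 hv).2
    have h2 := (Finset.mem_filter.1 hv').2
    rw [neg_neg] at h2
    exact asymm_of WellOrderingRel h1 h2
  have hRex : ∀ v ∈ n1NS a, v ∈ R ∨ -v ∈ R := by
    intro v hv
    have hv0 : v ≠ -v := by
      intro h
      obtain ⟨i, hi⟩ := n1NS_tight hv
      have h1 : ⟪a i, v⟫ = -⟪a i, v⟫ := by
        have h2 := congrArg (fun z => ⟪a i, z⟫) h
        simp only [inner_neg_right] at h2
        exact h2
      have h0 : ⟪a i, v⟫ = 0 := by linarith
      rw [h0, abs_zero] at hi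
      exact absurd hi (by norm_num)
    rcases trichotomous_of WellOrderingRel v (-v) with h | h | h
    · left
      exact Finset.mem_filter.2 ⟨hfin.mem_toFinset.2 hv, h⟩
    · exact absurd h hv0
    · right
      refine Finset.mem_filter.2 ⟨hfin.mem_toFinset.2 (n1NS_neg hv), ?_⟩
      rw [neg_neg]; exact h
  let e := R.equivFin
  let vv : Fin R.card → E d := fun j => (e.symm j).1
  have hvR : ∀ j, vv j ∈ R := fun j => (e.symm j).2
  have hvinj : ∀ j k, vv j = vv k → j = k := by
    intro j k h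
    exact e.symm.injective (Subtype.ext h)
  have hvsurj : ∀ v ∈ R, ∃ j, vv j = v := by
    intro v hv
    exact ⟨e ⟨v, hv⟩, by simp [vv]⟩
  let g : Fin R.card → E d := fun j => lam (vv j) • n1g a (vv j)
  have hg : ∀ j x, ⟪g j, x⟫ = lam (vv j) * ⟪n1g a (vv j), x⟫ := by
    intro j x
    exact real_inner_smul_left _ _ _
  have hgv : ∀ j, ⟪g j, vv j⟫ = lam (vv j) := by
    intro j
    rw [hg, n1g_self a _ (n1NS_tight (hR _ (hvR j))), mul_one]
  -- caps
  have hcap : ∀ j (s : SignType) x, x ∈ Pol a → 1 ≤ ((s : SignType) : ℝ) * ⟪g j, x⟫ →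
      s ≠ 0 ∧ ((s : SignType) : ℝ) • vv j ∈ n1NS a ∧ x ∈ U (((s : SignType) : ℝ) • vv j) ∧
      ∀ i, |⟪a i, x⟫| = 1 → ⟪a i, ((s : SignType) : ℝ) • vv j⟫ = ⟪a i, x⟫ := by
    intro j s x hx h
    have hj := hR _ (hvR j)
    rcases hs : s with _ | _ | _
    · exfalso
      rw [hs] at h
      change 1 ≤ ((0 : SignType) : ℝ) * _ at h
      rw [SignType.coe_zero, zero_mul] at h
      exact absurd h (by norm_num)
    · rw [hs] at h
      change 1 ≤ ((-1 : SignType) : ℝ) * _ at h
      have h' : 1 ≤ lam (vv j) * ⟪n1g a (vv j), -x⟫ := by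
        rw [SignType.coe_neg_one, neg_one_mul, hg] at h
        rw [inner_neg_right, mul_neg]
        exact h
      have h2 := (hlam (vv j) hj).2 (-x) (n1_pol_neg hx) h'
      have h3 : (((-1 : SignType)) : ℝ) • vv j = - vv j := by simp
      refine ⟨by decide, ?_⟩
      change (((-1 : SignType)) : ℝ) • vv j ∈ n1NS a ∧ x ∈ U ((((-1 : SignType)) : ℝ) • vv j) ∧
        ∀ i, |⟪a i, x⟫| = 1 → ⟪a i, (((-1 : SignType)) : ℝ) • vv j⟫ = ⟪a i, x⟫
      rw [h3]
      refine ⟨n1NS_neg hj, ?_, ?_⟩
      · have := h2.1.2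
        change - -x ∈ U (-vv j) at this
        rwa [neg_neg] at this
      · intro i hi
        have h4 := Set.mem_iInter.1 h2.2 i
        change (⟪a i, vv j⟫ ≠ 1 → ⟪a i, -x⟫ ≠ 1) ∧ (⟪a i, vv j⟫ ≠ -1 → ⟪a i, -x⟫ ≠ -1) at h4
        rw [inner_neg_right] at h4 ⊢
        rcases eq_or_eq_neg_of_abs_eq hi with h5 | h5
        · have : ⟪a i, vv j⟫ = -1 := by
            by_contra hne
            exact h4.2 hne (by rw [h5])
          rw [this, h5, neg_neg]
        · have : ⟪a i, vv j⟫ = 1 := by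
            by_contra hne
            exact h4.1 hne (by rw [h5, neg_neg])
          rw [this, h5]
    · rw [hs] at h
      change 1 ≤ ((1 : SignType) : ℝ) * _ at h
      rw [SignType.coe_one, one_mul, hg] at h
      have h2 := (hlam (vv j) hj).2 x hx h
      have h3 : (((1 : SignType)) : ℝ) • vv j = vv j := by simp
      refine ⟨by decide, ?_⟩
      change (((1 : SignType)) : ℝ) • vv j ∈ n1NS a ∧ x ∈ U ((((1 : SignType)) : ℝ) • vv j) ∧
        ∀ i, |⟪a i, x⟫| = 1 → ⟪a i, (((1 : SignType)) : ℝ) • vv j⟫ = ⟪a i, x⟫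
      rw [h3]
      refine ⟨hj, h2.1.1, ?_⟩
      intro i hi
      have h4 := Set.mem_iInter.1 h2.2 i
      change (⟪a i, vv j⟫ ≠ 1 → ⟪a i, x⟫ ≠ 1) ∧ (⟪a i, vv j⟫ ≠ -1 → ⟪a i, x⟫ ≠ -1) at h4
      rcases eq_or_eq_neg_of_abs_eq hi with h5 | h5
      · by_contra hne
        rw [h5] at hne
        exact h4.1 hne h5
      · by_contra hne
        rw [h5] at hne
        exact h4.2 hne h5
  have hrep : ∀ j k, ∀ s t : SignType, s ≠ 0 → t ≠ 0 →
      ((s : SignType) : ℝ) • vv j = ((t : SignType) : ℝ) • vv k → j = k ∧ s = t := by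
    intro j k s t hs ht h
    have hcase : ∀ s : SignType, s ≠ 0 → s = 1 ∨ s = -1 := by decide
    rcases hcase s hs with rfl | rfl <;> rcases hcase t ht with rfl | rfl
    · simp only [SignType.coe_one, one_smul] at h
      exact ⟨hvinj _ _ h, rfl⟩
    · exfalso
      simp only [SignType.coe_one, one_smul, SignType.coe_neg_one, neg_smul] at h
      have := hvR j
      rw [h] at this
      exact hRno _ (hvR k) this
    · exfalso
      simp only [SignType.coe_one, one_smul, SignType.coe_neg_one, neg_smul] at h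
      have := hvR k
      rw [← h] at this
      exact hRno _ (hvR j) this
    · simp only [SignType.coe_neg_one, neg_smul, one_smul, neg_inj] at h
      exact ⟨hvinj _ _ h, rfl⟩
  have hdisj : ∀ x ∈ Pol a, ∀ j k, ∀ s t : SignType, 1 ≤ ((s : SignType) : ℝ) * ⟪g j, x⟫ →
      1 ≤ ((t : SignType) : ℝ) * ⟪g k, x⟫ → j = k ∧ s = t := by
    intro x hx j k s t hs ht
    obtain ⟨hs0, hsN, hsU, hsi⟩ := hcap j s x hx hs
    obtain ⟨ht0, htN, htU, hti⟩ := hcap k t x hx ht
    apply hrep j k s t hs0 ht0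
    by_contra hne
    exact Set.disjoint_left.1 (hUd hsN htN hne) hsU htU
  have habs1 : ∀ s : SignType, s ≠ 0 → |((s : SignType) : ℝ)| = 1 := by
    intro s hs
    rcases s with _ | _ | _
    · exact absurd rfl hs
    · simp
    · simp
  refine ⟨R.card, g, vv, ?_, hdisj, ?_, ?_, ?_, fun j => hR _ (hvR j)⟩
  rotate_left
  · intro j s x hx h
    obtain ⟨h1, h2, -, h3⟩ := hcap j s x hx h
    exact ⟨h1, h2, h3⟩
  · intro v hv
    rcases hRex v hv with h | h
    · obtain ⟨j, hj⟩ := hvsurj v h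
      exact ⟨j, Or.inl hj⟩
    · obtain ⟨j, hj⟩ := hvsurj (-v) h
      exact ⟨j, Or.inr hj⟩
  · intro j
    rw [hgv]
    exact (hlam _ (hR _ (hvR j))).1
  -- simplicity
  intro s hs
  obtain ⟨x, hx⟩ := (Finset.mem_filter.1 hs).2
  have hxP : x ∈ Pol a := by
    intro i
    by_cases h : s (Sum.inl i) = 0
    · exact ((hx (Sum.inl i)).1 h).le
    · have h1 := (hx (Sum.inl i)).2 h
      change ⟪a i, x⟫ = _ at h1
      rw [h1]
      rcases hsl : s (Sum.inl i) with _ | _ | _
      · exact absurd hsl h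
      · simp
      · simp
  have htight : ∀ i, s (Sum.inl i) ≠ 0 ↔ |⟪a i, x⟫| = 1 := by
    intro i
    constructor
    · intro h
      have h1 := (hx (Sum.inl i)).2 h
      change ⟪a i, x⟫ = _ at h1
      rw [h1]
      rcases hsl : s (Sum.inl i) with _ | _ | _
      · exact absurd hsl h
      · simp
      · simp
    · intro h h0
      have h1 := (hx (Sum.inl i)).1 h0
      change |⟪a i, x⟫| < 1 at h1
      rw [h] at h1
      exact lt_irrefl _ h1
  have hgle : ∀ j, |⟪g j, x⟫| ≤ 1 := by
    intro j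
    by_cases h : s (Sum.inr j) = 0
    · exact ((hx (Sum.inr j)).1 h).le
    · have h1 := (hx (Sum.inr j)).2 h
      change ⟪g j, x⟫ = _ at h1
      rw [h1]
      rcases hsl : s (Sum.inr j) with _ | _ | _
      · exact absurd hsl h
      · simp
      · simp
  have hxNS : x ∉ n1NS a := by
    intro hxN
    rcases hRex x hxN with h | h
    · obtain ⟨j, hj⟩ := hvsurj x h
      have h1 := hgv j
      rw [hj] at h1
      have h2 := (hlam x hxN).1
      have h3 := hgle j
      rw [h1, abs_of_pos (by linarith)] at h3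
      linarith
    · obtain ⟨j, hj⟩ := hvsurj (-x) h
      have h1 := hgv j
      rw [hj, inner_neg_right] at h1
      have h2 := (hlam (-x) (n1NS_neg hxN)).1
      have h3 := hgle j
      have h4 : ⟪g j, x⟫ = - lam (-x) := by linarith
      rw [h4, abs_neg, abs_of_pos (by linarith)] at h3
      linarith
  have hli : LinearIndependent ℝ (fun i : {i : α // |⟪a i, x⟫| = 1} => a i.1) := by
    by_contra h
    exact hxNS ⟨hxP, h⟩
  rw [n1_li (fun i => |⟪a i, x⟫| = 1) a] at hli
  rw [n1_li (fun l => s l ≠ 0) (Sum.elim a g)]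
  intro c hc hsum
  rw [Fintype.sum_sum_type] at hsum
  simp only [Sum.elim_inl, Sum.elim_inr] at hsum
  have hcr : ∀ j, c (Sum.inr j) = 0 := by
    intro j
    by_contra hcj
    have hsj : s (Sum.inr j) ≠ 0 := by
      by_contra h
      exact hcj (hc _ (by simpa using h))
    have hgj : ⟪g j, x⟫ = ((s (Sum.inr j) : SignType) : ℝ) := (hx (Sum.inr j)).2 hsj
    have hsq : ((s (Sum.inr j) : SignType) : ℝ) * ((s (Sum.inr j) : SignType) : ℝ) = 1 := by
      rcases hsl : s (Sum.inr j) with _ | _ | _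
      · exact absurd hsl hsj
      · simp
      · simp
    have hcapj : 1 ≤ ((s (Sum.inr j) : SignType) : ℝ) * ⟪g j, x⟫ := by
      rw [hgj, hsq]
    obtain ⟨-, hN, -, hti⟩ := hcap j (s (Sum.inr j)) x hxP hcapj
    have hother : ∀ k, k ≠ j → c (Sum.inr k) = 0 := by
      intro k hk
      apply hc
      intro hsk
      apply hk
      have hgk : ⟪g k, x⟫ = ((s (Sum.inr k) : SignType) : ℝ) := (hx (Sum.inr k)).2 hsk
      have hsq' : ((s (Sum.inr k) : SignType) : ℝ) * ((s (Sum.inr k) : SignType) : ℝ) = 1 := by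
        rcases hsl : s (Sum.inr k) with _ | _ | _
        · exact absurd hsl hsk
        · simp
        · simp
      exact (hdisj x hxP k j (s (Sum.inr k)) (s (Sum.inr j))
        (by rw [hgk, hsq']) hcapj).1
    have h1 := congrArg (fun z => ⟪z, x - ((s (Sum.inr j) : SignType) : ℝ) • vv j⟫) hsum
    simp only [inner_add_left, sum_inner, real_inner_smul_left, inner_zero_left] at h1
    have h2 : ∑ i, c (Sum.inl i) * ⟪a i, x - ((s (Sum.inr j) : SignType) : ℝ) • vv j⟫ = 0 := by
      apply Finset.sum_eq_zero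
      intro i _
      by_cases hi : s (Sum.inl i) = 0
      · rw [hc _ (by simpa using hi), zero_mul]
      · rw [inner_sub_right, hti i ((htight i).1 hi), sub_self, mul_zero]
    have h3 : ∑ k, c (Sum.inr k) * ⟪g k, x - ((s (Sum.inr j) : SignType) : ℝ) • vv j⟫ =
        c (Sum.inr j) * ⟪g j, x - ((s (Sum.inr j) : SignType) : ℝ) • vv j⟫ := by
      apply Finset.sum_eq_single j
      · intro k _ hk
        rw [hother k hk, zero_mul]
      · intro h; exact absurd (Finset.mem_univ _) h
    rw [h2, h3, zero_add] at h1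
    rcases mul_eq_zero.1 h1 with h4 | h4
    · exact hcj h4
    · rw [inner_sub_right, real_inner_smul_right, hgj, hgv] at h4
      have h5 := (hlam (vv j) (hR _ (hvR j))).1
      have h6 : ((s (Sum.inr j) : SignType) : ℝ) * (1 - lam (vv j)) = 0 := by
        rw [mul_sub, mul_one]; exact h4
      rcases mul_eq_zero.1 h6 with h7 | h7
      · rw [h7, zero_mul] at hsq
        exact absurd hsq (by norm_num)
      · linarith
  intro l
  rcases l with i | j
  · apply hli (fun i => c (Sum.inl i)) _ _ i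
    · intro i hi
      apply hc
      intro h
      exact hi ((htight i).1 h)
    · simpa [hcr] using hsum
  · exact hcr j


theorem nb_ext {α : Type} [Fintype α] {d : ℕ} (a : α → E d) {x : E d}
    (hx : x ∈ Set.extremePoints ℝ (Pol a)) (u : E d)
    (hu : ∀ i, |⟪a i, x⟫| = 1 → ⟪a i, u⟫ = 0) : u = 0 := by
  rw [mem_extremePoints] at hx
  obtain ⟨hxP, hext⟩ := hx
  have hev : ∀ᶠ ε in nhds (0 : ℝ), ∀ i, |⟪a i, x + ε • u⟫| ≤ 1 := by
    rw [Filter.eventually_all]
    intro i
    by_cases h : |⟪a i, x⟫| = 1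
    · refine Filter.Eventually.of_forall fun ε => ?_
      rw [inner_add_right, real_inner_smul_right, hu i h, mul_zero, add_zero, h]
    · have hlt : |⟪a i, x⟫| < 1 := lt_of_le_of_ne (hxP i) h
      have hcont : Continuous fun ε : ℝ => |⟪a i, x + ε • u⟫| := by fun_prop
      have h1 : ∀ᶠ ε in nhds (0 : ℝ), |⟪a i, x + ε • u⟫| < 1 := by
        apply hcont.continuousAt.eventually_lt continuousAt_const
        simpa using hlt
      filter_upwards [h1] with ε hε using hε.le
  rw [Metric.eventually_nhds_iff] at hev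
  obtain ⟨δ, hδ, hball⟩ := hev
  have h1 : x + (δ / 2) • u ∈ Pol a := hball (y := δ / 2) (by
    rw [dist_zero_right, Real.norm_eq_abs, abs_of_pos (by linarith)]
    linarith)
  have h2 : x + (-(δ / 2)) • u ∈ Pol a := hball (y := -(δ / 2)) (by
    rw [dist_zero_right, Real.norm_eq_abs, abs_neg, abs_of_pos (by linarith)]
    linarith)
  have h3 := (hext _ h1 _ h2 ⟨1 / 2, 1 / 2, by norm_num, by norm_num, by norm_num, by
    module⟩).1
  have h4 : (δ / 2) • u = 0 := by
    have := congrArg (fun z => z - x) h3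
    simpa using this
  rcases smul_eq_zero.1 h4 with h5 | h5
  · linarith
  · exact h5

/-- the number of tight constraints of a simple vertex -/
theorem nb_card {α : Type} [Fintype α] {d : ℕ} (a : α → E d) {x : E d}
    (hx : x ∈ Set.extremePoints ℝ (Pol a))
    (hli : LinearIndependent ℝ (fun i : {i : α // |⟪a i, x⟫| = 1} => a i.1)) :
    (Finset.univ.filter (fun i : α => |⟪a i, x⟫| = 1)).card = d := by
  have hspan : Submodule.span ℝ (Set.range (fun i : {i : α // |⟪a i, x⟫| = 1} => a i.1)) = ⊤ := by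
    rw [← Submodule.orthogonal_eq_bot_iff, eq_bot_iff]
    intro u hu
    rw [Submodule.mem_bot]
    refine nb_ext a hx u fun i hi => ?_
    exact (Submodule.mem_orthogonal _ _).1 hu _ (Submodule.subset_span ⟨⟨i, hi⟩, rfl⟩)
  have h1 := Module.finrank_eq_card_basis (Module.Basis.mk hli hspan.ge)
  rw [finrank_euclideanSpace_fin, Fintype.card_subtype] at h1
  exact h1.symm

theorem nat_hypB {α : Type} [Fintype α] {d : ℕ} (a : α → E d) (hb : Bornology.IsBounded (Pol a))
    (hns : ∀ x ∈ Pol a, ¬ LinearIndependent ℝ (fun i : {i : α // |⟪a i, x⟫| = 1} => a i.1) →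
      x ∈ Set.extremePoints ℝ (Pol a)) :
    ∃ (r : ℕ) (g : Fin r → E d), HypB a g ∧
      (∀ j, ∃ t ∈ Cells (Sum.elim a g), t (Sum.inr j) = 1) ∧
      (Set.extremePoints ℝ (Pol a)).ncard ≤
        ((Verts (Sum.elim a g)).filter (fun v => ∀ j, v (Sum.inr j) = 0)).card + 2 * r := by
  have hmono : ∀ v ∈ n1NS a, ∀ x ∈ Pol a, (∀ i, |⟪a i, v⟫| = 1 → ⟪a i, x⟫ = ⟪a i, v⟫) →
      x = v := by
    intro v hv x hx h
    have h1 := nb_ext a (hns v hv.1 hv.2) (x - v) (fun i hi => by
      rw [inner_sub_right, h i hi, sub_self])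
    exact sub_eq_zero.1 h1
  obtain ⟨r, g, vv, hsimple, hdisj, hcap, hrep, hgv, hvN⟩ := nb_core a hb hmono
  refine ⟨r, g, ⟨hsimple, hdisj, ?_⟩, ?_, ?_⟩
  · intro j x hx y hy hgx hgy i hix hiy
    obtain ⟨-, -, h1⟩ := hcap j 1 x hx (by rw [SignType.coe_one, one_mul]; exact hgx)
    obtain ⟨-, -, h2⟩ := hcap j 1 y hy (by rw [SignType.coe_one, one_mul]; exact hgy)
    rw [← h1 i hix, ← h2 i hiy]
  · intro j
    have hpos : 0 < ⟪g j, vv j⟫ := by linarith [hgv j]
    set y : E d := (1 / ⟪g j, vv j⟫) • vv j with hy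
    have hyj : ⟪g j, y⟫ = 1 := by
      rw [hy, real_inner_smul_right]
      field_simp
    have hyP : y ∈ Pol a := by
      intro i
      rw [hy, real_inner_smul_right, abs_mul, abs_of_pos (by positivity)]
      have h1 := (hvN j).1 i
      have h2 : 1 / ⟪g j, vv j⟫ ≤ 1 := by
        rw [div_le_one hpos]
        exact (hgv j).le
      calc 1 / ⟪g j, vv j⟫ * |⟪a i, vv j⟫| ≤ 1 * 1 :=
            mul_le_mul h2 h1 (abs_nonneg _) zero_le_one
        _ = 1 := one_mul 1
    have hyP' : y ∈ Pol (Sum.elim a g) := by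
      intro l
      rcases l with i | k
      · exact hyP i
      · show |⟪g k, y⟫| ≤ 1
        by_contra hcon
        push Not at hcon
        have hex : ∃ t : SignType, 1 ≤ ((t : SignType) : ℝ) * ⟪g k, y⟫ := by
          rcases le_abs'.1 hcon.le with h3 | h3
          · refine ⟨-1, ?_⟩
            rw [SignType.coe_neg_one]
            linarith
          · refine ⟨1, ?_⟩
            rw [SignType.coe_one]
            linarith
        obtain ⟨t, ht⟩ := hex
        obtain ⟨h1, -⟩ := hdisj y hyP k j t 1 ht (by rw [SignType.coe_one, one_mul, hyj])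
        rw [h1, hyj, abs_one] at hcon
        exact lt_irrefl _ hcon
    obtain ⟨t, ht⟩ := exists_cell hyP'
    refine ⟨t, mem_cells.2 ⟨y, ht⟩, ?_⟩
    have h1 : t (Sum.inr j) ≠ 0 := by
      intro h0
      have h2 := (ht (Sum.inr j)).1 h0
      change |⟪g j, y⟫| < 1 at h2
      rw [hyj, abs_one] at h2
      exact lt_irrefl _ h2
    have h2 := (ht (Sum.inr j)).2 h1
    change ⟪g j, y⟫ = _ at h2
    rw [hyj] at h2
    apply n1_coe
    rw [← h2, SignType.coe_one]
  · -- the vertices
    set A1 : Set (E d) := {x | x ∈ Set.extremePoints ℝ (Pol a) ∧ x ∉ n1NS a} with hA1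
    -- a simple vertex is outside the caps
    have hout : ∀ x ∈ A1, ∀ j, |⟪g j, x⟫| < 1 := by
      rintro x ⟨hx, hxN⟩ j
      by_contra hcon
      push Not at hcon
      have hex : ∃ t : SignType, 1 ≤ ((t : SignType) : ℝ) * ⟪g j, x⟫ := by
        rcases le_abs'.1 hcon with h3 | h3
        · refine ⟨-1, ?_⟩
          rw [SignType.coe_neg_one]
          linarith
        · refine ⟨1, ?_⟩
          rw [SignType.coe_one]
          linarith
      obtain ⟨t, ht⟩ := hex
      obtain ⟨-, h1, h2⟩ := hcap j t x (extremePoints_subset hx) ht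
      have h3 := nb_ext a hx (((t : SignType) : ℝ) • vv j - x) (fun i hi => by
        rw [inner_sub_right, h2 i hi, sub_self])
      rw [sub_eq_zero] at h3
      rw [h3] at h1
      exact hxN h1
    have hcell : ∀ x ∈ A1, ∃ t, IsCell (Sum.elim a g) t x := by
      intro x hx
      refine exists_cell (b := Sum.elim a g) ?_
      intro l
      rcases l with i | k
      · exact extremePoints_subset hx.1 i
      · exact (hout x hx k).le
    choose! T hT using hcell
    have hT0 : ∀ x ∈ A1, ∀ j, T x (Sum.inr j) = 0 := by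
      intro x hx j
      by_contra h
      have h1 := (hT x hx (Sum.inr j)).2 h
      change ⟪g j, x⟫ = _ at h1
      have h2 := hout x hx j
      rw [h1, G0_abs_cast h] at h2
      exact lt_irrefl _ h2
    have hTt : ∀ x ∈ A1, ∀ i, T x (Sum.inl i) ≠ 0 ↔ |⟪a i, x⟫| = 1 := by
      intro x hx i
      constructor
      · intro h
        have h1 := (hT x hx (Sum.inl i)).2 h
        change ⟪a i, x⟫ = _ at h1
        rw [h1, G0_abs_cast h]
      · intro h h0
        have h1 := (hT x hx (Sum.inl i)).1 h0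
        change |⟪a i, x⟫| < 1 at h1
        rw [h] at h1
        exact lt_irrefl _ h1
    have hTmem : ∀ x ∈ A1, T x ∈
        ((Verts (Sum.elim a g)).filter (fun v => ∀ j, v (Sum.inr j) = 0)) := by
      intro x hx
      rw [Finset.mem_filter]
      refine ⟨Finset.mem_filter.2 ⟨mem_cells.2 ⟨x, hT x hx⟩, ?_⟩, hT0 x hx⟩
      have h1 : Pool.Agent.KST.supp (T x) =
          (Finset.univ.filter (fun i : α => |⟪a i, x⟫| = 1)).map ⟨Sum.inl, Sum.inl_injective⟩ := by
        ext l
        rw [Finset.mem_map]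
        unfold Pool.Agent.KST.supp
        rw [Finset.mem_filter]
        constructor
        · rintro ⟨-, hl⟩
          rcases l with i | j
          · exact ⟨i, Finset.mem_filter.2 ⟨Finset.mem_univ _, (hTt x hx i).1 hl⟩, rfl⟩
          · exact absurd (hT0 x hx j) hl
        · rintro ⟨i, hi, rfl⟩
          exact ⟨Finset.mem_univ _, (hTt x hx i).2 (Finset.mem_filter.1 hi).2⟩
      rw [h1, Finset.card_map]
      refine nb_card a hx.1 ?_
      by_contra h2
      exact hx.2 ⟨extremePoints_subset hx.1, h2⟩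
    have hTinj : Set.InjOn T A1 := by
      intro x hx y hy hxy
      have h1 := nb_ext a hx.1 (y - x) (fun i hi => by
        have h2 := (hTt x hx i).2 hi
        have h3 := (hT x hx (Sum.inl i)).2 h2
        have h4 := (hT y hy (Sum.inl i)).2 (by rw [← hxy]; exact h2)
        change ⟪a i, x⟫ = _ at h3
        change ⟪a i, y⟫ = _ at h4
        rw [inner_sub_right, h3, h4, hxy, sub_self])
      exact (sub_eq_zero.1 h1).symm
    have hc1 : A1.ncard ≤
        ((Verts (Sum.elim a g)).filter (fun v => ∀ j, v (Sum.inr j) = 0)).card := by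
      rw [← Set.ncard_coe_finset]
      exact Set.ncard_le_ncard_of_injOn T (fun x hx => Finset.mem_coe.2 (hTmem x hx)) hTinj
        (Finset.finite_toSet _)
    have hf1 : A1.Finite :=
      Set.Finite.of_injOn (fun x hx => Finset.mem_coe.2 (hTmem x hx)) hTinj
        (Finset.finite_toSet _)
    -- the other vertices
    set W : Fin r × Bool → E d := fun p => if p.2 then vv p.1 else -vv p.1 with hW
    have hA2 : n1NS a ⊆ Set.range W := by
      intro x hx
      obtain ⟨j, hj | hj⟩ := hrep x hx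
      · exact ⟨(j, true), by simp [hW, hj]⟩
      · exact ⟨(j, false), by simp [hW, hj]⟩
    have hc2 : (Set.range W).ncard ≤ 2 * r := by
      rw [← Set.image_univ]
      refine (Set.ncard_image_le (Set.finite_univ)).trans ?_
      rw [Set.ncard_univ, Nat.card_eq_fintype_card, Fintype.card_prod, Fintype.card_fin,
        Fintype.card_bool, mul_comm]
    have hsub : Set.extremePoints ℝ (Pol a) ⊆ A1 ∪ Set.range W := by
      intro x hx
      by_cases h : x ∈ n1NS a
      · exact Or.inr (hA2 h)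
      · exact Or.inl ⟨hx, h⟩
    refine (Set.ncard_le_ncard hsub (hf1.union (Set.finite_range W))).trans ?_
    refine (Set.ncard_union_le _ _).trans ?_
    omega

end

end WLP
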