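import Pool.Agent.KST.G0
import Pool.Agent.WLP.MainB
import Pool.Agent.WLP.TB
import Pool.Agent.WLP.NB

/-!
WLP: the lower bound for the number of faces, with caps and for simple vertex figures.
-/

set_option autoImplicit false

open scoped BigOperators RealInnerProductSpace

namespace WLP

noncomputable section

open Classical

open Pool.Agent.KST (E IsCell Cells Verts Simple Pol pt PP Gen Star VF Low LowF Inside hh)

/-- filters with equivalent predicates, arbitrary decidability instances -/
theorem Kalb_filter {X : Type} (s : Finset X) {p q : X → Prop} (i1 : DecidablePred p)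
    (i2 : DecidablePred q) (h : ∀ x ∈ s, p x ↔ q x) :
    @Finset.filter X p i1 s = @Finset.filter X q i2 s := Finset.filter_congr h

/-- caps version -/
theorem kalaiB_caps {α β : Type} [Fintype α] [Fintype β] {d : ℕ} {a : α → E (d + 1)}
    {g : β → E (d + 1)} (H : HypB a g) (hb : Bornology.IsBounded (Pol a)) :
    (3 : ℤ) ^ (d + 1) + 2 ^ (d / 2) *
        ((((Verts (Sum.elim a g)).filter (fun v => ∀ j, v (Sum.inr j) = 0)).card : ℤ) +
          2 * ((Finset.univ.filter (fun j : β => ∃ t ∈ Cells (Sum.elim a g),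
            t (Sum.inr j) = 1)).card : ℤ) - 2 ^ (d + 1)) ≤ ((Cells a).card : ℤ) := by
  have hb' : Bornology.IsBounded (Pol (Sum.elim a g)) := by
    refine hb.subset fun x hx i => ?_
    have h := hx (Sum.inl i)
    rwa [Sum.elim_inl] at h
  have hmain := mainB H.simple hb' (hypB_sep H)
  -- sums and cardinalities over the set `J` of the indices `inr j`
  have hJ : (Finset.univ.filter (fun l : α ⊕ β => ∃ j, l = Sum.inr j)) =
      Finset.univ.map ⟨Sum.inr, Sum.inr_injective⟩ := by
    ext l
    rw [Finset.mem_filter, Finset.mem_map]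
    constructor
    · rintro ⟨-, j, rfl⟩
      exact ⟨j, Finset.mem_univ _, rfl⟩
    · rintro ⟨j, -, rfl⟩
      exact ⟨Finset.mem_univ _, j, rfl⟩
  have hsum : ∑ j ∈ Finset.univ.filter (fun l : α ⊕ β => ∃ j, l = Sum.inr j),
      (((Cells (Sum.elim a g)).filter (fun s => s j = 1)).card : ℤ) =
      ∑ j : β, (((Cells (Sum.elim a g)).filter (fun s => s (Sum.inr j) = 1)).card : ℤ) := by
    rw [hJ, Finset.sum_map]
    rfl
  have hr : ((Finset.univ.filter (fun l : α ⊕ β => ∃ j, l = Sum.inr j)).filter
      (fun j => ∃ t ∈ Cells (Sum.elim a g), t j = 1)).card =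
      (Finset.univ.filter (fun j : β => ∃ t ∈ Cells (Sum.elim a g), t (Sum.inr j) = 1)).card := by
    rw [hJ, Finset.filter_map, Finset.card_map]
    rfl
  rw [hsum, hr] at hmain
  -- faces inside the caps
  have hin : 2 * (Finset.univ.filter (fun j : β => ∃ t ∈ Cells (Sum.elim a g),
      t (Sum.inr j) = 1)).card ≤
      ∑ j : β, ((Inside a g j 1).card + (Inside a g j (-1)).card) := by
    have h1 : ∀ j ∈ Finset.univ.filter (fun j : β => ∃ t ∈ Cells (Sum.elim a g),
        t (Sum.inr j) = 1), 2 ≤ (Inside a g j 1).card + (Inside a g j (-1)).card := by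
      intro j hj
      obtain ⟨t, ht, htj⟩ := (Finset.mem_filter.1 hj).2
      have h2 := inside_posB H hb j 1 (by decide) ⟨t, ht, htj⟩
      have h3 := inside_posB H hb j (-1) (by decide)
        ⟨-t, Pool.Agent.KST.neg_mem_cells ht, by rw [Pi.neg_apply, htj]⟩
      omega
    calc 2 * (Finset.univ.filter (fun j : β => ∃ t ∈ Cells (Sum.elim a g),
          t (Sum.inr j) = 1)).card
        = ∑ _j ∈ Finset.univ.filter (fun j : β => ∃ t ∈ Cells (Sum.elim a g),
          t (Sum.inr j) = 1), 2 := by
          rw [Finset.sum_const, smul_eq_mul, mul_comm]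
      _ ≤ ∑ j ∈ Finset.univ.filter (fun j : β => ∃ t ∈ Cells (Sum.elim a g),
          t (Sum.inr j) = 1), ((Inside a g j 1).card + (Inside a g j (-1)).card) :=
          Finset.sum_le_sum h1
      _ ≤ ∑ j : β, ((Inside a g j 1).card + (Inside a g j (-1)).card) :=
          Finset.sum_le_sum_of_subset (Finset.filter_subset _ _)
  have hsplit := card_splitB H
  have hins := inside_cardB H
  have hcast : ∑ j : β, (((Cells (Sum.elim a g)).filter (fun s => s (Sum.inr j) = 1)).card : ℤ) =
      ((∑ j : β, ((Cells (Sum.elim a g)).filter (fun s => s (Sum.inr j) = 1)).card : ℕ) : ℤ) := by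
    rw [Nat.cast_sum]
  rw [hcast] at hmain
  -- the two descriptions of the outer vertices agree
  have key : ∀ {V : Finset (α ⊕ β → SignType)} {x y r z c u : ℤ},
      x + y * ((V.card : ℤ) + r - z) + c ≤ u → ∀ W : Finset (α ⊕ β → SignType), V = W →
      x + y * ((W.card : ℤ) + r - z) + c ≤ u := by
    rintro V x y r z c u h W rfl
    exact h
  have hmain' := key hmain
    ((Verts (Sum.elim a g)).filter (fun v => ∀ j, v (Sum.inr j) = 0))
    (Kalb_filter _ _ _ fun v _ => ⟨fun h j => h _ (Finset.mem_filter.2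
        ⟨Finset.mem_univ _, j, rfl⟩), fun h l hl => by
          obtain ⟨j, rfl⟩ := (Finset.mem_filter.1 hl).2
          exact h j⟩)
  omega

/-- simple vertex figures -/
theorem kalaiB {α : Type} [Fintype α] {d : ℕ} (a : α → E (d + 1))
    (hb : Bornology.IsBounded (Pol a))
    (hns : ∀ x ∈ Pol a, ¬ LinearIndependent ℝ (fun i : {i : α // |⟪a i, x⟫| = 1} => a i.1) →
      x ∈ Set.extremePoints ℝ (Pol a)) :
    (3 : ℤ) ^ (d + 1) + 2 ^ (d / 2) *
        (((Set.extremePoints ℝ (Pol a)).ncard : ℤ) - 2 ^ (d + 1)) ≤ ((Cells a).card : ℤ) := by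
  obtain ⟨r, g, H, hcap, hle⟩ := nat_hypB a hb hns
  have h1 := kalaiB_caps H hb
  have h2 : (Finset.univ.filter (fun j : Fin r => ∃ t ∈ Cells (Sum.elim a g),
      t (Sum.inr j) = 1)).card = r := by
    rw [Finset.filter_true_of_mem (fun j _ => hcap j), Finset.card_univ, Fintype.card_fin]
  rw [h2] at h1
  have key : ∀ {V : Finset (α ⊕ Fin r → SignType)} {n : ℕ}, n ≤ V.card + 2 * r →
      ∀ {W : Finset (α ⊕ Fin r → SignType)} {x y u z : ℤ},
      x + y * ((W.card : ℤ) + 2 * (r : ℤ) - z) ≤ u → 0 ≤ y → V = W →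
      x + y * ((n : ℤ) - z) ≤ u := by
    rintro V n hn W x y u z h hy rfl
    have h3 : (n : ℤ) ≤ (V.card : ℤ) + 2 * (r : ℤ) := by exact_mod_cast hn
    have h5 := mul_le_mul_of_nonneg_left (sub_le_sub_right h3 z) hy
    linarith
  exact key hle h1 (by positivity) (Kalb_filter _ _ _ fun v _ => Iff.rfl)

end

end WLP
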