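import Pool.Agent.WLP.MainB
import Pool.Agent.KST.A3
import Pool.Agent.KST.Q2

/-!
WLP: the numbers of the proof of theorem B with all their properties.
-/

set_option autoImplicit false

open scoped BigOperators RealInnerProductSpace

namespace WLP

noncomputable section

open Classical

open Pool.Agent.KST (E IsCell Cells Verts Simple Pol pt PP Gen Star VF Low LowF Inside hh Fn FF Ker
  Par Le sgn)

/-! ### Vectors of size one and two -/

theorem db_mem {ι : Type} [Fintype ι] {C : Finset (ι → SignType)} {n : ℕ} {e : ι → ℤ} :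
    e ∈ Pool.Agent.KST.EE C n ↔ (∑ l, (e l).natAbs = n) ∧ sgn e ∈ C := by
  simp only [Pool.Agent.KST.EE, Finset.mem_filter, Fintype.mem_piFinset, Finset.mem_Icc]
  constructor
  · exact fun h => h.2
  · intro h
    refine ⟨?_, h⟩
    intro l
    have h1 : (e l).natAbs ≤ n := by
      rw [← h.1]
      exact Finset.single_le_sum (f := fun l => (e l).natAbs) (fun _ _ => Nat.zero_le _)
        (Finset.mem_univ l)
    omega

/-- the unit vector `z` at `l` -/
def db_u {ι : Type} (l : ι) (z : ℤ) : ι → ℤ := fun k => if k = l then z else 0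

theorem db_u_sum {ι : Type} [Fintype ι] (l : ι) (z : ℤ) :
    ∑ k, (db_u l z k).natAbs = z.natAbs := by
  rw [Finset.sum_eq_single l]
  · simp [db_u]
  · intro k _ hk
    simp [db_u, hk]
  · intro h
    exact absurd (Finset.mem_univ l) h

theorem db_u_sgn {ι : Type} (l : ι) (z : ℤ) {t : ι → SignType} (h : z ≠ 0 →
    SignType.sign z = t l) : Le (sgn (db_u l z)) t := by
  intro k hk
  have h1 : db_u l z k ≠ 0 := by
    intro h0
    apply hk
    show SignType.sign (db_u l z k) = 0
    rw [h0]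
    exact sign_zero
  have h2 : k = l := by
    by_contra h2
    exact h1 (by simp [db_u, h2])
  subst h2
  have h3 : db_u k z k = z := by simp [db_u]
  show t k = SignType.sign (db_u k z k)
  rw [h3] at h1 ⊢
  exact (h h1).symm

/-- the number of vectors of size two is at most the number of pairs of vectors of size one -/
theorem db_two {ι : Type} [Fintype ι] {C : Finset (ι → SignType)}
    (hdown : ∀ s t, t ∈ C → Le s t → s ∈ C) :
    (Pool.Agent.KST.EE C 2).card ≤ ((Pool.Agent.KST.EE C 1).card + 1).choose 2 := by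
  rw [← Finset.card_sym2]
  let φ : Sym2 (ι → ℤ) → (ι → ℤ) := Sym2.lift ⟨fun x y => x + y, fun x y => add_comm x y⟩
  have hsub : Pool.Agent.KST.EE C 2 ⊆ ((Pool.Agent.KST.EE C 1).sym2).image φ := by
    intro e he
    rw [db_mem] at he
    obtain ⟨h1, h2⟩ := he
    obtain ⟨l, hl⟩ : ∃ l, e l ≠ 0 := by
      by_contra hcon
      push Not at hcon
      rw [Finset.sum_eq_zero (fun l _ => by rw [hcon l]; rfl)] at h1
      omega
    have hs1 : (e l).sign.natAbs = 1 := by
      rcases lt_or_gt_of_ne hl with h | h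
      · rw [Int.sign_eq_neg_one_of_neg h]; rfl
      · rw [Int.sign_eq_one_of_pos h]; rfl
    have hne : (e l).sign ≠ 0 := by
      intro h
      rw [h] at hs1
      exact absurd hs1 (by decide)
    have hss : SignType.sign (e l).sign = SignType.sign (e l) := by
      rcases lt_or_gt_of_ne hl with h | h
      · rw [Int.sign_eq_neg_one_of_neg h, sign_neg h]; rfl
      · rw [Int.sign_eq_one_of_pos h, sign_pos h]; rfl
    have hx : db_u l (e l).sign ∈ Pool.Agent.KST.EE C 1 := by
      rw [db_mem]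
      refine ⟨by rw [db_u_sum, hs1], ?_⟩
      exact hdown _ _ h2 (db_u_sgn l _ (fun _ => hss))
    have hy : e - db_u l (e l).sign ∈ Pool.Agent.KST.EE C 1 := by
      rw [db_mem]
      constructor
      · have h3 : ∑ k, (e k).natAbs = ∑ k, ((e - db_u l (e l).sign) k).natAbs +
            ∑ k, (db_u l (e l).sign k).natAbs := by
          rw [← Finset.sum_add_distrib]
          apply Finset.sum_congr rfl
          intro k _
          by_cases hk : k = l
          · subst hk
            have h4 : db_u k (e k).sign k = (e k).sign := by simp [db_u]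
            rw [Pi.sub_apply, h4]
            rcases lt_or_gt_of_ne hl with h | h
            · rw [Int.sign_eq_neg_one_of_neg h]; omega
            · rw [Int.sign_eq_one_of_pos h]; omega
          · have h4 : db_u l (e l).sign k = 0 := by simp [db_u, hk]
            rw [Pi.sub_apply, h4]
            simp
        rw [db_u_sum, hs1, h1] at h3
        omega
      · refine hdown _ _ h2 ?_
        intro k hk
        show SignType.sign (e k) = SignType.sign ((e - db_u l (e l).sign) k)
        have hk' : (e - db_u l (e l).sign) k ≠ 0 := by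
          intro h0
          apply hk
          show SignType.sign ((e - db_u l (e l).sign) k) = 0
          rw [h0]
          exact sign_zero
        by_cases hkl : k = l
        · subst hkl
          have h4 : db_u k (e k).sign k = (e k).sign := by simp [db_u]
          rw [Pi.sub_apply, h4] at hk' ⊢
          rcases lt_or_gt_of_ne hl with h | h
          · rw [Int.sign_eq_neg_one_of_neg h] at hk' ⊢
            rw [sign_neg h, sign_neg (show e k - -1 < (0 : ℤ) by omega)]
          · rw [Int.sign_eq_one_of_pos h] at hk' ⊢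
            rw [sign_pos h, sign_pos (show (0 : ℤ) < e k - 1 by omega)]
        · have h4 : db_u l (e l).sign k = 0 := by simp [db_u, hkl]
          rw [Pi.sub_apply, h4, sub_zero]
    rw [Finset.mem_image]
    refine ⟨s(db_u l (e l).sign, e - db_u l (e l).sign), ?_, ?_⟩
    · rw [Finset.mk_mem_sym2_iff]
      exact ⟨hx, hy⟩
    · show db_u l (e l).sign + (e - db_u l (e l).sign) = e
      abel
  exact (Finset.card_le_card hsub).trans Finset.card_image_le

/-- the number of vectors of size one of a star -/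
theorem db_one {ι : Type} [Fintype ι] {d : ℕ} {b : ι → E d} (hS : Simple b) (j : ι)
    (hA : ∀ s ∈ Cells b, ∀ t ∈ Cells b, s j = 1 → t j = 1 → ∀ l, s l ≠ 0 → t l ≠ 0 → s l = t l) :
    (Pool.Agent.KST.EE (Star b j) 1).card =
      (Finset.univ.filter (fun l => ∃ t ∈ Cells b, t j = 1 ∧ t l ≠ 0)).card := by
  symm
  have hch : ∀ l, l ∈ Finset.univ.filter (fun l => ∃ t ∈ Cells b, t j = 1 ∧ t l ≠ 0) →
      ∃ t ∈ Cells b, t j = 1 ∧ t l ≠ 0 := fun l hl => (Finset.mem_filter.1 hl).2
  have hz : ∀ x : SignType, x ≠ 0 → SignType.sign ((x : SignType) : ℤ) = x ∧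
      ((x : SignType) : ℤ).natAbs = 1 := by decide
  refine Finset.card_bij (fun l hl => db_u l (((hch l hl).choose l : SignType) : ℤ)) ?_ ?_ ?_
  · intro l hl
    obtain ⟨h1, h2, h3⟩ := (hch l hl).choose_spec
    rw [db_mem]
    refine ⟨by rw [db_u_sum, (hz _ h3).2], ?_⟩
    have h4 := db_u_sgn l ((((hch l hl).choose l : SignType)) : ℤ) (t := (hch l hl).choose)
      (fun _ => (hz _ h3).1)
    exact Finset.mem_filter.2 ⟨Pool.Agent.KST.cells_down hS h1 h4, _, h1, h4, h2⟩
  · intro l hl l' hl' h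
    obtain ⟨-, -, h3⟩ := (hch l hl).choose_spec
    by_contra hne
    have h4 := congrFun h l
    simp only [db_u, if_pos, if_neg hne] at h4
    have h5 := (hz _ h3).2
    rw [h4] at h5
    exact absurd h5 (by decide)
  · intro e he
    rw [db_mem] at he
    obtain ⟨h1, h2⟩ := he
    obtain ⟨l, hl⟩ : ∃ l, e l ≠ 0 := by
      by_contra hcon
      push Not at hcon
      rw [Finset.sum_eq_zero (fun l _ => by rw [hcon l]; rfl)] at h1
      omega
    obtain ⟨t, ht, hle, htj⟩ := (Finset.mem_filter.1 h2).2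
    have hsl : sgn e l ≠ 0 := by
      show SignType.sign (e l) ≠ 0
      rw [Ne, sign_eq_zero_iff]
      exact hl
    have htl := hle l hsl
    have hl' : l ∈ Finset.univ.filter (fun l => ∃ t ∈ Cells b, t j = 1 ∧ t l ≠ 0) :=
      Finset.mem_filter.2 ⟨Finset.mem_univ l, t, ht, htj, by rw [htl]; exact hsl⟩
    refine ⟨l, hl', ?_⟩
    obtain ⟨g1, g2, g3⟩ := (hch l hl').choose_spec
    have g4 := hA _ g1 t ht g2 htj l g3 (by rw [htl]; exact hsl)
    have h3 : (e l).natAbs + ∑ k ∈ Finset.univ.erase l, (e k).natAbs = 1 := by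
      rw [Finset.add_sum_erase _ (fun k => (e k).natAbs) (Finset.mem_univ l)]
      exact h1
    funext k
    by_cases hk : k = l
    · subst hk
      simp only [db_u, if_pos]
      rw [g4, htl]
      show ((SignType.sign (e k) : SignType) : ℤ) = e k
      rcases lt_or_gt_of_ne hl with h | h
      · rw [sign_neg h]
        show (-1 : ℤ) = e k
        omega
      · rw [sign_pos h]
        show (1 : ℤ) = e k
        omega
    · simp only [db_u, if_neg hk]
      have h4 : (e k).natAbs ≤ ∑ k ∈ Finset.univ.erase l, (e k).natAbs :=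
        Finset.single_le_sum (f := fun k => (e k).natAbs) (fun _ _ => Nat.zero_le _)
          (Finset.mem_erase.2 ⟨hk, Finset.mem_univ k⟩)
      omega

theorem db_S (m : ℕ) (u : ℕ → ℕ) : (Pool.Agent.KST.S^[m] u) 0 = u 0 ∧
    (Pool.Agent.KST.S^[m] u) 1 = u 1 + m * u 0 ∧
    2 * (Pool.Agent.KST.S^[m] u) 2 = 2 * u 2 + 2 * m * u 1 + m * (m + 1) * u 0 := by
  induction m generalizing u with
  | zero => simp
  | succ m ih =>
    rw [Function.iterate_succ_apply]
    obtain ⟨h0, h1, h2⟩ := ih (Pool.Agent.KST.S u)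
    have s0 : Pool.Agent.KST.S u 0 = u 0 := by simp [Pool.Agent.KST.S]
    have s1 : Pool.Agent.KST.S u 1 = u 0 + u 1 := by
      simp [Pool.Agent.KST.S, Finset.sum_range_succ]
    have s2 : Pool.Agent.KST.S u 2 = u 0 + u 1 + u 2 := by
      simp [Pool.Agent.KST.S, Finset.sum_range_succ]
    rw [s0] at h0
    rw [s0, s1] at h1
    rw [s0, s1, s2] at h2
    refine ⟨h0, ?_, ?_⟩
    · rw [h1]; ring
    · rw [h2]; ring

/-- first numbers of a facet -/
theorem db_facet {ι : Type} [Fintype ι] {d : ℕ} {b : ι → E d} (hS : Simple b)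
    (hb : Bornology.IsBounded (Pol b)) {a : E d} (ha : Gen b a) {j : ι} (hl : LowF b a j)
    (hne : ∃ t ∈ Cells b, t j = 1)
    (hA : ∀ s ∈ Cells b, ∀ t ∈ Cells b, s j = 1 → t j = 1 → ∀ l, s l ≠ 0 → t l ≠ 0 → s l = t l) :
    hh (VF b j) (PP b a) 1 + d * hh (VF b j) (PP b a) 0 =
      (Finset.univ.filter (fun l => ∃ t ∈ Cells b, t j = 1 ∧ t l ≠ 0)).card ∧
    (hh (VF b j) (PP b a) 0 = 1 →
      2 * hh (VF b j) (PP b a) 2 ≤ hh (VF b j) (PP b a) 1 * (hh (VF b j) (PP b a) 1 + 1)) := by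
  have hsw := Pool.Agent.KST.sweep_star hS hb ha hl hne
  have c1 := Pool.Agent.KST.card_EE hsw 1
  have c2 := Pool.Agent.KST.card_EE hsw 2
  obtain ⟨-, s1, s2⟩ := db_S d (hh (VF b j) (PP b a))
  rw [s1] at c1
  constructor
  · rw [← c1, db_one hS j hA]
  · intro h0
    have h1 := db_two hsw.down
    rw [c2, c1] at h1
    rw [h0] at s2 h1
    have h3 := Nat.choose_two_right (hh (VF b j) (PP b a) 1 + d * 1 + 1)
    have h4 : 2 * ((hh (VF b j) (PP b a) 1 + d * 1 + 1).choose 2) =
        (hh (VF b j) (PP b a) 1 + d * 1 + 1) * (hh (VF b j) (PP b a) 1 + d * 1) := by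
      rw [h3, Nat.add_sub_cancel]
      have h5 : Even ((hh (VF b j) (PP b a) 1 + d * 1 + 1) * (hh (VF b j) (PP b a) 1 + d * 1)) := by
        rw [mul_comm]
        exact Nat.even_mul_succ_self _
      obtain ⟨q, hq⟩ := h5
      rw [hq]
      omega
    have h6 : 2 * (Pool.Agent.KST.S^[d] (hh (VF b j) (PP b a))) 2 ≤
        (hh (VF b j) (PP b a) 1 + d * 1 + 1) * (hh (VF b j) (PP b a) 1 + d * 1) := by
      rw [← h4]
      exact Nat.mul_le_mul_left 2 h1
    rw [s2] at h6
    nlinarith [h6]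

/-- the number of facets (labels) meeting the facet `(j, +)`, without `j` -/
def dg {ι : Type} [Fintype ι] {d : ℕ} (b : ι → E d) (j : ι) : ℕ :=
  (Finset.univ.filter (fun l => l ≠ j ∧ ∃ t ∈ Cells b, t j = 1 ∧ t l ≠ 0)).card

/-- the numbers of the proof of theorem B -/
structure Data {ι : Type} [Fintype ι] {d : ℕ} (b : ι → E (d + 1)) (J : Finset ι)
    (k H : ℕ → ℤ) : Prop where
  k0 : k 0 = 0
  kpos : ∀ n, 0 ≤ k n
  ksym : ∀ n ≤ d + 1, k (d + 1 - n) = k n
  hsym : ∀ n < d + 1, H (d + 1 - 1 - n) = H n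
  h1 : ∀ n < d + 1, H 0 ≤ H n
  h0 : 0 ≤ H 0
  hle : ∀ n, d + 1 ≤ 2 * n → n < d + 1 → H n ≤ k n
  hr : ((J.filter (fun j => ∃ t ∈ Cells b, t j = 1)).card : ℤ) = H 0
  cells : ((Cells b).card : ℤ) = 3 ^ (d + 1) + 2 * ∑ n ∈ Finset.range (d + 1 + 1), 2 ^ n * k n
  facets : ∑ j ∈ J, (((Cells b).filter (fun s => s j = 1)).card : ℤ) =
      ∑ n ∈ Finset.range (d + 1), 2 ^ n * H n
  verts : (((Verts b).filter (fun v => ∀ j ∈ J, v j = 0)).card : ℤ) + 2 * H 0 - 2 ^ (d + 1) =
      2 * (∑ n ∈ Finset.range (d + 1 + 1), k n - ∑ n ∈ Finset.range (d + 1), H n + H 0)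
  fac : ((Finset.univ.filter (fun l => l ∉ J ∧ ∃ t ∈ Cells b, t l = 1)).card : ℤ) + H 0 ≤
      k 1 + (d + 1)
  deg : H 1 - H 0 = ∑ j ∈ J.filter (fun j => ∃ t ∈ Cells b, t j = 1), ((dg b j : ℤ) - (d + 1))
  two : 1 ≤ d → 2 * (H 2 - H 1) ≤ (H 1 - H 0) * (H 1 - H 0 + 1)

private theorem db_sq {α : Type*} (J : Finset α) (x y : α → ℤ) (hx : ∀ j ∈ J, 0 ≤ x j)
    (hy : ∀ j ∈ J, 2 * y j ≤ x j * (x j + 1)) :
    2 * ∑ j ∈ J, y j ≤ (∑ j ∈ J, x j) * (∑ j ∈ J, x j + 1) := by
  induction J using Finset.induction_on with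
  | empty => simp
  | insert j J hj ih =>
    rw [Finset.sum_insert hj, Finset.sum_insert hj]
    have h1 := ih (fun k hk => hx k (Finset.mem_insert_of_mem hk))
      (fun k hk => hy k (Finset.mem_insert_of_mem hk))
    have h2 := hy j (Finset.mem_insert_self j J)
    have h3 := hx j (Finset.mem_insert_self j J)
    have h4 : 0 ≤ ∑ j ∈ J, x j := Finset.sum_nonneg (fun k hk => hx k (Finset.mem_insert_of_mem hk))
    have h5 := mul_nonneg h3 h4
    nlinarith

theorem dataB {ι : Type} [Fintype ι] {d : ℕ} {b : ι → E (d + 1)} (hS : Simple b)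
    (hb : Bornology.IsBounded (Pol b)) {J : Finset ι} (hJ : SepB b J) :
    ∃ k H : ℕ → ℤ, Data b J k H := by
  obtain ⟨c, hc⟩ := exists_generic ι (d + 1)
  obtain ⟨a, ha, -⟩ := Pool.Agent.KST.exists_gen_near hS (0 : E (d + 1)) one_pos
  choose A hA using fun j => Pool.Agent.KST.exists_low hS j
  have hsw := Pool.Agent.KST.sweep_cells hS hb ha
  have hmin : ∀ n, 2 * Module.finrank ℝ ↥(FF (Cells b) n ⊓ Ker c ⊓ Par ι (-1)) +
      (d + 1).choose n = hh (Verts b) (PP b a) n := fun n =>
    Pool.Agent.KST.finrank_minus (sweep_change c hc hsw)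
      (fun s hs => Pool.Agent.KST.neg_mem_cells hs) n
  have hminb : ∀ n, 2 * Module.finrank ℝ ↥(FF (Cells b) n ⊓ Ker b ⊓ Par ι (-1)) +
      (d + 1).choose n = hh (Verts b) (PP b a) n := fun n =>
    Pool.Agent.KST.finrank_minus hsw (fun s hs => Pool.Agent.KST.neg_mem_cells hs) n
  set κ : ℕ → ℤ := fun n => (Module.finrank ℝ ↥(FF (Cells b) n ⊓ Ker c ⊓ Par ι (-1)) : ℤ) with hκ
  set H : ℕ → ℤ := fun n => ∑ j ∈ J, (hh (VF b j) (PP b (A j)) n : ℤ) with hH
  have hmin' : ∀ n, (hh (Verts b) (PP b a) n : ℤ) = 2 * κ n + ((d + 1).choose n : ℤ) := by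
    intro n
    rw [← hmin n]
    push_cast
    rfl
  -- nonempty facets
  have hVFne : ∀ j, (∃ t ∈ Cells b, t j = 1) ↔ (VF b j).Nonempty := by
    intro j
    constructor
    · intro h
      obtain ⟨v, hv, -⟩ := (Pool.Agent.KST.sweep_star hS hb (hA j).1 (hA j).2 h).ex 0
        (Pool.Agent.KST.sweep_star hS hb (hA j).1 (hA j).2 h).zero
      exact ⟨v, hv⟩
    · rintro ⟨v, hv⟩
      unfold VF Verts at hv
      rw [Finset.mem_filter, Finset.mem_filter] at hv
      exact ⟨v, hv.1.1, hv.2⟩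
  have hlink : ∀ j ∈ J, ∃ S : Swp ι d,
      (∀ n, (S.V.filter (fun v => (S.P v).card = n)).card = hh (VF b j) (PP b (A j)) n) ∧
      ((VF b j).Nonempty → S.V.Nonempty) := fun j hj =>
    mb_link hS hb (hA j).1 (hA j).2 (hJ.opp j hj)
  have hHsym : ∀ j ∈ J, ∀ n ≤ d, hh (VF b j) (PP b (A j)) (d - n) =
      hh (VF b j) (PP b (A j)) n := by
    intro j hj n hn
    obtain ⟨S, hSn, -⟩ := hlink j hj
    rw [← hSn, ← hSn, hsym S n hn]
  have hHpos : ∀ j ∈ J, (VF b j).Nonempty → ∀ n ≤ d, 1 ≤ hh (VF b j) (PP b (A j)) n := by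
    intro j hj hne n hn
    obtain ⟨S, hSn, hS2⟩ := hlink j hj
    rw [← hSn]
    exact hpos S (hS2 hne) n hn
  have hHempty : ∀ j, ¬ (VF b j).Nonempty → ∀ n, hh (VF b j) (PP b (A j)) n = 0 := by
    intro j hne n
    rw [Finset.not_nonempty_iff_eq_empty] at hne
    unfold hh
    rw [hne]
    rfl
  have hH0n : ∀ j ∈ J, (∃ t ∈ Cells b, t j = 1) → hh (VF b j) (PP b (A j)) 0 = 1 := by
    intro j hj h
    have h1 := hHpos j hj ((hVFne j).1 h) 0 (Nat.zero_le _)
    have h2 := Pool.Agent.KST.hh_zero_le hS hb (hA j).1 (hA j).2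
    exact le_antisymm h2 h1
  have hH0 : ∀ j ∈ J, (hh (VF b j) (PP b (A j)) 0 : ℤ) =
      if (∃ t ∈ Cells b, t j = 1) then 1 else 0 := by
    intro j hj
    by_cases h : ∃ t ∈ Cells b, t j = 1
    · rw [if_pos h, hH0n j hj h]; rfl
    · rw [if_neg h, hHempty j (fun h' => h ((hVFne j).2 h'))]
      rfl
  have hr : ((J.filter (fun j => ∃ t ∈ Cells b, t j = 1)).card : ℤ) = H 0 := by
    rw [hH]
    simp only
    rw [Finset.sum_congr rfl hH0, Finset.sum_boole]
  have hk0 : κ 0 = 0 := by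
    have h1 : hh (Verts b) (PP b a) 0 ≤ 1 := by
      unfold hh
      rw [Finset.card_le_one]
      intro v hv w hw
      rw [Finset.mem_filter, Finset.card_eq_zero] at hv hw
      refine hsw.uniq 0 hsw.zero v hv.1 w hw.1 ?_ ?_
      · refine ⟨fun l hl => absurd rfl hl, ?_⟩
        intro l hl
        rw [hv.2] at hl
        exact absurd hl (Finset.notMem_empty _)
      · refine ⟨fun l hl => absurd rfl hl, ?_⟩
        intro l hl
        rw [hw.2] at hl
        exact absurd hl (Finset.notMem_empty _)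
    have h2 := hmin 0
    rw [Nat.choose_zero_right] at h2
    have h3 : Module.finrank ℝ ↥(FF (Cells b) 0 ⊓ Ker c ⊓ Par ι (-1)) = 0 := by omega
    rw [hκ]
    simp only
    rw [h3]; rfl
  have hk : ∀ n ≤ d + 1, κ (d + 1 - n) = κ n := by
    intro n hn
    have h1 := Pool.Agent.KST.hh_symm hS hb ha hn
    have h2 := hmin' n
    have h3 := hmin' (d + 1 - n)
    rw [Nat.choose_symm hn] at h3
    rw [← h1, h2] at h3
    linarith
  have hHs : ∀ n < d + 1, H (d + 1 - 1 - n) = H n := by
    intro n hn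
    rw [hH]
    simp only
    apply Finset.sum_congr rfl
    intro j hj
    rw [Nat.add_sub_cancel, hHsym j hj n (by omega)]
  have h1 : ∀ n < d + 1, H 0 ≤ H n := by
    intro n hn
    rw [hH]
    simp only
    apply Finset.sum_le_sum
    intro j hj
    rw [hH0 j hj]
    by_cases h : ∃ t ∈ Cells b, t j = 1
    · rw [if_pos h]
      exact_mod_cast hHpos j hj ((hVFne j).1 h) n (by omega)
    · rw [if_neg h]
      positivity
  have h0 : 0 ≤ H 0 := by
    rw [hH]
    positivity
  have hle : ∀ n, d + 1 ≤ 2 * n → n < d + 1 → H n ≤ κ n := by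
    intro n hn hn'
    have h2 := star_le hS hb hJ hc hn (by omega : n ≤ d)
    have h3 : ∑ j ∈ J, hh (VF b j) (PP b (A j)) n ≤
        ∑ j ∈ J, Module.finrank ℝ ↥(FF (Star b j) n ⊓ Ker c) := by
      apply Finset.sum_le_sum
      intro j _
      by_cases h : ∃ t ∈ Cells b, t j = 1
      · rw [Pool.Agent.KST.finrank_ker (sweep_change c hc
          (Pool.Agent.KST.sweep_star hS hb (hA j).1 (hA j).2 h)) n]
      · rw [hHempty j (fun h' => h ((hVFne j).2 h'))]
        exact Nat.zero_le _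
    have h4 := le_trans h3 h2
    rw [hH, hκ]
    simp only
    exact_mod_cast h4
  have hc1 : ((Cells b).card : ℤ) =
      3 ^ (d + 1) + 2 * ∑ n ∈ Finset.range (d + 1 + 1), 2 ^ n * κ n := by
    rw [Pool.Agent.KST.card_cells hS hb ha]
    push_cast
    rw [← mb_fiber (Verts b) (fun v => (PP b a v).card) (d + 1 + 1)
      (fun v hv => Nat.lt_succ_of_le (mb_supp_card hv)) (fun n => (2 : ℤ) ^ n)]
    have h2 : ∀ n ∈ Finset.range (d + 1 + 1), (2 : ℤ) ^ n *
        (((Verts b).filter (fun v => (PP b a v).card = n)).card : ℤ) =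
        (2 : ℤ) ^ n * ((d + 1).choose n : ℤ) + 2 * (2 ^ n * κ n) := by
      intro n _
      have h3 := hmin' n
      unfold hh at h3
      rw [h3]
      ring
    rw [Finset.sum_congr rfl h2, Finset.sum_add_distrib, ← Finset.mul_sum]
    congr 1
    have h4 := add_pow (2 : ℤ) 1 (d + 1)
    simp only [one_pow, mul_one] at h4
    rw [← h4]
    norm_num
  have hc2 : ((Verts b).card : ℤ) =
      2 ^ (d + 1) + 2 * ∑ n ∈ Finset.range (d + 1 + 1), κ n := by
    have h2 := mb_fiber (Verts b) (fun v => (PP b a v).card) (d + 1 + 1)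
      (fun v hv => Nat.lt_succ_of_le (mb_supp_card hv)) (fun _ => (1 : ℤ))
    simp only [one_mul, Finset.sum_const, nsmul_eq_mul, mul_one] at h2
    rw [← h2]
    have h3 : ∀ n ∈ Finset.range (d + 1 + 1),
        (((Verts b).filter (fun v => (PP b a v).card = n)).card : ℤ) =
        ((d + 1).choose n : ℤ) + 2 * κ n := by
      intro n _
      have h3 := hmin' n
      unfold hh at h3
      rw [h3]
      ring
    rw [Finset.sum_congr rfl h3, Finset.sum_add_distrib, ← Finset.mul_sum]
    congr 1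
    exact_mod_cast Nat.sum_range_choose (d + 1)
  have hc3 : ∑ j ∈ J, (((Cells b).filter (fun s => s j = 1)).card : ℤ) =
      ∑ n ∈ Finset.range (d + 1), 2 ^ n * H n := by
    rw [hH]
    simp only
    simp_rw [Finset.mul_sum]
    rw [Finset.sum_comm]
    apply Finset.sum_congr rfl
    intro j _
    rw [Pool.Agent.KST.card_facet hS hb (hA j).1 (hA j).2]
    push_cast
    rw [← mb_fiber (VF b j) (fun v => (PP b (A j) v).card) (d + 1)
      (fun v hv => Nat.lt_succ_of_le (mb_supp_card' hS hb (hA j).1 (hA j).2 hv))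
      (fun n => (2 : ℤ) ^ n)]
    rfl
  have hc4 : ∑ j ∈ J, ((VF b j).card : ℤ) = ∑ n ∈ Finset.range (d + 1), H n := by
    rw [hH]
    simp only
    rw [Finset.sum_comm]
    apply Finset.sum_congr rfl
    intro j _
    have h2 := mb_fiber (VF b j) (fun v => (PP b (A j) v).card) (d + 1)
      (fun v hv => Nat.lt_succ_of_le (mb_supp_card' hS hb (hA j).1 (hA j).2 hv))
      (fun _ => (1 : ℤ))
    simp only [one_mul, Finset.sum_const, nsmul_eq_mul, mul_one] at h2
    rw [← h2]
    rfl
  have hc5 : ((Verts b).card : ℤ) =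
      (((Verts b).filter (fun v => ∀ j ∈ J, v j = 0)).card : ℤ) +
        2 * ∑ j ∈ J, ((VF b j).card : ℤ) := by
    have h2 := mb_verts hJ
    exact_mod_cast h2
  -- the first numbers of the facets
  have hdg : ∀ j, (∃ t ∈ Cells b, t j = 1) →
      (Finset.univ.filter (fun l => ∃ t ∈ Cells b, t j = 1 ∧ t l ≠ 0)).card = dg b j + 1 := by
    rintro j ⟨t, ht, htj⟩
    have h2 : Finset.univ.filter (fun l => ∃ t ∈ Cells b, t j = 1 ∧ t l ≠ 0) =
        insert j (Finset.univ.filter (fun l => l ≠ j ∧ ∃ t ∈ Cells b, t j = 1 ∧ t l ≠ 0)) := by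
      ext l
      rw [Finset.mem_insert, Finset.mem_filter, Finset.mem_filter]
      constructor
      · rintro ⟨h3, h4⟩
        by_cases h5 : l = j
        · left; exact h5
        · right; exact ⟨h3, h5, h4⟩
      · rintro (h3 | ⟨h3, -, h5⟩)
        · subst h3
          exact ⟨Finset.mem_univ _, t, ht, htj, by rw [htj]; decide⟩
        · exact ⟨h3, h5⟩
    rw [h2, Finset.card_insert_of_notMem]
    · rfl
    · intro h3
      exact (Finset.mem_filter.1 h3).2.1 rfl
  have hfirst : ∀ j ∈ J, (∃ t ∈ Cells b, t j = 1) →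
      (hh (VF b j) (PP b (A j)) 1 : ℤ) - 1 = (dg b j : ℤ) - (d + 1) ∧
      2 * hh (VF b j) (PP b (A j)) 2 ≤ hh (VF b j) (PP b (A j)) 1 *
        (hh (VF b j) (PP b (A j)) 1 + 1) := by
    intro j hj h
    obtain ⟨h2, h3⟩ := db_facet hS hb (hA j).1 (hA j).2 h (hJ.opp j hj)
    have h4 := hH0n j hj h
    refine ⟨?_, h3 h4⟩
    rw [hdg j h, h4] at h2
    have h5 : (hh (VF b j) (PP b (A j)) 1 : ℤ) + (d + 1) * 1 = dg b j + 1 := by
      exact_mod_cast h2
    linarith
  have hdeg : H 1 - H 0 = ∑ j ∈ J.filter (fun j => ∃ t ∈ Cells b, t j = 1),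
      ((dg b j : ℤ) - (d + 1)) := by
    rw [Finset.sum_filter, hH]
    simp only
    rw [← Finset.sum_sub_distrib]
    apply Finset.sum_congr rfl
    intro j hj
    rw [hH0 j hj]
    by_cases h : ∃ t ∈ Cells b, t j = 1
    · rw [if_pos h, if_pos h]
      exact (hfirst j hj h).1
    · rw [if_neg h, if_neg h, hHempty j (fun h' => h ((hVFne j).2 h'))]
      rfl
  have htwo : 1 ≤ d → 2 * (H 2 - H 1) ≤ (H 1 - H 0) * (H 1 - H 0 + 1) := by
    intro hd
    rw [hH]
    simp only
    rw [← Finset.sum_sub_distrib, ← Finset.sum_sub_distrib]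
    apply db_sq
    · intro j hj
      rw [hH0 j hj]
      by_cases h : ∃ t ∈ Cells b, t j = 1
      · rw [if_pos h]
        have h2 := hHpos j hj ((hVFne j).1 h) 1 hd
        have h3 : (1 : ℤ) ≤ hh (VF b j) (PP b (A j)) 1 := by exact_mod_cast h2
        linarith
      · rw [if_neg h, sub_zero]
        exact Int.natCast_nonneg _
    · intro j hj
      rw [hH0 j hj]
      by_cases h : ∃ t ∈ Cells b, t j = 1
      · rw [if_pos h]
        have h2 := (hfirst j hj h).2
        have h3 : 2 * (hh (VF b j) (PP b (A j)) 2 : ℤ) ≤ hh (VF b j) (PP b (A j)) 1 *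
            (hh (VF b j) (PP b (A j)) 1 + 1) := by exact_mod_cast h2
        nlinarith
      · rw [if_neg h, hHempty j (fun h' => h ((hVFne j).2 h')),
          hHempty j (fun h' => h ((hVFne j).2 h'))]
        norm_num
  -- the number of facets
  have hfac : ((Finset.univ.filter (fun l => l ∉ J ∧ ∃ t ∈ Cells b, t l = 1)).card : ℤ) + H 0 ≤
      κ 1 + (d + 1) := by
    have h2 := Pool.Agent.KST.facets_le hS
    have h3 : Module.finrank ℝ ↥(FF (Cells b) 1 ⊓ Ker b ⊓ Par ι (-1)) =
        Module.finrank ℝ ↥(FF (Cells b) 1 ⊓ Ker c ⊓ Par ι (-1)) := by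
      have h4 := hmin 1
      have h5 := hminb 1
      omega
    have h6 : (Finset.univ.filter (fun l => ∃ t ∈ Cells b, t l = 1)).card =
        (Finset.univ.filter (fun l => l ∉ J ∧ ∃ t ∈ Cells b, t l = 1)).card +
        (J.filter (fun j => ∃ t ∈ Cells b, t j = 1)).card := by
      rw [← Finset.card_union_of_disjoint]
      · congr 1
        ext l
        rw [Finset.mem_union, Finset.mem_filter, Finset.mem_filter, Finset.mem_filter]
        constructor
        · rintro ⟨h7, h8⟩
          by_cases h9 : l ∈ J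
          · right; exact ⟨h9, h8⟩
          · left; exact ⟨h7, h9, h8⟩
        · rintro (⟨h7, h8, h9⟩ | ⟨h7, h8⟩)
          · exact ⟨h7, h9⟩
          · exact ⟨Finset.mem_univ _, h8⟩
      · rw [Finset.disjoint_left]
        intro l hl hl'
        exact (Finset.mem_filter.1 hl).2.1 (Finset.mem_filter.1 hl').1
    rw [← hr]
    rw [h6, h3] at h2
    rw [hκ]
    simp only
    have h7 : (((Finset.univ.filter (fun l => l ∉ J ∧ ∃ t ∈ Cells b, t l = 1)).card +
        (J.filter (fun j => ∃ t ∈ Cells b, t j = 1)).card : ℕ) : ℤ) ≤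
        ((d + 1 + Module.finrank ℝ ↥(FF (Cells b) 1 ⊓ Ker c ⊓ Par ι (-1)) : ℕ) : ℤ) := by
      exact_mod_cast h2
    push_cast at h7
    linarith
  rw [hc4] at hc5
  refine ⟨κ, H, ⟨hk0, fun n => ?_, hk, hHs, h1, h0, hle, hr, hc1, hc3, ?_, hfac, hdeg, htwo⟩⟩
  · exact Int.natCast_nonneg _
  · linarith

end

end WLP
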