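import Pool.Agent.KST.Defs

/-! cells give nonempty exposed faces -/

set_option autoImplicit false

open scoped BigOperators RealInnerProductSpace

namespace WLP

noncomputable section

open Classical

open Pool.Agent.KST (E IsCell Cells Pol)

variable {α : Type} [Fintype α] {d : ℕ}

/-- the closed face of the sign vector `c` -/
def cface (a : α → E d) (c : α → SignType) : Set (E d) :=
  {x | x ∈ Pol a ∧ ∀ i, c i ≠ 0 → ⟪a i, x⟫ = ((c i : SignType) : ℝ)}

theorem fc_sq {s : SignType} (h : s ≠ 0) : ((s : SignType) : ℝ) * ((s : SignType) : ℝ) = 1 := by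
  revert h
  cases s <;> simp

theorem fc_cast {s t : SignType} (h : ((s : SignType) : ℝ) = ((t : SignType) : ℝ)) : s = t := by
  revert h
  cases s <;> cases t <;> norm_num

theorem fc_abs {s : SignType} (h : s ≠ 0) : |((s : SignType) : ℝ)| = 1 := by
  revert h
  cases s <;> simp

theorem fc_pol {a : α → E d} {c : α → SignType} {x : E d} (hx : IsCell a c x) : x ∈ Pol a := by
  intro i
  by_cases h : c i = 0
  · exact ((hx i).1 h).le
  · rw [(hx i).2 h, fc_abs h]

theorem fc_term {a : α → E d} {y : E d} (hy : y ∈ Pol a) (c : α → SignType) (i : α) :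
    ((c i : SignType) : ℝ) * ⟪a i, y⟫ ≤ ((c i : SignType) : ℝ) * ((c i : SignType) : ℝ) := by
  have h := abs_le.1 (hy i)
  rcases c i with _ | _ | _
  · simp
  · change ((-1 : SignType) : ℝ) * _ ≤ ((-1 : SignType) : ℝ) * ((-1 : SignType) : ℝ)
    rw [SignType.coe_neg_one]
    linarith [h.1]
  · change ((1 : SignType) : ℝ) * _ ≤ ((1 : SignType) : ℝ) * ((1 : SignType) : ℝ)
    rw [SignType.coe_one]
    linarith [h.2]

theorem cface_exposed (a : α → E d) (c : α → SignType) : IsExposed ℝ (Pol a) (cface a c) := by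
  intro hne
  obtain ⟨x0, hx0, hx0'⟩ := hne
  refine ⟨∑ i, ((c i : SignType) : ℝ) • (innerSL ℝ (a i)), ?_⟩
  have hl : ∀ y, (∑ i, ((c i : SignType) : ℝ) • (innerSL ℝ (a i))) y =
      ∑ i, ((c i : SignType) : ℝ) * ⟪a i, y⟫ := by
    intro y
    simp [ContinuousLinearMap.sum_apply]
  have hle : ∀ y ∈ Pol a, ∑ i, ((c i : SignType) : ℝ) * ⟪a i, y⟫ ≤
      ∑ i, ((c i : SignType) : ℝ) * ((c i : SignType) : ℝ) := fun y hy =>
    Finset.sum_le_sum (fun i _ => fc_term hy c i)
  have heq : ∀ y, (∀ i, c i ≠ 0 → ⟪a i, y⟫ = ((c i : SignType) : ℝ)) →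
      ∑ i, ((c i : SignType) : ℝ) * ⟪a i, y⟫ =
      ∑ i, ((c i : SignType) : ℝ) * ((c i : SignType) : ℝ) := by
    intro y hy
    apply Finset.sum_congr rfl
    intro i _
    by_cases h : c i = 0
    · rw [h]; simp
    · rw [hy i h]
  ext x
  constructor
  · rintro ⟨hx, hx'⟩
    refine ⟨hx, fun y hy => ?_⟩
    rw [hl, hl, heq x hx']
    exact hle y hy
  · rintro ⟨hx, hx'⟩
    refine ⟨hx, ?_⟩
    have h1 := hx' x0 hx0
    rw [hl, hl, heq x0 hx0'] at h1
    have h2 : ∑ i, ((c i : SignType) : ℝ) * ⟪a i, x⟫ =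
        ∑ i, ((c i : SignType) : ℝ) * ((c i : SignType) : ℝ) := le_antisymm (hle x hx) h1
    have h3 := (Finset.sum_eq_sum_iff_of_le (fun i _ => fc_term hx c i)).1 h2
    intro i hi
    have h4 := h3 i (Finset.mem_univ _)
    have h5 : ((c i : SignType) : ℝ) ≠ 0 := by
      intro h
      have := fc_sq hi
      rw [h] at this
      norm_num at this
    exact mul_left_cancel₀ h5 h4

theorem cells_le_faces (a : α → E d) :
    ((Cells a).card : ℕ∞) ≤
      {F : Set (E d) | F.Nonempty ∧ IsExposed ℝ (Pol a) F}.encard := by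
  have hinj : Set.InjOn (cface a) ((Cells a : Finset (α → SignType)) : Set (α → SignType)) := by
    intro c hc c' hc' h
    have hx : ∃ x, IsCell a c x := (Finset.mem_filter.1 (Finset.mem_coe.1 hc)).2
    have hx' : ∃ x, IsCell a c' x := (Finset.mem_filter.1 (Finset.mem_coe.1 hc')).2
    obtain ⟨x, hx⟩ := hx
    obtain ⟨x', hx'⟩ := hx'
    have key : ∀ (c c' : α → SignType) (x : E d), IsCell a c x → cface a c = cface a c' →
        ∀ i, c' i ≠ 0 → c i = c' i := by
      intro c c' x hx h i hi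
      have h1 : x ∈ cface a c := ⟨fc_pol hx, fun i hi => (hx i).2 hi⟩
      rw [h] at h1
      have h2 := h1.2 i hi
      by_cases h3 : c i = 0
      · have h4 := (hx i).1 h3
        rw [h2, fc_abs hi] at h4
        exact absurd h4 (lt_irrefl _)
      · have h4 := (hx i).2 h3
        rw [h2] at h4
        exact (fc_cast h4).symm
    funext i
    by_cases hi : c' i = 0
    · by_cases hi' : c i = 0
      · rw [hi, hi']
      · exact (key c' c x' hx' h.symm i hi').symm
    · exact key c c' x hx h i hi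
  have h1 : (cface a '' ((Cells a : Finset (α → SignType)) : Set (α → SignType))) ⊆
      {F : Set (E d) | F.Nonempty ∧ IsExposed ℝ (Pol a) F} := by
    rintro F ⟨c, hc, rfl⟩
    have hx : ∃ x, IsCell a c x := (Finset.mem_filter.1 (Finset.mem_coe.1 hc)).2
    obtain ⟨x, hx⟩ := hx
    exact ⟨⟨x, fc_pol hx, fun i hi => (hx i).2 hi⟩, cface_exposed a c⟩
  calc ((Cells a).card : ℕ∞) = ((Cells a : Finset (α → SignType)) : Set (α → SignType)).encard :=
        (Set.encard_coe_eq_coe_finsetCard _).symm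
    _ = (cface a '' ((Cells a : Finset (α → SignType)) : Set (α → SignType))).encard :=
        (hinj.encard_image).symm
    _ ≤ _ := Set.encard_le_encard h1

end

end WLP
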