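import Pool.Agent.WLP.Kalb
import Pool.Agent.WLP.Faces

/-! Theorem B for the polytope `{x | ∀ i, |⟪a i, x⟫| ≤ 1}` in terms of exposed faces and extreme points -/

set_option autoImplicit false

open scoped BigOperators RealInnerProductSpace

namespace WLP

noncomputable section

open Classical

open Pool.Agent.KST (E IsCell Cells Pol)

/-- extreme points are determined by their cells -/
theorem ext_finite {α : Type} [Fintype α] {d : ℕ} (a : α → E d) :
    (Set.extremePoints ℝ (Pol a)).Finite := by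
  apply Set.Finite.of_finite_image (f := fun x : E d => fun i : α =>
      if |⟪a i, x⟫| = 1 then SignType.sign ⟪a i, x⟫ else 0) (Set.toFinite _)
  intro x hx y hy hxy
  have hxy' : ∀ i, |⟪a i, y⟫| = 1 → ⟪a i, x⟫ = ⟪a i, y⟫ := by
    intro i hi
    have h1 := congrFun hxy i
    simp only [hi, if_true] at h1
    have hy0 : ⟪a i, y⟫ ≠ 0 := by
      intro h0; rw [h0, abs_zero] at hi; exact absurd hi (by norm_num)
    by_cases hxi : |⟪a i, x⟫| = 1
    · rw [if_pos hxi] at h1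
      rcases eq_or_eq_neg_of_abs_eq hxi with h2 | h2 <;>
        rcases eq_or_eq_neg_of_abs_eq hi with h3 | h3
      · rw [h2, h3]
      · rw [h2, h3] at h1
        exact absurd h1 (by simp)
      · rw [h2, h3] at h1
        exact absurd h1 (by simp)
      · rw [h2, h3]
    · rw [if_neg hxi] at h1
      exact absurd (sign_eq_zero_iff.1 h1.symm) hy0
  -- move from y away from x
  by_contra hne
  have hex : ∃ ε : ℝ, 0 < ε ∧ ∀ i, |⟪a i, y - ε • (x - y)⟫| ≤ 1 := by
    have h : ∀ i, ∃ ε : ℝ, 0 < ε ∧ ∀ δ, 0 < δ → δ ≤ ε → |⟪a i, y - δ • (x - y)⟫| ≤ 1 := by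
      intro i
      by_cases hi : |⟪a i, y⟫| = 1
      · refine ⟨1, one_pos, fun δ _ _ => ?_⟩
        rw [inner_sub_right, inner_smul_right, inner_sub_right, hxy' i hi, sub_self, mul_zero,
          sub_zero, hi]
      · have hlt : |⟪a i, y⟫| < 1 := lt_of_le_of_ne (hy.1 i) hi
        refine ⟨(1 - |⟪a i, y⟫|) / (|⟪a i, x - y⟫| + 1), ?_, fun δ hδ hδ' => ?_⟩
        · apply div_pos (by linarith) (by positivity)
        · rw [inner_sub_right, inner_smul_right]
          have h1 : |δ * ⟪a i, x - y⟫| ≤ 1 - |⟪a i, y⟫| := by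
            rw [abs_mul, abs_of_pos hδ]
            rw [le_div_iff₀ (by positivity)] at hδ'
            nlinarith [abs_nonneg ⟪a i, x - y⟫]
          have h2 := abs_sub ⟪a i, y⟫ (δ * ⟪a i, x - y⟫)
          linarith
    choose ε hε using h
    by_cases hα : Nonempty α
    · refine ⟨Finset.univ.inf' Finset.univ_nonempty ε, ?_, fun i => ?_⟩
      · rw [Finset.lt_inf'_iff]
        exact fun i _ => (hε i).1
      · apply (hε i).2
        · rw [Finset.lt_inf'_iff]
          exact fun i _ => (hε i).1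
        · exact Finset.inf'_le _ (Finset.mem_univ i)
    · exact ⟨1, one_pos, fun i => absurd ⟨i⟩ hα⟩
  obtain ⟨ε, hε, hz⟩ := hex
  have hz' : y - ε • (x - y) ∈ Pol a := hz
  have hseg : y ∈ openSegment ℝ (y - ε • (x - y)) x := by
    refine ⟨1 / (1 + ε), ε / (1 + ε), by positivity, by positivity, by field_simp, ?_⟩
    have h1 : (1 + ε) ≠ 0 := by positivity
    ext i
    simp only [PiLp.add_apply, PiLp.smul_apply, PiLp.sub_apply, smul_eq_mul]
    field_simp
    ring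
  have h5 := hy.2 hz' hx.1 hseg
  apply hne
  have h6 : ε • (x - y) = 0 := by
    have h7 : y - ε • (x - y) = y := h5
    rwa [sub_eq_self] at h7
  rcases smul_eq_zero.1 h6 with h8 | h8
  · exact absurd h8 hε.ne'
  · exact sub_eq_zero.1 h8

theorem finalB (d n : ℕ) (a : Fin n → E d) (hd : 1 ≤ d) (P : Set (E d))
    (hP : P = {x | ∀ i, |⟪a i, x⟫| ≤ 1}) (hb : Bornology.IsBounded P)
    (hns : ∀ x ∈ P, x ∉ Set.extremePoints ℝ P →
      LinearIndependent ℝ (fun i : {i : Fin n // |⟪a i, x⟫| = 1} => a i.1)) :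
    (3 : ℕ∞) ^ d + 2 ^ ((d - 1) / 2) * (Set.extremePoints ℝ P).encard ≤
        {F : Set (E d) | F.Nonempty ∧ IsExposed ℝ P F}.encard + 2 ^ ((d - 1) / 2 + d) ∧
      (2 ^ d ≤ (Set.extremePoints ℝ P).encard →
        (3 : ℕ∞) ^ d ≤ {F : Set (E d) | F.Nonempty ∧ IsExposed ℝ P F}.encard) ∧
      (3 : ℕ∞) ^ d ≤
        {F : Set (E d) | F.Nonempty ∧ IsExposed ℝ P F}.encard + 2 ^ ((d - 1) / 2 + d) := by
  obtain ⟨e, rfl⟩ : ∃ e, d = e + 1 := ⟨d - 1, by omega⟩
  have hP' : P = Pol a := hP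
  subst hP'
  have h1 := kalaiB a hb (fun x hx h => by
    by_contra hx'
    exact h (hns x hx hx'))
  have h2 := cells_le_faces a
  have h3 : ((Set.extremePoints ℝ (Pol a)).ncard : ℕ∞) = (Set.extremePoints ℝ (Pol a)).encard :=
    (ext_finite a).cast_ncard_eq
  set N := {F : Set (E (e + 1)) | F.Nonempty ∧ IsExposed ℝ (Pol a) F}.encard with hN
  have h4 : 3 ^ (e + 1) + 2 ^ (e / 2) * (Set.extremePoints ℝ (Pol a)).ncard ≤
      (Cells a).card + 2 ^ (e / 2 + (e + 1)) := by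
    zify
    rw [pow_add (2 : ℤ) (e / 2) (e + 1)]
    linarith
  have h5 : (3 : ℕ∞) ^ (e + 1) + 2 ^ (e / 2) * (Set.extremePoints ℝ (Pol a)).encard ≤
      N + 2 ^ (e / 2 + (e + 1)) := by
    rw [← h3]
    calc (3 : ℕ∞) ^ (e + 1) + 2 ^ (e / 2) * ((Set.extremePoints ℝ (Pol a)).ncard : ℕ∞)
        ≤ ((Cells a).card : ℕ∞) + 2 ^ (e / 2 + (e + 1)) := by exact_mod_cast h4
      _ ≤ N + 2 ^ (e / 2 + (e + 1)) := by gcongr
  refine ⟨h5, fun h6 => ?_, le_trans le_self_add h5⟩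
  have h7 : (3 : ℕ∞) ^ (e + 1) + 2 ^ (e / 2 + (e + 1)) ≤ N + 2 ^ (e / 2 + (e + 1)) := by
    refine le_trans ?_ h5
    rw [pow_add (2 : ℕ∞) (e / 2) (e + 1)]
    gcongr
  have h8 : (2 : ℕ∞) ^ (e / 2 + (e + 1)) ≠ ⊤ := by
    exact_mod_cast ENat.natCast_ne_top (2 ^ (e / 2 + (e + 1)))
  exact (ENat.add_le_add_iff_right h8).1 h7

end

end WLP
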