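import Pool.Agent.WLP.DataN
import Pool.Agent.WLP.Final

/-!
WLP: polytopes with simple vertex figures in dimensions five and six.
-/

set_option autoImplicit false

open scoped BigOperators RealInnerProductSpace

namespace WLP

noncomputable section

open Classical

open Pool.Agent.KST (E IsCell Cells Verts Simple Pol pt PP Gen Star VF Low LowF Inside hh)

/-! ### Arithmetic -/

theorem num5 {k H : ℕ → ℤ} (h : Num 4 k H) (hF : 3 ≤ k 1 - H 0)
    (hV : -16 ≤ 2 * (∑ n ∈ Finset.range 6, k n - ∑ n ∈ Finset.range 5, H n + H 0)) :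
    0 ≤ ∑ n ∈ Finset.range 6, 2 ^ n * k n - ∑ n ∈ Finset.range 5, 2 ^ n * H n + H 0 := by
  have k5 : k 5 = k 0 := h.ksym 0 (by norm_num)
  have k4 : k 4 = k 1 := h.ksym 1 (by norm_num)
  have k3 : k 3 = k 2 := h.ksym 2 (by norm_num)
  have H4 : H 4 = H 0 := h.hsym 0 (by norm_num)
  have H3 : H 3 = H 1 := h.hsym 1 (by norm_num)
  have l3 : H 3 ≤ k 3 := h.hle 3 (by norm_num) (by norm_num)
  have l4 : H 4 ≤ k 4 := h.hle 4 (by norm_num) (by norm_num)
  have u1 : H 0 ≤ H 1 := h.h1 1 (by norm_num)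
  have t := h.two (by norm_num)
  have k0 := h.k0
  simp only [Finset.sum_range_succ, Finset.sum_range_zero] at hV ⊢
  rw [k5, k4, k3, H4, H3, k0] at hV ⊢
  rw [k4, H4] at l4
  rw [k3, H3] at l3
  set G := H 1 - H 0 with hG
  by_cases hG0 : G = 0
  · rw [hG0] at t
    have hG' : H 1 = H 0 := by linarith
    rw [hG'] at *
    norm_num at t hV ⊢
    linarith
  · have hG1 : 1 ≤ G := by
      have : 0 ≤ G := by linarith
      omega
    norm_num at hV ⊢
    linarith

theorem num6 {k H : ℕ → ℤ} (h : Num 5 k H) (hF : 3 ≤ k 1 - H 0)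
    (hV : -46 ≤ 2 * (∑ n ∈ Finset.range 7, k n - ∑ n ∈ Finset.range 6, H n + H 0)) :
    0 ≤ ∑ n ∈ Finset.range 7, 2 ^ n * k n - ∑ n ∈ Finset.range 6, 2 ^ n * H n + H 0 := by
  have k6 : k 6 = k 0 := h.ksym 0 (by norm_num)
  have k5 : k 5 = k 1 := h.ksym 1 (by norm_num)
  have k4 : k 4 = k 2 := h.ksym 2 (by norm_num)
  have H5 : H 5 = H 0 := h.hsym 0 (by norm_num)
  have H4 : H 4 = H 1 := h.hsym 1 (by norm_num)
  have H3 : H 3 = H 2 := h.hsym 2 (by norm_num)
  have l3 : H 3 ≤ k 3 := h.hle 3 (by norm_num) (by norm_num)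
  have l4 : H 4 ≤ k 4 := h.hle 4 (by norm_num) (by norm_num)
  have l5 : H 5 ≤ k 5 := h.hle 5 (by norm_num) (by norm_num)
  have u1 : H 0 ≤ H 1 := h.h1 1 (by norm_num)
  have t := h.two (by norm_num)
  have k0 := h.k0
  simp only [Finset.sum_range_succ, Finset.sum_range_zero] at hV ⊢
  rw [k6, k5, k4, H5, H4, H3, k0] at hV ⊢
  rw [k5, H5] at l5
  rw [k4, H4] at l4
  rw [H3] at l3
  set G := H 1 - H 0 with hG
  have hG0 : 0 ≤ G := by linarith
  have e1 : H 1 = H 0 + G := by linarith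
  rw [e1] at *
  norm_num at hV ⊢
  by_cases hG7 : 7 ≤ G
  · linarith
  · have hG6 : G ≤ 6 := by omega
    have t' : H 2 ≤ H 0 + G + 21 + (G - 6) * 1 := by
      nlinarith
    nlinarith

/-! ### Few facets or few vertices -/

/-- the statement of the theorem on at most `d + 2` pairs of facets or vertices -/
def TM (d : ℕ) : Prop :=
  ∀ (n : ℕ) (a : Fin n → EuclideanSpace ℝ (Fin d)), n ≤ d + 2 →
    ∀ P : Set (EuclideanSpace ℝ (Fin d)),
      (P = {x | ∀ i, |inner ℝ (a i) x| ≤ 1} ∧ Bornology.IsBounded P) ∨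
        (P = convexHull ℝ (Set.range a ∪ Set.range (fun i => -a i)) ∧
          (interior P).Nonempty) →
      (3 : ℕ∞) ^ d ≤
        {F : Set (EuclideanSpace ℝ (Fin d)) | F.Nonempty ∧ IsExposed ℝ P F}.encard

theorem low_facets {α : Type} [Fintype α] {d : ℕ} (htm : TM d) (a : α → E d)
    (hb : Bornology.IsBounded (Pol a)) {L : Finset α}
    (hL : Pol a = {x | ∀ i ∈ L, |⟪a i, x⟫| ≤ 1}) (hLd : L.card ≤ d + 2) :
    (3 : ℕ∞) ^ d ≤ {F : Set (E d) | F.Nonempty ∧ IsExposed ℝ (Pol a) F}.encard := by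
  let e : Fin L.card ≃ {i : α // i ∈ L} := L.equivFin.symm
  refine htm L.card (fun i => a (e i).1) hLd (Pol a) (Or.inl ⟨?_, hb⟩)
  rw [hL]
  ext x
  constructor
  · intro hx i
    exact hx (e i).1 (e i).2
  · intro hx i hi
    have h1 := hx (e.symm ⟨i, hi⟩)
    simpa using h1

theorem pol_neg_ext {α : Type} [Fintype α] {d : ℕ} (a : α → E d) {x : E d}
    (hx : x ∈ Set.extremePoints ℝ (Pol a)) : -x ∈ Set.extremePoints ℝ (Pol a) := by
  rw [mem_extremePoints] at hx ⊢
  obtain ⟨h1, h2⟩ := hx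
  refine ⟨Pool.Agent.KST.n1_pol_neg h1, ?_⟩
  intro y hy z hz hyz
  have h3 := h2 (-y) (Pool.Agent.KST.n1_pol_neg hy) (-z) (Pool.Agent.KST.n1_pol_neg hz) (by
    obtain ⟨p, q, hp, hq, hpq, h⟩ := hyz
    refine ⟨p, q, hp, hq, hpq, ?_⟩
    rw [smul_neg, smul_neg, ← neg_add, h, neg_neg])
  obtain ⟨h4, h5⟩ := h3
  exact ⟨by rw [← h4, neg_neg], by rw [← h5, neg_neg]⟩

theorem pol_closed {α : Type} [Fintype α] {d : ℕ} (a : α → E d) : IsClosed (Pol a) := by
  have : Pol a = ⋂ i, {x | |⟪a i, x⟫| ≤ 1} := by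
    ext x
    simp [Pol]
  rw [this]
  exact isClosed_iInter fun i => isClosed_le (by fun_prop) continuous_const

theorem pol_convex {α : Type} [Fintype α] {d : ℕ} (a : α → E d) : Convex ℝ (Pol a) := by
  intro x hx y hy p q hp hq hpq i
  rw [inner_add_right, real_inner_smul_right, real_inner_smul_right]
  calc |p * ⟪a i, x⟫ + q * ⟪a i, y⟫| ≤ |p * ⟪a i, x⟫| + |q * ⟪a i, y⟫| := abs_add_le _ _
    _ = p * |⟪a i, x⟫| + q * |⟪a i, y⟫| := by
        rw [abs_mul, abs_mul, abs_of_nonneg hp, abs_of_nonneg hq]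
    _ ≤ p * 1 + q * 1 :=
        add_le_add (mul_le_mul_of_nonneg_left (hx i) hp) (mul_le_mul_of_nonneg_left (hy i) hq)
    _ = 1 := by linarith

theorem pol_interior {α : Type} [Fintype α] {d : ℕ} (a : α → E d) :
    (0 : E d) ∈ interior (Pol a) := by
  have h1 : {x : E d | ∀ i, |⟪a i, x⟫| < 1} ⊆ Pol a := fun x hx i => (hx i).le
  have h2 : IsOpen {x : E d | ∀ i, |⟪a i, x⟫| < 1} := by
    have : {x : E d | ∀ i, |⟪a i, x⟫| < 1} = ⋂ i, {x | |⟪a i, x⟫| < 1} := by
      ext x
      simp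
    rw [this]
    exact isOpen_iInter_of_finite fun i => isOpen_lt (by fun_prop) continuous_const
  exact interior_maximal h1 h2 (fun i => by simp)

theorem low_vertices {α : Type} [Fintype α] {d : ℕ} (hd : 1 ≤ d) (htm : TM d) (a : α → E d)
    (hb : Bornology.IsBounded (Pol a))
    (hV : (Set.extremePoints ℝ (Pol a)).ncard < 2 * (d + 3)) :
    (3 : ℕ∞) ^ d ≤ {F : Set (E d) | F.Nonempty ∧ IsExposed ℝ (Pol a) F}.encard := by
  have hfin := ext_finite a
  have hcomp : IsCompact (Pol a) := Metric.isCompact_of_isClosed_isBounded (pol_closed a) hb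
  have hhull : convexHull ℝ (Set.extremePoints ℝ (Pol a)) = Pol a := by
    have h1 := closure_convexHull_extremePoints hcomp (pol_convex a)
    rwa [(hfin.isClosed_convexHull ℝ).closure_eq] at h1
  -- zero is not extreme
  have h0 : ∀ v ∈ Set.extremePoints ℝ (Pol a), v ≠ -v := by
    intro v hv hvv
    have hv0 : v = 0 := by
      have h1 : v + v = 0 := by
        nth_rewrite 2 [hvv]
        exact add_neg_cancel v
      have h2 : (2 : ℝ) • v = 0 := by rw [two_smul]; exact h1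
      exact (smul_eq_zero.1 h2).resolve_left (by norm_num)
    rw [hv0] at hv
    have : Nontrivial (E d) := by
      have : Nonempty (Fin d) := ⟨⟨0, hd⟩⟩
      infer_instance
    obtain ⟨u, hu⟩ := exists_ne (0 : E d)
    obtain ⟨t, ht0, htP, i, hi1, hi2⟩ := nb_exit a hb (interior_subset (pol_interior a)) hu
    rw [zero_add] at htP hi1
    have h3 := Pool.Agent.KST.n1_pol_neg htP
    rw [mem_extremePoints] at hv
    have h4 := (hv.2 _ htP _ h3 ⟨1 / 2, 1 / 2, by norm_num, by norm_num, by norm_num, by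
      module⟩).1
    rw [h4, inner_zero_right, abs_zero] at hi1
    exact absurd hi1 (by norm_num)
  let R : Finset (E d) := hfin.toFinset.filter (fun v => WellOrderingRel v (-v))
  have hR : ∀ v, v ∈ R ↔ v ∈ Set.extremePoints ℝ (Pol a) ∧ WellOrderingRel v (-v) := by
    intro v
    simp only [R, Finset.mem_filter, Set.Finite.mem_toFinset]
  have hRex : ∀ v ∈ Set.extremePoints ℝ (Pol a), v ∈ R ∨ -v ∈ R := by
    intro v hv
    rcases trichotomous_of WellOrderingRel v (-v) with h | h | h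
    · exact Or.inl ((hR v).2 ⟨hv, h⟩)
    · exact absurd h (h0 v hv)
    · refine Or.inr ((hR _).2 ⟨pol_neg_ext a hv, ?_⟩)
      rw [neg_neg]
      exact h
  have hRno : ∀ v ∈ R, -v ∉ R := by
    intro v hv hv'
    have h1 := ((hR _).1 hv).2
    have h2 := ((hR _).1 hv').2
    rw [neg_neg] at h2
    exact asymm_of WellOrderingRel h1 h2
  have hcard : 2 * R.card ≤ (Set.extremePoints ℝ (Pol a)).ncard := by
    have h1 : Disjoint R (R.image (fun v => -v)) := by
      rw [Finset.disjoint_left]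
      intro v hv hv'
      obtain ⟨w, hw, hwv⟩ := Finset.mem_image.1 hv'
      apply hRno v hv
      rw [← hwv, neg_neg]
      exact hw
    have h2 : ((R ∪ R.image (fun v => -v) : Finset (E d)) : Set (E d)) ⊆
        Set.extremePoints ℝ (Pol a) := by
      intro v hv
      rw [Finset.coe_union] at hv
      rcases hv with hv | hv
      · exact ((hR v).1 (Finset.mem_coe.1 hv)).1
      · obtain ⟨w, hw, hwv⟩ := Finset.mem_image.1 (Finset.mem_coe.1 hv)
        rw [← hwv]
        exact pol_neg_ext a ((hR w).1 hw).1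
    have h3 := Set.ncard_le_ncard h2 hfin
    rw [Set.ncard_coe_finset, Finset.card_union_of_disjoint h1,
      Finset.card_image_of_injective _ neg_injective] at h3
    omega
  let e : Fin R.card ≃ {v : E d // v ∈ R} := R.equivFin.symm
  refine htm R.card (fun i => (e i).1) (by omega) (Pol a) (Or.inr ⟨?_, ⟨0, pol_interior a⟩⟩)
  rw [← hhull]
  congr 1
  ext v
  constructor
  · intro hv
    rcases hRex v hv with h | h
    · left
      exact ⟨e.symm ⟨v, h⟩, by simp⟩
    · right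
      exact ⟨e.symm ⟨-v, h⟩, by simp⟩
  · rintro (⟨i, rfl⟩ | ⟨i, rfl⟩)
    · exact ((hR _).1 (e i).2).1
    · exact pol_neg_ext a ((hR _).1 (e i).2).1

/-- Kalai's inequality in dimensions five and six for simple vertex figures, from the theorem on few
facets or vertices -/
theorem kalai56_of {α : Type} [Fintype α] {d : ℕ} (hd : d = 5 ∨ d = 6) (htm : TM d) (a : α → E d)
    (hb : Bornology.IsBounded (Pol a))
    (hns : ∀ x ∈ Pol a, ¬ LinearIndependent ℝ (fun i : {i : α // |⟪a i, x⟫| = 1} => a i.1) →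
      x ∈ Set.extremePoints ℝ (Pol a)) :
    (3 : ℕ∞) ^ d ≤ {F : Set (E d) | F.Nonempty ∧ IsExposed ℝ (Pol a) F}.encard := by
  by_cases hV : (Set.extremePoints ℝ (Pol a)).ncard < 2 * (d + 3)
  · exact low_vertices (by omega) htm a hb hV
  push Not at hV
  rcases hd with rfl | rfl
  · obtain ⟨L, k, H, hN, hL, h1, h2, h3⟩ := dataN (d := 4) (by norm_num) a hb hns
    by_cases hLc : L.card ≤ 5 + 2
    · exact low_facets htm a hb hL hLc
    refine le_trans ?_ (cells_le_faces a)
    push Not at hLc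
    have h4 : (8 : ℤ) ≤ (L.card : ℤ) := by exact_mod_cast hLc
    have h5 : (16 : ℤ) ≤ ((Set.extremePoints ℝ (Pol a)).ncard : ℤ) := by exact_mod_cast hV
    norm_num at h1
    have h6 := num5 hN (by linarith) (by
      have : (2 : ℤ) ^ (4 + 1) = 32 := by norm_num
      rw [this] at h2
      linarith)
    change (3 : ℤ) ^ 5 + 2 * (∑ n ∈ Finset.range 6, 2 ^ n * k n -
      ∑ n ∈ Finset.range 5, 2 ^ n * H n + H 0) ≤ _ at h3
    have h7 : (3 : ℤ) ^ 5 ≤ ((Cells a).card : ℤ) := by linarith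
    exact_mod_cast h7
  · obtain ⟨L, k, H, hN, hL, h1, h2, h3⟩ := dataN (d := 5) (by norm_num) a hb hns
    by_cases hLc : L.card ≤ 6 + 2
    · exact low_facets htm a hb hL hLc
    refine le_trans ?_ (cells_le_faces a)
    push Not at hLc
    have h4 : (9 : ℤ) ≤ (L.card : ℤ) := by exact_mod_cast hLc
    have h5 : (18 : ℤ) ≤ ((Set.extremePoints ℝ (Pol a)).ncard : ℤ) := by exact_mod_cast hV
    norm_num at h1
    have h6 := num6 hN (by linarith) (by
      have : (2 : ℤ) ^ (5 + 1) = 64 := by norm_num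
      rw [this] at h2
      linarith)
    change (3 : ℤ) ^ 6 + 2 * (∑ n ∈ Finset.range 7, 2 ^ n * k n -
      ∑ n ∈ Finset.range 6, 2 ^ n * H n + H 0) ≤ _ at h3
    have h7 : (3 : ℤ) ^ 6 ≤ ((Cells a).card : ℤ) := by linarith
    exact_mod_cast h7

end

end WLP
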