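import Pool.Agent.CTC.NC
import Pool.Agent.WLP.NB2
import Pool.Agent.KST.Q5

/-!
WLP: the natural caps with all their properties: hypotheses of theorem C, no cap facet is a simplex.
-/

set_option autoImplicit false

open scoped BigOperators RealInnerProductSpace

namespace WLP

noncomputable section

open Classical

open Pool.Agent.KST
open Pool.Agent.CTC (HypC MeetG)

variable {d : ℕ}

private theorem NC_sq {s : SignType} (hs : s ≠ 0) : ((s : SignType) : ℝ) * ((s : SignType) : ℝ) = 1 := by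
  revert hs
  cases s <;> simp

private theorem NC_mem {α : Type} [Fintype α] {a : α → E d} {v : E d} (hv : v ∈ n1NS a)
    {s : SignType} (hs : s ≠ 0) : ((s : SignType) : ℝ) • v ∈ n1NS a := by
  have hcase : ∀ s : SignType, s ≠ 0 → s = 1 ∨ s = -1 := by decide
  rcases hcase s hs with rfl | rfl
  · simpa using hv
  · simpa using Pool.Agent.KST.n1NS_neg hv

private theorem NC_mid (a u z : E d) :
    ⟪a, (1 / 2 : ℝ) • u + (1 / 2 : ℝ) • z⟫ = (1 / 2) * ⟪a, u⟫ + (1 / 2) * ⟪a, z⟫ := by
  rw [inner_add_right, real_inner_smul_right, real_inner_smul_right]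


/-- the points with `⟪g j, x⟫ = 1` belong to the truncated polytope -/
private theorem nh_cell {α : Type} [Fintype α] {r : ℕ} (a : α → E d) (g : Fin r → E d)
    (hdisj : ∀ x ∈ Pol a, ∀ j k, ∀ s t : SignType, 1 ≤ ((s : SignType) : ℝ) * ⟪g j, x⟫ →
        1 ≤ ((t : SignType) : ℝ) * ⟪g k, x⟫ → j = k ∧ s = t) {y : E d} (hyP : y ∈ Pol a)
    {j : Fin r} (hyj : ⟪g j, y⟫ = 1) : ∃ t, IsCell (Sum.elim a g) t y ∧ t (Sum.inr j) = 1 := by
  have hyP' : y ∈ Pol (Sum.elim a g) := by
    intro l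
    rcases l with i | k
    · exact hyP i
    · show |⟪g k, y⟫| ≤ 1
      by_contra hcon
      push Not at hcon
      have hex : ∃ t : SignType, 1 ≤ ((t : SignType) : ℝ) * ⟪g k, y⟫ := by
        rcases le_abs'.1 hcon.le with h3 | h3
        · refine ⟨-1, ?_⟩
          rw [SignType.coe_neg_one]
          linarith
        · refine ⟨1, ?_⟩
          rw [SignType.coe_one]
          linarith
      obtain ⟨t, ht⟩ := hex
      obtain ⟨h1, -⟩ := hdisj y hyP k j t 1 ht (by rw [SignType.coe_one, one_mul, hyj])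
      rw [h1, hyj, abs_one] at hcon
      exact lt_irrefl _ hcon
  obtain ⟨t, ht⟩ := exists_cell hyP'
  refine ⟨t, ht, ?_⟩
  have h1 : t (Sum.inr j) ≠ 0 := by
    intro h0
    have h2 := (ht (Sum.inr j)).1 h0
    change |⟪g j, y⟫| < 1 at h2
    rw [hyj, abs_one] at h2
    exact lt_irrefl _ h2
  have h2 := (ht (Sum.inr j)).2 h1
  change ⟪g j, y⟫ = _ at h2
  rw [hyj] at h2
  apply n1_coe
  rw [← h2, SignType.coe_one]

/-- a vertex with dependent tight constraints has more than `d` of them -/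
private theorem nh_many {α : Type} [Fintype α] (a : α → E d) {w : E d}
    (hw : w ∈ Set.extremePoints ℝ (Pol a))
    (hN : ¬ LinearIndependent ℝ (fun i : {i : α // |⟪a i, w⟫| = 1} => a i.1)) :
    d + 1 ≤ (Finset.univ.filter (fun i => |⟪a i, w⟫| = 1)).card := by
  by_contra hcon
  apply hN
  set L := Finset.univ.filter (fun i => |⟪a i, w⟫| = 1) with hL
  have hspan := q5_span L a (fun u hu => nb_ext a hw u (fun i hi =>
    hu i (Finset.mem_filter.2 ⟨Finset.mem_univ _, hi⟩)))
  have hli : LinearIndependent ℝ (fun i : {i : α // i ∈ L} => a i.1) := by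
    apply linearIndependent_of_top_le_span_of_card_le_finrank hspan
    rw [finrank_euclideanSpace_fin, Fintype.card_coe]
    omega
  have h2 := hli.comp (fun k : {i : α // |⟪a i, w⟫| = 1} =>
    (⟨k.1, Finset.mem_filter.2 ⟨Finset.mem_univ _, k.2⟩⟩ : {i : α // i ∈ L})) (by
    intro x y hxy
    exact Subtype.ext (congrArg (fun z : {i : α // i ∈ L} => z.1) hxy))
  exact h2

/-- the natural caps -/
theorem nat_hyp3 {α : Type} [Fintype α] (a : α → E d) (hb : Bornology.IsBounded (Pol a))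
    (hns : ∀ x ∈ Pol a, ¬ LinearIndependent ℝ (fun i : {i : α // |⟪a i, x⟫| = 1} => a i.1) →
      x ∈ Set.extremePoints ℝ (Pol a))
    (hNR : ∀ i, ∀ v ∈ n1NS a, |⟪a i, v⟫| = 1 → ∃ x ∈ Pol a, x ≠ v ∧ ⟪a i, x⟫ = ⟪a i, v⟫) :
    ∃ (r : ℕ) (g : Fin r → E d), HypC a g ∧
      2 * r = {x | x ∈ Pol a ∧ ¬ LinearIndependent ℝ (fun i : {i : α // |⟪a i, x⟫| = 1} => a i.1)}.ncard ∧
      (∀ j, ∃ t ∈ Cells (Sum.elim a g), t (Sum.inr j) = 1) ∧
      (∀ (j : Fin r) (s : SignType), s ≠ 0 → (Inside a g j s).card ≤ 1) ∧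
      ∀ j, d + 1 ≤ (Finset.univ.filter (fun l : α ⊕ Fin r => l ≠ Sum.inr j ∧
        ∃ t ∈ Cells (Sum.elim a g), t (Sum.inr j) = 1 ∧ t l ≠ 0)).card := by
  have hmono : ∀ v ∈ n1NS a, ∀ x ∈ Pol a, (∀ i, |⟪a i, v⟫| = 1 → ⟪a i, x⟫ = ⟪a i, v⟫) →
      x = v := by
    intro v hv x hx h
    have h1 := nb_ext a (hns v hv.1 hv.2) (x - v) (fun i hi => by
      rw [inner_sub_right, h i hi, sub_self])
    exact sub_eq_zero.1 h1
  obtain ⟨r, g, vv, hsimple, hdisj, hcap, hrep, hgv, hvN⟩ := nb_core a hb hmono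
  have hself : ∀ (j : Fin r) (s : SignType), s ≠ 0 →
      1 ≤ ((s : SignType) : ℝ) * ⟪g j, ((s : SignType) : ℝ) • vv j⟫ := by
    intro j s hs
    rw [real_inner_smul_right, ← mul_assoc, NC_sq hs, one_mul]
    exact (hgv j).le
  have hinj : ∀ (j k : Fin r) (s t : SignType), s ≠ 0 → t ≠ 0 →
      ((s : SignType) : ℝ) • vv j = ((t : SignType) : ℝ) • vv k → j = k ∧ s = t := by
    intro j k s t hs ht h
    refine hdisj (((s : SignType) : ℝ) • vv j) (NC_mem (hvN j) hs).1 j k s t (hself j s hs) ?_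
    rw [h]
    exact hself k t ht
  refine ⟨r, g, ⟨⟨hsimple, hdisj, ?_⟩, ?_⟩, ?_, ?_,
    fun j s _ => nb_inside a hb g vv hcap j s, ?_⟩
  · intro j x hx y hy hgx hgy i hix hiy
    obtain ⟨-, -, h1⟩ := hcap j 1 x hx (by rw [SignType.coe_one, one_mul]; exact hgx)
    obtain ⟨-, -, h2⟩ := hcap j 1 y hy (by rw [SignType.coe_one, one_mul]; exact hgy)
    rw [← h1 i hix, ← h2 i hiy]
  · intro q q' hq hq' hqq
    set v : E d := ((q.2 : SignType) : ℝ) • vv q.1 with hv
    set w : E d := ((q'.2 : SignType) : ℝ) • vv q'.1 with hw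
    have hvw : v ≠ w := by
      intro h
      obtain ⟨h1, h2⟩ := hinj q.1 q'.1 q.2 q'.2 hq hq' h
      exact hqq (Prod.ext h1 h2)
    have hvP : v ∈ Pol a := (NC_mem (hvN q.1) hq).1
    have hwP : w ∈ Pol a := (NC_mem (hvN q'.1) hq').1
    set m : E d := (1 / 2 : ℝ) • v + (1 / 2 : ℝ) • w with hm
    have hmi : ∀ i, ⟪a i, m⟫ = (1 / 2) * ⟪a i, v⟫ + (1 / 2) * ⟪a i, w⟫ := by
      intro i
      exact NC_mid (a i) v w
    have hmP : m ∈ Pol a := by
      intro i
      have h1 := abs_le.1 (hvP i)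
      have h2 := abs_le.1 (hwP i)
      rw [hmi, abs_le]
      constructor <;> linarith [h1.1, h1.2, h2.1, h2.2]
    have hli : LinearIndependent ℝ (fun i : {i : α // |⟪a i, m⟫| = 1} => a i.1) := by
      by_contra h
      have h1 := hns m hmP h
      rw [mem_extremePoints] at h1
      have h2 := h1.2 v hvP w hwP ⟨1 / 2, 1 / 2, by norm_num, by norm_num, by norm_num, rfl⟩
      exact hvw (h2.1.trans h2.2.symm)
    have hcard := hli.fintype_card_le_finrank
    rw [finrank_euclideanSpace_fin, Fintype.card_subtype] at hcard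
    refine le_trans ?_ hcard
    have hval : ∀ (p : α × SignType) (q : Fin r × SignType), MeetG a g p q →
        ⟪a p.1, ((q.2 : SignType) : ℝ) • vv q.1⟫ = ((p.2 : SignType) : ℝ) := by
      rintro p q ⟨hp0, x, hx, hpx, hqx⟩
      obtain ⟨-, -, h1⟩ := hcap q.1 q.2 x hx hqx
      rw [h1 p.1 (by rw [hpx, Pool.Agent.KST.G0_abs_cast hp0]), hpx]
    refine Finset.card_le_card_of_injOn (fun p => p.1) ?_ ?_
    · intro p hp
      have hp' := (Finset.mem_filter.1 hp).2
      refine Finset.mem_coe.2 (Finset.mem_filter.2 ⟨Finset.mem_univ _, ?_⟩)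
      have h1 : ⟪a p.1, v⟫ = ((p.2 : SignType) : ℝ) := hval p q hp'.1
      have h2 : ⟪a p.1, w⟫ = ((p.2 : SignType) : ℝ) := hval p q' hp'.2
      show |⟪a p.1, m⟫| = 1
      have h3 : (1 / 2 : ℝ) * ((p.2 : SignType) : ℝ) + (1 / 2) * ((p.2 : SignType) : ℝ) =
          ((p.2 : SignType) : ℝ) := by ring
      rw [hmi, h1, h2, h3]
      exact Pool.Agent.KST.G0_abs_cast hp'.1.1
    · intro p hp p' hp' hpp
      have h1 := hval p q (Finset.mem_filter.1 hp).2.1
      have h2 := hval p' q (Finset.mem_filter.1 hp').2.1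
      change p.1 = p'.1 at hpp
      rw [hpp, h2] at h1
      exact Prod.ext hpp (Pool.Agent.KST.n1_coe h1).symm
  · set W : Fin r × Bool → E d := fun p => if p.2 then vv p.1 else -vv p.1 with hW
    have hrange : {x | x ∈ Pol a ∧
        ¬ LinearIndependent ℝ (fun i : {i : α // |⟪a i, x⟫| = 1} => a i.1)} = W '' Set.univ := by
      ext x
      rw [Set.image_univ]
      constructor
      · intro hx
        obtain ⟨j, hj | hj⟩ := hrep x hx
        · exact ⟨(j, true), by simp [hW, hj]⟩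
        · exact ⟨(j, false), by simp [hW, hj]⟩
      · rintro ⟨⟨j, b⟩, rfl⟩
        rcases b with _ | _
        · exact Pool.Agent.KST.n1NS_neg (hvN j)
        · exact hvN j
    have hWinj : Function.Injective W := by
      rintro ⟨j, b⟩ ⟨k, c⟩ h
      have key : ∀ (j : Fin r) (b : Bool), W (j, b) =
          (((if b then (1 : SignType) else -1) : SignType) : ℝ) • vv j := by
        intro j b
        rcases b with _ | _ <;> simp [hW]
      rw [key, key] at h
      obtain ⟨h1, h2⟩ := hinj j k _ _ (by rcases b with _ | _ <;> decide)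
        (by rcases c with _ | _ <;> decide) h
      rw [h1]
      rcases b with _ | _ <;> rcases c with _ | _
      · rfl
      · exact absurd h2 (by decide)
      · exact absurd h2 (by decide)
      · rfl
    rw [hrange, Set.ncard_image_of_injective _ hWinj, Set.ncard_univ, Nat.card_eq_fintype_card,
      Fintype.card_prod, Fintype.card_fin, Fintype.card_bool, mul_comm]
  · intro j
    have hpos : 0 < ⟪g j, vv j⟫ := by linarith [hgv j]
    set y : E d := (1 / ⟪g j, vv j⟫) • vv j with hy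
    have hyj : ⟪g j, y⟫ = 1 := by
      rw [hy, real_inner_smul_right]
      field_simp
    have hyP : y ∈ Pol a := by
      intro i
      rw [hy, real_inner_smul_right, abs_mul, abs_of_pos (by positivity)]
      have h1 := (hvN j).1 i
      have h2 : 1 / ⟪g j, vv j⟫ ≤ 1 := by
        rw [div_le_one hpos]
        exact (hgv j).le
      calc 1 / ⟪g j, vv j⟫ * |⟪a i, vv j⟫| ≤ 1 * 1 :=
            mul_le_mul h2 h1 (abs_nonneg _) zero_le_one
        _ = 1 := one_mul 1
    have hyP' : y ∈ Pol (Sum.elim a g) := by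
      intro l
      rcases l with i | k
      · exact hyP i
      · show |⟪g k, y⟫| ≤ 1
        by_contra hcon
        push Not at hcon
        have hex : ∃ t : SignType, 1 ≤ ((t : SignType) : ℝ) * ⟪g k, y⟫ := by
          rcases le_abs'.1 hcon.le with h3 | h3
          · refine ⟨-1, ?_⟩
            rw [SignType.coe_neg_one]
            linarith
          · refine ⟨1, ?_⟩
            rw [SignType.coe_one]
            linarith
        obtain ⟨t, ht⟩ := hex
        obtain ⟨h1, -⟩ := hdisj y hyP k j t 1 ht (by rw [SignType.coe_one, one_mul, hyj])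
        rw [h1, hyj, abs_one] at hcon
        exact lt_irrefl _ hcon
    obtain ⟨t, ht⟩ := exists_cell hyP'
    refine ⟨t, mem_cells.2 ⟨y, ht⟩, ?_⟩
    have h1 : t (Sum.inr j) ≠ 0 := by
      intro h0
      have h2 := (ht (Sum.inr j)).1 h0
      change |⟪g j, y⟫| < 1 at h2
      rw [hyj, abs_one] at h2
      exact lt_irrefl _ h2
    have h2 := (ht (Sum.inr j)).2 h1
    change ⟪g j, y⟫ = _ at h2
    rw [hyj] at h2
    apply n1_coe
    rw [← h2, SignType.coe_one]
  · intro j
    refine le_trans (nh_many a (hns _ (hvN j).1 (hvN j).2) (hvN j).2) ?_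
    refine Finset.card_le_card_of_injOn Sum.inl ?_ (fun x _ y _ h => Sum.inl_injective h)
    intro i hi
    have hi' : |⟪a i, vv j⟫| = 1 := (Finset.mem_filter.1 hi).2
    refine Finset.mem_coe.2 (Finset.mem_filter.2 ⟨Finset.mem_univ _, by simp, ?_⟩)
    obtain ⟨x, hxP, hxv, hxi⟩ := hNR i (vv j) (hvN j) hi'
    have hu : x - vv j ≠ 0 := sub_ne_zero.2 hxv
    have hiu : ⟪a i, x - vv j⟫ = 0 := by rw [inner_sub_right, hxi, sub_self]
    obtain ⟨t, ht0, htP, k, hk1, hk2⟩ := nb_exit a hb hxP hu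
    set y := x + t • (x - vv j) with hy
    have hyg : ⟪g j, y⟫ < 1 := by
      by_contra hcon
      push Not at hcon
      obtain ⟨-, -, h3⟩ := hcap j 1 y htP (by rw [SignType.coe_one, one_mul]; exact hcon)
      have h4 := h3 k hk1
      rw [SignType.coe_one, one_smul] at h4
      have h5 : ⟪a k, y⟫ = ⟪a k, vv j⟫ + (1 + t) * ⟪a k, x - vv j⟫ := by
        rw [hy, inner_add_right, real_inner_smul_right, inner_sub_right]
        ring
      have h6 : (1 + t) * ⟪a k, x - vv j⟫ = 0 := by linarith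
      rcases mul_eq_zero.1 h6 with h7 | h7
      · linarith
      · exact hk2 h7
    have hpg := hgv j
    set p := ⟪g j, vv j⟫ with hp
    set q := ⟪g j, y⟫ with hq
    set τ := (p - 1) / (p - q) with hτ
    have hτ0 : 0 ≤ τ := div_nonneg (by linarith) (by linarith)
    have hτ1 : τ ≤ 1 := by
      rw [hτ, div_le_one (by linarith)]
      linarith
    have hτq : τ * (p - q) = p - 1 := div_mul_cancel₀ _ (by linarith)
    have hval : ∀ u : E d, ⟪u, (1 - τ) • vv j + τ • y⟫ = (1 - τ) * ⟪u, vv j⟫ + τ * ⟪u, y⟫ := by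
      intro u
      rw [inner_add_right, real_inner_smul_right, real_inner_smul_right]
    have hzP : (1 - τ) • vv j + τ • y ∈ Pol a := by
      intro l
      rw [hval]
      have h1 := abs_le.1 ((hvN j).1 l)
      have h2 := abs_le.1 (htP l)
      rw [abs_le]
      constructor <;> nlinarith [h1.1, h1.2, h2.1, h2.2]
    have hzg : ⟪g j, (1 - τ) • vv j + τ • y⟫ = 1 := by
      rw [hval]
      show (1 - τ) * p + τ * q = 1
      linarith
    obtain ⟨t', ht', ht1⟩ := nh_cell a g hdisj hzP hzg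
    refine ⟨t', mem_cells.2 ⟨_, ht'⟩, ht1, ?_⟩
    intro h0
    have h2 := (ht' (Sum.inl i)).1 h0
    change |⟪a i, (1 - τ) • vv j + τ • y⟫| < 1 at h2
    have h3 : ⟪a i, y⟫ = ⟪a i, vv j⟫ := by
      rw [hy, inner_add_right, real_inner_smul_right, hiu, mul_zero, add_zero, hxi]
    rw [hval, h3] at h2
    have h4 : (1 - τ) * ⟪a i, vv j⟫ + τ * ⟪a i, vv j⟫ = ⟪a i, vv j⟫ := by ring
    rw [h4, hi'] at h2
    exact lt_irrefl _ h2

end

end WLP
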