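import Pool.Agent.WLP.DataC
import Pool.Agent.WLP.NH3
import Pool.Agent.WLP.Low56
import Pool.Agent.CTC.KAC
import Pool.Agent.CTC.BLK
import Pool.Agent.KST.F1
import Pool.Agent.K3E.Cnt

/-!
WLP: polytopes with simple vertex figures in dimensions five and six: equality.
-/

set_option autoImplicit false

open scoped BigOperators RealInnerProductSpace

namespace WLP

noncomputable section

open Classical

open Pool.Agent.KST (E IsCell Cells Verts Simple Pol pt PP Gen Star VF Low LowF Inside hh n1NS)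
open Pool.Agent.CTC (HypC)

/-! ### Arithmetic -/

theorem num5s {k H : ℕ → ℤ} (h : Num 4 k H) (hF : 2 ≤ k 1 - H 0) (hr : 7 ≤ H 0)
    (hG : H 0 ≤ H 1 - H 0)
    (hV : H 0 ≤ 16 + (∑ n ∈ Finset.range 6, k n - ∑ n ∈ Finset.range 5, H n + H 0))
    {Q : ℤ} (hQ : H 2 - H 1 ≤ Q * (k 2 - H 1)) :
    0 < ∑ n ∈ Finset.range 6, 2 ^ n * k n - ∑ n ∈ Finset.range 5, 2 ^ n * H n + H 0 := by
  have k5 : k 5 = k 0 := h.ksym 0 (by norm_num)
  have k4 : k 4 = k 1 := h.ksym 1 (by norm_num)
  have k3 : k 3 = k 2 := h.ksym 2 (by norm_num)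
  have H4 : H 4 = H 0 := h.hsym 0 (by norm_num)
  have H3 : H 3 = H 1 := h.hsym 1 (by norm_num)
  have l3 : H 3 ≤ k 3 := h.hle 3 (by norm_num) (by norm_num)
  have k0 := h.k0
  simp only [Finset.sum_range_succ, Finset.sum_range_zero] at hV ⊢
  rw [k5, k4, k3, H4, H3, k0] at hV ⊢
  rw [k3, H3] at l3
  norm_num at hV ⊢
  rcases eq_or_lt_of_le l3 with h2 | h2
  · rw [h2, sub_self, mul_zero] at hQ
    linarith
  · have h3 : H 1 + 1 ≤ k 2 := h2
    linarith

theorem num6s {k H : ℕ → ℤ} (h : Num 5 k H) (hF : 2 ≤ k 1 - H 0) (hr : 11 ≤ H 0)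
    (hG : H 0 ≤ H 1 - H 0)
    (hV : H 0 ≤ 32 + (∑ n ∈ Finset.range 7, k n - ∑ n ∈ Finset.range 6, H n + H 0))
    {Q : ℤ} (hQ : H 2 - H 1 ≤ Q * (k 2 - H 1)) :
    0 < ∑ n ∈ Finset.range 7, 2 ^ n * k n - ∑ n ∈ Finset.range 6, 2 ^ n * H n + H 0 := by
  have k6 : k 6 = k 0 := h.ksym 0 (by norm_num)
  have k5 : k 5 = k 1 := h.ksym 1 (by norm_num)
  have k4 : k 4 = k 2 := h.ksym 2 (by norm_num)
  have H5 : H 5 = H 0 := h.hsym 0 (by norm_num)
  have H4 : H 4 = H 1 := h.hsym 1 (by norm_num)
  have H3 : H 3 = H 2 := h.hsym 2 (by norm_num)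
  have l3 : H 3 ≤ k 3 := h.hle 3 (by norm_num) (by norm_num)
  have l4 : H 4 ≤ k 4 := h.hle 4 (by norm_num) (by norm_num)
  have k0 := h.k0
  simp only [Finset.sum_range_succ, Finset.sum_range_zero] at hV ⊢
  rw [k6, k5, k4, H5, H4, H3, k0] at hV ⊢
  rw [k4, H4] at l4
  rw [H3] at l3
  norm_num at hV ⊢
  rcases eq_or_lt_of_le l4 with h2 | h2
  · rw [h2, sub_self, mul_zero] at hQ
    linarith
  · have h3 : H 1 + 1 ≤ k 2 := h2
    linarith

/-! ### One relation -/

private theorem eq_sign_sz (c : SignType) (s : ZMod 3) (hs : s ≠ 0)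
    (h : ((c : SignType) : ℝ) = Pool.Agent.KalaiFew.sg s) : Pool.Agent.KST.sz c = s := by
  have h2 : ∀ s : ZMod 3, s ≠ 0 → s = 1 ∨ s = 2 := by decide
  rcases h2 s hs with rfl | rfl
  · have h3 : Pool.Agent.KalaiFew.sg 1 = 1 := by
      unfold Pool.Agent.KalaiFew.sg
      rw [if_neg (by decide), if_pos rfl]
    rw [h3] at h
    rcases c with _ | _ | _
    · simp at h
    · norm_num at h
    · decide
  · have h3 : Pool.Agent.KalaiFew.sg 2 = -1 := by
      unfold Pool.Agent.KalaiFew.sg
      rw [if_neg (by decide), if_neg (by decide)]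
    rw [h3] at h
    rcases c with _ | _ | _
    · simp at h
    · decide
    · norm_num at h

/-- `d + 1` constraints without superfluous ones -/
theorem hyper_case {α : Type} [Fintype α] {d : ℕ} (hd : 4 ≤ d) (a : α → E d)
    (hcard : Fintype.card α = d + 1) (hb : Bornology.IsBounded (Pol a))
    (hns : ∀ x ∈ Pol a, ¬ LinearIndependent ℝ (fun i : {i : α // |⟪a i, x⟫| = 1} => a i.1) →
      x ∈ Set.extremePoints ℝ (Pol a))
    (hirr : ∀ i, ∃ x, (∀ k, k ≠ i → |⟪a k, x⟫| ≤ 1) ∧ 1 < |⟪a i, x⟫|)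
    (hN : (Cells a).card ≤ 3 ^ d) : False := by
  let e : Fin (d + 1) ≃ α := (Fintype.equivFinOfCardEq hcard).symm
  set w : Fin (d + 1) → Fin d → ℝ := fun i => (a (e i)).ofLp with hw
  have hwz : ∀ i (z : Fin d → ℝ), w i ⬝ᵥ z = ⟪a (e i), (WithLp.toLp 2 z : E d)⟫ := by
    intro i z
    rw [EuclideanSpace.inner_eq_star_dotProduct]
    simp [hw, dotProduct_comm]
  have h0 : ∀ u : E d, (∀ i, ⟪a i, u⟫ = 0) → u = 0 := by
    intro u hu
    refine Pool.Agent.KST.q5_zero (L := Finset.univ) hb
      (fun x hx i => hx i (Finset.mem_univ i)) u (fun i _ => hu i)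
  obtain ⟨lam, hlam0, hlam⟩ := Pool.Agent.K3E.hyperplane w (by
    intro z hz
    have h1 := h0 (WithLp.toLp 2 z) (fun i => by
      have := hz (e.symm i)
      rw [hwz, Equiv.apply_symm_apply] at this
      exact this)
    have h2 := congrArg WithLp.ofLp h1
    simpa using h2)
  -- points with given values
  have hpoint : ∀ y : Fin (d + 1) → ℝ, ∑ i, lam i * y i = 0 →
      ∃ x : E d, ∀ i, ⟪a (e i), x⟫ = y i := by
    intro y hy
    obtain ⟨z, hz⟩ := (hlam y).1 hy
    exact ⟨WithLp.toLp 2 z, fun i => by rw [← hwz, hz]⟩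
  have hrel : ∀ x : E d, ∑ i, lam i * ⟪a (e i), x⟫ = 0 := by
    intro x
    exact (hlam (fun i => ⟪a (e i), x⟫)).2 ⟨x.ofLp, fun i => by rw [hwz]⟩
  have hcount : {s : Fin (d + 1) → ZMod 3 | Pool.Agent.KalaiFew.Real' lam s}.ncard ≤ 3 ^ d := by
    refine le_trans ?_ hN
    have hsub : {s : Fin (d + 1) → ZMod 3 | Pool.Agent.KalaiFew.Real' lam s} ⊆
        (((Cells a).image fun t => fun i => Pool.Agent.KST.sz (t (e i)) :
          Finset (Fin (d + 1) → ZMod 3)) : Set (Fin (d + 1) → ZMod 3)) := by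
      rintro s ⟨y, hy0, hy1, hy2⟩
      obtain ⟨x, hx⟩ := hpoint y hy2
      have hxP : x ∈ Pol a := by
        intro i
        have := hx (e.symm i)
        rw [Equiv.apply_symm_apply] at this
        rw [this]
        by_cases h : s (e.symm i) = 0
        · exact (hy0 _ h).le
        · rw [hy1 _ h, Pool.Agent.KalaiFew.abs_sg h]
      obtain ⟨t, ht⟩ := Pool.Agent.KST.exists_cell hxP
      rw [Finset.mem_coe, Finset.mem_image]
      refine ⟨t, Pool.Agent.KST.mem_cells.2 ⟨x, ht⟩, ?_⟩
      funext i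
      by_cases h : s i = 0
      · rw [h, Pool.Agent.KST.sz_zero]
        by_contra hne
        have h1 := (ht (e i)).2 hne
        have h2 := hy0 i h
        rw [← hx i, h1, Pool.Agent.KST.G0_abs_cast hne] at h2
        exact lt_irrefl _ h2
      · apply eq_sign_sz _ _ h
        have h1 := hy1 i h
        have hne : t (e i) ≠ 0 := by
          intro h2
          have h3 := (ht (e i)).1 h2
          rw [hx i, h1, Pool.Agent.KalaiFew.abs_sg h] at h3
          exact lt_irrefl _ h3
        rw [← (ht (e i)).2 hne, hx i, h1]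
    refine (Set.ncard_le_ncard hsub (Finset.finite_toSet _)).trans ?_
    rw [Set.ncard_coe_finset]
    exact Finset.card_image_le
  have hpos : 0 < ∑ j, |lam j| := by
    obtain ⟨i, hi⟩ := hlam0
    exact Finset.sum_pos' (fun j _ => abs_nonneg _) ⟨i, Finset.mem_univ _, abs_pos.2 hi⟩
  rcases Pool.Agent.K3E.count_classify lam hlam0 hcount with ⟨i, hi⟩ | hall
  · -- a superfluous constraint
    have hi0 : 0 < |lam i| := by linarith
    obtain ⟨x, hx1, hx2⟩ := hirr (e i)
    have h1 := hrel x
    rw [← Finset.add_sum_erase _ _ (Finset.mem_univ i)] at h1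
    have h2 : |lam i| + ∑ j ∈ Finset.univ.erase i, |lam j| = ∑ j, |lam j| :=
      Finset.add_sum_erase Finset.univ (fun j => |lam j|) (Finset.mem_univ i)
    have h3 : |∑ j ∈ Finset.univ.erase i, lam j * ⟪a (e j), x⟫| ≤
        ∑ j ∈ Finset.univ.erase i, |lam j| := by
      refine (Finset.abs_sum_le_sum_abs _ _).trans (Finset.sum_le_sum fun j hj => ?_)
      rw [abs_mul]
      have h4 := hx1 (e j) (fun h => Finset.ne_of_mem_erase hj (e.injective h))
      calc |lam j| * |⟪a (e j), x⟫| ≤ |lam j| * 1 :=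
            mul_le_mul_of_nonneg_left h4 (abs_nonneg _)
        _ = |lam j| := mul_one _
    have h5 : |lam i * ⟪a (e i), x⟫| ≤ ∑ j ∈ Finset.univ.erase i, |lam j| := by
      have : lam i * ⟪a (e i), x⟫ = -∑ j ∈ Finset.univ.erase i, lam j * ⟪a (e j), x⟫ := by
        linarith
      rw [this, abs_neg]
      exact h3
    rw [abs_mul] at h5
    have h6 : |lam i| * 1 < |lam i| * |⟪a (e i), x⟫| := mul_lt_mul_of_pos_left hx2 hi0
    linarith
  · -- four equal coefficients
    set Z := Finset.univ.filter (fun i => lam i ≠ 0) with hZ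
    have hZc : Z.card = 4 := by
      have h1 : ∑ j, |lam j| = ∑ j ∈ Z, |lam j| := by
        rw [hZ, Finset.sum_filter]
        apply Finset.sum_congr rfl
        intro j _
        by_cases h : lam j = 0
        · rw [if_neg (by simpa using h), h, abs_zero]
        · rw [if_pos h]
      have h2 : ∑ j ∈ Z, |lam j| = Z.card * ((∑ j, |lam j|) / 4) := by
        rw [← nsmul_eq_mul, ← Finset.sum_const]
        apply Finset.sum_congr rfl
        intro j hj
        have := hall j (Finset.mem_filter.1 hj).2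
        linarith
      have h3 : (Z.card : ℝ) * ((∑ j, |lam j|) / 4) = 4 * ((∑ j, |lam j|) / 4) := by
        rw [← h2, ← h1]; ring
      have h4 : (Z.card : ℝ) = 4 := mul_right_cancel₀ (by positivity) h3
      exact_mod_cast h4
    obtain ⟨i0, hi0⟩ : ∃ i0, i0 ∉ Z := by
      by_contra hno
      push Not at hno
      have : Z = Finset.univ := Finset.eq_univ_iff_forall.2 hno
      rw [this, Finset.card_univ, Fintype.card_fin] at hZc
      omega
    have hlam00 : lam i0 = 0 := by
      by_contra h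
      exact hi0 (Finset.mem_filter.2 ⟨Finset.mem_univ _, h⟩)
    obtain ⟨Z1, hZ1, hZ1c⟩ := Finset.exists_subset_card_eq (show 2 ≤ Z.card by omega)
    set y : Fin (d + 1) → ℝ := fun i =>
      if i ∈ Z1 then SignType.sign (lam i) else
        if i ∈ Z then -(SignType.sign (lam i)) else 0 with hy
    have hly : ∀ i, lam i * y i = if i ∈ Z1 then (∑ j, |lam j|) / 4 else
        if i ∈ Z then -((∑ j, |lam j|) / 4) else 0 := by
      intro i
      have hi2 : lam i * (SignType.sign (lam i) : ℝ) = |lam i| := self_mul_sign _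
      simp only [hy]
      split_ifs with h1 h2
      · have := hall i (Finset.mem_filter.1 (hZ1 h1)).2
        rw [hi2]; linarith
      · have := hall i (Finset.mem_filter.1 h2).2
        rw [mul_neg, hi2]; linarith
      · rw [mul_zero]
    have hsumy : ∑ i, lam i * y i = 0 := by
      rw [Finset.sum_congr rfl (fun i _ => hly i)]
      have h1 : ∀ i, (if i ∈ Z1 then (∑ j, |lam j|) / 4 else
          if i ∈ Z then -((∑ j, |lam j|) / 4) else 0) =
          2 * (if i ∈ Z1 then (∑ j, |lam j|) / 4 else 0) -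
            (if i ∈ Z then (∑ j, |lam j|) / 4 else 0) := by
        intro i
        by_cases h2 : i ∈ Z1
        · rw [if_pos h2, if_pos h2, if_pos (hZ1 h2)]; ring
        · rw [if_neg h2, if_neg h2]
          split_ifs <;> ring
      rw [Finset.sum_congr rfl (fun i _ => h1 i), Finset.sum_sub_distrib, ← Finset.mul_sum,
        Finset.sum_ite_mem, Finset.sum_ite_mem, Finset.univ_inter, Finset.univ_inter,
        Finset.sum_const, Finset.sum_const, hZ1c, hZc]
      simp only [nsmul_eq_mul]
      push_cast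
      ring
    have hyabs : ∀ i, |y i| = if i ∈ Z then 1 else 0 := by
      intro i
      have h3 : ∀ i ∈ Z, |((SignType.sign (lam i) : SignType) : ℝ)| = 1 := by
        intro i hi
        have h4 := (Finset.mem_filter.1 hi).2
        rcases lt_or_gt_of_ne h4 with h | h
        · rw [sign_neg h]; simp
        · rw [sign_pos h]; simp
      simp only [hy]
      by_cases h1 : i ∈ Z1
      · rw [if_pos h1, if_pos (hZ1 h1), h3 i (hZ1 h1)]
      · rw [if_neg h1]
        by_cases h2 : i ∈ Z
        · rw [if_pos h2, if_pos h2, abs_neg, h3 i h2]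
        · rw [if_neg h2, if_neg h2, abs_zero]
    obtain ⟨x, hx⟩ := hpoint y hsumy
    obtain ⟨u, hu⟩ := hpoint (Pi.single i0 1) (by
      rw [Finset.sum_eq_single i0 (fun j _ hj => by rw [Pi.single_eq_of_ne hj, mul_zero])
        (fun h => absurd (Finset.mem_univ _) h), hlam00, zero_mul])
    have hxi : ∀ i, ⟪a i, x⟫ = y (e.symm i) := by
      intro i
      have := hx (e.symm i)
      rwa [Equiv.apply_symm_apply] at this
    have hui : ∀ i, ⟪a i, u⟫ = (Pi.single i0 1 : Fin (d + 1) → ℝ) (e.symm i) := by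
      intro i
      have := hu (e.symm i)
      rwa [Equiv.apply_symm_apply] at this
    have hxP : x ∈ Pol a := by
      intro i
      rw [hxi, hyabs]
      split_ifs <;> norm_num
    have hdep : ¬ LinearIndependent ℝ (fun i : {i : α // |⟪a i, x⟫| = 1} => a i.1) := by
      intro hli
      rw [Pool.Agent.KST.n1_li] at hli
      obtain ⟨i1, hi1⟩ := hlam0
      have h1 := hli (fun i => lam (e.symm i)) (by
        intro i hi
        by_contra hne
        apply hi
        have hmem : e.symm i ∈ Z := Finset.mem_filter.2 ⟨Finset.mem_univ _, hne⟩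
        rw [hxi, hyabs, if_pos hmem]) (by
        rw [← inner_self_eq_zero (𝕜 := ℝ)]
        nth_rewrite 1 [sum_inner]
        have h2 := hrel (∑ i, lam (e.symm i) • a i)
        rw [← h2]
        rw [← Equiv.sum_comp e (fun i => inner ℝ (lam (e.symm i) • a i)
          (∑ i, lam (e.symm i) • a i))]
        apply Finset.sum_congr rfl
        intro i _
        rw [Equiv.symm_apply_apply, real_inner_smul_left]) (e i1)
      rw [Equiv.symm_apply_apply] at h1
      exact hi1 h1
    have hext := hns x hxP hdep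
    have hu0 := nb_ext a hext u (fun i hi => by
      rw [hui]
      have hne : e.symm i ≠ i0 := by
        intro h
        rw [hxi, h, hyabs, if_neg hi0] at hi
        norm_num at hi
      rw [Pi.single_eq_of_ne hne])
    have h9 := hu i0
    rw [hu0, inner_zero_right, Pi.single_eq_same] at h9
    norm_num at h9

end

end WLP
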