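import Pool.Agent.WLP.Min2

/-!
WLP, module BASE: all derivatives in the same column (`Am_base`).
-/

set_option maxHeartbeats 4000000

namespace WLP

section
variable {k R : Type*} [CommRing k] [CommRing R] [Algebra k R]

/-- the composite kills a subring on which one of the derivations vanishes -/
theorem comp_kill {ι : Type*} (d : ι → Derivation k R R) (S : Subring R)
    (hS : ∀ y ∈ S, ∀ s, d s y ∈ S) (r : ι) (hr : ∀ y ∈ S, d r y = 0) (l : List ι)
    (y : R) (hy : y ∈ S) :
    ((l.map (fun s => (d s : R →ₗ[k] R))).prod y ∈ S) ∧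
      (r ∈ l → (l.map (fun s => (d s : R →ₗ[k] R))).prod y = 0) := by
  induction l with
  | nil => simpa using hy
  | cons s l ih =>
    obtain ⟨ih1, ih2⟩ := ih
    simp only [List.map_cons, List.prod_cons, Module.End.mul_apply, Derivation.coeFn_coe]
    refine ⟨hS _ ih1 s, fun h => ?_⟩
    rcases List.mem_cons.1 h with h | h
    · subst h; exact hr _ ih1
    · rw [ih2 h, map_zero]

theorem comp_one {ι : Type*} [DecidableEq ι] (d : ι → Derivation k R R) (x : ι → R)
    (hx : ∀ r s, d r (x s) = if r = s then 1 else 0) (l : List ι) (hl : l.Nodup) (c : R)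
    (hc : ∀ s ∈ l, d s c = 0) :
    (l.map (fun s => (d s : R →ₗ[k] R))).prod (c * (l.map x).prod) = c := by
  induction l generalizing c with
  | nil => simp
  | cons s l ih =>
    simp only [List.map_cons, List.prod_cons, Module.End.mul_apply, Derivation.coeFn_coe]
    have hs : s ∉ l := (List.nodup_cons.1 hl).1
    rw [← mul_assoc, ih (List.nodup_cons.1 hl).2 (c * x s)]
    · rw [Derivation.leibniz, hx, hc s (by simp)]; simp
    · intro t ht
      rw [Derivation.leibniz, hx, hc t (by simp [ht])]
      have : t ≠ s := by rintro rfl; exact hs ht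
      simp [this]

end

section
variable {k R : Type*} [CommRing k] [CommRing R] [Algebra k R] {D : ℕ} {T : Type*} [Fintype T]
  [DecidableEq T]

theorem prod_update_one {D : ℕ} (f : Fin D → R) (s : Fin D) :
    f s * ∏ r ∈ Finset.univ.erase s, f r = ∏ r, f r :=
  Finset.mul_prod_erase _ _ (Finset.mem_univ s)

omit [Fintype T] in
/-- derivation of a monomial without repeated columns -/
theorem d_mono (a : Fin D → T → R)
    (d : Fin D → T → Derivation k R R)
    (hd : ∀ r j r' j', d r j (a r' j') = if r = r' ∧ j = j' then 1 else 0)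
    (s : Fin D) (p : T) (A : Finset (Fin D)) (τ : Fin D → T) :
    d s p (∏ r ∈ A, a r (τ r)) =
      if s ∈ A ∧ τ s = p then ∏ r ∈ A.erase s, a r (τ r) else 0 := by
  classical
  induction A using Finset.induction_on with
  | empty => simp
  | insert r A hr ih =>
    rw [Finset.prod_insert hr, Derivation.leibniz, ih, hd]
    by_cases hsr : s = r
    · subst hsr
      simp only [hr, false_and, if_false, smul_zero, zero_add, true_and, Finset.mem_insert,
        true_or, Finset.erase_insert hr]
      by_cases h : τ s = p
      · simp [h]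
      · simp [h, Ne.symm h]
    · by_cases h : s ∈ A ∧ τ s = p
      · rw [if_pos h, if_neg (by tauto), if_pos ⟨Finset.mem_insert_of_mem h.1, h.2⟩,
          Finset.erase_insert_of_ne (Ne.symm hsr), Finset.prod_insert]
        · simp
        · simp [hr]
      · rw [if_neg h, if_neg (by tauto), if_neg]
        · simp
        · simp only [Finset.mem_insert]; tauto

theorem inj_of_image (hT : Fintype.card T = D + 1) (j : T) (τ : Fin D → T)
    (h : Finset.univ.image τ = Finset.univ.erase j) : Function.Injective τ := by
  have h1 : (Finset.univ.image τ).card = (Finset.univ : Finset (Fin D)).card := by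
    rw [h, Finset.card_erase_of_mem (Finset.mem_univ j), Finset.card_univ, hT]
    simp
  have h2 := Finset.card_image_iff.1 h1
  intro x y hxy
  exact h2 (Finset.mem_coe.2 (Finset.mem_univ x)) (Finset.mem_coe.2 (Finset.mem_univ y)) hxy

theorem Am_lin (hT : Fintype.card T = D + 1) (a : Fin D → T → R)
    (d : Fin D → T → Derivation k R R)
    (hd : ∀ r j r' j', d r j (a r' j') = if r = r' ∧ j = j' then 1 else 0)
    (p j : T) (hj : j ≠ p) : Am a j = ∑ r, a r p * d r p (Am a j) := by
  unfold Am
  simp_rw [map_sum, Finset.mul_sum]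
  rw [Finset.sum_comm]
  refine Finset.sum_congr rfl fun τ hτ => ?_
  have hτ' := (Finset.mem_filter.1 hτ).2
  have hinj := inj_of_image hT j τ hτ'
  have hp : p ∈ Finset.univ.image τ := by rw [hτ']; simp [hj.symm]
  obtain ⟨r0, -, hr0⟩ := Finset.mem_image.1 hp
  rw [Finset.sum_eq_single r0]
  · rw [d_mono a d hd, if_pos ⟨Finset.mem_univ _, hr0⟩]
    rw [← hr0]
    exact (prod_update_one (fun r => a r (τ r)) r0).symm
  · intro r _ hr
    rw [d_mono a d hd, if_neg, mul_zero]
    rintro ⟨-, h⟩
    exact hr (hinj (h.trans hr0.symm))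
  · intro h; exact absurd (Finset.mem_univ _) h

theorem Am_const (hT : Fintype.card T = D + 1) (a : Fin D → T → R)
    (d : Fin D → T → Derivation k R R)
    (hd : ∀ r j r' j', d r j (a r' j') = if r = r' ∧ j = j' then 1 else 0)
    (p j : T) (r s : Fin D) : d s p (d r p (Am a j)) = 0 := by
  unfold Am
  simp_rw [map_sum]
  refine Finset.sum_eq_zero fun τ hτ => ?_
  have hτ' := (Finset.mem_filter.1 hτ).2
  have hinj := inj_of_image hT j τ hτ'
  rw [d_mono a d hd]
  split_ifs with h
  · rw [d_mono a d hd, if_neg]
    rintro ⟨h1, h2⟩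
    have h3 := (Finset.mem_erase.1 h1).1
    exact h3 (hinj (h2.trans h.2.symm))
  · simp



omit [Fintype T] [DecidableEq T] in
theorem d_prod_zero {ι : Type*} (d : Derivation k R R) (A : Finset ι) (f : ι → R)
    (hf : ∀ j ∈ A, d (f j) = 0) : d (∏ j ∈ A, f j) = 0 := by
  classical
  induction A using Finset.induction_on with
  | empty => simp
  | insert r A hr ih =>
    rw [Finset.prod_insert hr, Derivation.leibniz, ih (fun j hj => hf j (by simp [hj])),
      hf r (by simp)]
    simp

omit [Fintype T] [DecidableEq T] in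
/-- a monomial in which the variable `x r` does not occur is killed by the composite -/
theorem comp_zero (d : Fin D → Derivation k R R) (x : Fin D → R)
    (hx : ∀ r s, d r (x s) = if r = s then 1 else 0) {U : Type*} [Fintype U]
    (c : U → R) (hc : ∀ j s, d s (c j) = 0) (g : U → Fin D) (r : Fin D)
    (hr : ∀ j, g j ≠ r) :
    ((List.finRange D).map (fun r => (d r : R →ₗ[k] R))).prod
        (∏ j : U, (x (g j) * c j)) = 0 := by
  classical
  set S : Subring R := Subring.closure ({y | ∀ s, d s y = 0} ∪ {y | ∃ s, s ≠ r ∧ y = x s})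
    with hSdef
  have key : ∀ y ∈ S, (∀ s, d s y ∈ S) ∧ d r y = 0 := by
    intro y hy
    induction hy using Subring.closure_induction with
    | mem y hy =>
      rcases hy with hy | ⟨s, hs, rfl⟩
      · exact ⟨fun s => by rw [hy s]; exact S.zero_mem, hy r⟩
      · refine ⟨fun t => ?_, by rw [hx, if_neg (Ne.symm hs)]⟩
        rw [hx]; split_ifs
        · exact S.one_mem
        · exact S.zero_mem
    | zero => exact ⟨fun s => by rw [map_zero]; exact S.zero_mem, map_zero _⟩
    | one => exact ⟨fun s => by rw [Derivation.map_one_eq_zero]; exact S.zero_mem, by simp⟩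
    | add y z _ _ h1 h2 =>
      exact ⟨fun s => by rw [map_add]; exact S.add_mem (h1.1 s) (h2.1 s),
        by rw [map_add, h1.2, h2.2, add_zero]⟩
    | neg y _ h1 =>
      exact ⟨fun s => by rw [map_neg]; exact S.neg_mem (h1.1 s), by rw [map_neg, h1.2, neg_zero]⟩
    | mul y z hy hz h1 h2 =>
      refine ⟨fun s => ?_, ?_⟩
      · rw [Derivation.leibniz, smul_eq_mul, smul_eq_mul]
        exact S.add_mem (S.mul_mem hy (h2.1 s)) (S.mul_mem hz (h1.1 s))
      · rw [Derivation.leibniz, h1.2, h2.2]; simp
  refine (comp_kill d S (fun y hy => (key y hy).1) r (fun y hy => (key y hy).2)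
    (List.finRange D) _ ?_).2 (List.mem_finRange r)
  refine Subring.prod_mem _ fun j _ => S.mul_mem ?_ ?_
  · exact Subring.subset_closure (Or.inr ⟨g j, hr j, rfl⟩)
  · exact Subring.subset_closure (Or.inl (hc j))

omit [Fintype T] [DecidableEq T] in
/-- composite of all `d r p` on a product of linear forms: the permanent -/
theorem comp_prod (d : Fin D → Derivation k R R) (x : Fin D → R)
    (hx : ∀ r s, d r (x s) = if r = s then 1 else 0) {U : Type*} [Fintype U] [DecidableEq U]
    (hU : Fintype.card U = D) (C : Fin D → U → R) (hC : ∀ r j s, d s (C r j) = 0) :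
    ((List.finRange D).map (fun r => (d r : R →ₗ[k] R))).prod
        (∏ j : U, ∑ r, x r * C r j) =
      ∑ g : U → Fin D, if Function.Bijective g then ∏ j, C (g j) j else 0 := by
  classical
  rw [Finset.prod_univ_sum, map_sum]
  simp only [Fintype.piFinset_univ]
  refine Finset.sum_congr rfl fun g _ => ?_
  split_ifs with hg
  · rw [Finset.prod_mul_distrib, mul_comm]
    have h1 : ∏ j, x (g j) = ((List.finRange D).map x).prod := by
      rw [← List.ofFn_eq_map, List.prod_ofFn]
      exact Fintype.prod_bijective g hg _ _ (fun _ => rfl)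
    rw [h1, comp_one d x hx _ (List.nodup_finRange D)]
    intro s _
    exact d_prod_zero (d s) Finset.univ _ (fun j _ => hC _ _ _)
  · have h2 : ¬ Function.Surjective g := by
      intro h
      exact hg ((Fintype.bijective_iff_surjective_and_card g).2 ⟨h, by simp [hU]⟩)
    rw [Function.Surjective] at h2
    push Not at h2
    obtain ⟨r, hr⟩ := h2
    exact comp_zero d x hx _ (fun j s => hC _ _ _) g r hr

omit [Fintype T] [DecidableEq T] in
/-- the permanent is the determinant in characteristic 2 -/
theorem perm_eq_det [CharP R 2] {U : Type*} [Fintype U] [DecidableEq U] (e : U ≃ Fin D)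
    (C : Fin D → U → R) :
    (∑ g : U → Fin D, if Function.Bijective g then ∏ j, C (g j) j else 0) =
      (Matrix.of (fun r s : Fin D => C r (e.symm s))).det := by
  classical
  have hsgn : ∀ (σ : Equiv.Perm (Fin D)) (y : R), (Equiv.Perm.sign σ : ℤˣ) • y = y := by
    intro σ y
    rcases Int.units_eq_one_or (Equiv.Perm.sign σ) with h | h <;> rw [h]
    · simp
    · rw [Units.neg_smul, one_smul, CharTwo.neg_eq]
  rw [Matrix.det_apply]
  simp only [hsgn, Matrix.of_apply]
  rw [← Finset.sum_filter]
  symm
  refine Finset.sum_bij' (fun σ _ => fun j => σ (e j))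
    (fun g hg => Equiv.ofBijective (fun r => g (e.symm r))
      ((Finset.mem_filter.1 hg).2.comp e.symm.bijective)) ?_ ?_ ?_ ?_ ?_
  · intro σ _
    simp only [Finset.mem_filter, Finset.mem_univ, true_and]
    exact σ.bijective.comp e.bijective
  · intro g _; exact Finset.mem_univ _
  · intro σ _; ext r; simp
  · intro g _; ext j; simp
  · intro σ _
    exact Fintype.prod_equiv e.symm _ _ (fun r => by simp)

end

/-- the abstract minor is a determinant in characteristic 2 -/
theorem det_eq_Am {R : Type*} [CommRing R] [CharP R 2] {D : ℕ} {T : Type*} [Fintype T]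
    [DecidableEq T] (hT : Fintype.card T = D + 1) (a : Fin D → T → R) (p : T)
    (e : {j : T // j ≠ p} ≃ Fin D) :
    (Matrix.of (fun r s : Fin D => a r (e.symm s).1)).det = Am a p := by
  classical
  have hsgn : ∀ (σ : Equiv.Perm (Fin D)) (y : R), (Equiv.Perm.sign σ : ℤˣ) • y = y := by
    intro σ y
    rcases Int.units_eq_one_or (Equiv.Perm.sign σ) with h | h <;> rw [h]
    · simp
    · rw [Units.neg_smul, one_smul, CharTwo.neg_eq]
  rw [Matrix.det_apply]
  simp only [hsgn, Matrix.of_apply]
  unfold Am
  refine Finset.sum_bij (fun σ _ => fun r => (e.symm (σ.symm r)).1) ?_ ?_ ?_ ?_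
  · intro σ _
    simp only [Finset.mem_filter, Finset.mem_univ, true_and]
    ext j
    simp only [Finset.mem_image, Finset.mem_univ, true_and, Finset.mem_erase, and_true]
    constructor
    · rintro ⟨r, rfl⟩; exact (e.symm (σ.symm r)).2
    · intro hj
      exact ⟨σ (e ⟨j, hj⟩), by simp⟩
  · intro σ _ σ' _ h
    have h1 : σ.symm = σ'.symm := by
      ext r
      have := congrFun h r
      have := e.symm.injective (Subtype.ext this)
      rw [this]
    have h2 := congrArg Equiv.symm h1
    simpa using h2
  · intro τ hτ
    have hτ' := (Finset.mem_filter.1 hτ).2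
    have hinj := inj_of_image hT p τ hτ'
    have hne : ∀ r, τ r ≠ p := by
      intro r
      have : τ r ∈ Finset.univ.image τ := Finset.mem_image_of_mem _ (Finset.mem_univ r)
      rw [hτ'] at this
      exact (Finset.mem_erase.1 this).1
    have hb : Function.Bijective (fun r => e ⟨τ r, hne r⟩) := by
      rw [← Finite.injective_iff_bijective]
      intro r s hrs
      exact hinj (congrArg Subtype.val (e.injective hrs))
    refine ⟨(Equiv.ofBijective _ hb).symm, Finset.mem_univ _, ?_⟩
    ext r
    simp
  · intro σ _
    exact Fintype.prod_equiv σ _ _ (fun r => by simp)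

/-- base case: all derivatives in the same column -/
theorem Am_base_of {k R : Type*} [CommRing k] [CommRing R] [IsDomain R] [Algebra k R] [CharP R 2]
    {D : ℕ} {T : Type*} [Fintype T] [DecidableEq T] (hT : Fintype.card T = D + 1)
    (a : Fin D → T → R) (d : Fin D → T → Derivation k R R)
    (hd : ∀ r j r' j', d r j (a r' j') = if r = r' ∧ j = j' then 1 else 0)
    (hne : ∀ j, Am a j ≠ 0) (p : T)
    (hcr : ∀ r, ∑ j, a r j * Am a j = 0)
    (hself : ∀ s j, d s j (Am a j) = 0) :
    dIa d (fun _ => p) (∏ j ∈ Finset.univ.erase p, Am a j) = Am a p ^ (D - 1) := by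
  classical
  let U := {j : T // j ≠ p}
  have hU : Fintype.card U = D := by
    rw [Fintype.card_subtype_compl, hT]; simp
  let e : U ≃ Fin D := Fintype.equivFinOfCardEq hU
  let C : Fin D → U → R := fun r j => d r p (Am a j.1)
  have h1 : ∏ j ∈ Finset.univ.erase p, Am a j = ∏ j : U, ∑ r, a r p * C r j := by
    rw [Finset.prod_subtype (Finset.univ.erase p) (p := fun j => j ≠ p) (by simp)
      (fun j => Am a j)]
    refine Finset.prod_congr rfl fun j _ => ?_
    exact Am_lin hT a d hd p j.1 j.2
  have h2 := comp_prod (fun r => d r p) (fun r => a r p)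
    (fun r s => by rw [hd]; simp) hU C (fun r j s => Am_const hT a d hd p j.1 r s)
  unfold dIa
  rw [h1, h2, perm_eq_det e C]
  -- the matrix of the `a r j`
  set B : Matrix (Fin D) (Fin D) R := Matrix.of (fun r s => C r (e.symm s)) with hB
  set A : Matrix (Fin D) (Fin D) R := Matrix.of (fun r s => a r (e.symm s).1) with hA
  have hdetA : A.det = Am a p := by
    rw [hA]; exact det_eq_Am hT a p e
  have hAB : A * B.transpose = Am a p • (1 : Matrix (Fin D) (Fin D) R) := by
    ext r s
    rw [Matrix.mul_apply]
    simp only [Matrix.transpose_apply, hA, hB, Matrix.of_apply, Matrix.smul_apply,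
      Matrix.one_apply, smul_eq_mul]
    rw [Equiv.sum_comp e.symm (fun j : U => a r j.1 * C s j)]
    have h5 : d s p (∑ j, a r j * Am a j) = 0 := by rw [hcr r, map_zero]
    rw [map_sum] at h5
    simp only [Derivation.leibniz, smul_eq_mul, hd] at h5
    rw [Finset.sum_add_distrib] at h5
    rw [← Finset.add_sum_erase Finset.univ (fun j => a r j * d s p (Am a j))
      (Finset.mem_univ p)] at h5
    rw [hself s p, mul_zero, zero_add,
      Finset.sum_subtype (Finset.univ.erase p) (p := fun j => j ≠ p) (by simp)
        (fun j => a r j * d s p (Am a j))] at h5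
    have h6 : ∑ j, Am a j * (if s = r ∧ p = j then (1 : R) else 0) =
        if r = s then Am a p else 0 := by
      rw [Finset.sum_eq_single p]
      · by_cases h : r = s
        · simp [h]
        · simp [h, Ne.symm h]
      · intro j _ hj; rw [if_neg (fun h => hj h.2.symm), mul_zero]
      · intro h; exact absurd (Finset.mem_univ _) h
    rw [h6] at h5
    have h7 := CharTwo.add_eq_zero.1 h5
    rw [h7]
    split_ifs <;> simp
  have h3 : A.det * B.det = Am a p ^ D := by
    rw [← Matrix.det_transpose B, ← Matrix.det_mul, hAB, Matrix.det_smul]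
    simp
  rcases Nat.eq_zero_or_pos D with hD | hD
  · subst hD
    simp
  · rw [hdetA] at h3
    have h4 : Am a p * B.det = Am a p * Am a p ^ (D - 1) := by
      rw [h3, ← pow_succ', Nat.sub_add_cancel hD]
    exact mul_left_cancel₀ (hne p) h4

/-- base case: all derivatives in the same column -/
theorem Am_base {k R : Type*} [CommRing k] [CommRing R] [IsDomain R] [Algebra k R] [CharP R 2]
    {D : ℕ} {T : Type*} [Fintype T] [DecidableEq T] (hT : Fintype.card T = D + 1)
    (a : Fin D → T → R) (d : Fin D → T → Derivation k R R)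
    (hd : ∀ r j r' j', d r j (a r' j') = if r = r' ∧ j = j' then 1 else 0)
    (hne : ∀ j, Am a j ≠ 0) (p : T) :
    dIa d (fun _ => p) (∏ j ∈ Finset.univ.erase p, Am a j) = Am a p ^ (D - 1) :=
  Am_base_of hT a d hd hne p (fun r => Am_cramer hT a r) (fun s j => Am_self a d hd s j)

end WLP
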