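import Pool.Agent.WLP.Min1

set_option maxHeartbeats 4000000

namespace WLP

open MvPolynomial

theorem deriv_prod_row {k R : Type*} [CommRing k] [CommRing R] [Algebra k R] {D : ℕ}
    {T : Type*} [DecidableEq T] (a : Fin D → T → R)
    (d : Fin D → T → Derivation k R R)
    (hd : ∀ r j r' j', d r j (a r' j') = if r = r' ∧ j = j' then 1 else 0)
    (s : Fin D) (j : T) (τ : Fin D → T) :
    d s j (∏ r : Fin D, a r (τ r)) =
      if τ s = j then ∏ r ∈ Finset.univ.erase s, a r (τ r) else 0 := by
  classical
  have hz : ∀ t : Finset (Fin D), s ∉ t → d s j (∏ r ∈ t, a r (τ r)) = 0 := by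
    intro t
    induction t using Finset.induction_on with
    | empty => intro _; simp
    | insert x t hx ih =>
      intro hs
      rw [Finset.prod_insert hx, Derivation.leibniz, ih (fun h => hs (Finset.mem_insert_of_mem h)),
        hd]
      have hsx : s ≠ x := fun h => hs (h ▸ Finset.mem_insert_self _ _)
      simp [hsx]
  rw [← Finset.mul_prod_erase Finset.univ (fun r => a r (τ r)) (Finset.mem_univ s),
    Derivation.leibniz, hz _ (Finset.notMem_erase s _), hd]
  by_cases h : τ s = j
  · simp [h]
  · have h' : ¬ j = τ s := fun e => h e.symm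
    simp [h, h']

theorem Am_deriv {k R : Type*} [CommRing k] [CommRing R] [Algebra k R] {D : ℕ}
    {T : Type*} [Fintype T] [DecidableEq T] (a : Fin D → T → R)
    (d : Fin D → T → Derivation k R R)
    (hd : ∀ r j r' j', d r j (a r' j') = if r = r' ∧ j = j' then 1 else 0)
    (s : Fin D) (i j : T) : d s j (Am a i) =
      ∑ τ ∈ Finset.univ.filter (fun τ : Fin D → T =>
        Finset.univ.image τ = Finset.univ.erase i ∧ τ s = j),
        ∏ r ∈ Finset.univ.erase s, a r (τ r) := by
  classical
  unfold Am
  rw [map_sum]
  rw [Finset.sum_congr rfl (fun τ _ => deriv_prod_row a d hd s j τ)]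
  rw [← Finset.sum_filter, Finset.filter_filter]

/-- symmetry of the derivatives of the minors -/
theorem Am_symm {k R : Type*} [CommRing k] [CommRing R] [Algebra k R] [CharP R 2] {D : ℕ}
    {T : Type*} [Fintype T] [DecidableEq T] (hT : Fintype.card T = D + 1) (a : Fin D → T → R)
    (d : Fin D → T → Derivation k R R)
    (hd : ∀ r j r' j', d r j (a r' j') = if r = r' ∧ j = j' then 1 else 0)
    (s : Fin D) (i j : T) : d s j (Am a i) = d s i (Am a j) := by
  classical
  by_cases hij : i = j
  · subst hij; rfl
  rw [Am_deriv a d hd, Am_deriv a d hd]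
  -- the swap maps the index sets to one another
  have key : ∀ (i j : T), i ≠ j → ∀ τ : Fin D → T,
      Finset.univ.image τ = Finset.univ.erase i → τ s = j →
      Finset.univ.image (Function.update τ s i) = Finset.univ.erase j := by
    intro i j hij τ him hs
    have hinj : Function.Injective τ := by
      have hc : (Finset.univ.image τ).card = (Finset.univ : Finset (Fin D)).card := by
        rw [him, Finset.card_erase_of_mem (Finset.mem_univ _), Finset.card_univ, hT,
          Finset.card_univ, Fintype.card_fin]; rfl
      have := Finset.card_image_iff.mp hc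
      intro x y hxy
      exact this (by simp) (by simp) hxy
    ext x
    simp only [Finset.mem_image, Finset.mem_univ, true_and, Finset.mem_erase, and_true]
    constructor
    · rintro ⟨r, rfl⟩
      by_cases hr : r = s
      · subst hr; simpa using hij
      · rw [Function.update_of_ne hr]
        intro h
        exact hr (hinj (h.trans hs.symm))
    · intro hx
      by_cases hxi : x = i
      · exact ⟨s, by simp [hxi]⟩
      · have : x ∈ Finset.univ.image τ := by rw [him]; simp [hxi]
        obtain ⟨r, -, hr⟩ := Finset.mem_image.mp this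
        refine ⟨r, ?_⟩
        have hrs : r ≠ s := by
          rintro rfl
          exact hx (hr.symm.trans hs)
        rw [Function.update_of_ne hrs, hr]
  refine Finset.sum_bij' (fun τ _ => Function.update τ s i) (fun τ _ => Function.update τ s j)
    ?_ ?_ ?_ ?_ ?_
  · intro τ hτ
    simp only [Finset.mem_filter, Finset.mem_univ, true_and] at hτ ⊢
    exact ⟨key i j hij τ hτ.1 hτ.2, by simp⟩
  · intro τ hτ
    simp only [Finset.mem_filter, Finset.mem_univ, true_and] at hτ ⊢
    exact ⟨key j i (Ne.symm hij) τ hτ.1 hτ.2, by simp⟩
  · intro τ hτ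
    simp only [Finset.mem_filter, Finset.mem_univ, true_and] at hτ
    simp [← hτ.2]
  · intro τ hτ
    simp only [Finset.mem_filter, Finset.mem_univ, true_and] at hτ
    simp [← hτ.2]
  · intro τ _
    refine Finset.prod_congr rfl (fun r hr => ?_)
    rw [Function.update_of_ne (Finset.ne_of_mem_erase hr)]

theorem Am_self {k R : Type*} [CommRing k] [CommRing R] [Algebra k R] {D : ℕ}
    {T : Type*} [Fintype T] [DecidableEq T] (a : Fin D → T → R)
    (d : Fin D → T → Derivation k R R)
    (hd : ∀ r j r' j', d r j (a r' j') = if r = r' ∧ j = j' then 1 else 0)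
    (s : Fin D) (j : T) : d s j (Am a j) = 0 := by
  classical
  rw [Am_deriv a d hd]
  apply Finset.sum_eq_zero
  intro τ hτ
  simp only [Finset.mem_filter, Finset.mem_univ, true_and] at hτ
  exfalso
  have : j ∈ Finset.univ.image τ := Finset.mem_image.mpr ⟨s, Finset.mem_univ _, hτ.2⟩
  rw [hτ.1] at this
  simp at this

/-- three-term relation -/
theorem Am_three {k R : Type*} [CommRing k] [CommRing R] [IsDomain R] [Algebra k R] [CharP R 2]
    {D : ℕ} {T : Type*} [Fintype T] [DecidableEq T] (hT : Fintype.card T = D + 1)
    (a : Fin D → T → R) (d : Fin D → T → Derivation k R R)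
    (hd : ∀ r j r' j', d r j (a r' j') = if r = r' ∧ j = j' then 1 else 0)
    (hne : ∀ j, Am a j ≠ 0) (s : Fin D) (i j l : T) :
    Am a i * d s j (Am a l) + Am a j * d s i (Am a l) = Am a l * d s i (Am a j) := by
  classical
  have h2 : ∀ x : R, x + x = 0 := fun x => CharTwo.add_self_eq_zero x
  have hM : ∀ (r : Fin D) (l : T), ∑ i, a r i * d s i (Am a l) =
      if s = r then Am a l else 0 := by
    intro r l
    have h0 : d s l (∑ i, a r i * Am a i) = 0 := by
      rw [Am_cramer hT a r]; simp
    rw [map_sum] at h0
    have h1 : ∀ i, d s l (a r i * Am a i) =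
        a r i * d s i (Am a l) + (if s = r ∧ l = i then Am a i else 0) := by
      intro i
      rw [Derivation.leibniz, hd, Am_symm hT a d hd s i l]
      simp only [smul_eq_mul, mul_ite, mul_one, mul_zero]
    rw [Finset.sum_congr rfl (fun i _ => h1 i), Finset.sum_add_distrib] at h0
    have h3 : ∑ i, (if s = r ∧ l = i then Am a i else 0) = if s = r then Am a l else 0 := by
      by_cases hs : s = r
      · simp [hs]
      · simp [hs]
    rw [h3] at h0
    have h4 := h2 (if s = r then Am a l else 0)
    linear_combination h0 - h4
  have hz := Am_kernel hT a j (hne j)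
    (fun i => Am a i * d s j (Am a l) + Am a j * d s i (Am a l) + Am a l * d s i (Am a j))
    (by
      intro r
      have e : ∀ i, a r i * (Am a i * d s j (Am a l) + Am a j * d s i (Am a l) +
          Am a l * d s i (Am a j)) =
          d s j (Am a l) * (a r i * Am a i) + Am a j * (a r i * d s i (Am a l)) +
          Am a l * (a r i * d s i (Am a j)) := by
        intro i; ring
      rw [Finset.sum_congr rfl (fun i _ => e i), Finset.sum_add_distrib, Finset.sum_add_distrib,
        ← Finset.mul_sum, ← Finset.mul_sum, ← Finset.mul_sum, hM, hM, Am_cramer hT a r]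
      split_ifs
      · have := h2 (Am a j * Am a l)
        linear_combination this
      · ring)
    (by
      have := h2 (Am a j * d s j (Am a l))
      simp only [Am_self a d hd s j, mul_zero, add_zero]
      exact this)
  have h5 := congrFun hz i
  simp only [Pi.zero_apply] at h5
  have h6 := h2 (Am a l * d s i (Am a j))
  linear_combination h5 - h6

end WLP
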