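import Pool.Agent.WLP.SIaux
import Pool.Agent.WLP.Min2
import Pool.Agent.WLP.Base

set_option maxHeartbeats 4000000

namespace WLP

/-- SI -/
theorem SI {k R : Type*} [CommRing k] [CommRing R] [IsDomain R] [Algebra k R] [CharP R 2]
    {D : ℕ} {T : Type*} [Fintype T] [DecidableEq T] (hT : Fintype.card T = D + 1)
    (a : Fin D → T → R) (d : Fin D → T → Derivation k R R)
    (hd : ∀ r j r' j', d r j (a r' j') = if r = r' ∧ j = j' then 1 else 0)
    (hcomm : ∀ r j r' j' x, d r j (d r' j' x) = d r' j' (d r j x))
    (hne : ∀ j, Am a j ≠ 0) (I : Fin D → T) (m : T → ℕ)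
    (hodd : ∀ j, Odd (m j + (Finset.univ.filter (fun r => I r = j)).card)) :
    dIa d I (∏ j, Am a j ^ m j) =
      ∏ j, Am a j ^ (m j + (Finset.univ.filter (fun r => I r = j)).card - 1) := by
  rcases Nat.eq_zero_or_pos D with h0 | h0
  · subst h0
    have hA : ∀ j, Am a j = 1 := by
      intro j
      have hsub : (Finset.univ : Finset T).erase j = ∅ := by
        have : ((Finset.univ : Finset T).erase j).card = 0 := by
          rw [Finset.card_erase_of_mem (Finset.mem_univ j), Finset.card_univ, hT]
        exact Finset.card_eq_zero.mp this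
      unfold Am
      rw [hsub]
      simp
    have hdI : dIa d I = LinearMap.id := by
      simp [dIa, Module.End.one_eq_id]
    rw [hdI]
    simp [hA]
  · obtain ⟨p⟩ : Nonempty T := Fintype.card_pos_iff.mp (by omega)
    exact si_abs (Am a) d hcomm (Am_symm hT a d hd) (Am_self a d hd)
      (Am_three hT a d hd hne) hne p h0 hT (Am_base hT a d hd hne p) I m hodd

end WLP
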