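import Pool.Agent.WLP.Phi
import Pool.Agent.WLP.SI

/-!
WLP, row DI: the differential identity for the degree map.
-/

set_option maxHeartbeats 4000000

namespace WLP

open MvPolynomial

variable {M : Type} [Fintype M] [DecidableEq M] {D : ℕ}

/-- The partial derivatives as a family of derivations. -/
noncomputable def dv (M : Type) (D : ℕ) (r : Fin D) (o : Option M) :
    Derivation (ZMod 2) (R2 M D) (R2 M D) := pderiv (some r, o)

omit [Fintype M] [DecidableEq M] in
theorem dI_eq (I : Fin D → Option M) (x : R2 M D) :
    dI I x = dL (dv M D) I (List.finRange D) x := rfl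

theorem pderiv_comm2 {σ R : Type*} [CommRing R] (i j : σ) (x : MvPolynomial σ R) :
    pderiv i (pderiv j x) = pderiv j (pderiv i x) := by
  classical
  have h : ⁅(pderiv i : Derivation R (MvPolynomial σ R) (MvPolynomial σ R)),
      (pderiv j : Derivation R (MvPolynomial σ R) (MvPolynomial σ R))⁆ = 0 := by
    apply MvPolynomial.derivation_ext
    intro k
    rw [Derivation.commutator_apply, pderiv_X, pderiv_X]
    have h1 : ∀ (a b : σ), (pderiv a : Derivation R (MvPolynomial σ R) (MvPolynomial σ R))
        ((Pi.single b (1 : MvPolynomial σ R) : σ → MvPolynomial σ R) k) = 0 := by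
      intro a b
      by_cases h : k = b
      · subst h
        rw [Pi.single_eq_same]
        exact Derivation.map_one_eq_zero _
      · rw [Pi.single_eq_of_ne h, map_zero]
    rw [h1, h1, sub_zero, Derivation.coe_zero, Pi.zero_apply]
  have h2 := Derivation.congr_fun h x
  rw [Derivation.commutator_apply, Derivation.coe_zero, Pi.zero_apply, sub_eq_zero] at h2
  exact h2

omit [Fintype M] [DecidableEq M] in
theorem dv_comm (r : Fin D) (j : Option M) (r' : Fin D) (j' : Option M) (x : R2 M D) :
    dv M D r j (dv M D r' j' x) = dv M D r' j' (dv M D r j x) := pderiv_comm2 _ _ _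

theorem der_prod_zero {k R ι : Type*} [CommRing k] [CommRing R] [Algebra k R]
    (δ : Derivation k R R) (s : Finset ι) (f : ι → R) (h : ∀ i ∈ s, δ (f i) = 0) :
    δ (∏ i ∈ s, f i) = 0 := by
  refine Finset.prod_induction f (fun x => δ x = 0) ?_ ?_ h
  · intro a b ha hb
    rw [Derivation.leibniz, ha, hb, smul_zero, smul_zero, add_zero]
  · exact Derivation.map_one_eq_zero δ

omit [Fintype M] [DecidableEq M] in
theorem dL_kill (I : Fin D → Option M) (L : List (Fin D)) (r : Fin D) (hr : r ∈ L) (x : R2 M D)
    (hx : dv M D r (I r) x = 0) : dL (dv M D) I L x = 0 := by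
  induction L with
  | nil => exact absurd hr List.not_mem_nil
  | cons s L ih =>
    rw [dL_cons]
    rcases List.mem_cons.1 hr with h | h
    · subst h
      rw [dL_comm (dv M D) dv_comm, hx, map_zero]
    · rw [ih h, map_zero]

theorem minor_free (C : Finset (Option M)) (c : Option M) (hc : c ∉ C) (r : Fin D) :
    dv M D r c (minor D C) = 0 := by
  classical
  rw [minor, map_sum]
  apply Finset.sum_eq_zero
  intro τ hτ
  rw [Finset.mem_filter] at hτ
  apply der_prod_zero
  intro r' _
  have h1 : τ r' ≠ c := by
    rintro rfl
    apply hc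
    rw [← hτ.2]
    exact Finset.mem_image_of_mem _ (Finset.mem_univ _)
  rw [dv, pderiv_X_of_ne]
  intro h
  exact h1 (congrArg Prod.snd h)

theorem Am_minor (C : Finset (Option M)) (j : {x // x ∈ C}) :
    Am (fun (r : Fin D) (x : {x // x ∈ C}) => (X (some r, x.1) : R2 M D)) j =
      minor D (C.erase j.1) := by
  classical
  rw [Am, minor]
  refine Finset.sum_bij (fun τ _ => fun r => (τ r).1) ?_ ?_ ?_ ?_
  · intro τ hτ
    rw [Finset.mem_filter] at hτ ⊢
    refine ⟨Finset.mem_univ _, ?_⟩
    have h1 : Finset.univ.image (fun r => (τ r).1) =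
        (Finset.univ.image τ).image Subtype.val := by
      rw [Finset.image_image]
      rfl
    rw [h1, hτ.2]
    ext o
    simp only [Finset.mem_image, Finset.mem_erase, Finset.mem_univ, and_true]
    constructor
    · rintro ⟨x, hx, rfl⟩
      exact ⟨fun h => hx (Subtype.ext h), x.2⟩
    · rintro ⟨h1, h2⟩
      exact ⟨⟨o, h2⟩, fun h => h1 (congrArg Subtype.val h), rfl⟩
  · intro τ _ τ' _ h
    funext r
    exact Subtype.ext (congrFun h r)
  · intro τ hτ
    rw [Finset.mem_filter] at hτ
    have h1 : ∀ r, τ r ∈ C.erase j.1 := by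
      intro r
      rw [← hτ.2]
      exact Finset.mem_image_of_mem _ (Finset.mem_univ _)
    refine ⟨fun r => ⟨τ r, Finset.mem_of_mem_erase (h1 r)⟩, ?_, rfl⟩
    rw [Finset.mem_filter]
    refine ⟨Finset.mem_univ _, ?_⟩
    ext x
    simp only [Finset.mem_image, Finset.mem_erase, Finset.mem_univ, and_true, true_and]
    constructor
    · rintro ⟨r, rfl⟩ h
      exact (Finset.mem_erase.1 (h1 r)).1 (congrArg Subtype.val h)
    · intro h
      have h2 : x.1 ∈ C.erase j.1 := Finset.mem_erase.2 ⟨fun h' => h (Subtype.ext h'), x.2⟩
      rw [← hτ.2, Finset.mem_image] at h2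
      obtain ⟨r, _, hr⟩ := h2
      exact ⟨r, Subtype.ext hr⟩
  · intro τ _
    rfl

theorem DI (S : Swp M D) (I : Fin D → M) (J : M → ℕ) (ν : M → ℕ)
    (hν : ∀ l, J l + (Finset.univ.filter (fun r => I r = l)).card = 2 * ν l) :
    dI (fun r => some (I r)) (EE S * phi S J) = phi S ν ^ 2 := by
  classical
  have hEE : EE S * phi S J = ∑ F ∈ S.V.filter (fun F => supp (ext J) ⊆ cols F),
      (EF S F * EF S F * ∏ j ∈ cols F, minor D ((cols F).erase j) ^ (ext J j + 1)) := by
    rw [phi, Phi, Finset.mul_sum]
    apply Finset.sum_congr rfl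
    intro F hF
    rw [Finset.mem_filter] at hF
    rw [← EF_mul S hF.1]
    simp only [pow_add, pow_one, Finset.prod_mul_distrib]
    ring
  have hterm : ∀ F, dI (fun r => some (I r))
      (EF S F * EF S F * ∏ j ∈ cols F, minor D ((cols F).erase j) ^ (ext J j + 1)) =
      EF S F * EF S F * dI (fun r => some (I r))
        (∏ j ∈ cols F, minor D ((cols F).erase j) ^ (ext J j + 1)) := by
    intro F
    rw [dI_eq, dI_eq, dL_sq]
  rw [hEE, map_sum, Finset.sum_congr rfl (fun F _ => hterm F), phi, Phi,
    sum_pow_char (R := R2 M D) 2]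
  symm
  refine (Finset.sum_congr rfl ?_).trans (Finset.sum_subset
    (s₂ := S.V.filter (fun F => supp (ext J) ⊆ cols F))
    (f := fun F => EF S F * EF S F * dI (fun r => some (I r))
        (∏ j ∈ cols F, minor D ((cols F).erase j) ^ (ext J j + 1))) ?_ ?_)
  · intro F hF
    rw [Finset.mem_filter, supp_ext, image_sub_cols] at hF
    have hI : ∀ r, some (I r) ∈ cols F := by
      intro r
      have h1 : I r ∈ supp ν := by
        simp only [supp, Finset.mem_filter, Finset.mem_univ, true_and]
        intro h0
        have h2 := hν (I r)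
        have h3 : 0 < (Finset.univ.filter (fun r' => I r' = I r)).card :=
          Finset.card_pos.2 ⟨r, by simp⟩
        omega
      exact image_sub_cols.2 hF.2 (Finset.mem_image_of_mem _ h1)
    have hcard : Fintype.card {x // x ∈ cols F} = D + 1 := by
      rw [Fintype.card_coe, card_cols S hF.1]
    have hcnt : ∀ j : {x // x ∈ cols F},
        (ext J j.1 + 1) + (Finset.univ.filter
          (fun r => (⟨some (I r), hI r⟩ : {x // x ∈ cols F}) = j)).card = 2 * ext ν j.1 + 1 := by
      rintro ⟨o, ho⟩
      cases o with
      | none =>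
        have h1 : (Finset.univ.filter (fun r =>
            (⟨some (I r), hI r⟩ : {x // x ∈ cols F}) = ⟨none, ho⟩)) = ∅ := by
          apply Finset.filter_false_of_mem
          intro r _ h
          exact absurd (congrArg Subtype.val h) (by simp)
        rw [h1]
        simp [ext]
      | some l =>
        have h1 : (Finset.univ.filter (fun r =>
            (⟨some (I r), hI r⟩ : {x // x ∈ cols F}) = ⟨some l, ho⟩)) =
            Finset.univ.filter (fun r => I r = l) := by
          apply Finset.filter_congr
          intro r _
          constructor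
          · intro h
            exact Option.some_injective _ (congrArg Subtype.val h)
          · intro h
            exact Subtype.ext (congrArg some h)
        rw [h1]
        have h2 := hν l
        show J l + 1 + _ = 2 * ν l + 1
        omega
    have h1 := SI (k := ZMod 2) (R := R2 M D) (D := D) hcard
      (fun (r : Fin D) (x : {x // x ∈ cols F}) => (X (some r, x.1) : R2 M D))
      (fun r x => dv M D r x.1)
      (by
        intro r j r' j'
        rw [dv, pderiv_X]
        by_cases h : r = r' ∧ j = j'
        · rw [if_pos h, h.1, h.2, Pi.single_eq_same]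
        · rw [if_neg h, Pi.single_eq_of_ne]
          intro h'
          apply h
          have h2 := congrArg Prod.fst h'
          have h3 := congrArg Prod.snd h'
          exact ⟨(Option.some_injective _ h2).symm, (Subtype.ext h3).symm⟩)
      (fun r j r' j' x => dv_comm r j.1 r' j'.1 x)
      (by
        intro j
        rw [Am_minor]
        apply minor_ne_zero
        rw [Finset.card_erase_of_mem j.2, card_cols S hF.1]
        rfl)
      (fun r => ⟨some (I r), hI r⟩) (fun j => ext J j.1 + 1)
      (by
        intro j
        rw [hcnt j]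
        exact ⟨ext ν j.1, rfl⟩)
    simp only [Am_minor] at h1
    have h2 : ∏ j ∈ cols F, minor D ((cols F).erase j) ^ (ext J j + 1) =
        ∏ j : {x // x ∈ cols F}, minor D ((cols F).erase j.1) ^ (ext J j.1 + 1) :=
      (Finset.prod_coe_sort (cols F) (fun j => minor D ((cols F).erase j) ^ (ext J j + 1))).symm
    have h3 : ∏ j : {x // x ∈ cols F}, minor D ((cols F).erase j.1) ^
        (ext J j.1 + 1 + (Finset.univ.filter
          (fun r => (⟨some (I r), hI r⟩ : {x // x ∈ cols F}) = j)).card - 1) =
        ∏ j ∈ cols F, minor D ((cols F).erase j) ^ (2 * ext ν j) := by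
      rw [← Finset.prod_coe_sort (cols F) (fun j => minor D ((cols F).erase j) ^ (2 * ext ν j))]
      apply Finset.prod_congr rfl
      intro j _
      rw [hcnt j]
      rfl
    rw [h3] at h1
    have h4 : dI (fun r => some (I r))
        (∏ j ∈ cols F, minor D ((cols F).erase j) ^ (ext J j + 1)) =
        ∏ j ∈ cols F, minor D ((cols F).erase j) ^ (2 * ext ν j) := by
      rw [h2]
      exact h1
    rw [h4, mul_pow, ← Finset.prod_pow]
    congr 1
    · ring
    · apply Finset.prod_congr rfl
      intro j _
      rw [← pow_mul, mul_comm]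
  · intro F hF
    rw [Finset.mem_filter, supp_ext, image_sub_cols] at hF ⊢
    refine ⟨hF.1, fun l hl => hF.2 ?_⟩
    simp only [supp, Finset.mem_filter, Finset.mem_univ, true_and] at hl ⊢
    have := hν l
    omega
  · intro F hF hF2
    rw [Finset.mem_filter, supp_ext, image_sub_cols] at hF hF2
    have h1 : ¬ supp ν ⊆ F := fun h => hF2 ⟨hF.1, h⟩
    obtain ⟨l, hl, hlF⟩ := Finset.not_subset.1 h1
    have hJ : J l = 0 := by
      by_contra h
      exact hlF (hF.2 (by simpa [supp] using h))
    have h2 := hν l
    have h3 : ν l ≠ 0 := by simpa [supp] using hl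
    have h4 : 0 < (Finset.univ.filter (fun r => I r = l)).card := by omega
    obtain ⟨r, hr⟩ := Finset.card_pos.1 h4
    have hr2 : I r = l := by simpa using hr
    have h5 : some (I r) ∉ cols F := by
      intro h
      rw [hr2] at h
      apply hlF
      simpa [cols] using h
    have h6 : dI (fun r => some (I r))
        (∏ j ∈ cols F, minor D ((cols F).erase j) ^ (ext J j + 1)) = 0 := by
      rw [dI_eq]
      apply dL_kill _ _ r (List.mem_finRange r)
      apply der_prod_zero
      intro j _
      rw [Derivation.leibniz_pow, minor_free _ _ (fun h => h5 (Finset.mem_of_mem_erase h))]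
      simp
    show EF S F * EF S F * _ = 0
    rw [h6, mul_zero]

end WLP
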