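import Pool.Agent.WLP.DataB
import Pool.Agent.CTC.STP
import Pool.Agent.CTC.INJ

/-!
WLP: the numbers of the proof of theorem B, with the inequality of one cap (theorem C).
-/

set_option autoImplicit false

open scoped BigOperators RealInnerProductSpace

namespace WLP

noncomputable section

open Classical

open Pool.Agent.KST (E IsCell Cells Verts Simple Pol pt PP Gen Star VF Low LowF Inside hh Fn FF Ker
  Par Le sgn)

private theorem db_sq {α : Type*} (J : Finset α) (x y : α → ℤ) (hx : ∀ j ∈ J, 0 ≤ x j)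
    (hy : ∀ j ∈ J, 2 * y j ≤ x j * (x j + 1)) :
    2 * ∑ j ∈ J, y j ≤ (∑ j ∈ J, x j) * (∑ j ∈ J, x j + 1) := by
  induction J using Finset.induction_on with
  | empty => simp
  | insert j J hj ih =>
    rw [Finset.sum_insert hj, Finset.sum_insert hj]
    have h1 := ih (fun k hk => hx k (Finset.mem_insert_of_mem hk))
      (fun k hk => hy k (Finset.mem_insert_of_mem hk))
    have h2 := hy j (Finset.mem_insert_self j J)
    have h3 := hx j (Finset.mem_insert_self j J)
    have h4 : 0 ≤ ∑ j ∈ J, x j := Finset.sum_nonneg (fun k hk => hx k (Finset.mem_insert_of_mem hk))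
    have h5 := mul_nonneg h3 h4
    nlinarith

theorem dataC {ι : Type} [Fintype ι] {d : ℕ} {b : ι → E (d + 1)} (hS : Simple b)
    (hb : Bornology.IsBounded (Pol b)) {J : Finset ι} (hJC : Pool.Agent.CTC.SepC b J) :
    ∃ k H : ℕ → ℤ, Data b J k H ∧ ∀ n, 2 ≤ n → 2 * n < d + 1 →
      H n - H (n - 1) ≤ (J.card : ℤ) * (k n - H (n - 1)) := by
  have hJ : SepB b J := hJC.toSepB
  obtain ⟨c, hc⟩ := exists_generic ι (d + 1)
  obtain ⟨a, ha, -⟩ := Pool.Agent.KST.exists_gen_near hS (0 : E (d + 1)) one_pos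
  choose A hA using fun j => Pool.Agent.KST.exists_low hS j
  have hsw := Pool.Agent.KST.sweep_cells hS hb ha
  have hmin : ∀ n, 2 * Module.finrank ℝ ↥(FF (Cells b) n ⊓ Ker c ⊓ Par ι (-1)) +
      (d + 1).choose n = hh (Verts b) (PP b a) n := fun n =>
    Pool.Agent.KST.finrank_minus (sweep_change c hc hsw)
      (fun s hs => Pool.Agent.KST.neg_mem_cells hs) n
  have hminb : ∀ n, 2 * Module.finrank ℝ ↥(FF (Cells b) n ⊓ Ker b ⊓ Par ι (-1)) +
      (d + 1).choose n = hh (Verts b) (PP b a) n := fun n =>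
    Pool.Agent.KST.finrank_minus hsw (fun s hs => Pool.Agent.KST.neg_mem_cells hs) n
  set κ : ℕ → ℤ := fun n => (Module.finrank ℝ ↥(FF (Cells b) n ⊓ Ker c ⊓ Par ι (-1)) : ℤ) with hκ
  set H : ℕ → ℤ := fun n => ∑ j ∈ J, (hh (VF b j) (PP b (A j)) n : ℤ) with hH
  have hmin' : ∀ n, (hh (Verts b) (PP b a) n : ℤ) = 2 * κ n + ((d + 1).choose n : ℤ) := by
    intro n
    rw [← hmin n]
    push_cast
    rfl
  -- nonempty facets
  have hVFne : ∀ j, (∃ t ∈ Cells b, t j = 1) ↔ (VF b j).Nonempty := by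
    intro j
    constructor
    · intro h
      obtain ⟨v, hv, -⟩ := (Pool.Agent.KST.sweep_star hS hb (hA j).1 (hA j).2 h).ex 0
        (Pool.Agent.KST.sweep_star hS hb (hA j).1 (hA j).2 h).zero
      exact ⟨v, hv⟩
    · rintro ⟨v, hv⟩
      unfold VF Verts at hv
      rw [Finset.mem_filter, Finset.mem_filter] at hv
      exact ⟨v, hv.1.1, hv.2⟩
  have hlink : ∀ j ∈ J, ∃ S : Swp ι d,
      (∀ n, (S.V.filter (fun v => (S.P v).card = n)).card = hh (VF b j) (PP b (A j)) n) ∧
      ((VF b j).Nonempty → S.V.Nonempty) := fun j hj =>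
    mb_link hS hb (hA j).1 (hA j).2 (hJ.opp j hj)
  have hHsym : ∀ j ∈ J, ∀ n ≤ d, hh (VF b j) (PP b (A j)) (d - n) =
      hh (VF b j) (PP b (A j)) n := by
    intro j hj n hn
    obtain ⟨S, hSn, -⟩ := hlink j hj
    rw [← hSn, ← hSn, hsym S n hn]
  have hHpos : ∀ j ∈ J, (VF b j).Nonempty → ∀ n ≤ d, 1 ≤ hh (VF b j) (PP b (A j)) n := by
    intro j hj hne n hn
    obtain ⟨S, hSn, hS2⟩ := hlink j hj
    rw [← hSn]
    exact hpos S (hS2 hne) n hn
  have hHempty : ∀ j, ¬ (VF b j).Nonempty → ∀ n, hh (VF b j) (PP b (A j)) n = 0 := by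
    intro j hne n
    rw [Finset.not_nonempty_iff_eq_empty] at hne
    unfold hh
    rw [hne]
    rfl
  have hH0n : ∀ j ∈ J, (∃ t ∈ Cells b, t j = 1) → hh (VF b j) (PP b (A j)) 0 = 1 := by
    intro j hj h
    have h1 := hHpos j hj ((hVFne j).1 h) 0 (Nat.zero_le _)
    have h2 := Pool.Agent.KST.hh_zero_le hS hb (hA j).1 (hA j).2
    exact le_antisymm h2 h1
  have hH0 : ∀ j ∈ J, (hh (VF b j) (PP b (A j)) 0 : ℤ) =
      if (∃ t ∈ Cells b, t j = 1) then 1 else 0 := by
    intro j hj
    by_cases h : ∃ t ∈ Cells b, t j = 1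
    · rw [if_pos h, hH0n j hj h]; rfl
    · rw [if_neg h, hHempty j (fun h' => h ((hVFne j).2 h'))]
      rfl
  have hr : ((J.filter (fun j => ∃ t ∈ Cells b, t j = 1)).card : ℤ) = H 0 := by
    rw [hH]
    simp only
    rw [Finset.sum_congr rfl hH0, Finset.sum_boole]
  have hk0 : κ 0 = 0 := by
    have h1 : hh (Verts b) (PP b a) 0 ≤ 1 := by
      unfold hh
      rw [Finset.card_le_one]
      intro v hv w hw
      rw [Finset.mem_filter, Finset.card_eq_zero] at hv hw
      refine hsw.uniq 0 hsw.zero v hv.1 w hw.1 ?_ ?_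
      · refine ⟨fun l hl => absurd rfl hl, ?_⟩
        intro l hl
        rw [hv.2] at hl
        exact absurd hl (Finset.notMem_empty _)
      · refine ⟨fun l hl => absurd rfl hl, ?_⟩
        intro l hl
        rw [hw.2] at hl
        exact absurd hl (Finset.notMem_empty _)
    have h2 := hmin 0
    rw [Nat.choose_zero_right] at h2
    have h3 : Module.finrank ℝ ↥(FF (Cells b) 0 ⊓ Ker c ⊓ Par ι (-1)) = 0 := by omega
    rw [hκ]
    simp only
    rw [h3]; rfl
  have hk : ∀ n ≤ d + 1, κ (d + 1 - n) = κ n := by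
    intro n hn
    have h1 := Pool.Agent.KST.hh_symm hS hb ha hn
    have h2 := hmin' n
    have h3 := hmin' (d + 1 - n)
    rw [Nat.choose_symm hn] at h3
    rw [← h1, h2] at h3
    linarith
  have hHs : ∀ n < d + 1, H (d + 1 - 1 - n) = H n := by
    intro n hn
    rw [hH]
    simp only
    apply Finset.sum_congr rfl
    intro j hj
    rw [Nat.add_sub_cancel, hHsym j hj n (by omega)]
  have h1 : ∀ n < d + 1, H 0 ≤ H n := by
    intro n hn
    rw [hH]
    simp only
    apply Finset.sum_le_sum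
    intro j hj
    rw [hH0 j hj]
    by_cases h : ∃ t ∈ Cells b, t j = 1
    · rw [if_pos h]
      exact_mod_cast hHpos j hj ((hVFne j).1 h) n (by omega)
    · rw [if_neg h]
      positivity
  have h0 : 0 ≤ H 0 := by
    rw [hH]
    positivity
  have hle : ∀ n, d + 1 ≤ 2 * n → n < d + 1 → H n ≤ κ n := by
    intro n hn hn'
    have h2 := star_le hS hb hJ hc hn (by omega : n ≤ d)
    have h3 : ∑ j ∈ J, hh (VF b j) (PP b (A j)) n ≤
        ∑ j ∈ J, Module.finrank ℝ ↥(FF (Star b j) n ⊓ Ker c) := by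
      apply Finset.sum_le_sum
      intro j _
      by_cases h : ∃ t ∈ Cells b, t j = 1
      · rw [Pool.Agent.KST.finrank_ker (sweep_change c hc
          (Pool.Agent.KST.sweep_star hS hb (hA j).1 (hA j).2 h)) n]
      · rw [hHempty j (fun h' => h ((hVFne j).2 h'))]
        exact Nat.zero_le _
    have h4 := le_trans h3 h2
    rw [hH, hκ]
    simp only
    exact_mod_cast h4
  have hc1 : ((Cells b).card : ℤ) =
      3 ^ (d + 1) + 2 * ∑ n ∈ Finset.range (d + 1 + 1), 2 ^ n * κ n := by
    rw [Pool.Agent.KST.card_cells hS hb ha]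
    push_cast
    rw [← mb_fiber (Verts b) (fun v => (PP b a v).card) (d + 1 + 1)
      (fun v hv => Nat.lt_succ_of_le (mb_supp_card hv)) (fun n => (2 : ℤ) ^ n)]
    have h2 : ∀ n ∈ Finset.range (d + 1 + 1), (2 : ℤ) ^ n *
        (((Verts b).filter (fun v => (PP b a v).card = n)).card : ℤ) =
        (2 : ℤ) ^ n * ((d + 1).choose n : ℤ) + 2 * (2 ^ n * κ n) := by
      intro n _
      have h3 := hmin' n
      unfold hh at h3
      rw [h3]
      ring
    rw [Finset.sum_congr rfl h2, Finset.sum_add_distrib, ← Finset.mul_sum]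
    congr 1
    have h4 := add_pow (2 : ℤ) 1 (d + 1)
    simp only [one_pow, mul_one] at h4
    rw [← h4]
    norm_num
  have hc2 : ((Verts b).card : ℤ) =
      2 ^ (d + 1) + 2 * ∑ n ∈ Finset.range (d + 1 + 1), κ n := by
    have h2 := mb_fiber (Verts b) (fun v => (PP b a v).card) (d + 1 + 1)
      (fun v hv => Nat.lt_succ_of_le (mb_supp_card hv)) (fun _ => (1 : ℤ))
    simp only [one_mul, Finset.sum_const, nsmul_eq_mul, mul_one] at h2
    rw [← h2]
    have h3 : ∀ n ∈ Finset.range (d + 1 + 1),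
        (((Verts b).filter (fun v => (PP b a v).card = n)).card : ℤ) =
        ((d + 1).choose n : ℤ) + 2 * κ n := by
      intro n _
      have h3 := hmin' n
      unfold hh at h3
      rw [h3]
      ring
    rw [Finset.sum_congr rfl h3, Finset.sum_add_distrib, ← Finset.mul_sum]
    congr 1
    exact_mod_cast Nat.sum_range_choose (d + 1)
  have hc3 : ∑ j ∈ J, (((Cells b).filter (fun s => s j = 1)).card : ℤ) =
      ∑ n ∈ Finset.range (d + 1), 2 ^ n * H n := by
    rw [hH]
    simp only
    simp_rw [Finset.mul_sum]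
    rw [Finset.sum_comm]
    apply Finset.sum_congr rfl
    intro j _
    rw [Pool.Agent.KST.card_facet hS hb (hA j).1 (hA j).2]
    push_cast
    rw [← mb_fiber (VF b j) (fun v => (PP b (A j) v).card) (d + 1)
      (fun v hv => Nat.lt_succ_of_le (mb_supp_card' hS hb (hA j).1 (hA j).2 hv))
      (fun n => (2 : ℤ) ^ n)]
    rfl
  have hc4 : ∑ j ∈ J, ((VF b j).card : ℤ) = ∑ n ∈ Finset.range (d + 1), H n := by
    rw [hH]
    simp only
    rw [Finset.sum_comm]
    apply Finset.sum_congr rfl
    intro j _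
    have h2 := mb_fiber (VF b j) (fun v => (PP b (A j) v).card) (d + 1)
      (fun v hv => Nat.lt_succ_of_le (mb_supp_card' hS hb (hA j).1 (hA j).2 hv))
      (fun _ => (1 : ℤ))
    simp only [one_mul, Finset.sum_const, nsmul_eq_mul, mul_one] at h2
    rw [← h2]
    rfl
  have hc5 : ((Verts b).card : ℤ) =
      (((Verts b).filter (fun v => ∀ j ∈ J, v j = 0)).card : ℤ) +
        2 * ∑ j ∈ J, ((VF b j).card : ℤ) := by
    have h2 := mb_verts hJ
    exact_mod_cast h2
  -- the first numbers of the facets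
  have hdg : ∀ j, (∃ t ∈ Cells b, t j = 1) →
      (Finset.univ.filter (fun l => ∃ t ∈ Cells b, t j = 1 ∧ t l ≠ 0)).card = dg b j + 1 := by
    rintro j ⟨t, ht, htj⟩
    have h2 : Finset.univ.filter (fun l => ∃ t ∈ Cells b, t j = 1 ∧ t l ≠ 0) =
        insert j (Finset.univ.filter (fun l => l ≠ j ∧ ∃ t ∈ Cells b, t j = 1 ∧ t l ≠ 0)) := by
      ext l
      rw [Finset.mem_insert, Finset.mem_filter, Finset.mem_filter]
      constructor
      · rintro ⟨h3, h4⟩
        by_cases h5 : l = j
        · left; exact h5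
        · right; exact ⟨h3, h5, h4⟩
      · rintro (h3 | ⟨h3, -, h5⟩)
        · subst h3
          exact ⟨Finset.mem_univ _, t, ht, htj, by rw [htj]; decide⟩
        · exact ⟨h3, h5⟩
    rw [h2, Finset.card_insert_of_notMem]
    · rfl
    · intro h3
      exact (Finset.mem_filter.1 h3).2.1 rfl
  have hfirst : ∀ j ∈ J, (∃ t ∈ Cells b, t j = 1) →
      (hh (VF b j) (PP b (A j)) 1 : ℤ) - 1 = (dg b j : ℤ) - (d + 1) ∧
      2 * hh (VF b j) (PP b (A j)) 2 ≤ hh (VF b j) (PP b (A j)) 1 *
        (hh (VF b j) (PP b (A j)) 1 + 1) := by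
    intro j hj h
    obtain ⟨h2, h3⟩ := db_facet hS hb (hA j).1 (hA j).2 h (hJ.opp j hj)
    have h4 := hH0n j hj h
    refine ⟨?_, h3 h4⟩
    rw [hdg j h, h4] at h2
    have h5 : (hh (VF b j) (PP b (A j)) 1 : ℤ) + (d + 1) * 1 = dg b j + 1 := by
      exact_mod_cast h2
    linarith
  have hdeg : H 1 - H 0 = ∑ j ∈ J.filter (fun j => ∃ t ∈ Cells b, t j = 1),
      ((dg b j : ℤ) - (d + 1)) := by
    rw [Finset.sum_filter, hH]
    simp only
    rw [← Finset.sum_sub_distrib]
    apply Finset.sum_congr rfl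
    intro j hj
    rw [hH0 j hj]
    by_cases h : ∃ t ∈ Cells b, t j = 1
    · rw [if_pos h, if_pos h]
      exact (hfirst j hj h).1
    · rw [if_neg h, if_neg h, hHempty j (fun h' => h ((hVFne j).2 h'))]
      rfl
  have htwo : 1 ≤ d → 2 * (H 2 - H 1) ≤ (H 1 - H 0) * (H 1 - H 0 + 1) := by
    intro hd
    rw [hH]
    simp only
    rw [← Finset.sum_sub_distrib, ← Finset.sum_sub_distrib]
    apply db_sq
    · intro j hj
      rw [hH0 j hj]
      by_cases h : ∃ t ∈ Cells b, t j = 1
      · rw [if_pos h]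
        have h2 := hHpos j hj ((hVFne j).1 h) 1 hd
        have h3 : (1 : ℤ) ≤ hh (VF b j) (PP b (A j)) 1 := by exact_mod_cast h2
        linarith
      · rw [if_neg h, sub_zero]
        exact Int.natCast_nonneg _
    · intro j hj
      rw [hH0 j hj]
      by_cases h : ∃ t ∈ Cells b, t j = 1
      · rw [if_pos h]
        have h2 := (hfirst j hj h).2
        have h3 : 2 * (hh (VF b j) (PP b (A j)) 2 : ℤ) ≤ hh (VF b j) (PP b (A j)) 1 *
            (hh (VF b j) (PP b (A j)) 1 + 1) := by exact_mod_cast h2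
        nlinarith
      · rw [if_neg h, hHempty j (fun h' => h ((hVFne j).2 h')),
          hHempty j (fun h' => h ((hVFne j).2 h'))]
        norm_num
  -- the number of facets
  have hfac : ((Finset.univ.filter (fun l => l ∉ J ∧ ∃ t ∈ Cells b, t l = 1)).card : ℤ) + H 0 ≤
      κ 1 + (d + 1) := by
    have h2 := Pool.Agent.KST.facets_le hS
    have h3 : Module.finrank ℝ ↥(FF (Cells b) 1 ⊓ Ker b ⊓ Par ι (-1)) =
        Module.finrank ℝ ↥(FF (Cells b) 1 ⊓ Ker c ⊓ Par ι (-1)) := by
      have h4 := hmin 1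
      have h5 := hminb 1
      omega
    have h6 : (Finset.univ.filter (fun l => ∃ t ∈ Cells b, t l = 1)).card =
        (Finset.univ.filter (fun l => l ∉ J ∧ ∃ t ∈ Cells b, t l = 1)).card +
        (J.filter (fun j => ∃ t ∈ Cells b, t j = 1)).card := by
      rw [← Finset.card_union_of_disjoint]
      · congr 1
        ext l
        rw [Finset.mem_union, Finset.mem_filter, Finset.mem_filter, Finset.mem_filter]
        constructor
        · rintro ⟨h7, h8⟩
          by_cases h9 : l ∈ J
          · right; exact ⟨h9, h8⟩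
          · left; exact ⟨h7, h9, h8⟩
        · rintro (⟨h7, h8, h9⟩ | ⟨h7, h8⟩)
          · exact ⟨h7, h9⟩
          · exact ⟨Finset.mem_univ _, h8⟩
      · rw [Finset.disjoint_left]
        intro l hl hl'
        exact (Finset.mem_filter.1 hl).2.1 (Finset.mem_filter.1 hl').1
    rw [← hr]
    rw [h6, h3] at h2
    rw [hκ]
    simp only
    have h7 : (((Finset.univ.filter (fun l => l ∉ J ∧ ∃ t ∈ Cells b, t l = 1)).card +
        (J.filter (fun j => ∃ t ∈ Cells b, t j = 1)).card : ℕ) : ℤ) ≤
        ((d + 1 + Module.finrank ℝ ↥(FF (Cells b) 1 ⊓ Ker c ⊓ Par ι (-1)) : ℕ) : ℤ) := by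
      exact_mod_cast h2
    push_cast at h7
    linarith
  rw [hc4] at hc5
  -- one cap against all functions
  have hcap : ∀ n, 2 ≤ n → 2 * n < d + 1 →
      H n - H (n - 1) ≤ (J.card : ℤ) * (κ n - H (n - 1)) := by
    intro n hn2 hnd
    have hg := Pool.Agent.CTC.genC_of_alg hc
    have hη : ∀ j n, (Module.finrank ℝ ↥(FF (Star b j) n ⊓ Ker c) : ℤ) =
        if (∃ t ∈ Cells b, t j = 1) then (hh (VF b j) (PP b (A j)) n : ℤ) else 0 := by
      intro j n
      by_cases h : ∃ t ∈ Cells b, t j = 1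
      · rw [if_pos h, Pool.Agent.KST.finrank_ker (sweep_change c hc
          (Pool.Agent.KST.sweep_star hS hb (hA j).1 (hA j).2 h)) n]
      · rw [if_neg h]
        have h2 : (FF (Star b j) n ⊓ Ker c : Submodule ℝ (Fn ι)) = ⊥ := by
          rw [eq_bot_iff]
          intro f hf
          rw [Submodule.mem_bot]
          funext e
          refine hf.1 e ?_
          intro he
          have h1 := (Finset.mem_filter.1 he).2.2
          obtain ⟨t, ht, -, htj⟩ := (Finset.mem_filter.1 h1).2
          exact h ⟨t, ht, htj⟩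
        rw [h2, finrank_bot]
        rfl
    have hη' : ∀ j n, (Module.finrank ℝ ↥(FF (Star b j) n ⊓ Ker c) : ℤ) =
        (hh (VF b j) (PP b (A j)) n : ℤ) := by
      intro j n
      rw [hη]
      by_cases h : ∃ t ∈ Cells b, t j = 1
      · rw [if_pos h]
      · rw [if_neg h, hHempty j (fun h' => h ((hVFne j).2 h'))]
        rfl
    have hone : ∀ j ∈ J, (hh (VF b j) (PP b (A j)) n : ℤ) - hh (VF b j) (PP b (A j)) (n - 1) ≤
        κ n - H (n - 1) := by
      intro j hj
      have hF : Pool.Agent.CTC.Few b {j} n := by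
        intro p
        refine le_trans (Finset.card_le_card (t := {(j, (1 : SignType)), (j, (-1 : SignType))}) ?_) ?_
        · intro q hq
          rw [Finset.mem_filter, Finset.mem_singleton] at hq
          obtain ⟨-, h1, h2, -⟩ := hq
          rw [Finset.mem_insert, Finset.mem_singleton]
          obtain ⟨q1, q2⟩ := q
          simp only at h1 h2
          subst h1
          rcases q2 with _ | _ | _
          · exact absurd rfl h2
          · right; rfl
          · left; rfl
        · exact le_trans Finset.card_le_two hn2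
      have h2 := Pool.Agent.CTC.starP hS hb hg hJC (T := {j}) (n := n) (m := d + 1 - n)
        (Finset.singleton_subset_iff.2 hj) (by omega) (by omega) (by omega) hF
        (fun f hf h0 => Pool.Agent.CTC.inj_star hS hb hJ hc (by omega) (by omega) f hf h0)
      rw [Finset.sum_singleton] at h2
      have h3 : (Module.finrank ℝ ↥(FF (Star b j) (d + 1 - n - 1) ⊓ Ker c) : ℤ) +
          ∑ k ∈ J \ {j}, (Module.finrank ℝ ↥(FF (Star b k) (d + 1 - n) ⊓ Ker c) : ℤ) ≤
          κ (d + 1 - n) := by
        rw [hκ]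
        simp only
        exact_mod_cast h2
      rw [hη', Finset.sum_congr rfl (fun k _ => hη' k _)] at h3
      have h4 : ∑ k ∈ J \ {j}, (hh (VF b k) (PP b (A k)) (d + 1 - n) : ℤ) +
          (hh (VF b j) (PP b (A j)) (d + 1 - n) : ℤ) = H (d + 1 - n) := by
        rw [hH]
        simp only
        have := Finset.sum_sdiff (Finset.singleton_subset_iff.2 hj)
          (f := fun k => (hh (VF b k) (PP b (A k)) (d + 1 - n) : ℤ))
        rw [Finset.sum_singleton] at this
        exact this
      have h5 : H (d + 1 - n) = H (n - 1) := by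
        have := hHs (n - 1) (by omega)
        rwa [show d + 1 - 1 - (n - 1) = d + 1 - n from by omega] at this
      have h6 : κ (d + 1 - n) = κ n := hk n (by omega)
      have h7 : hh (VF b j) (PP b (A j)) (d + 1 - n - 1) = hh (VF b j) (PP b (A j)) n := by
        have := hHsym j hj n (by omega)
        rwa [show d - n = d + 1 - n - 1 from by omega] at this
      have h8 : hh (VF b j) (PP b (A j)) (d + 1 - n) = hh (VF b j) (PP b (A j)) (n - 1) := by
        have := hHsym j hj (n - 1) (by omega)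
        rwa [show d - (n - 1) = d + 1 - n from by omega] at this
      rw [h7] at h3
      rw [h8] at h4
      rw [h6] at h3
      rw [h5] at h4
      have h9 : ∑ k ∈ J \ {j}, (hh (VF b k) (PP b (A k)) (d + 1 - n) : ℤ) =
          H (n - 1) - (hh (VF b j) (PP b (A j)) (n - 1) : ℤ) := by linarith
      linarith
    have h10 := Finset.sum_le_sum hone
    rw [Finset.sum_sub_distrib, Finset.sum_const, nsmul_eq_mul] at h10
    exact h10
  refine ⟨κ, H, ⟨hk0, fun n => ?_, hk, hHs, h1, h0, hle, hr, hc1, hc3, ?_, hfac, hdeg, htwo⟩,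
    hcap⟩
  · exact Int.natCast_nonneg _
  · linarith

end

end WLP
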