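import Mathlib

/-!
WLP: weak Lefschetz property of simplicial spheres given by a sweep, with generic vectors
(characteristic 2 argument).  Paper proof: KAL_helper60.md.  This file: definitions only.
-/

set_option maxHeartbeats 4000000

namespace WLP

open MvPolynomial

/-- The support of a multi-index. -/
def supp {M : Type*} [Fintype M] (e : M → ℕ) : Finset M :=
  Finset.univ.filter (fun l => e l ≠ 0)

/-- Sweep data of a simple `D`-polytope (dually: of a simplicial `(D-1)`-sphere) on the labels `M`.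
A vertex is the set of the `D` labels (facets) that contain it; a face is a subset of a vertex. -/
structure Swp (M : Type) [Fintype M] [DecidableEq M] (D : ℕ) where
  /-- the vertices -/
  V : Finset (Finset M)
  card_eq : ∀ v ∈ V, v.card = D
  /-- `P v`: the smallest face (as a set of labels) whose lowest vertex is `v` -/
  P : Finset M → Finset M
  P_sub : ∀ v ∈ V, P v ⊆ v
  /-- lowest and highest vertex of a face -/
  lo : Finset M → Finset M
  hi : Finset M → Finset M
  /-- height of a vertex -/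
  ht : Finset M → ℕ
  ht_inj : ∀ v ∈ V, ∀ w ∈ V, ht v = ht w → v = w
  lo_mem : ∀ v ∈ V, ∀ s, s ⊆ v → lo s ∈ V
  hi_mem : ∀ v ∈ V, ∀ s, s ⊆ v → hi s ∈ V
  sub_lo : ∀ v ∈ V, ∀ s, s ⊆ v → s ⊆ lo s
  sub_hi : ∀ v ∈ V, ∀ s, s ⊆ v → s ⊆ hi s
  P_lo : ∀ v ∈ V, ∀ s, s ⊆ v → P (lo s) ⊆ s
  N_hi : ∀ v ∈ V, ∀ s, s ⊆ v → hi s \ P (hi s) ⊆ s
  /-- if the face `s` lies in the face `P w` then its lowest vertex is not below `w` -/
  lo_ge : ∀ v ∈ V, ∀ s, s ⊆ v → ∀ w ∈ V, P w ⊆ s → ht w ≤ ht (lo s)
  hi_le : ∀ v ∈ V, ∀ s, s ⊆ v → ∀ w ∈ V, w \ P w ⊆ s → ht (hi s) ≤ ht w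
  lo_le_hi : ∀ v ∈ V, ∀ s, s ⊆ v → ht (lo s) ≤ ht (hi s)
  /-- every ridge is in an even number (0 or 2) of facets of the sphere -/
  even : ∀ G : Finset M, G.card + 1 = D → Even (V.filter (fun v => G ⊆ v)).card

/-- `s` is a face. -/
def Swp.face {M : Type} [Fintype M] [DecidableEq M] {D : ℕ} (S : Swp M D) (s : Finset M) : Prop :=
  ∃ v ∈ S.V, s ⊆ v

/-- The ring of polynomials over the field with two elements; rows `none, some 0, .., some (D-1)`,
columns `some l` (`l : M`) and the auxiliary column `none`. -/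
abbrev R2 (M : Type) (D : ℕ) : Type := MvPolynomial (Option (Fin D) × Option M) (ZMod 2)

/-- The minor (= permanent, characteristic 2) with rows `some r` and columns `C`, `C.card = D`. -/
noncomputable def minor {M : Type} [Fintype M] [DecidableEq M] (D : ℕ)
    (C : Finset (Option M)) : R2 M D :=
  ∑ τ ∈ Finset.univ.filter (fun τ : Fin D → Option M => Finset.univ.image τ = C),
    ∏ r : Fin D, X (some r, τ r)

/-- The columns of the facet `F` and the auxiliary column. -/
def cols {M : Type} [DecidableEq M] (F : Finset M) : Finset (Option M) :=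
  insert none (F.image some)

/-- `E`: the product of all minors `A_{F,j}`. -/
noncomputable def EE {M : Type} [Fintype M] [DecidableEq M] {D : ℕ} (S : Swp M D) : R2 M D :=
  ∏ F ∈ S.V, ∏ j ∈ cols F, minor D ((cols F).erase j)

/-- `E_F = E / prod_j A_{F,j}`. -/
noncomputable def EF {M : Type} [Fintype M] [DecidableEq M] {D : ℕ} (S : Swp M D)
    (F : Finset M) : R2 M D :=
  ∏ G ∈ S.V.erase F, ∏ j ∈ cols G, minor D ((cols G).erase j)

/-- The degree map (times `E`), on monomials that may contain the auxiliary column. -/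
noncomputable def Phi {M : Type} [Fintype M] [DecidableEq M] {D : ℕ} (S : Swp M D)
    (J : Option M → ℕ) : R2 M D :=
  ∑ F ∈ S.V.filter (fun F => supp J ⊆ cols F),
    EF S F * ∏ j ∈ cols F, minor D ((cols F).erase j) ^ J j

/-- Extension of a multi-index by zero. -/
def ext {M : Type} (J : M → ℕ) : Option M → ℕ := fun o => o.elim 0 J

/-- The degree map (times `E`). -/
noncomputable def phi {M : Type} [Fintype M] [DecidableEq M] {D : ℕ} (S : Swp M D)
    (J : M → ℕ) : R2 M D := Phi S (ext J)

/-- The indicator function of a set of labels. -/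
def ind {M : Type} [DecidableEq M] (s : Finset M) : M → ℕ := fun l => if l ∈ s then 1 else 0

/-- Composite of the partial derivatives `d/d(r, I r)`, `r : Fin D` (rows `some r`). -/
noncomputable def dI {M : Type} {D : ℕ} (I : Fin D → Option M) :
    R2 M D →ₗ[ZMod 2] R2 M D :=
  ((List.finRange D).map
    (fun r => ((pderiv ((some r, I r) : Option (Fin D) × Option M) :
      Derivation (ZMod 2) (R2 M D) (R2 M D)) : R2 M D →ₗ[ZMod 2] R2 M D))).prod

/-- `K`-condition: `f` is supported on faces and killed by the rows `a r` in degree `n`. -/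
def KK {M : Type} [Fintype M] [DecidableEq M] {D : ℕ} (S : Swp M D) {ι R : Type*} [CommRing R]
    (a : ι → M → R) (n : ℕ) (f : (M → ℕ) → R) : Prop :=
  (∀ e, ¬ S.face (supp e) → f e = 0) ∧
  ∀ e : M → ℕ, ∑ l, e l + 1 = n → ∀ r, ∑ l, a r l * f (e + Pi.single l 1) = 0

end WLP
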