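import Pool.Agent.WLP.Defs
import Pool.Agent.KST.Defs

/-!
WLP, second layer: from centrally symmetric polytopes to sweep data (theorem B).  Definitions.
-/

set_option autoImplicit false

open scoped BigOperators RealInnerProductSpace

namespace WLP

noncomputable section

open Classical

open Pool.Agent.KST (E IsCell Cells Verts Simple Pol pt PP Gen Star VF Low LowF Inside hh)

/-- every face lies in at most one of the facets `(j, +)`, `(j, -)`, `j ∈ J`, and no facet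
`(j, +)`, `j ∈ J`, meets two opposite facets -/
structure SepB {ι : Type} [Fintype ι] {d : ℕ} (b : ι → E d) (J : Finset ι) : Prop where
  disj : ∀ t ∈ Cells b, ∀ j ∈ J, ∀ j' ∈ J, t j ≠ 0 → t j' ≠ 0 → j = j'
  opp : ∀ j ∈ J, ∀ s ∈ Cells b, ∀ t ∈ Cells b, s j = 1 → t j = 1 →
    ∀ l, s l ≠ 0 → t l ≠ 0 → s l = t l

/-- hypotheses on a polytope `{x | ∀ i, |⟪a i, x⟫| ≤ 1}` and cutting vectors `g j`: the truncated
polytope is simple, the caps are pairwise disjoint, no cap meets two opposite facets -/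
structure HypB {α β : Type} [Fintype α] [Fintype β] {d : ℕ} (a : α → E d) (g : β → E d) :
    Prop where
  simple : Simple (Sum.elim a g)
  disj : ∀ x ∈ Pol a, ∀ j k, ∀ s t : SignType, 1 ≤ ((s : SignType) : ℝ) * ⟪g j, x⟫ →
      1 ≤ ((t : SignType) : ℝ) * ⟪g k, x⟫ → j = k ∧ s = t
  opp : ∀ j, ∀ x ∈ Pol a, ∀ y ∈ Pol a, 1 ≤ ⟪g j, x⟫ → 1 ≤ ⟪g j, y⟫ →
      ∀ i, |⟪a i, x⟫| = 1 → |⟪a i, y⟫| = 1 → ⟪a i, x⟫ = ⟪a i, y⟫

end

end WLP
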