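import Pool.Agent.WLP.Defs

/-!
WLP: duality (step 4 of KAL_helper60.md), with the needed facts on `phi` as hypotheses.
-/

set_option maxHeartbeats 4000000

namespace WLP

open MvPolynomial

variable {M : Type} [Fintype M] [DecidableEq M] {D : ℕ}

theorem dual_sum_ind (s : Finset M) : ∑ l, ind s l = s.card := by
  simp [ind]

theorem dual_supp_ind_add (s : Finset M) (e : M → ℕ) : supp (ind s + e) = s ∪ supp e := by
  ext l
  by_cases h : l ∈ s <;> simp [supp, ind, h]

theorem dual_supp_ind (s : Finset M) : supp (ind s) = s := by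
  ext l
  by_cases h : l ∈ s <;> simp [supp, ind, h]

/-- generic square matrices have nonzero determinant -/
theorem dual_det_ne_zero (g : Fin D → M) (hg : Function.Injective g) :
    (Matrix.of (fun (r : Fin D) (j : Fin D) =>
      (X (some r, some (g j)) : R2 M D))).det ≠ 0 := by
  have h := Matrix.det_mvPolynomialX_ne_zero (Fin D) (ZMod 2)
  let φ : Fin D × Fin D → Option (Fin D) × Option M := fun p => (some p.1, some (g p.2))
  have hφ : Function.Injective φ := by
    intro p q hpq
    simp only [φ, Prod.mk.injEq, Option.some.injEq] at hpq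
    exact Prod.ext hpq.1 (hg hpq.2)
  have h2 : rename φ (Matrix.mvPolynomialX (Fin D) (Fin D) (ZMod 2)).det ≠ 0 := by
    intro h0
    exact h ((rename_injective φ hφ) (by rw [h0, map_zero]))
  have h3 : rename φ (Matrix.mvPolynomialX (Fin D) (Fin D) (ZMod 2)).det =
      (Matrix.of (fun (r : Fin D) (j : Fin D) =>
        (X (some r, some (g j)) : R2 M D))).det := by
    rw [AlgHom.map_det]
    congr 1
    ext r j
    simp [Matrix.mvPolynomialX, φ]
  rw [← h3]
  exact h2

/-- the generic columns of a vertex are linearly independent over the fraction field -/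
theorem dual_indep (K : Type*) [Field K] [Algebra (R2 M D) K] [IsFractionRing (R2 M D) K]
    (v : Finset M) (hv : v.card = D) :
    LinearIndependent K (fun l : v => fun r : Fin D =>
      algebraMap (R2 M D) K (X (some r, some l.1))) := by
  have e : Fin D ≃ v := (Fintype.equivFinOfCardEq (by simpa using hv)).symm
  have hdet := dual_det_ne_zero (D := D) (fun j => (e j).1)
    (fun i j h => e.injective (Subtype.ext h))
  have hdet2 : (Matrix.of (fun (r : Fin D) (j : Fin D) =>
      algebraMap (R2 M D) K (X (some r, some (e j).1)))).det ≠ 0 := by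
    have := (map_ne_zero_iff (algebraMap (R2 M D) K)
      (IsFractionRing.injective (R2 M D) K)).2 hdet
    rw [RingHom.map_det] at this
    exact this
  have hli := Matrix.linearIndependent_cols_of_det_ne_zero hdet2
  have h2 : LinearIndependent K ((fun l : v => fun r : Fin D =>
      algebraMap (R2 M D) K (X (some r, some l.1))) ∘ e) := by
    exact hli
  exact (linearIndependent_equiv e).1 h2

theorem dual_rep_of (S : Swp M D)
    (det_hi : ∀ (K : Type) [Field K] (a : Fin D → M → K)
      (_ : ∀ v ∈ S.V, LinearIndependent K (fun l : v => fun r => a r l.1))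
      (n : ℕ) (f : (M → ℕ) → K) (_ : KK S a n f)
      (_ : ∀ v ∈ S.V, (v \ S.P v).card = n → f (ind (v \ S.P v)) = 0),
      ∀ e : M → ℕ, ∑ l, e l = n → f e = 0)
    (phi_rel : ∀ (e : M → ℕ) (_ : ∑ l, e l + 1 = D) (r : Fin D),
      ∑ l, X (some r, some l) * phi S (e + Pi.single l 1) = 0)
    (phi_vertex : ∀ v ∈ S.V, phi S (ind v) ≠ 0)
    (phi_supp : ∀ (e : M → ℕ) (_ : ¬ S.face (supp e)), phi S e = 0)
    (n : ℕ) (hn : n ≤ D) (f : (M → ℕ) → R2 M D)
    (hf : KK S (fun (r : Fin D) l => (X (some r, some l) : R2 M D)) n f) :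
    ∃ s : R2 M D, s ≠ 0 ∧ ∃ c : Finset M → R2 M D, ∀ e : M → ℕ, ∑ l, e l = n →
      s * f e = ∑ w ∈ S.V.filter (fun w => (w \ S.P w).card = n),
        c w * phi S (ind (S.P w) + e) := by
  classical
  set W := S.V.filter (fun w => (w \ S.P w).card = n) with hW
  let K := FractionRing (R2 M D)
  let ι : R2 M D →+* K := algebraMap (R2 M D) K
  have hι : Function.Injective ι := IsFractionRing.injective (R2 M D) K
  -- cardinality of `P w`
  have hPc : ∀ w ∈ W, (S.P w).card + n = D := by
    intro w hw
    rw [hW, Finset.mem_filter] at hw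
    have h1 := Finset.card_sdiff_add_card_eq_card (S.P_sub w hw.1)
    rw [S.card_eq w hw.1, hw.2] at h1
    omega
  have hPn : ∀ w ∈ W, (w \ S.P w).card = n := fun w hw => (Finset.mem_filter.1 hw).2
  have hWV : ∀ w ∈ W, w ∈ S.V := fun w hw => (Finset.mem_filter.1 hw).1
  -- the matrix
  let A : Matrix W W K := Matrix.of (fun v w => ι (phi S (ind (S.P w.1) + ind (v.1 \ S.P v.1))))
  have htri : ∀ v w : W, A v w ≠ 0 → S.ht w.1 ≤ S.ht v.1 := by
    intro v w h
    have h1 : phi S (ind (S.P w.1) + ind (v.1 \ S.P v.1)) ≠ 0 := by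
      intro h0
      apply h
      simp only [A, Matrix.of_apply, h0, map_zero]
    have h2 : S.face (supp (ind (S.P w.1) + ind (v.1 \ S.P v.1))) := by
      by_contra h3
      exact h1 (phi_supp _ h3)
    rw [dual_supp_ind_add, dual_supp_ind] at h2
    obtain ⟨u, hu, hs⟩ := h2
    exact (S.lo_ge u hu _ hs w.1 (hWV _ w.2) Finset.subset_union_left).trans
      ((S.lo_le_hi u hu _ hs).trans (S.hi_le u hu _ hs v.1 (hWV _ v.2)
        Finset.subset_union_right))
  have hdiag : ∀ v : W, A v v ≠ 0 := by
    intro v h
    have h1 : ι (phi S (ind (S.P v.1) + ind (v.1 \ S.P v.1))) = 0 := h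
    have h2 : ind (S.P v.1) + ind (v.1 \ S.P v.1) = ind v.1 := by
      funext l
      have := S.P_sub v.1 (hWV _ v.2)
      by_cases hl : l ∈ S.P v.1
      · have hl2 := this hl
        simp [ind, hl, hl2]
      · simp [ind, hl]
    rw [h2] at h1
    exact phi_vertex v.1 (hWV _ v.2) (hι (by rw [h1, map_zero]))
  have hinj : Function.Injective (Matrix.mulVecLin A) := by
    rw [← LinearMap.ker_eq_bot, LinearMap.ker_eq_bot']
    intro x hx
    by_contra hne
    have hex : ∃ v : W, x v ≠ 0 := by
      by_contra hall
      push Not at hall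
      exact hne (funext hall)
    obtain ⟨v, hv, hmin⟩ := Finset.exists_min_image (Finset.univ.filter (fun v : W => x v ≠ 0))
      (fun v => S.ht v.1) (by obtain ⟨v, hv⟩ := hex; exact ⟨v, by simpa using hv⟩)
    have hv' : x v ≠ 0 := by simpa using hv
    have h1 : (Matrix.mulVecLin A x) v = 0 := by rw [hx]; rfl
    rw [Matrix.mulVecLin_apply, Matrix.mulVec, dotProduct,
      Finset.sum_eq_single v] at h1
    · exact (mul_ne_zero (hdiag v) hv') h1
    · intro w _ hwv
      by_contra h2
      have h3 : A v w ≠ 0 := fun h => h2 (by rw [h, zero_mul])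
      have h4 : x w ≠ 0 := fun h => h2 (by rw [h, mul_zero])
      have h5 := htri v w h3
      have h6 := hmin w (by simpa using h4)
      exact hwv (Subtype.ext (S.ht_inj _ (hWV _ w.2) _ (hWV _ v.2) (le_antisymm h5 h6)))
    · intro h
      exact absurd (Finset.mem_univ v) h
  have hsurj : Function.Surjective (Matrix.mulVecLin A) :=
    (LinearMap.injective_iff_surjective).1 hinj
  obtain ⟨c, hc⟩ := hsurj (fun v => ι (f (ind (v.1 \ S.P v.1))))
  -- the difference
  have hzero : ∀ e : M → ℕ, ∑ l, e l = n →
      ι (f e) - ∑ w : W, c w * ι (phi S (ind (S.P w.1) + e)) = 0 := by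
    refine det_hi K (fun r l => ι (X (some r, some l)))
      (fun v hv => dual_indep K v (S.card_eq v hv)) n
      (fun e => ι (f e) - ∑ w : W, c w * ι (phi S (ind (S.P w.1) + e))) ⟨?_, ?_⟩ ?_
    · intro e he
      have h1 : f e = 0 := hf.1 e he
      have h2 : ∀ w : W, phi S (ind (S.P w.1) + e) = 0 := by
        intro w
        apply phi_supp
        rw [dual_supp_ind_add]
        rintro ⟨u, hu, hs⟩
        exact he ⟨u, hu, Finset.subset_union_right.trans hs⟩
      simp [h1, h2]
    · intro e he r
      have h1 := hf.2 e he r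
      have h2 : ∀ w : W, ∑ l, ι (X (some r, some l)) *
          ι (phi S (ind (S.P w.1) + (e + Pi.single l 1))) = 0 := by
        intro w
        have h3 := phi_rel (ind (S.P w.1) + e) (by
          have h4 := hPc w.1 w.2
          have h5 : ∑ l, (ind (S.P w.1) + e) l = (S.P w.1).card + ∑ l, e l := by
            rw [← dual_sum_ind, ← Finset.sum_add_distrib]
            rfl
          rw [h5]
          omega) r
        have h6 := congrArg ι h3
        rw [map_sum, map_zero] at h6
        rw [← h6]
        refine Finset.sum_congr rfl (fun l _ => ?_)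
        rw [map_mul, add_assoc]
      have h7 := congrArg ι h1
      rw [map_sum, map_zero] at h7
      simp only [mul_sub, Finset.sum_sub_distrib]
      have h8 : ∑ l, ι (X (some r, some l)) * ι (f (e + Pi.single l 1)) = 0 := by
        rw [← h7]
        refine Finset.sum_congr rfl (fun l _ => ?_)
        rw [map_mul]
      rw [h8, zero_sub, neg_eq_zero]
      simp only [Finset.mul_sum]
      rw [Finset.sum_comm]
      refine Finset.sum_eq_zero (fun w _ => ?_)
      have h9 : ∑ l, ι (X (some r, some l)) *
          (c w * ι (phi S (ind (S.P w.1) + (e + Pi.single l 1)))) =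
          c w * ∑ l, ι (X (some r, some l)) *
          ι (phi S (ind (S.P w.1) + (e + Pi.single l 1))) := by
        rw [Finset.mul_sum]
        refine Finset.sum_congr rfl (fun l _ => ?_)
        ring
      rw [h9, h2 w, mul_zero]
    · intro v hv hvn
      have hvW : v ∈ W := Finset.mem_filter.2 ⟨hv, hvn⟩
      have h1 := congrFun hc ⟨v, hvW⟩
      rw [Matrix.mulVecLin_apply, Matrix.mulVec, dotProduct] at h1
      simp only [A, Matrix.of_apply] at h1
      rw [← h1, sub_eq_zero]
      refine Finset.sum_congr rfl (fun w _ => ?_)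
      ring
  -- clear denominators
  obtain ⟨b, hb⟩ := IsLocalization.exist_integer_multiples_of_finite
    (nonZeroDivisors (R2 M D)) c
  choose c' hc' using hb
  refine ⟨b, nonZeroDivisors.ne_zero b.2,
    fun w => if h : w ∈ W then c' ⟨w, h⟩ else 0, fun e he => ?_⟩
  apply hι
  have h1 := hzero e he
  rw [sub_eq_zero] at h1
  rw [map_mul, h1, map_sum, Finset.mul_sum, ← Finset.sum_coe_sort W]
  refine Finset.sum_congr rfl (fun w _ => ?_)
  have h2 : ι (c' w) = ι b * c w := by
    have := hc' w
    rw [Algebra.smul_def] at this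
    exact this
  have h3 : (if h : w.1 ∈ W then c' ⟨w.1, h⟩ else 0) = c' w := dif_pos w.2
  beta_reduce
  rw [h3, map_mul, h2]
  ring

end WLP
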