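import Pool.Agent.WLP.Eq56

/-!
WLP: polytopes with simple vertex figures in dimensions five and six: equality.
-/

set_option autoImplicit false

open scoped BigOperators RealInnerProductSpace

namespace WLP

noncomputable section

open Classical

open Pool.Agent.KST (E IsCell Cells Verts Simple Pol pt PP Gen Star VF Low LowF Inside hh n1NS)
open Pool.Agent.CTC (HypC)

private theorem e3_filter {X : Type} (s : Finset X) {p q : X → Prop} (i1 : DecidablePred p)
    (i2 : DecidablePred q) (h : ∀ x ∈ s, p x ↔ q x) :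
    @Finset.filter X p i1 s = @Finset.filter X q i2 s := Finset.filter_congr h

private theorem e3_mem {X : Type} {s : Finset X} {p : X → Prop} (i : DecidablePred p) {x : X} :
    x ∈ @Finset.filter X p i s ↔ x ∈ s ∧ p x := Finset.mem_filter

/-- the numbers of a polytope with simple vertex figures, without superfluous constraints -/
theorem dataN3 {α : Type} [Fintype α] {d : ℕ} (hd : 1 ≤ d) (a : α → E (d + 1))
    (hb : Bornology.IsBounded (Pol a))
    (hns : ∀ x ∈ Pol a, ¬ LinearIndependent ℝ (fun i : {i : α // |⟪a i, x⟫| = 1} => a i.1) →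
      x ∈ Set.extremePoints ℝ (Pol a))
    (hNR : ∀ i, ∀ v ∈ n1NS a, |⟪a i, v⟫| = 1 → ∃ x ∈ Pol a, x ≠ v ∧ ⟪a i, x⟫ = ⟪a i, v⟫)
    (hirr : ∀ i, ∃ x, (∀ k, k ≠ i → |⟪a k, x⟫| ≤ 1) ∧ 1 < |⟪a i, x⟫|) :
    ∃ (r : ℕ) (g : Fin r → E (d + 1)) (k H : ℕ → ℤ), HypC a g ∧ Num d k H ∧
      (Fintype.card α : ℤ) ≤ k 1 - H 0 + (d + 1) ∧ H 0 = r ∧ (r : ℤ) ≤ H 1 - H 0 ∧
      (r : ℤ) ≤ 2 ^ d +
        (∑ n ∈ Finset.range (d + 1 + 1), k n - ∑ n ∈ Finset.range (d + 1), H n + H 0) ∧
      (4 < d + 1 → ∃ Q : ℤ, H 2 - H 1 ≤ Q * (k 2 - H 1)) ∧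
      3 ^ (d + 1) + 2 * (∑ n ∈ Finset.range (d + 1 + 1), 2 ^ n * k n -
        ∑ n ∈ Finset.range (d + 1), 2 ^ n * H n + H 0) ≤ ((Cells a).card : ℤ) := by
  obtain ⟨r, g, HC, -, hcap, hin, hdeg⟩ := nat_hyp3 a hb hns hNR
  have HB := HC.toHypB
  have hb' : Bornology.IsBounded (Pol (Sum.elim a g)) := by
    refine hb.subset fun x hx i => ?_
    have h := hx (Sum.inl i)
    rwa [Sum.elim_inl] at h
  obtain ⟨J, hsep, hmemJ⟩ : ∃ J : Finset (α ⊕ Fin r), Pool.Agent.CTC.SepC (Sum.elim a g) J ∧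
      ∀ l, l ∈ J ↔ ∃ j, l = Sum.inr j := by
    exact ⟨_, Pool.Agent.CTC.hypC_sep HC, fun l => ⟨fun h => ((e3_mem _).1 h).2,
      fun h => (e3_mem _).2 ⟨Finset.mem_univ _, h⟩⟩⟩
  obtain ⟨k, H, hD, hone⟩ := dataC HB.simple hb' hsep
  have hJ : J = Finset.univ.map ⟨Sum.inr, Sum.inr_injective⟩ := by
    ext l
    rw [hmemJ, Finset.mem_map]
    constructor
    · rintro ⟨j, rfl⟩
      exact ⟨j, Finset.mem_univ _, rfl⟩
    · rintro ⟨j, -, rfl⟩
      exact ⟨j, rfl⟩
  have hsum : ∑ j ∈ J, (((Cells (Sum.elim a g)).filter (fun s => s j = 1)).card : ℤ) =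
      ∑ j : Fin r, (((Cells (Sum.elim a g)).filter (fun s => s (Sum.inr j) = 1)).card : ℤ) := by
    rw [hJ, Finset.sum_map]
    rfl
  have hr : (J.filter (fun j => ∃ t ∈ Cells (Sum.elim a g), t j = 1)).card = r := by
    rw [Finset.filter_true_of_mem]
    · rw [hJ, Finset.card_map, Finset.card_univ, Fintype.card_fin]
    · intro l hl
      obtain ⟨j, rfl⟩ := (hmemJ l).1 hl
      exact hcap j
  have hr' := hD.hr
  rw [hr] at hr'
  have hfac := hD.facets
  rw [hsum] at hfac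
  refine ⟨r, g, k, H, HC, hD.num, ?_, hr'.symm, ?_, ?_, ?_, ?_⟩
  · have h1 := Pool.Agent.KST.q5_card (Sum.elim a g) Sum.inl Sum.inl_injective J (by
      intro i hi
      obtain ⟨j, hj⟩ := (hmemJ _).1 hi
      exact absurd hj (by simp))
    have h2 := hD.fac
    have hall : ∀ i : α, ∃ t ∈ Cells (Sum.elim a g), t (Sum.inl i) = 1 := by
      intro i
      by_contra hno
      obtain ⟨x, hx1, hx2⟩ := hirr i
      have h3 := Pool.Agent.CTC.pol_eqB HB hb (by omega) hin x (by
        intro k hk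
        apply hx1 k
        intro h
        rw [h] at hk
        exact hno hk)
      exact absurd (h3 i) (not_le.2 hx2)
    have key : ∀ {A : Finset α} {B B' : Finset (α ⊕ Fin r)} {x y z : ℤ}, A.card ≤ B.card →
        (B'.card : ℤ) + x ≤ y + z → A = Finset.univ → B = B' →
        (Fintype.card α : ℤ) ≤ y - x + z := by
      intro A B B' x y z h3 h4 h5 h6
      subst h5 h6
      rw [Finset.card_univ] at h3
      have h7 : (Fintype.card α : ℤ) ≤ B.card := by exact_mod_cast h3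
      linarith
    exact key h1 h2 (Finset.eq_univ_iff_forall.2 fun i => (e3_mem _).2
      ⟨Finset.mem_univ _, hall i⟩) (e3_filter _ _ _ fun i _ => Iff.rfl)
  · rw [hD.deg]
    have h1 : ∀ j ∈ J.filter (fun j => ∃ t ∈ Cells (Sum.elim a g), t j = 1),
        (1 : ℤ) ≤ (dg (Sum.elim a g) j : ℤ) - (d + 1) := by
      intro l hl
      obtain ⟨j, rfl⟩ := (hmemJ l).1 (Finset.mem_filter.1 hl).1
      have h2 : d + 1 + 1 ≤ dg (Sum.elim a g) (Sum.inr j) := by
        unfold dg
        refine le_trans (hdeg j) (le_of_eq ?_)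
        congr 1
        exact e3_filter _ _ _ fun l _ => Iff.rfl
      have h3 : ((d + 1 + 1 : ℕ) : ℤ) ≤ (dg (Sum.elim a g) (Sum.inr j) : ℤ) := by
        exact_mod_cast h2
      push_cast at h3
      linarith
    have h2 := Finset.card_nsmul_le_sum _ _ _ h1
    rw [hr] at h2
    simpa using h2
  · have h1 := hD.verts
    have h2 : (0 : ℤ) ≤ (((Verts (Sum.elim a g)).filter (fun v => ∀ j ∈ J, v j = 0)).card : ℤ) :=
      Int.natCast_nonneg _
    rw [← hr'] at h1
    rw [← hr']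
    have h3 : (2 : ℤ) ^ (d + 1) = 2 * 2 ^ d := by rw [pow_succ]; ring
    rw [h3] at h1
    linarith
  · intro h4
    exact ⟨J.card, hone 2 le_rfl (by omega)⟩
  · -- faces inside the caps
    have hin2 : 2 * r ≤ ∑ j : Fin r, ((Inside a g j 1).card + (Inside a g j (-1)).card) := by
      calc 2 * r = ∑ _j : Fin r, 2 := by
            rw [Finset.sum_const, Finset.card_univ, Fintype.card_fin, smul_eq_mul, mul_comm]
        _ ≤ _ := by
            refine Finset.sum_le_sum fun j _ => ?_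
            obtain ⟨t, ht, htj⟩ := hcap j
            have h2 := inside_posB HB hb j 1 (by decide) ⟨t, ht, htj⟩
            have h3 := inside_posB HB hb j (-1) (by decide)
              ⟨-t, Pool.Agent.KST.neg_mem_cells ht, by rw [Pi.neg_apply, htj]⟩
            omega
    have hsplit := card_splitB HB
    have hins := inside_cardB HB
    have h1 := hD.cells
    have hcast : ∑ j : Fin r,
        (((Cells (Sum.elim a g)).filter (fun s => s (Sum.inr j) = 1)).card : ℤ) =
        ((∑ j : Fin r,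
          ((Cells (Sum.elim a g)).filter (fun s => s (Sum.inr j) = 1)).card : ℕ) : ℤ) := by
      rw [Nat.cast_sum]
    rw [hcast] at hfac
    have h5 : (((Cells (Sum.elim a g)).card : ℕ) : ℤ) - 2 *
        ((∑ j : Fin r, ((Cells (Sum.elim a g)).filter (fun s => s (Sum.inr j) = 1)).card : ℕ) : ℤ)
        + 2 * (r : ℤ) ≤ ((Cells a).card : ℤ) := by omega
    rw [hfac, h1] at h5
    linarith

/-- at least `d + 2` constraints, none of them superfluous -/
theorem many_case {α : Type} [Fintype α] {d : ℕ} (hd : d = 5 ∨ d = 6) (a : α → E d)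
    (hcard : d + 2 ≤ Fintype.card α) (hb : Bornology.IsBounded (Pol a))
    (hns : ∀ x ∈ Pol a, ¬ LinearIndependent ℝ (fun i : {i : α // |⟪a i, x⟫| = 1} => a i.1) →
      x ∈ Set.extremePoints ℝ (Pol a))
    (hNR : ∀ i, ∀ v ∈ n1NS a, |⟪a i, v⟫| = 1 → ∃ x ∈ Pol a, x ≠ v ∧ ⟪a i, x⟫ = ⟪a i, v⟫)
    (hirr : ∀ i, ∃ x, (∀ k, k ≠ i → |⟪a k, x⟫| ≤ 1) ∧ 1 < |⟪a i, x⟫|)
    (hN : (Cells a).card ≤ 3 ^ d) :
    ∃ L : Finset α, L.card = d ∧ LinearIndependent ℝ (fun i : {i : α // i ∈ L} => a i.1) ∧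
      Pol a = {x | ∀ i ∈ L, |⟪a i, x⟫| ≤ 1} := by
  rcases hd with rfl | rfl
  · obtain ⟨r, g, k, H, HC, hNum, h1, h2, h3, h4, h5, h6⟩ :=
      dataN3 (d := 4) (by norm_num) a hb hns hNR hirr
    by_cases hr : r ≤ 6
    · have hr' : Fintype.card (Fin r) ≤ (if Odd 5 then 3 else 5) * ((5 - 1) / 2) := by
        rw [Fintype.card_fin, if_pos (by decide)]
        omega
      exact Pool.Agent.CTC.kalaiC_eq (by norm_num) HC hb
        (Pool.Agent.CTC.colG_of_card HC.toHypB hr')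
        (Pool.Agent.CTC.col1G_of_card HC.toHypB (by norm_num) hr') hN
    · exfalso
      push Not at hr
      obtain ⟨Q, hQ⟩ := h5 (by norm_num)
      have hr7 : (7 : ℤ) ≤ (r : ℤ) := by exact_mod_cast hr
      have hc7 : (7 : ℤ) ≤ (Fintype.card α : ℤ) := by exact_mod_cast hcard
      have h7 := num5s hNum (by
        norm_num at h1
        linarith) (by rw [h2]; exact hr7) (by rw [h2] at h3 ⊢; exact h3) (by
        rw [h2] at h4 ⊢
        norm_num at h4 ⊢
        exact h4) hQ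
      have hN' : ((Cells a).card : ℤ) ≤ 3 ^ 5 := by exact_mod_cast hN
      change (3 : ℤ) ^ 5 + 2 * (∑ n ∈ Finset.range 6, 2 ^ n * k n -
        ∑ n ∈ Finset.range 5, 2 ^ n * H n + H 0) ≤ _ at h6
      linarith
  · obtain ⟨r, g, k, H, HC, hNum, h1, h2, h3, h4, h5, h6⟩ :=
      dataN3 (d := 5) (by norm_num) a hb hns hNR hirr
    by_cases hr : r ≤ 10
    · have hr' : Fintype.card (Fin r) ≤ (if Odd 6 then 3 else 5) * ((6 - 1) / 2) := by
        rw [Fintype.card_fin, if_neg (by decide)]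
        omega
      exact Pool.Agent.CTC.kalaiC_eq (by norm_num) HC hb
        (Pool.Agent.CTC.colG_of_card HC.toHypB hr')
        (Pool.Agent.CTC.col1G_of_card HC.toHypB (by norm_num) hr') hN
    · exfalso
      push Not at hr
      obtain ⟨Q, hQ⟩ := h5 (by norm_num)
      have hr7 : (11 : ℤ) ≤ (r : ℤ) := by exact_mod_cast hr
      have hc7 : (8 : ℤ) ≤ (Fintype.card α : ℤ) := by exact_mod_cast hcard
      have h7 := num6s hNum (by
        norm_num at h1
        linarith) (by rw [h2]; exact hr7) (by rw [h2] at h3 ⊢; exact h3) (by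
        rw [h2] at h4 ⊢
        norm_num at h4 ⊢
        exact h4) hQ
      have hN' : ((Cells a).card : ℤ) ≤ 3 ^ 6 := by exact_mod_cast hN
      change (3 : ℤ) ^ 6 + 2 * (∑ n ∈ Finset.range 7, 2 ^ n * k n -
        ∑ n ∈ Finset.range 6, 2 ^ n * H n + H 0) ≤ _ at h6
      linarith

end

end WLP
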