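import Pool.Agent.WLP.Defs
/-!
# Generic minors
-/
set_option maxHeartbeats 4000000

namespace WLP

open MvPolynomial

variable {M : Type} [Fintype M] [DecidableEq M] {D : ℕ}

theorem minor_ne_zero (C : Finset (Option M)) (hC : C.card = D) : minor D C ≠ 0 := by
  classical
  intro h0
  -- a bijection
  have hcard : Fintype.card (Fin D) = Fintype.card C := by
    rw [Fintype.card_fin, Fintype.card_coe, hC]
  let q : Fin D ≃ C := Fintype.equivOfCardEq hcard
  let x : Option (Fin D) × Option M → ZMod 2 := fun s =>
    s.1.elim 0 (fun r => if s.2 = (q r : Option M) then 1 else 0)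
  have h1 := congrArg (MvPolynomial.eval x) h0
  rw [minor, map_sum, map_zero] at h1
  have hq : (fun r => (q r : Option M)) ∈
      Finset.univ.filter (fun τ : Fin D → Option M => Finset.univ.image τ = C) := by
    rw [Finset.mem_filter]
    refine ⟨Finset.mem_univ _, ?_⟩
    ext c
    simp only [Finset.mem_image, Finset.mem_univ, true_and]
    constructor
    · rintro ⟨r, rfl⟩
      exact (q r).2
    · intro hc
      exact ⟨q.symm ⟨c, hc⟩, by simp⟩
  rw [Finset.sum_eq_single_of_mem _ hq] at h1
  · rw [map_prod] at h1
    simp [x] at h1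
  · intro τ _ hne
    rw [map_prod]
    obtain ⟨r, hr⟩ : ∃ r, τ r ≠ q r := by
      by_contra hcon
      push Not at hcon
      exact hne (funext hcon)
    apply Finset.prod_eq_zero (Finset.mem_univ r)
    simp [x, hr]

/-- linear independence of few generic columns: the dual vector `y` (over the fraction field,
cleared): for a set `T` of at most `D` columns and `p ∈ T`. -/
theorem dual_vec (T : Finset (Option M)) (hT : T.card ≤ D) (p : Option M) (hp : p ∈ T)
    (hD : D ≤ Fintype.card (Option M)) :
    ∃ y : Fin D → R2 M D, (∑ r, y r * X (some r, p) ≠ 0) ∧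
      ∀ q ∈ T, q ≠ p → ∑ r, y r * X (some r, q) = 0 := by
  classical
  obtain ⟨T', hTT', -, hT'⟩ := Finset.exists_subsuperset_card_eq (s := T)
    (t := (Finset.univ : Finset (Option M))) (Finset.subset_univ _) hT (by simpa using hD)
  have hcard : Fintype.card (Fin D) = Fintype.card T' := by
    rw [Fintype.card_fin, Fintype.card_coe, hT']
  let q : Fin D ≃ T' := Fintype.equivOfCardEq hcard
  let B : Matrix (Fin D) (Fin D) (R2 M D) := Matrix.of fun i r => X (some r, (q i : Option M))
  have hdet : B.det ≠ 0 := by
    intro h0
    let x : Option (Fin D) × Option M → ZMod 2 := fun s =>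
      s.1.elim 0 (fun r => if s.2 = (q r : Option M) then 1 else 0)
    have h1 := congrArg (MvPolynomial.eval x) h0
    rw [RingHom.map_det, map_zero] at h1
    have h2 : (MvPolynomial.eval x).mapMatrix B = 1 := by
      ext i r
      rw [RingHom.mapMatrix_apply, Matrix.map_apply, Matrix.one_apply]
      simp only [B, Matrix.of_apply, eval_X, x, Option.elim]
      by_cases h : i = r
      · subst h; simp
      · rw [if_neg h, if_neg]
        intro h3
        exact h (q.injective (Subtype.ext h3))
    rw [h2, Matrix.det_one] at h1
    exact one_ne_zero h1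
  let i0 : Fin D := q.symm ⟨p, hTT' hp⟩
  have hi0 : (q i0 : Option M) = p := by simp [i0]
  have key : ∀ i, ∑ r, B.adjugate r i0 * X (some r, (q i : Option M)) =
      if i = i0 then B.det else 0 := by
    intro i
    have h1 := congrFun (congrFun (Matrix.mul_adjugate B) i) i0
    rw [Matrix.mul_apply, Matrix.smul_apply, Matrix.one_apply, smul_eq_mul, mul_ite, mul_one,
      mul_zero] at h1
    rw [← h1]
    apply Finset.sum_congr rfl
    intro r _
    rw [mul_comm]
    rfl
  refine ⟨fun r => B.adjugate r i0, ?_, ?_⟩
  · have := key i0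
    rw [if_pos rfl, hi0] at this
    rw [this]
    exact hdet
  · intro c hc hcp
    have hc' : (q (q.symm ⟨c, hTT' hc⟩) : Option M) = c := by simp
    have := key (q.symm ⟨c, hTT' hc⟩)
    rw [hc', if_neg] at this
    · exact this
    · intro h
      apply hcp
      rw [← hc', h, hi0]

end WLP
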