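import Pool.Agent.WLP.DataB

/-!
WLP: theorem B with the number of facets and the excess degrees.
-/

set_option autoImplicit false

open scoped BigOperators RealInnerProductSpace

namespace WLP

noncomputable section

open Classical

open Pool.Agent.KST (E IsCell Cells Verts Simple Pol pt PP Gen Star VF Low LowF Inside hh)

/-- arithmetic: theorem B+ -/
theorem data_plus {ι : Type} [Fintype ι] {d : ℕ} (hd : 2 ≤ d) {b : ι → E (d + 1)} {J : Finset ι}
    {k H : ℕ → ℤ} (h : Data b J k H) :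
    ∑ n ∈ Finset.range (d + 1 + 1), 2 ^ n * k n - ∑ n ∈ Finset.range (d + 1), 2 ^ n * H n + H 0 ≥
      2 ^ (d / 2) * (∑ n ∈ Finset.range (d + 1 + 1), k n - ∑ n ∈ Finset.range (d + 1), H n + H 0) +
        (2 ^ d + 2 - 2 * 2 ^ (d / 2)) * (k 1 - H 0) +
        (if 4 ≤ d then 2 * (H 1 - H 0) else 0) := by
  have h1 := ari_plus (d + 1) (by omega) k H h.k0 h.ksym h.hsym h.hle
  rw [Nat.add_sub_cancel] at h1
  have h2 : k d = k 1 := by
    have := h.ksym 1 (by omega)
    rwa [Nat.add_sub_cancel] at this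
  have h3 : H d = H 0 := by
    have := h.hsym 0 (by omega)
    rwa [Nat.add_sub_cancel, Nat.sub_zero] at this
  rw [h2, h3] at h1
  have h4 : (if 4 ≤ d then 2 * (H 1 - H 0) else 0) ≤
      ∑ i ∈ Finset.range (d / 2), (2 : ℤ) ^ i * (H i - H 0) := by
    have hnn : ∀ i ∈ Finset.range (d / 2), 0 ≤ (2 : ℤ) ^ i * (H i - H 0) := by
      intro i hi
      have hi' := Finset.mem_range.1 hi
      exact mul_nonneg (by positivity) (sub_nonneg.2 (h.h1 i (by omega)))
    split_ifs with h5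
    · have h6 := Finset.single_le_sum hnn (Finset.mem_range.2 (show 1 < d / 2 by omega))
      simpa using h6
    · exact Finset.sum_nonneg hnn
  linarith

/-- **Theorem B+** for simple polytopes with cut facets -/
theorem mainBP {ι : Type} [Fintype ι] {d : ℕ} (hd : 2 ≤ d) {b : ι → E (d + 1)} (hS : Simple b)
    (hb : Bornology.IsBounded (Pol b)) {J : Finset ι} (hJ : SepB b J) :
    (3 : ℤ) ^ (d + 1) + 2 ^ (d / 2) *
        ((((Verts b).filter (fun v => ∀ j ∈ J, v j = 0)).card : ℤ) +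
          2 * ((J.filter (fun j => ∃ t ∈ Cells b, t j = 1)).card : ℤ) - 2 ^ (d + 1)) +
        (2 ^ d + 2 - 2 * 2 ^ (d / 2)) *
          (2 * ((Finset.univ.filter (fun l => l ∉ J ∧ ∃ t ∈ Cells b, t l = 1)).card : ℤ) -
            2 * (d + 1)) +
        (if 4 ≤ d then 4 * ∑ j ∈ J.filter (fun j => ∃ t ∈ Cells b, t j = 1),
          ((dg b j : ℤ) - (d + 1)) else 0) +
        2 * ∑ j ∈ J, (((Cells b).filter (fun s => s j = 1)).card : ℤ) ≤
      ((Cells b).card : ℤ) + 2 * ((J.filter (fun j => ∃ t ∈ Cells b, t j = 1)).card : ℤ) := by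
  obtain ⟨k, H, h⟩ := dataB hS hb hJ
  have h1 := data_plus hd h
  have hif : (if 4 ≤ d then 4 * ∑ j ∈ J.filter (fun j => ∃ t ∈ Cells b, t j = 1),
      ((dg b j : ℤ) - (d + 1)) else 0) = 2 * (if 4 ≤ d then 2 * (H 1 - H 0) else 0) := by
    rw [h.deg]
    split_ifs
    · ring
    · ring
  rw [hif, h.hr, h.facets, h.cells]
  have h2 := h.verts
  have h3 := h.fac
  have h4 : (0 : ℤ) ≤ 2 ^ d + 2 - 2 * 2 ^ (d / 2) := by
    have h5 : (2 : ℤ) ^ (d / 2 + 1) ≤ 2 ^ d := pow_le_pow_right₀ (by norm_num) (by omega)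
    rw [pow_succ] at h5
    linarith
  have h6 := mul_le_mul_of_nonneg_left h3 h4
  set c1 : ℤ := 2 ^ d + 2 - 2 * 2 ^ (d / 2) with hc1
  set F : ℤ := ((Finset.univ.filter (fun l => l ∉ J ∧ ∃ t ∈ Cells b, t l = 1)).card : ℤ) with hF
  rw [h2]
  nlinarith [h1, h6]

end

end WLP
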