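import Pool.Agent.WLP.Defs

/-!
# Minors in characteristic 2 (abstract): Cramer relation and kernel
-/

set_option maxHeartbeats 4000000

namespace WLP

open MvPolynomial

/-- minor without column `j`, abstract version -/
def Am {R : Type*} [CommRing R] {D : ℕ} {T : Type*} [Fintype T] [DecidableEq T]
    (a : Fin D → T → R) (j : T) : R :=
  ∑ τ ∈ Finset.univ.filter (fun τ : Fin D → T => Finset.univ.image τ = Finset.univ.erase j),
    ∏ r : Fin D, a r (τ r)

/-- composite of the derivations `d r (I r)` -/
def dIa {k R : Type*} [CommRing k] [CommRing R] [Algebra k R] {D : ℕ} {T : Type*}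
    (d : Fin D → T → Derivation k R R) (I : Fin D → T) : R →ₗ[k] R :=
  ((List.finRange D).map (fun r => (d r (I r) : R →ₗ[k] R))).prod

theorem Am_inj {D : ℕ} {T : Type*} [Fintype T] [DecidableEq T]
    (hT : Fintype.card T = D + 1) {l : T} {τ : Fin D → T}
    (hτ : Finset.univ.image τ = Finset.univ.erase l) : Function.Injective τ := by
  have h2 : (Finset.univ.image τ).card = (Finset.univ : Finset (Fin D)).card := by
    rw [hτ, Finset.card_erase_of_mem (Finset.mem_univ l), Finset.card_univ, hT, Finset.card_univ,
      Fintype.card_fin]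
    rfl
  have h3 := Finset.card_image_iff.1 h2
  exact fun a b hab => h3 (by simp) (by simp) hab

/-- Cramer relation in characteristic 2. -/
theorem Am_cramer {R : Type*} [CommRing R] [CharP R 2] {D : ℕ} {T : Type*}
    [Fintype T] [DecidableEq T] (hT : Fintype.card T = D + 1) (a : Fin D → T → R) (r : Fin D) :
    ∑ j, a r j * Am a j = 0 := by
  classical
  have h1 : ∑ j, a r j * Am a j =
      ∑ x ∈ (Finset.univ : Finset T).sigma (fun l => Finset.univ.filter
        (fun τ : Fin D → T => Finset.univ.image τ = Finset.univ.erase l)),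
        (a r x.1 * ∏ s : Fin D, a s (x.2 s)) := by
    rw [Finset.sum_sigma]
    apply Finset.sum_congr rfl
    intro l _
    rw [Am, Finset.mul_sum]
  rw [h1]
  have hmem : ∀ (l : T) (τ : Fin D → T) (s : Fin D),
      Finset.univ.image τ = Finset.univ.erase l → τ s ∈ (Finset.univ : Finset T).erase l := by
    intro l τ s hτ
    rw [← hτ]
    exact Finset.mem_image_of_mem _ (Finset.mem_univ _)
  refine Finset.sum_involution (fun x _ => ⟨x.2 r, Function.update x.2 r x.1⟩) ?_ ?_ ?_ ?_
  · rintro ⟨l, τ⟩ hx
    have h2 : (a r (τ r) * ∏ s : Fin D, a s (Function.update τ r l s)) =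
        a r l * ∏ s : Fin D, a s (τ s) := by
      rw [← Finset.mul_prod_erase Finset.univ _ (Finset.mem_univ r),
        ← Finset.mul_prod_erase Finset.univ (fun s => a s (τ s))
          (Finset.mem_univ r), Function.update_self]
      have h3 : ∏ s ∈ Finset.univ.erase r, a s (Function.update τ r l s) =
          ∏ s ∈ Finset.univ.erase r, a s (τ s) := by
        apply Finset.prod_congr rfl
        intro s hs
        rw [Function.update_of_ne (Finset.ne_of_mem_erase hs)]
      rw [h3]
      ring
    simp only
    rw [h2]
    exact CharTwo.add_self_eq_zero _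
  · rintro ⟨l, τ⟩ hx _ h2
    rw [Finset.mem_sigma, Finset.mem_filter] at hx
    have h3 := congrArg Sigma.fst h2
    simp only at h3
    have h4 := hmem l τ r hx.2.2
    rw [h3] at h4
    exact Finset.notMem_erase _ _ h4
  · rintro ⟨l, τ⟩ hx
    rw [Finset.mem_sigma, Finset.mem_filter] at hx ⊢
    simp only at hx ⊢
    obtain ⟨hl, -, hτ⟩ := hx
    have hr := hmem l τ r hτ
    have hi := Am_inj hT hτ
    refine ⟨Finset.mem_univ _, Finset.mem_univ _, ?_⟩
    ext c
    simp only [Finset.mem_image, Finset.mem_univ, true_and, Finset.mem_erase, and_true]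
    constructor
    · rintro ⟨s, rfl⟩
      by_cases hs : s = r
      · subst hs
        rw [Function.update_self]
        exact (Finset.ne_of_mem_erase hr).symm
      · rw [Function.update_of_ne hs]
        exact fun h => hs (hi h)
    · intro hc1
      by_cases hcl : c = l
      · exact ⟨r, by rw [Function.update_self, hcl]⟩
      · have h5 : c ∈ Finset.univ.image τ := by
          rw [hτ]
          exact Finset.mem_erase.2 ⟨hcl, Finset.mem_univ _⟩
        obtain ⟨s, -, hs⟩ := Finset.mem_image.1 h5
        refine ⟨s, ?_⟩
        rw [Function.update_of_ne, hs]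
        rintro rfl
        exact hc1 hs.symm
  · rintro ⟨l, τ⟩ hx
    simp only [Function.update_self, Function.update_idem, Function.update_eq_self]

/-- the minor is a determinant (characteristic 2) -/
theorem Am_eq_det {R : Type*} [CommRing R] [CharP R 2] {D : ℕ} {T : Type*}
    [Fintype T] [DecidableEq T] (hT : Fintype.card T = D + 1) (a : Fin D → T → R)
    (j : T) (e : {i : T // i ≠ j} ≃ Fin D) :
    Am a j = (Matrix.of (fun r c : Fin D => a r (e.symm c).1)).det := by
  classical
  rw [← Matrix.det_transpose, Matrix.det_apply, Am]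
  symm
  refine Finset.sum_bij (fun σ _ => fun r => (e.symm (σ r)).1) ?_ ?_ ?_ ?_
  · intro σ _
    rw [Finset.mem_filter]
    refine ⟨Finset.mem_univ _, ?_⟩
    ext c
    simp only [Finset.mem_image, Finset.mem_univ, true_and, Finset.mem_erase, and_true]
    constructor
    · rintro ⟨s, rfl⟩
      exact (e.symm (σ s)).2
    · intro hc
      refine ⟨σ.symm (e ⟨c, hc⟩), ?_⟩
      rw [Equiv.apply_symm_apply, Equiv.symm_apply_apply]
  · intro σ _ ρ _ h
    ext r
    have h1 := congrFun h r
    have h2 := e.symm.injective (Subtype.ext h1)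
    rw [h2]
  · intro τ hτ
    rw [Finset.mem_filter] at hτ
    have hi := Am_inj hT hτ.2
    have hm : ∀ s, τ s ≠ j := by
      intro s
      have : τ s ∈ (Finset.univ : Finset T).erase j := by
        rw [← hτ.2]
        exact Finset.mem_image_of_mem _ (Finset.mem_univ _)
      exact Finset.ne_of_mem_erase this
    have hinj : Function.Injective (fun r => e ⟨τ r, hm r⟩) := by
      intro r s hrs
      have h1 := e.injective hrs
      exact hi (congrArg Subtype.val h1)
    refine ⟨Equiv.ofBijective _ (Finite.injective_iff_bijective.mp hinj), Finset.mem_univ _, ?_⟩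
    funext r
    simp
  · intro σ _
    have hs : ∀ x : R, (Equiv.Perm.sign σ : ℤˣ) • x = x := by
      intro x
      rcases Int.units_eq_one_or (Equiv.Perm.sign σ) with h | h
      · rw [h, one_smul]
      · rw [h, Units.neg_smul, one_smul, CharTwo.neg_eq]
    rw [hs]
    apply Finset.prod_congr rfl
    intro r _
    simp [Matrix.transpose_apply]

/-- a vector killed by the rows and zero at one place `j` with nonzero minor is zero -/
theorem Am_kernel {R : Type*} [CommRing R] [IsDomain R] [CharP R 2] {D : ℕ} {T : Type*}
    [Fintype T] [DecidableEq T] (hT : Fintype.card T = D + 1) (a : Fin D → T → R)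
    (j : T) (hj : Am a j ≠ 0) (z : T → R) (hz : ∀ r, ∑ i, a r i * z i = 0) (hzj : z j = 0) :
    z = 0 := by
  classical
  have hc : Fintype.card {i : T // i ≠ j} = D := by
    rw [Fintype.card_subtype_compl, hT]
    simp
  let e : {i : T // i ≠ j} ≃ Fin D := Fintype.equivFinOfCardEq hc
  rw [Am_eq_det hT a j e] at hj
  have h1 : (fun c : Fin D => z (e.symm c).1) = 0 := by
    apply Matrix.eq_zero_of_mulVec_eq_zero hj
    funext r
    have h2 := hz r
    rw [← Finset.add_sum_erase Finset.univ _ (Finset.mem_univ j), hzj, mul_zero, zero_add] at h2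
    rw [Pi.zero_apply, ← h2]
    simp only [Matrix.mulVec, dotProduct, Matrix.of_apply]
    rw [Equiv.sum_comp e.symm (fun i : {i : T // i ≠ j} => a r i.1 * z i.1)]
    rw [← Finset.sum_subtype (Finset.univ.erase j) (fun x => by simp)
      (fun i => a r i * z i)]
  funext i
  by_cases hi : i = j
  · rw [hi, hzj]; rfl
  · have h2 := congrFun h1 (e ⟨i, hi⟩)
    simpa using h2

end WLP
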