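import Mathlib

/-!
WLP, row SI: the differential identity for products of minors in characteristic 2, in an abstract
form (only the relations between the elements `A j` and their derivatives are used).
-/

set_option maxHeartbeats 4000000

namespace WLP

section

variable {k R : Type*} [CommRing k] [CommRing R] [Algebra k R]

/-- in characteristic 2, `d (x * x * y) = x * x * d y` -/
theorem der_sq [CharP R 2] (δ : Derivation k R R) (x y : R) :
    δ (x * x * y) = x * x * δ y := by
  have h2 : (2 : R) = 0 := by exact_mod_cast CharP.cast_eq_zero R 2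
  rw [Derivation.leibniz, Derivation.leibniz]
  simp only [smul_eq_mul]
  linear_combination (y * x * δ x) * h2

variable {D : ℕ} {T : Type*}

/-- composite along a list of rows -/
def dL (d : Fin D → T → Derivation k R R) (I : Fin D → T) (L : List (Fin D)) : R →ₗ[k] R :=
  (L.map (fun r => (d r (I r) : R →ₗ[k] R))).prod

theorem dL_nil (d : Fin D → T → Derivation k R R) (I : Fin D → T) (x : R) :
    dL d I [] x = x := by
  simp [dL]

theorem dL_cons (d : Fin D → T → Derivation k R R) (I : Fin D → T) (r : Fin D)
    (L : List (Fin D)) (x : R) :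
    dL d I (r :: L) x = d r (I r) (dL d I L x) := by
  simp [dL, Module.End.mul_apply]

theorem dL_sq [CharP R 2] (d : Fin D → T → Derivation k R R) (I : Fin D → T)
    (L : List (Fin D)) (x y : R) :
    dL d I L (x * x * y) = x * x * dL d I L y := by
  induction L with
  | nil => simp [dL_nil]
  | cons r L ih => rw [dL_cons, dL_cons, ih, der_sq]

theorem dL_const (d : Fin D → T → Derivation k R R) (I : Fin D → T)
    (L : List (Fin D)) (x y : R) (hx : ∀ r, d r (I r) x = 0) :
    dL d I L (x * y) = x * dL d I L y := by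
  induction L with
  | nil => simp [dL_nil]
  | cons r L ih =>
    rw [dL_cons, dL_cons, ih, Derivation.leibniz, hx r]
    simp

theorem dL_comm (d : Fin D → T → Derivation k R R)
    (hcomm : ∀ r j r' j' x, d r j (d r' j' x) = d r' j' (d r j x)) (I : Fin D → T)
    (L : List (Fin D)) (s : Fin D) (j : T) (x : R) :
    d s j (dL d I L x) = dL d I L (d s j x) := by
  induction L generalizing x with
  | nil => simp [dL_nil]
  | cons r L ih => rw [dL_cons, dL_cons, hcomm, ih]

variable [Fintype T] [DecidableEq T]

/-- a derivation with all `A l` as eigenvectors with the same eigenvalue -/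
theorem eig (δ : Derivation k R R) (A : T → R) (μ : R) (h : ∀ l, δ (A l) = A l * μ)
    (n : T → ℕ) : δ (∏ l, A l ^ n l) = ((∑ l, n l : ℕ) : R) * μ * ∏ l, A l ^ n l := by
  classical
  have hp : ∀ (l : T) (m : ℕ), δ (A l ^ m) = (m : R) * μ * A l ^ m := by
    intro l m
    induction m with
    | zero => simp
    | succ m ih =>
      rw [pow_succ, Derivation.leibniz, ih, h l]
      simp only [smul_eq_mul]
      push_cast
      ring
  have hs : ∀ s : Finset T, δ (∏ l ∈ s, A l ^ n l)
      = ((∑ l ∈ s, n l : ℕ) : R) * μ * ∏ l ∈ s, A l ^ n l := by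
    intro s
    induction s using Finset.induction_on with
    | empty => simp
    | insert l s hl ih =>
      rw [Finset.prod_insert hl, Finset.sum_insert hl, Derivation.leibniz, ih, hp]
      simp only [smul_eq_mul]
      push_cast
      ring
  exact hs Finset.univ

/-- adding to one exponent -/
theorem prod_single (A : T → R) (n : T → ℕ) (p : T) (c : ℕ) :
    (∏ l, A l ^ ((n + Pi.single p c : T → ℕ) l)) = (∏ l, A l ^ n l) * A p ^ c := by
  simp only [Pi.add_apply, pow_add, Finset.prod_mul_distrib]
  congr 1
  rw [Finset.prod_eq_single p]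
  · simp
  · intro b _ hb
    simp [hb]
  · intro h
    exact absurd (Finset.mem_univ p) h

theorem sum_single (n : T → ℕ) (p : T) (c : ℕ) :
    (∑ l, (n + Pi.single p c : T → ℕ) l) = (∑ l, n l) + c := by
  simp [Finset.sum_add_distrib]

variable [CharP R 2]

/-- KEY -/
theorem si_key (A : T → R) (d : T → Derivation k R R)
    (hsymm : ∀ i j, d j (A i) = d i (A j))
    (hthree : ∀ i j l, A i * d j (A l) + A j * d i (A l) = A l * d i (A j))
    (i j : T) (n : T → ℕ) (hn : Even (∑ l, n l)) :
    d j ((∏ l, A l ^ n l) * A i) = d i ((∏ l, A l ^ n l) * A j) := by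
  have h2 : (2 : R) = 0 := by exact_mod_cast CharP.cast_eq_zero R 2
  have hD : ((A i • d j + A j • d i : Derivation k R R)) (∏ l, A l ^ n l) = 0 := by
    rw [eig (A i • d j + A j • d i : Derivation k R R) A (d i (A j)) _ n]
    · obtain ⟨c, hc⟩ := hn
      rw [hc]
      push_cast
      linear_combination ((c : R) * d i (A j) * ∏ l, A l ^ n l) * h2
    · intro l
      have := hthree i j l
      simpa [Derivation.add_apply, Derivation.smul_apply] using this
  have hD' : A i * d j (∏ l, A l ^ n l) + A j * d i (∏ l, A l ^ n l) = 0 := by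
    simpa [Derivation.add_apply, Derivation.smul_apply] using hD
  rw [Derivation.leibniz, Derivation.leibniz, hsymm i j]
  simp only [smul_eq_mul]
  linear_combination hD' - (A j * d i (∏ l, A l ^ n l)) * h2

/-- moving all derivatives into the column `p` -/
theorem si_move (A : T → R) (d : Fin D → T → Derivation k R R)
    (hcomm : ∀ r j r' j' x, d r j (d r' j' x) = d r' j' (d r j x))
    (hsymm : ∀ s i j, d s j (A i) = d s i (A j))
    (hthree : ∀ s i j l, A i * d s j (A l) + A j * d s i (A l) = A l * d s i (A j))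
    (I : Fin D → T) (p : T) (L : List (Fin D)) (n : T → ℕ)
    (hn : Odd (∑ l, n l + L.length)) :
    dL d I L ((∏ l, A l ^ n l) * A p ^ L.length) =
      dL d (fun _ => p) L ((∏ l, A l ^ n l) * (L.map (fun r => A (I r))).prod) := by
  induction L generalizing n with
  | nil => simp [dL_nil]
  | cons r L ih =>
    have e1 : (∏ l, A l ^ n l) * A p ^ (r :: L).length
        = (∏ l, A l ^ ((n + Pi.single p 1 : T → ℕ) l)) * A p ^ L.length := by
      rw [prod_single, List.length_cons]
      ring
    have hs1 : (∑ l, (n + Pi.single p 1 : T → ℕ) l) = ∑ l, n l + 1 := sum_single n p 1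
    rw [dL_cons, e1, ih (n + Pi.single p 1) (by
      rw [hs1]; simpa [List.length_cons, add_assoc, add_comm 1] using hn)]
    rw [dL_comm d hcomm]
    -- the monomial of `A^n * prod_{L} A (I r')`
    have e2 : ∀ (L : List (Fin D)) (n : T → ℕ), ∃ n' : T → ℕ,
        (∏ l, A l ^ n l) * (L.map (fun r => A (I r))).prod = ∏ l, A l ^ n' l ∧
        ∑ l, n' l = ∑ l, n l + L.length := by
      intro L
      induction L with
      | nil => intro n; exact ⟨n, by simp, by simp⟩
      | cons r L ih =>
        intro n
        obtain ⟨n', h1, h2⟩ := ih (n + Pi.single (I r) 1)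
        refine ⟨n', ?_, ?_⟩
        · rw [← h1, List.map_cons, List.prod_cons, prod_single]
          ring
        · rw [h2, sum_single, List.length_cons]
          ring
    obtain ⟨n', h1, h2⟩ := e2 L n
    have e3 : (∏ l, A l ^ ((n + Pi.single p 1 : T → ℕ) l)) * (L.map (fun r => A (I r))).prod
        = (∏ l, A l ^ n' l) * A p := by
      rw [← h1, prod_single]
      ring
    have e4 : (∏ l, A l ^ n l) * ((r :: L).map (fun r => A (I r))).prod
        = (∏ l, A l ^ n' l) * A (I r) := by
      rw [← h1, List.map_cons, List.prod_cons]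
      ring
    have hev : Even (∑ l, n' l) := by
      rw [h2]
      rw [List.length_cons, ← add_assoc] at hn
      exact (Nat.odd_add_one.mp hn |> Nat.not_odd_iff_even.mp)
    rw [e3, e4, si_key A (d r) (hsymm r) (hthree r) p (I r) n' hev, dL_cons, dL_comm d hcomm]

/-- SI, abstract form -/
theorem si_abs [IsDomain R] (A : T → R) (d : Fin D → T → Derivation k R R)
    (hcomm : ∀ r j r' j' x, d r j (d r' j' x) = d r' j' (d r j x))
    (hsymm : ∀ s i j, d s j (A i) = d s i (A j))
    (hself : ∀ s j, d s j (A j) = 0)
    (hthree : ∀ s i j l, A i * d s j (A l) + A j * d s i (A l) = A l * d s i (A j))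
    (hne : ∀ j, A j ≠ 0)
    (p : T) (hD : 1 ≤ D) (hcard : Fintype.card T = D + 1)
    (hbase : dL d (fun _ => p) (List.finRange D) (∏ j ∈ Finset.univ.erase p, A j)
      = A p ^ (D - 1))
    (I : Fin D → T) (m : T → ℕ)
    (hodd : ∀ j, Odd (m j + (Finset.univ.filter (fun r => I r = j)).card)) :
    dL d I (List.finRange D) (∏ j, A j ^ m j) =
      ∏ j, A j ^ (m j + (Finset.univ.filter (fun r => I r = j)).card - 1) := by
  classical
  set c : T → ℕ := fun j => (Finset.univ.filter (fun r => I r = j)).card with hc
  have hlen : (List.finRange D).length = D := List.length_finRange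
  have hcsum : ∑ j, c j = D := by
    have := Finset.card_eq_sum_card_fiberwise (f := I) (s := Finset.univ) (t := Finset.univ)
      (fun x _ => Finset.mem_univ _)
    simpa [hc] using this.symm
  have hprod : ((List.finRange D).map (fun r => A (I r))).prod = ∏ j, A j ^ c j := by
    rw [← List.ofFn_eq_map, List.prod_ofFn]
    rw [← Finset.prod_fiberwise_of_maps_to (s := (Finset.univ : Finset (Fin D)))
      (t := (Finset.univ : Finset T)) (g := I) (fun x _ => Finset.mem_univ _)]
    refine Finset.prod_congr rfl fun j _ => ?_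
    rw [Finset.prod_congr rfl (g := fun _ => A j)
      (fun x hx => by rw [(Finset.mem_filter.mp hx).2]), Finset.prod_const]
  have hmodd : Odd (∑ j, m j) := by
    have h1 : (∑ j, m j) + D + (D + 1) = ∑ j, (m j + c j + 1) := by
      simp only [Finset.sum_add_distrib, hcsum]
      simp [hcard]
    have h2 : Even (∑ j, (m j + c j + 1)) := by
      refine Finset.even_sum _ fun j _ => ?_
      exact (hodd j).add_one
    rw [← h1] at h2
    have h3 : (∑ j, m j) + D + (D + 1) = (∑ j, m j) + 1 + (D + D) := by ring
    rw [h3] at h2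
    have h4 : Even (D + D) := ⟨D, rfl⟩
    have h5 : Even ((∑ j, m j) + 1) := by
      rcases Nat.even_add.mp h2 with h
      exact h.mpr h4
    by_contra hcon
    rw [Nat.not_odd_iff_even] at hcon
    exact (Nat.not_even_iff_odd.mpr hcon.add_one) h5
  -- multiply by `A p ^ (2 D)`
  have hpow : A p ^ D * A p ^ D ≠ 0 := mul_ne_zero (pow_ne_zero _ (hne p)) (pow_ne_zero _ (hne p))
  refine mul_left_cancel₀ hpow ?_
  rw [← dL_sq]
  have e1 : A p ^ D * A p ^ D * ∏ j, A j ^ m j
      = (∏ j, A j ^ ((m + Pi.single p D : T → ℕ) j)) * A p ^ (List.finRange D).length := by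
    rw [prod_single, hlen]
    ring
  have hpar : Odd ((∑ l, (m + Pi.single p D : T → ℕ) l) + (List.finRange D).length) := by
    rw [hlen, sum_single, add_assoc]
    exact hmodd.add_even ⟨D, rfl⟩
  have hmv := si_move A d hcomm hsymm hthree I p (List.finRange D)
    (m + Pi.single p D : T → ℕ) hpar
  rw [e1, hmv]
  rw [hprod]
  have e2 : (∏ l, A l ^ ((m + Pi.single p D : T → ℕ) l)) * ∏ j, A j ^ c j
      = A p ^ (D + 1) * ((∏ j, A j ^ (m j + c j - 1)) * ∏ j ∈ Finset.univ.erase p, A j) := by
    have h2 : A p * ∏ j ∈ Finset.univ.erase p, A j = ∏ j, A j :=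
      Finset.mul_prod_erase _ _ (Finset.mem_univ p)
    have h3 : (∏ j, A j ^ (m j + c j - 1)) * ∏ j, A j = (∏ j, A j ^ m j) * ∏ j, A j ^ c j := by
      rw [← Finset.prod_mul_distrib, ← Finset.prod_mul_distrib]
      refine Finset.prod_congr rfl fun j _ => ?_
      rw [← pow_add, ← pow_succ]
      congr 1
      have h0 : 0 < m j + c j := (hodd j).pos
      omega
    rw [prod_single]
    calc (∏ l, A l ^ m l) * A p ^ D * ∏ j, A j ^ c j
        = A p ^ D * ((∏ l, A l ^ m l) * ∏ j, A j ^ c j) := by ring
      _ = A p ^ D * ((∏ j, A j ^ (m j + c j - 1)) * (A p * ∏ j ∈ Finset.univ.erase p, A j)) := by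
          rw [← h3, h2]
      _ = _ := by ring
  rw [e2, dL_const]
  swap
  · intro r
    rw [Derivation.leibniz_pow, hself]
    simp
  have hsq : ∃ x : R, (∏ j, A j ^ (m j + c j - 1)) = x * x := by
    refine ⟨∏ j, A j ^ ((m j + c j - 1) / 2), ?_⟩
    rw [← Finset.prod_mul_distrib]
    refine Finset.prod_congr rfl fun j _ => ?_
    rw [← pow_add]
    congr 1
    obtain ⟨t, ht⟩ := hodd j
    change m j + c j = 2 * t + 1 at ht
    omega
  obtain ⟨x, hx⟩ := hsq
  rw [hx, dL_sq, hbase]
  have : A p ^ (D + 1) * (x * x * A p ^ (D - 1)) = A p ^ (D + 1) * A p ^ (D - 1) * (x * x) := by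
    ring
  rw [this, ← pow_add, ← pow_add]
  congr 2
  omega

end

end WLP
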