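import Pool.Agent.WLP.Defs2
import Pool.Agent.KST.G0
import Pool.Agent.KST.A2b

/-!
# Row STAR: the stars of the facets `(j, +)`, `j ∈ J`, give independent odd elements
-/

set_option autoImplicit false

open scoped BigOperators RealInnerProductSpace

namespace WLP

noncomputable section

open Classical

open Pool.Agent.KST

variable {ι : Type} [Fintype ι] {d : ℕ}

private theorem st_star_FF (b : ι → E d) (j : ι) (n : ℕ) : FF (Star b j) n ≤ FF (Cells b) n := by
  intro f hf e he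
  apply hf
  intro h
  apply he
  simp only [Pool.Agent.KST.EE, Finset.mem_filter] at h ⊢
  exact ⟨h.1, h.2.1, (Finset.mem_filter.1 h.2.2).1⟩

private theorem st_star_supp {b : ι → E d} {j : ι} {n : ℕ} {f : Fn ι} (hf : f ∈ FF (Star b j) n)
    {e : ι → ℤ} (he : f e ≠ 0) : ∃ t ∈ Cells b, Le (sgn e) t ∧ t j = 1 := by
  have h1 : e ∈ Pool.Agent.KST.EE (Pool.Agent.KST.Star b j) n := by
    by_contra h
    exact he (hf e h)
  simp only [Pool.Agent.KST.EE, Finset.mem_filter] at h1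
  exact (Finset.mem_filter.1 h1.2.2).2

/-- the antisymmetrisation -/
private def anti (ι : Type) : Fn ι →ₗ[ℝ] Fn ι where
  toFun f e := f e - f (-e)
  map_add' f g := by
    funext e
    simp only [Pi.add_apply]
    ring
  map_smul' c f := by
    funext e
    simp only [Pi.smul_apply, smul_eq_mul, RingHom.id_apply]
    ring

private theorem st_anti_mem {b c : ι → E d} {j : ι} {n : ℕ} {f : Fn ι}
    (hf : f ∈ FF (Star b j) n ⊓ Ker c) : anti ι f ∈ FF (Cells b) n ⊓ Ker c ⊓ Par ι (-1) := by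
  obtain ⟨h1, h2⟩ := hf
  have h1' := st_star_FF b j n h1
  have h3 := a2b_neg_FF (C := Cells b) (fun s hs => neg_mem_cells hs) n f h1'
  have h4 := a2b_neg_Ker c f h2
  refine ⟨⟨(FF (Cells b) n).sub_mem h1' h3, (Ker c).sub_mem h2 h4⟩, ?_⟩
  intro e
  show f (-e) - f (- -e) = -1 * (f e - f (-e))
  rw [neg_neg]
  ring

/-- a term of the antisymmetrised sum other than the one of `j` vanishes at the points with
`1 ≤ e j` -/
private theorem st_zero {b : ι → E d} {J : Finset ι} (hJ : SepB b J) {n : ℕ}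
    {j k : ι} (hj : j ∈ J) (hk : k ∈ J) {f : Fn ι} (hf : f ∈ FF (Star b k) n)
    {e : ι → ℤ} (he : 1 ≤ e j) : (k ≠ j → f e = 0) ∧ f (-e) = 0 := by
  have hs : sgn e j = 1 := by
    show SignType.sign (e j) = 1
    exact sign_pos (by omega)
  have hs' : sgn (-e) j = -1 := by
    show SignType.sign ((-e) j) = -1
    rw [Pi.neg_apply]
    exact sign_neg (by omega)
  constructor
  · intro hkj
    by_contra hne
    obtain ⟨t, ht, hle, htk⟩ := st_star_supp hf hne
    have htj : t j = 1 := by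
      rw [hle j (by rw [hs]; decide), hs]
    exact hkj (hJ.disj t ht k hk j hj (by rw [htk]; decide) (by rw [htj]; decide))
  · by_contra hne
    obtain ⟨t, ht, hle, htk⟩ := st_star_supp hf hne
    have htj : t j = -1 := by
      rw [hle j (by rw [hs']; decide), hs']
    have hkj : k = j := hJ.disj t ht k hk j hj (by rw [htk]; decide) (by rw [htj]; decide)
    rw [← hkj, htk] at htj
    exact absurd htj (by decide)

private theorem st_inj {b c : ι → E d} {J : Finset ι} (hJ : SepB b J) {n : ℕ}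
    (hcore : ∀ j ∈ J, ∀ f : Fn ι, f ∈ FF (Star b j) n → f ∈ Ker c →
      (∀ e : ι → ℤ, 1 ≤ e j → f e = 0) → f = 0)
    (F : J → Fn ι) (hF : ∀ j : J, F j ∈ FF (Star b j) n ⊓ Ker c)
    (hsum : ∑ j : J, anti ι (F j) = 0) (j : J) : F j = 0 := by
  refine hcore j j.2 (F j) (hF j).1 (hF j).2 ?_
  intro e he
  have hs : ∑ k : J, (F k e - F k (-e)) = 0 := by
    have := congrFun hsum e
    rw [Finset.sum_apply] at this
    exact this
  rw [Finset.sum_eq_single j] at hs
  · rw [(st_zero hJ j.2 j.2 (hF j).1 he).2, sub_zero] at hs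
    exact hs
  · intro k _ hk
    have hkj : (k : ι) ≠ j := fun h => hk (Subtype.ext h)
    have h1 := st_zero hJ j.2 k.2 (hF k).1 he
    rw [h1.1 hkj, h1.2, sub_zero]
  · intro h
    exact absurd (Finset.mem_univ j) h

/-- the injectivity, with the statement of `core` as hypothesis -/
theorem star_inj_of {b c : ι → E d} {J : Finset ι} (hJ : SepB b J) {n : ℕ}
    (hcore : ∀ j ∈ J, ∀ f : Fn ι, f ∈ FF (Star b j) n → f ∈ Ker c →
      (∀ e : ι → ℤ, 1 ≤ e j → f e = 0) → f = 0)
    (f : ι → Fn ι) (hf : ∀ j ∈ J, f j ∈ FF (Star b j) n) (hk : ∀ j ∈ J, f j ∈ Ker c)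
    (h0 : ∑ j ∈ J, (f j - fun e => f j (-e)) = 0) : ∀ j ∈ J, f j = 0 := by
  intro j hj
  refine st_inj hJ hcore (fun k : J => f k) (fun k => ⟨hf k k.2, hk k k.2⟩) ?_ ⟨j, hj⟩
  rw [← Finset.sum_coe_sort J] at h0
  rw [← h0]
  rfl

/-- `star_le`, with the statement of `core` as hypothesis -/
theorem star_le_of {b c : ι → E d} {J : Finset ι} (hJ : SepB b J) {n : ℕ}
    (hcore : ∀ j ∈ J, ∀ f : Fn ι, f ∈ FF (Star b j) n → f ∈ Ker c →
      (∀ e : ι → ℤ, 1 ≤ e j → f e = 0) → f = 0) :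
    ∑ j ∈ J, Module.finrank ℝ ↥(FF (Star b j) n ⊓ Ker c) ≤
      Module.finrank ℝ ↥(FF (Cells b) n ⊓ Ker c ⊓ Par ι (-1)) := by
  have hfin : FiniteDimensional ℝ (FF (Cells b) n) := FF_fin _ n
  have hfin1 : FiniteDimensional ℝ ↥(FF (Cells b) n ⊓ Ker c) :=
    Submodule.finiteDimensional_inf_left _ _
  have hfin2 : FiniteDimensional ℝ ↥(FF (Cells b) n ⊓ Ker c ⊓ Par ι (-1)) :=
    Submodule.finiteDimensional_inf_left _ _
  have hfin3 : ∀ j : J, FiniteDimensional ℝ ↥(FF (Star b j) n ⊓ Ker c) := by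
    intro j
    have := FF_fin (Star b j) n
    exact Submodule.finiteDimensional_inf_left _ _
  -- the map
  let Φ0 : (∀ j : J, ↥(FF (Star b j) n ⊓ Ker c)) →ₗ[ℝ] Fn ι :=
    ∑ j : J, (anti ι) ∘ₗ (FF (Star b j) n ⊓ Ker c).subtype ∘ₗ LinearMap.proj j
  have hΦ0 : ∀ F : (∀ j : J, ↥(FF (Star b j) n ⊓ Ker c)),
      Φ0 F = ∑ j : J, anti ι (F j : Fn ι) := by
    intro F
    simp only [Φ0, LinearMap.sum_apply]
    rfl
  have hmem : ∀ F, Φ0 F ∈ FF (Cells b) n ⊓ Ker c ⊓ Par ι (-1) := by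
    intro F
    rw [hΦ0]
    exact Submodule.sum_mem _ fun j _ => st_anti_mem (F j).2
  let Φ := Φ0.codRestrict _ hmem
  have hinj : Function.Injective Φ := by
    rw [← LinearMap.ker_eq_bot, eq_bot_iff]
    intro F hF
    rw [LinearMap.mem_ker] at hF
    rw [Submodule.mem_bot]
    have h1 : Φ0 F = 0 := congrArg Subtype.val hF
    rw [hΦ0] at h1
    funext j
    apply Subtype.ext
    exact st_inj hJ hcore (fun j => (F j : Fn ι)) (fun j => (F j).2) h1 j
  have h := LinearMap.finrank_le_finrank_of_injective hinj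
  rw [Module.finrank_pi_fintype] at h
  rw [← Finset.sum_coe_sort J]
  exact h

end

end WLP
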